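import Pool.Agent.P.MP_0354a7_al.PF.Defs

/-!
One elementary move that contracts the mean square of the nonlinearity.
-/

namespace Pool.Agent.P.MP_0354a7_al

open Real Finset

theorem A1_disp {e : Equiv.Perm ℝ} {μ c : ℝ} (h : Good μ e) (s : μ ≤ 1) (hc : e c = c) (x : ℝ) :
    |e x - x| ≤ 2 * μ := by
  have := mvt_abs (f := fun y => e y - y) (f' := fun y => exp (ph e y) - 1)
    (fun y => (h.1.d1 y).sub (hasDerivAt_id y)) (fun y => abs_exp_sub_one (h.ph_le y) s) x
    (c + ⌊x - c⌋)
  rw [h.2.1.int, hc, sub_self, sub_zero] at this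
  have m0 := h.nonneg
  have b : |x - (c + ⌊x - c⌋)| ≤ 1 := by
    rw [abs_le]
    constructor <;> linarith [Int.floor_le (x - c), Int.lt_floor_add_one (x - c)]
  nlinarith

/-- The map with half the nonlinearity. -/
theorem A1_half {ε : ℝ} {F : Equiv.Perm ℝ} (h : Good ε F) (hε : ε ≤ 1 / 4) :
    ∃ G : Equiv.Perm ℝ, IsReg G ∧ Per G ∧ G 0 = F 0 ∧ ∀ x, nl G x = nl F x / 2 := by
  have cφ := cp_ph h.1 h.2.1
  have cα := cp_nl h.1 h.2.1
  have cE : CP fun x => exp (ph F x / 2) :=
    ⟨(cφ.1.div_const 2).rexp, fun x => by simp only [cφ.2 x]⟩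
  have b1 : ∀ x, exp (-(ε / 2)) ≤ exp (ph F x / 2) ∧ exp (ph F x / 2) ≤ exp (ε / 2) := fun x => by
    have := abs_le.1 (h.ph_le x)
    exact ⟨exp_le_exp.2 (by linarith), exp_le_exp.2 (by linarith)⟩
  set I := ∫ x in (0 : ℝ)..1, exp (ph F x / 2) with hI
  have I1 : exp (-(ε / 2)) ≤ I := by
    have := intervalIntegral.integral_mono_on zero_le_one
      (intervalIntegrable_const (μ := MeasureTheory.volume) (c := exp (-(ε / 2))))
      (cE.1.intervalIntegrable 0 1) fun x _ => (b1 x).1
    simpa using this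
  have I2 : I ≤ exp (ε / 2) := by
    have := intervalIntegral.integral_mono_on zero_le_one (cE.1.intervalIntegrable 0 1)
      (intervalIntegrable_const (μ := MeasureTheory.volume) (c := exp (ε / 2))) fun x _ => (b1 x).2
    simpa using this
  have I0 : 0 < I := (exp_pos _).trans_le I1
  have L : |log I| ≤ ε / 2 := by
    rw [abs_le]
    exact ⟨(le_log_iff_exp_le I0).2 I1, (log_le_iff_le_exp I0).2 I2⟩
  have e1 : ∀ x, exp (ph F x / 2) / I = exp (ph F x / 2 - log I) := fun x => by
    rw [exp_sub, exp_log I0]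
  obtain ⟨G, hG, rG⟩ := exists_perm
    (p := fun x => F 0 + (∫ t in (0 : ℝ)..x, exp (ph F t / 2)) / I - x)
    (p1 := fun x => exp (ph F x / 2) / I - 1)
    (p2 := fun x => exp (ph F x / 2) * (nl F x / 2) / I)
    (fun x => (((cE.1.integral_hasStrictDerivAt 0 x).hasDerivAt.div_const I).const_add _).sub
      (hasDerivAt_id x))
    (fun x => (((h.1.d2 x).div_const 2).exp.div_const I).sub_const 1)
    ((cE.1.mul (cα.1.div_const 2)).div_const I)
    (fun x => by
      rw [e1]
      have a := abs_le.1 (h.ph_le x)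
      have b := abs_le.1 L
      refine (abs_exp_sub_one (C := ε) (abs_le.2 ⟨by linarith, by linarith⟩)
        (by linarith)).trans (by linarith))
  refine ⟨G, rG.isReg, fun x => ?_, by rw [hG]; simp, fun x => ?_⟩
  · rw [hG, hG, ← intervalIntegral.integral_add_adjacent_intervals
      (cE.1.intervalIntegrable 0 x) (cE.1.intervalIntegrable x (x + 1)), cE.shift, ← hI]
    field_simp
    ring
  · rw [rG.nl_eq]
    have := exp_pos (ph F x / 2)
    simp only [add_sub_cancel]
    field_simp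

theorem avg_link : ∃ C : ℝ, 1 ≤ C ∧ ∀ (ε D : ℝ) (F : Equiv.Perm ℝ), Good ε F → C * ε ≤ 1 →
    (∀ x, |F x - x| ≤ D) → D ≤ 1 / 2 →
    ∃ F', Links (C * ε) 1 F F' ∧ Good (ε * exp ε) F' ∧
      (∫ x in (0 : ℝ)..1, nl F' x ^ 2) ≤ 3 / 4 * (∫ x in (0 : ℝ)..1, nl F x ^ 2) ∧
      ∀ x, |F' x - x| ≤ D + C * ε := by
  refine ⟨4, by norm_num, fun ε D F h hε hD hD' => ?_⟩
  have ε0 := h.nonneg
  obtain ⟨G, rG, pG, G0, nG⟩ := A1_half h (by linarith)
  have gG : Good (ε / 2) G := ⟨rG, pG, fun x => by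
    rw [nG, abs_div, abs_two]
    linarith [h.2.2 x]⟩
  set A := F * G⁻¹ with hA
  have rA : IsReg A := h.1.mul rG.inv
  have pA : Per A := h.2.1.mul pG.inv
  have nA : ∀ x, nl A (G x) = nl F x / 2 * exp (-ph G x) := fun x => by
    rw [hA, h.1.nl_mul rG.inv, rG.nl_inv, rG.ph_inv, inv_ap, nG]
    ring
  have x1 : exp (ε / 2) * exp (ε / 2) = exp ε := by rw [← exp_add, add_halves]
  have x2 : exp ε ≤ 2 := by
    have := abs_exp_sub_one (u := ε) (C := ε) (by rw [abs_of_nonneg ε0]) (by linarith)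
    linarith [le_of_abs_le this]
  have x3 : 1 ≤ exp (ε / 2) := one_le_exp (by linarith)
  have x4 : exp (ε / 2) ≤ 2 := (exp_le_exp.2 (by linarith)).trans x2
  have x5 : ∀ x, exp (ph G x) ≤ exp (ε / 2) ∧ exp (-ph G x) ≤ exp (ε / 2) := fun x => by
    have := abs_le.1 (gG.ph_le x)
    exact ⟨exp_le_exp.2 (by linarith), exp_le_exp.2 (by linarith)⟩
  have gA : Good (ε / 2 * exp (ε / 2)) A := ⟨rA, pA, fun y => by
    rw [← ap_inv G y, nA, abs_mul, abs_of_pos (exp_pos _), ← nG]
    exact mul_le_mul (gG.2.2 _) (x5 _).2 (exp_pos _).le (by linarith)⟩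
  have gA' : Good ε A := gA.mono (by nlinarith)
  have AG : ∀ x, A (G x) = F x := fun x => by rw [hA, Equiv.Perm.mul_apply, inv_ap]
  have dA := A1_disp gA' (by linarith) (show A (G 0) = G 0 by rw [AG, G0])
  have dG : ∀ x, |G x - x| ≤ D + 2 * ε := fun x => by
    have a := abs_le.1 (dA (G x))
    have b := abs_le.1 (hD x)
    rw [AG] at a
    rw [abs_le]
    constructor <;> linarith [a.1, a.2, b.1, b.2]
  have cα := cp_nl h.1 h.2.1
  have ca := cp_nl rA pA
  have cψ := cp_ph rG pG
  have cG := Reg.continuous rG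
  have c1 := cα.1
  have c2 := ca.1
  have c3 := cψ.1
  obtain ⟨τ, τ0, τ1, hτ⟩ : ∃ τ, 0 ≤ τ ∧ τ ≤ 1 ∧
      ∫ x in (0 : ℝ)..1, nl F x * exp (ph G x) * nl A (G x + τ) ≤ 0 := by
    by_contra hc
    push Not at hc
    have cc : Continuous fun p : ℝ × ℝ => nl F p.2 * exp (ph G p.2) * nl A (G p.2 + p.1) := by
      fun_prop
    have pos := intervalIntegral.intervalIntegral_pos_of_pos_on
      (f := fun τ => ∫ x in (0 : ℝ)..1, nl F x * exp (ph G x) * nl A (G x + τ))
      ((intervalIntegral.continuous_parametric_intervalIntegral_of_continuous'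
        (f := fun τ x => nl F x * exp (ph G x) * nl A (G x + τ)) cc 0 1).intervalIntegrable 0 1)
      (fun τ hτ => hc τ hτ.1.le hτ.2.le) zero_lt_one
    rw [swap_int (F := fun τ x => nl F x * exp (ph G x) * nl A (G x + τ)) cc zero_le_one
      zero_le_one] at pos
    have z : ∀ x, ∫ τ in (0 : ℝ)..1, nl F x * exp (ph G x) * nl A (G x + τ) = 0 := fun x => by
      rw [intervalIntegral.integral_const_mul, intervalIntegral.integral_comp_add_left,
        intervalIntegral.integral_eq_sub_of_hasDerivAt (fun y _ => rA.d2 y)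
          (c2.intervalIntegrable _ _), add_zero, (cp_ph rA pA).2, sub_self, mul_zero]
    simp [z] at pos
  have rT := (tr_reg τ).isReg
  have nT : ∀ x, nl (tr τ) x = 0 := congrFun (tr_reg τ).nl_eq
  have fT : ∀ x, ph (tr τ) x = 0 := congrFun (tr_reg τ).ph_eq
  have nF : ∀ x, nl ((tr τ)⁻¹ * A * tr τ * G) x = nl A (G x + τ) * exp (ph G x) + nl F x / 2 :=
    fun x => by
      rw [((rT.inv.mul rA).mul rT).nl_mul rG, (rT.inv.mul rA).nl_mul rT, rT.inv.nl_mul rA,
        rT.nl_inv, nT, nT, nG, tr_ap]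
      simp [fT]
  refine ⟨(tr τ)⁻¹ * A * tr τ * G, ⟨fun j => if j = 0 then F else (tr τ)⁻¹ * A * tr τ * G, rfl, rfl,
    fun j hj => ?_⟩, ⟨((rT.inv.mul rA).mul rT).mul rG,
      (((tr_per τ).inv.mul pA).mul (tr_per τ)).mul pG, fun x => ?_⟩, ?_, fun x => ?_⟩
  · obtain rfl : j = 0 := by omega
    refine ⟨τ, τ0, τ1, A, G, tr τ, fun _ => 0, fun _ => 0, fun _ => 0, rA, rG, pA, pG,
      by simp [hA], rfl, fun x => by simp [tr_ap], fun _ => rfl, fun x => hasDerivAt_const x 0,
      fun x => hasDerivAt_const x 0, continuous_const, fun x => ?_⟩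
    rw [abs_zero]
    refine ⟨by linarith, by linarith, by linarith, by linarith [gA'.2.2 x],
      by linarith [gG.2.2 x], by linarith [dA x], by linarith [dG x]⟩
  · rw [nF, ← nG]
    refine (abs_add_le _ _).trans ?_
    rw [abs_mul, abs_of_pos (exp_pos _)]
    have a := mul_le_mul (gA.2.2 (G x + τ)) (x5 x).1 (exp_pos _).le gA.nonneg
    rw [mul_assoc, x1] at a
    have b := gG.2.2 x
    have c := one_le_exp ε0
    nlinarith
  · have cs : CP fun y => nl A (y + τ) ^ 2 :=
      ⟨by fun_prop, fun y => by simp only [add_right_comm y 1 τ, ca.2]⟩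
    have cs0 : CP fun y => nl A y ^ 2 := ⟨by fun_prop, fun y => by simp only [ca.2]⟩
    have i1 : ∫ x in (0 : ℝ)..1, nl A (G x + τ) ^ 2 * exp (ph G x) =
        ∫ x in (0 : ℝ)..1, nl A (G x) ^ 2 * exp (ph G x) := by
      rw [cs.integral_comp rG pG, cs0.integral_comp rG pG,
        intervalIntegral.integral_comp_add_right (fun y => nl A y ^ 2), zero_add, add_comm 1 τ,
        cs0.shift]
    have i2 : ∫ x in (0 : ℝ)..1, nl A (G x) ^ 2 * exp (ph G x) ≤
        ∫ x in (0 : ℝ)..1, exp (ε / 2) / 4 * nl F x ^ 2 := by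
      refine intervalIntegral.integral_mono_on zero_le_one
        (Continuous.intervalIntegrable (by fun_prop) _ _)
        (Continuous.intervalIntegrable (by fun_prop) _ _) fun x _ => ?_
      have e : (nl F x / 2 * exp (-ph G x)) ^ 2 * exp (ph G x) =
          exp (-ph G x) / 4 * nl F x ^ 2 := by
        rw [exp_neg]
        have := exp_pos (ph G x)
        field_simp
        ring
      rw [nA, e]
      have := (x5 x).2
      gcongr
    have i3 : ∫ x in (0 : ℝ)..1, nl ((tr τ)⁻¹ * A * tr τ * G) x ^ 2 ≤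
        ∫ x in (0 : ℝ)..1, (exp (ε / 2) * (nl A (G x + τ) ^ 2 * exp (ph G x)) +
          nl F x * exp (ph G x) * nl A (G x + τ) + 1 / 4 * nl F x ^ 2) := by
      simp only [nF]
      refine intervalIntegral.integral_mono_on zero_le_one
        (Continuous.intervalIntegrable (by fun_prop) _ _)
        (Continuous.intervalIntegrable (by fun_prop) _ _) fun x _ => ?_
      have := mul_le_mul_of_nonneg_right (x5 x).1
        (show 0 ≤ nl A (G x + τ) ^ 2 * exp (ph G x) by positivity)
      nlinarith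
    rw [intervalIntegral.integral_add, intervalIntegral.integral_add,
      intervalIntegral.integral_const_mul, intervalIntegral.integral_const_mul, i1] at i3
    · rw [intervalIntegral.integral_const_mul] at i2
      have p : 0 ≤ ∫ x in (0 : ℝ)..1, nl F x ^ 2 :=
        intervalIntegral.integral_nonneg zero_le_one fun x _ => sq_nonneg _
      have a := mul_le_mul_of_nonneg_left i2 (exp_pos (ε / 2)).le
      rw [← mul_assoc, ← mul_div_assoc, x1] at a
      nlinarith
    all_goals exact Continuous.intervalIntegrable (by fun_prop) _ _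
  · simp only [Equiv.Perm.mul_apply, tr_inv_ap, tr_ap]
    have a := abs_le.1 (dA (G x + τ))
    have b := abs_le.1 (dG x)
    rw [abs_le]
    constructor <;> linarith [a.1, a.2, b.1, b.2]

end Pool.Agent.P.MP_0354a7_al
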