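import Pool.Agent.P.MP_0354a7_al.PF.Kernel

/-!
From the contraction of all frequency bands to the expansion of small sets.
-/

namespace Pool.Agent.P.MP_0354a7_al

open Real Finset

theorem F_cp_sub {f g : ℝ → ℝ} (hf : CP f) (hg : CP g) : CP fun x => f x - g x :=
  ⟨hf.1.sub hg.1, fun x => by simp only [hf.2 x, hg.2 x]⟩

theorem F_cp_mul {f g : ℝ → ℝ} (hf : CP f) (hg : CP g) : CP fun x => f x * g x :=
  ⟨hf.1.mul hg.1, fun x => by simp only [hf.2 x, hg.2 x]⟩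

theorem F_cp_exp {f : ℝ → ℝ} (hf : CP f) : CP fun x => exp (f x) :=
  ⟨hf.1.rexp, fun x => by simp only [hf.2 x]⟩

theorem F_mono {u v : ℝ → ℝ} (hu : Continuous u) (hv : Continuous v) (h : ∀ x, u x ≤ v x) :
    ∫ x in (0 : ℝ)..1, u x ≤ ∫ x in (0 : ℝ)..1, v x :=
  intervalIntegral.integral_mono_on zero_le_one (hu.intervalIntegrable _ _)
    (hv.intervalIntegrable _ _) fun x _ => h x

theorem F_add {u v : ℝ → ℝ} (hu : Continuous u) (hv : Continuous v) :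
    ∫ x in (0 : ℝ)..1, (u x + v x) = (∫ x in (0 : ℝ)..1, u x) + ∫ x in (0 : ℝ)..1, v x :=
  intervalIntegral.integral_add (hu.intervalIntegrable _ _) (hv.intervalIntegrable _ _)

theorem F_sub {u v : ℝ → ℝ} (hu : Continuous u) (hv : Continuous v) :
    ∫ x in (0 : ℝ)..1, (u x - v x) = (∫ x in (0 : ℝ)..1, u x) - ∫ x in (0 : ℝ)..1, v x :=
  intervalIntegral.integral_sub (hu.intervalIntegrable _ _) (hv.intervalIntegrable _ _)

theorem F_nonneg {u : ℝ → ℝ} (h : ∀ x, 0 ≤ u x) : 0 ≤ ∫ x in (0 : ℝ)..1, u x :=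
  intervalIntegral.integral_nonneg zero_le_one fun x _ => h x

/-- A uniform error against a nonnegative function. -/
theorem F_sup {u v h : ℝ → ℝ} {c : ℝ} (hu : Continuous u) (hv : Continuous v) (hh : Continuous h)
    (h0 : ∀ x, 0 ≤ h x) (hc : ∀ x, u x ≤ v x + c) :
    ∫ x in (0 : ℝ)..1, u x * h x ≤ (∫ x in (0 : ℝ)..1, v x * h x) + c * ∫ x in (0 : ℝ)..1, h x := by
  rw [← intervalIntegral.integral_const_mul, ← F_add (by fun_prop) (by fun_prop)]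
  refine F_mono (by fun_prop) (by fun_prop) fun x => ?_
  nlinarith [mul_le_mul_of_nonneg_right (hc x) (h0 x)]

theorem F_amgm {u v : ℝ → ℝ} {c X : ℝ} (hu : Continuous u) (hv : Continuous v) (hc : 0 < c)
    (h : (∫ x in (0 : ℝ)..1, u x ^ 2) ≤ c ^ 2 * X) :
    ∫ x in (0 : ℝ)..1, u x * v x ≤ c / 2 * (X + ∫ x in (0 : ℝ)..1, v x ^ 2) := by
  have h1 : ∫ x in (0 : ℝ)..1, u x * v x
      ≤ ∫ x in (0 : ℝ)..1, (1 / (2 * c) * u x ^ 2 + c / 2 * v x ^ 2) := by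
    refine F_mono (hu.mul hv) (by fun_prop) fun x => ?_
    have e : 1 / (2 * c) * u x ^ 2 + c / 2 * v x ^ 2 - u x * v x
        = (u x - c * v x) ^ 2 / (2 * c) := by field_simp; ring
    have : 0 ≤ (u x - c * v x) ^ 2 / (2 * c) := by positivity
    linarith
  rw [F_add (by fun_prop) (by fun_prop), intervalIntegral.integral_const_mul,
    intervalIntegral.integral_const_mul] at h1
  have h2 := mul_le_mul_of_nonneg_left h (show 0 ≤ 1 / (2 * c) by positivity)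
  have e : 1 / (2 * c) * (c ^ 2 * X) = c / 2 * X := by field_simp
  linarith

theorem F_sum {α : Type} (s : Finset α) {u : α → ℝ → ℝ} {h : ℝ → ℝ} (hu : ∀ i, Continuous (u i))
    (hh : Continuous h) :
    ∫ x in (0 : ℝ)..1, (∑ i ∈ s, u i x) * h x = ∑ i ∈ s, ∫ x in (0 : ℝ)..1, u i x * h x := by
  simp only [sum_mul]
  exact intervalIntegral.integral_finsetSum fun i _ => ((hu i).mul hh).intervalIntegrable _ _

theorem F_avg {k : ℕ} {u : Fin k → ℝ → ℝ} {h : ℝ → ℝ} (hu : ∀ i, Continuous (u i))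
    (hh : Continuous h) :
    ∫ x in (0 : ℝ)..1, (∑ i, u i x) / k * h x = (∑ i, ∫ x in (0 : ℝ)..1, u i x * h x) / k := by
  rw [← F_sum univ hu hh, ← intervalIntegral.integral_div]
  exact intervalIntegral.integral_congr fun x _ => by ring

theorem F_avg_le {k : ℕ} (hk : 0 < k) {a b : Fin k → ℝ} {c : ℝ} (h : ∀ i, a i ≤ b i + c) :
    (∑ i, a i) / k ≤ (∑ i, b i) / k + c := by
  have hk' : (0 : ℝ) < k := by exact_mod_cast hk
  have := sum_le_sum fun i (_ : i ∈ (univ : Finset (Fin k))) => h i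
  rw [sum_add_distrib, sum_const, card_univ, Fintype.card_fin, nsmul_eq_mul] at this
  rw [div_add' _ _ _ hk'.ne', div_le_div_iff_of_pos_right hk']
  linarith

theorem EXP.perturb {k : ℕ} (hk : 0 < k) {Λ σ β d : ℝ} {P P' : Fin k → Equiv.Perm ℝ}
    (h : EXP Λ σ β P) (hP : ∀ i, IsReg (P i)) (hP' : ∀ i, IsReg (P' i)) (hΛ : 0 ≤ Λ) (hd : 0 ≤ d)
    (hc : ∀ i x, |P' i x - P i x| ≤ d) : EXP Λ σ (β + Λ * d) P' := by
  intro g h' hg hh g01 h01 gl gs
  have := h g h' hg hh g01 h01 gl gs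
  have c1 : ∀ i, Continuous fun x => g (P i x) := fun i => hg.1.comp (Reg.continuous (hP i))
  have c2 : ∀ i, Continuous fun x => g (P' i x) := fun i => hg.1.comp (Reg.continuous (hP' i))
  rw [F_avg c1 hh.1] at this
  rw [F_avg c2 hh.1]
  have k1 := F_avg_le hk (c := Λ * d * ∫ x in (0 : ℝ)..1, h' x) fun i =>
    F_sup (c := Λ * d) (c2 i) (c1 i) hh.1 (fun x => (h01 x).1) fun x => by
      have a1 := le_of_abs_le (gl (P' i x) (P i x))
      have a2 := mul_le_mul_of_nonneg_left (hc i x) hΛ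
      linarith
  have g0 := F_nonneg fun x => (g01 x).1
  have : 0 ≤ Λ * d * ∫ x in (0 : ℝ)..1, g x := by positivity
  nlinarith

/-- Smoothing twice at the scale `l`. -/
noncomputable def F_A (l : ℝ) (g : ℝ → ℝ) : ℝ → ℝ := cv (tk l) (cv (tk l) g)

/-- The band between the scales `l'` and `l`. -/
noncomputable def F_pi (l' l : ℝ) (g : ℝ → ℝ) : ℝ → ℝ := cv (fun t => tk l' t - tk l t) g

section Ops

variable {l l' M Λ : ℝ} {f g : ℝ → ℝ}

theorem F_B_cp (hg : CP g) : CP (cv (tk l) g) := cv_cp (tk_cp l) hg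

theorem F_A_cp (hg : CP g) : CP (F_A l g) := F_B_cp (F_B_cp hg)

theorem F_pi_cp (hg : CP g) : CP (F_pi l' l g) := cv_cp (F_cp_sub (tk_cp l') (tk_cp l)) hg

theorem F_A_nonneg (hl : 0 < l) (h0 : ∀ x, 0 ≤ g x) (y : ℝ) : 0 ≤ F_A l g y :=
  cv_tk_nonneg hl (cv_tk_nonneg hl h0) y

theorem F_A_abs (hl : 0 < l) (h2 : l ≤ 1 / 4) (hg : CP g) (hM : ∀ x, |g x| ≤ M) (y : ℝ) :
    |F_A l g y| ≤ M :=
  cv_tk_abs hl (by linarith) (F_B_cp hg) (cv_tk_abs hl (by linarith) hg hM) y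

theorem F_A_int (hl : 0 < l) (h2 : l ≤ 1 / 4) (hg : CP g) :
    ∫ x in (0 : ℝ)..1, F_A l g x = ∫ x in (0 : ℝ)..1, g x :=
  (cv_tk_int hl (by linarith) (F_B_cp hg)).trans (cv_tk_int hl (by linarith) hg)

theorem F_A_lip (hl : 0 < l) (h2 : l ≤ 1 / 4) (hg : CP g) (hM : ∀ x, |g x| ≤ M) (x y : ℝ) :
    |F_A l g x - F_A l g y| ≤ 8 * M / l * |x - y| :=
  cv_tk_lip hl h2 (F_B_cp hg) (cv_tk_abs hl (by linarith) hg hM) x y

theorem F_A_sub (hl : 0 < l) (h2 : l ≤ 1 / 4) (hg : CP g)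
    (hΛ : ∀ x y, |g x - g y| ≤ Λ * |x - y|) (y : ℝ) : |F_A l g y - g y| ≤ 2 * (Λ * l) := by
  have h1 := cv_tk_sub hl (by linarith) hg hΛ y
  have h3 := cv_tk_sub hl (by linarith) (F_B_cp (l := l) hg) (cv_tk_lip' hl (by linarith) hg hΛ) y
  have := abs_sub_le (F_A l g y) (cv (tk l) g y) (g y)
  unfold F_A at this ⊢
  linarith

theorem F_A_adj (hf : CP f) (hg : CP g) :
    ∫ x in (0 : ℝ)..1, F_A l f x * g x = ∫ x in (0 : ℝ)..1, f x * F_A l g x :=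
  (cv_adj (tk_cp l) (tk_neg l) (F_B_cp hf) hg).trans (cv_adj (tk_cp l) (tk_neg l) hf (F_B_cp hg))

theorem F_A_sq (hl : 0 < l) (h2 : l ≤ 1 / 4) (hg : CP g) :
    ∫ x in (0 : ℝ)..1, F_A l g x ^ 2 ≤ ∫ x in (0 : ℝ)..1, g x * F_A l g x := by
  refine (cv_tk_sq hl (by linarith) (F_B_cp hg)).trans (le_of_eq ?_)
  simp only [sq]
  exact cv_adj (tk_cp l) (tk_neg l) hg (F_B_cp hg)

theorem F_pi_eq (hg : CP g) (y : ℝ) : F_pi l' l g y = cv (tk l') g y - cv (tk l) g y :=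
  cv_sub_left (tk_cp l') (tk_cp l) hg y

theorem F_pi_lip (hl : 0 < l') (h1 : l' ≤ l) (h2 : l ≤ 1 / 4) (hg : CP g) (hM : ∀ x, |g x| ≤ M)
    (x y : ℝ) : |F_pi l' l g x - F_pi l' l g y| ≤ 16 * M / l' * |x - y| := by
  have a1 := cv_tk_lip hl (h1.trans h2) hg hM x y
  have a2 := cv_tk_lip (hl.trans_le h1) h2 hg hM x y
  have M0 : 0 ≤ M := (abs_nonneg _).trans (hM 0)
  have a3 : 8 * M / l * |x - y| ≤ 8 * M / l' * |x - y| := by gcongr
  rw [F_pi_eq hg, F_pi_eq hg]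
  have e : 16 * M / l' * |x - y| = 2 * (8 * M / l' * |x - y|) := by ring
  rw [abs_le] at a1 a2 ⊢
  constructor <;> linarith [a1.1, a1.2, a2.1, a2.2]

theorem F_pi_abs (hl : 0 < l') (h1 : l' ≤ l) (h2 : l ≤ 1 / 4) (hg : CP g) (h0 : 0 ≤ Λ)
    (hΛ : ∀ x y, |g x - g y| ≤ Λ * |x - y|) (y : ℝ) : |F_pi l' l g y| ≤ 2 * (Λ * l) := by
  have a1 := cv_tk_sub hl (by linarith) hg hΛ y
  have a2 := cv_tk_sub (hl.trans_le h1) (by linarith) hg hΛ y
  have a3 : Λ * l' ≤ Λ * l := by gcongr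
  rw [F_pi_eq hg]
  rw [abs_le] at a1 a2 ⊢
  constructor <;> linarith [a1.1, a1.2, a2.1, a2.2]

theorem F_pi_adj (hf : CP f) (hg : CP g) :
    ∫ x in (0 : ℝ)..1, F_pi l' l f x * g x = ∫ x in (0 : ℝ)..1, f x * F_pi l' l g x :=
  cv_adj (F_cp_sub (tk_cp l') (tk_cp l)) (fun t => by simp only [tk_neg]) hf hg

theorem F_pi_sq (hl : 0 < l') (h1 : l' ≤ l) (h2 : l ≤ 1 / 4) (hg : CP g) :
    ∫ x in (0 : ℝ)..1, F_pi l' l g x ^ 2 ≤ 4 * ∫ x in (0 : ℝ)..1, g x ^ 2 := by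
  have a1 := cv_tk_sq hl (by linarith) hg
  have a2 := cv_tk_sq (hl.trans_le h1) (by linarith) hg
  have c1 := (F_B_cp (l := l') hg).1
  have c2 := (F_B_cp (l := l) hg).1
  have a3 : ∫ x in (0 : ℝ)..1, F_pi l' l g x ^ 2
      ≤ ∫ x in (0 : ℝ)..1, (2 * cv (tk l') g x ^ 2 + 2 * cv (tk l) g x ^ 2) := by
    refine F_mono ((F_pi_cp hg).1.pow 2) (by fun_prop) fun x => ?_
    rw [F_pi_eq hg]
    nlinarith [sq_nonneg (cv (tk l') g x + cv (tk l) g x)]
  rw [F_add (by fun_prop) (by fun_prop), intervalIntegral.integral_const_mul,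
    intervalIntegral.integral_const_mul] at a3
  linarith

theorem F_pi_A {m : ℝ} (hg : CP g) : F_pi l' l (F_A m g) = F_A m (F_pi l' l g) := by
  have c := F_cp_sub (tk_cp l') (tk_cp l)
  unfold F_pi F_A
  rw [cv_cv c (tk_cp m) (F_B_cp hg), cv_cv c (tk_cp m) hg]

theorem F_pi_sub (hf : CP f) (hg : CP g) (y : ℝ) :
    F_pi l' l (fun t => f t - g t) y = F_pi l' l f y - F_pi l' l g y :=
  cv_sub_right (F_cp_sub (tk_cp l') (tk_cp l)) hf hg y

theorem F_abs01 (h : ∀ x, 0 ≤ g x ∧ g x ≤ 1) (x : ℝ) : |g x| ≤ 1 := by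
  rw [abs_of_nonneg (h x).1]
  exact (h x).2

theorem F_A01 (hl : 0 < l) (h2 : l ≤ 1 / 4) (hg : CP g) (h : ∀ x, 0 ≤ g x ∧ g x ≤ 1) (y : ℝ) :
    0 ≤ F_A l g y ∧ F_A l g y ≤ 1 :=
  ⟨F_A_nonneg hl (fun x => (h x).1) y, le_of_abs_le (F_A_abs hl h2 hg (F_abs01 h) y)⟩

theorem F_A_sq_le (hl : 0 < l) (h2 : l ≤ 1 / 4) (hg : CP g) (h : ∀ x, 0 ≤ g x ∧ g x ≤ 1) :
    ∫ x in (0 : ℝ)..1, F_A l g x ^ 2 ≤ ∫ x in (0 : ℝ)..1, g x := by
  refine (F_A_sq hl h2 hg).trans (F_mono (hg.1.mul (F_A_cp hg).1) hg.1 fun x => ?_)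
  nlinarith [(h x).1, (F_A01 hl h2 hg h x).2]

/-- The telescoping bound for the square function. -/
theorem F_sqf {ε : ℝ} (hl' : 0 < l') (h2' : l' ≤ 1 / 4) (hl : 0 < l) (h2 : l ≤ 1 / 4)
    (hε : l' ≤ ε * l) (hg : CP g) (h : ∀ x, 0 ≤ g x ∧ g x ≤ 1) :
    ∫ x in (0 : ℝ)..1, (F_A l' g x - F_A l g x) ^ 2
      ≤ (∫ x in (0 : ℝ)..1, F_A l' g x ^ 2) - (∫ x in (0 : ℝ)..1, F_A l g x ^ 2)
        + 32 * ε * ∫ x in (0 : ℝ)..1, g x := by
  have c1 := F_A_cp (l := l') hg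
  have c2 := F_A_cp (l := l) hg
  have c3 := F_A_cp (l := l') c2
  have e1 : ∫ x in (0 : ℝ)..1, (F_A l' g x - F_A l g x) ^ 2
      = (∫ x in (0 : ℝ)..1, F_A l' g x ^ 2) - 2 * (∫ x in (0 : ℝ)..1, F_A l' g x * F_A l g x)
        + ∫ x in (0 : ℝ)..1, F_A l g x ^ 2 := by
    have d1 := c1.1
    have d2 := c2.1
    rw [← intervalIntegral.integral_const_mul, ← F_sub (by fun_prop) (by fun_prop),
      ← F_add (by fun_prop) (by fun_prop)]
    exact intervalIntegral.integral_congr fun x _ => by ring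
  have e2 := F_A_adj (l := l') hg c2
  have e3 := F_A_sq hl h2 hg
  have e4 := F_sup (c := 16 * ε) c2.1 c3.1 hg.1 (fun x => (h x).1) fun x => by
    have a1 := F_A_sub hl' h2' c2 (F_A_lip hl h2 hg (F_abs01 h)) x
    have a2 : 8 * 1 / l * l' ≤ 8 * ε := by
      rw [div_mul_eq_mul_div, div_le_iff₀ hl]
      linarith
    linarith [neg_le_of_abs_le a1]
  simp only [mul_comm (g _)] at e2 e3
  linarith

end Ops

/-- Lipschitz bound for a transported density. -/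
theorem F_gam {κ L : ℝ} {R : Equiv.Perm ℝ} {u : ℝ → ℝ} (hR : Good κ R) (hκ : κ ≤ 1 / 500)
    (hu : ∀ x, |u x| ≤ 1) (hL : 1 ≤ L) (hl : ∀ x y, |u x - u y| ≤ L * |x - y|) (x y : ℝ) :
    |u (R x) * exp (ph R x) - u (R y) * exp (ph R y)| ≤ 9 / 8 * L * |x - y| := by
  have k0 := hR.nonneg
  have e1 : exp κ ≤ 101 / 100 := by linarith [exp_small k0 (by linarith)]
  have e2 : ∀ z, exp (ph R z) ≤ 101 / 100 := fun z =>
    (exp_le_exp.2 (le_of_abs_le (hR.ph_le z))).trans e1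
  have a1 : |exp (ph R x) - exp (ph R y)| ≤ 1 / 100 * |x - y| :=
    mvt_abs (f := fun z => exp (ph R z)) (fun z => (hR.1.d2 z).exp) (fun z => by
      rw [abs_mul, abs_of_pos (exp_pos _)]
      nlinarith [e2 z, hR.2.2 z, abs_nonneg (nl R z), exp_pos (ph R z)]) x y
  have d0 := abs_nonneg (x - y)
  have a2 : |R x - R y| ≤ 101 / 100 * |x - y| :=
    (hR.lip x y).trans (mul_le_mul_of_nonneg_right e1 d0)
  have a3 : |u (R x) - u (R y)| ≤ L * (101 / 100 * |x - y|) :=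
    (hl _ _).trans (mul_le_mul_of_nonneg_left a2 (by linarith))
  have a4 : |(u (R x) - u (R y)) * exp (ph R x)| ≤ L * (101 / 100 * |x - y|) * (101 / 100) := by
    rw [abs_mul, abs_of_pos (exp_pos _)]
    exact mul_le_mul a3 (e2 x) (exp_pos _).le (by positivity)
  have a5 : |u (R y) * (exp (ph R x) - exp (ph R y))| ≤ 1 * (1 / 100 * |x - y|) := by
    rw [abs_mul]
    exact mul_le_mul (hu _) a1 (abs_nonneg _) zero_le_one
  rw [show u (R x) * exp (ph R x) - u (R y) * exp (ph R y)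
    = (u (R x) - u (R y)) * exp (ph R x) + u (R y) * (exp (ph R x) - exp (ph R y)) by ring]
  refine (abs_add_le _ _).trans ?_
  nlinarith [mul_le_mul_of_nonneg_right hL d0]

/-- Localisation of both functions to the scales near a band. -/
theorem F_band {l0 l1 l2 l3 e0 e1 e2 κ : ℝ} {g h : ℝ → ℝ} {P Q : Equiv.Perm ℝ} (h3 : 0 < l3)
    (h32 : l3 ≤ l2) (h21 : l2 ≤ l1) (h10 : l1 ≤ l0) (h0 : l0 ≤ 1 / 4) (r0 : l1 ≤ e0 * l0)
    (r2 : l3 ≤ e2 * l2) (hP : IsReg P) (hQ : Good κ Q) (hκ : κ ≤ 1 / 1000)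
    (hPQ : ∀ x, |Q x - P x| ≤ e1 * l2) (hg : CP g) (hh : CP h) (g01 : ∀ x, 0 ≤ g x ∧ g x ≤ 1)
    (h01 : ∀ x, 0 ≤ h x ∧ h x ≤ 1) :
    ∫ x in (0 : ℝ)..1, F_pi l2 l1 g (P x) * h x
      ≤ (∫ x in (0 : ℝ)..1, F_pi l2 l1 (fun t => F_A l3 g t - F_A l0 g t) (Q x)
          * (F_A l3 h x - F_A l0 h x))
        + ((16 * e0 + 16 * e1 + 65 * e2) * (∫ x in (0 : ℝ)..1, h x)
          + 36 * e0 * ∫ x in (0 : ℝ)..1, g x) := by
  have p2 : 0 < l2 := by linarith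
  have p1 : 0 < l1 := by linarith
  have p0 : 0 < l0 := by linarith
  have q1 : l1 ≤ 1 / 4 := by linarith
  have q3 : l3 ≤ 1 / 4 := by linarith
  have k0 := hQ.nonneg
  have ek : exp κ ≤ 101 / 100 := by linarith [exp_small k0 (by linarith)]
  have s0 : l1 / l0 ≤ e0 := by rwa [div_le_iff₀ p0]
  have s2 : l3 / l2 ≤ e2 := by rwa [div_le_iff₀ p2]
  have cA3 := F_A_cp (l := l3) hg
  have cA0 := F_A_cp (l := l0) hg
  have dA3 := F_A_cp (l := l3) hh
  have dA0 := F_A_cp (l := l0) hh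
  have cj := F_cp_sub cA3 cA0
  have cp := F_pi_cp (l' := l2) (l := l1) hg
  have cF := F_pi_cp (l' := l2) (l := l1) cj
  have bj : ∀ x, |F_A l3 g x - F_A l0 g x| ≤ 1 := fun x => by
    have a1 := F_A01 h3 q3 hg g01 x
    have a2 := F_A01 p0 h0 hg g01 x
    rw [abs_le]
    constructor <;> linarith [a1.1, a1.2, a2.1, a2.2]
  have lp := F_pi_lip p2 h21 q1 hg (F_abs01 g01)
  have lF := F_pi_lip p2 h21 q1 cj bj
  have t1 : ∀ y, F_pi l2 l1 g y
      ≤ F_pi l2 l1 (fun t => F_A l3 g t - F_A l0 g t) y + (16 * e0 + 32 * e2) := fun y => by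
    have a1 := F_A_sub h3 q3 cp lp y
    have a2 := F_pi_abs p2 h21 q1 cA0 (by positivity) (F_A_lip p0 h0 hg (F_abs01 g01)) y
    rw [F_pi_sub cA3 cA0, F_pi_A (m := l3) hg]
    have b1 : 16 * 1 / l2 * l3 = 16 * (l3 / l2) := by ring
    have b2 : 8 * 1 / l0 * l1 = 8 * (l1 / l0) := by ring
    linarith [neg_le_of_abs_le a1, le_of_abs_le a2]
  set F := F_pi l2 l1 (fun t => F_A l3 g t - F_A l0 g t) with hF
  have cFQ := cF.comp hQ.1 hQ.2.1
  have u1 := F_sup (c := 16 * e0 + 16 * e1 + 32 * e2) (cp.1.comp (Reg.continuous hP)) cFQ.1 hh.1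
    (fun x => (h01 x).1) fun x => by
      have a1 := neg_le_of_abs_le (lp (Q x) (P x))
      have a2 := mul_le_mul_of_nonneg_left (hPQ x) (show 0 ≤ 16 * 1 / l2 by positivity)
      have b1 : 16 * 1 / l2 * (e1 * l2) = 16 * e1 := by field_simp
      have := t1 (Q x)
      simp only [Function.comp]
      linarith
  have u2 := F_sup (c := 33 * e2) cFQ.1 (F_A_cp (l := l3) cFQ).1 hh.1 (fun x => (h01 x).1)
    fun x => by
      have a1 := F_A_sub (Λ := 16 * 1 / l2 * (101 / 100)) h3 q3 cFQ (fun y z => by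
        refine (lF _ _).trans ?_
        rw [mul_assoc]
        exact mul_le_mul_of_nonneg_left ((hQ.lip y z).trans
          (mul_le_mul_of_nonneg_right ek (abs_nonneg _))) (by positivity)) x
      have b1 : 16 * 1 / l2 * (101 / 100) * l3 = 16 * (101 / 100) * (l3 / l2) := by ring
      have b2 : 0 ≤ l3 / l2 := by positivity
      linarith [neg_le_of_abs_le a1]
  rw [F_A_adj cFQ hh] at u2
  have gi : Good (1 / 500) Q⁻¹ := hQ.inv.mono (by nlinarith)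
  have cG := F_cp_mul (dA0.comp gi.1 gi.2.1) (F_cp_exp (cp_ph gi.1 gi.2.1))
  have lG := F_gam (L := 8 * 1 / l0) gi le_rfl (F_A_abs p0 h0 hh (F_abs01 h01))
    (by rw [le_div_iff₀ p0]; linarith) (F_A_lip p0 h0 hh (F_abs01 h01))
  have u3 : ∫ x in (0 : ℝ)..1, F (Q x) * F_A l0 h x
      = ∫ y in (0 : ℝ)..1, F y * (F_A l0 h (Q⁻¹ y) * exp (ph Q⁻¹ y)) := by
    rw [← (F_cp_mul cF cG).integral_comp hQ.1 hQ.2.1]
    refine intervalIntegral.integral_congr fun x _ => ?_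
    simp only [hQ.1.ph_inv, inv_ap]
    rw [mul_assoc, mul_assoc, ← exp_add, neg_add_cancel, exp_zero, mul_one]
  rw [hF, F_pi_adj cj cG, ← hF] at u3
  have cπ := (F_pi_cp (l' := l2) (l := l1) cG).1
  have u4 : ∫ y in (0 : ℝ)..1, (F_A l3 g y - F_A l0 g y)
        * F_pi l2 l1 (fun y => F_A l0 h (Q⁻¹ y) * exp (ph Q⁻¹ y)) y
      ≤ ∫ y in (0 : ℝ)..1, 18 * e0 * (F_A l3 g y + F_A l0 g y) := by
    refine F_mono (cj.1.mul cπ) (continuous_const.mul (cA3.1.add cA0.1)) fun y => ?_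
    have a1 := F_pi_abs p2 h21 q1 cG (by positivity) lG y
    have b1 : 9 / 8 * (8 * 1 / l0) * l1 = 9 * (l1 / l0) := by ring
    have a2 := abs_le.1 (show |F_pi l2 l1 (fun y => F_A l0 h (Q⁻¹ y) * exp (ph Q⁻¹ y)) y|
      ≤ 18 * e0 by linarith)
    nlinarith [(F_A01 h3 q3 hg g01 y).1, (F_A01 p0 h0 hg g01 y).1, a2.1, a2.2]
  rw [intervalIntegral.integral_const_mul, F_add cA3.1 cA0.1, F_A_int h3 q3 hg, F_A_int p0 h0 hg,
    ← u3] at u4
  have u5 : ∫ x in (0 : ℝ)..1, F (Q x) * (F_A l3 h x - F_A l0 h x)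
      = (∫ x in (0 : ℝ)..1, F (Q x) * F_A l3 h x) - ∫ x in (0 : ℝ)..1, F (Q x) * F_A l0 h x := by
    simp only [mul_sub]
    exact F_sub (cFQ.1.mul dA3.1) (cFQ.1.mul dA0.1)
  simp only [Function.comp] at u1
  linarith

/-- The main term of a band. -/
theorem F_main {k : ℕ} (hk : 0 < k) {l1 l2 κ ρ b : ℝ} {f v : ℝ → ℝ} {Q : Fin k → Equiv.Perm ℝ}
    (h2 : 0 < l2) (h21 : l2 ≤ l1) (h1 : l1 ≤ 1 / 4) (hQ : ∀ i, Good κ (Q i)) (hκ : κ ≤ b)
    (hb : 0 < b) (hb1 : b ≤ 1) (hρ0 : 0 ≤ ρ) (hρ : ρ ≤ b) (hg : GAP Q l2 l1 ρ) (hf : CP f)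
    (hv : Continuous v) :
    (∑ i, ∫ x in (0 : ℝ)..1, F_pi l2 l1 f (Q i x) * v x) / k
      ≤ 3 / 2 * b * ((∫ x in (0 : ℝ)..1, f x ^ 2) + ∫ x in (0 : ℝ)..1, v x ^ 2) := by
  have cF := F_pi_cp (l' := l2) (l := l1) hf
  have X0 := F_nonneg fun x => sq_nonneg (f x)
  have c1 : ∀ i, Continuous fun x => F_pi l2 l1 f (Q i x) := fun i =>
    (cF.comp (hQ i).1 (hQ i).2.1).1
  have c2 : ∀ i, Continuous (ph (Q i)) := fun i => (cp_ph (hQ i).1 (hQ i).2.1).1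
  have c3 : ∀ i, Continuous fun x => F_pi l2 l1 f (Q i x) * exp (ph (Q i) x / 2) := fun i => by
    have := c1 i
    have := c2 i
    fun_prop
  have m1 := F_amgm (X := ∫ x in (0 : ℝ)..1, f x ^ 2)
    (u := fun x => (∑ i, F_pi l2 l1 f (Q i x) * exp (ph (Q i) x / 2)) / k)
    ((continuous_finsetSum _ fun i _ => c3 i).div_const _) hv hb
    ((hg f hf).trans (mul_le_mul_of_nonneg_right (pow_le_pow_left₀ hρ0 hρ 2) X0))
  rw [F_avg c3 hv] at m1
  have m2 := F_avg_le hk (a := fun i => ∫ x in (0 : ℝ)..1, F_pi l2 l1 f (Q i x) * v x)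
    (b := fun i => ∫ x in (0 : ℝ)..1, F_pi l2 l1 f (Q i x) * exp (ph (Q i) x / 2) * v x)
    (c := b * ((∫ x in (0 : ℝ)..1, f x ^ 2) + ∫ x in (0 : ℝ)..1, v x ^ 2)) fun i => by
      have d1 := c1 i
      have d2 := c2 i
      have a1 : ∫ x in (0 : ℝ)..1, (F_pi l2 l1 f (Q i x) * (1 - exp (ph (Q i) x / 2))) ^ 2
          ≤ ∫ x in (0 : ℝ)..1, b ^ 2 * (F_pi l2 l1 f (Q i x) ^ 2 * exp (ph (Q i) x)) := by
        refine F_mono (by fun_prop) (by fun_prop) fun x => ?_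
        have b1 := abs_exp_sub_one (u := -(ph (Q i) x / 2)) (C := b / 2) (by
          rw [abs_neg, abs_div, abs_two]
          linarith [(hQ i).ph_le x]) (by linarith)
        have b2 : (exp (-(ph (Q i) x / 2)) - 1) ^ 2 ≤ b ^ 2 :=
          sq_le_sq' (by linarith [neg_le_of_abs_le b1]) (by linarith [le_of_abs_le b1])
        have b3 : exp (ph (Q i) x) = exp (ph (Q i) x / 2) ^ 2 := by
          rw [sq, ← exp_add, add_halves]
        have b4 : 1 - exp (ph (Q i) x / 2)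
            = (exp (-(ph (Q i) x / 2)) - 1) * exp (ph (Q i) x / 2) := by
          rw [sub_mul, ← exp_add, neg_add_cancel, exp_zero, one_mul]
        rw [b3, b4]
        nlinarith [mul_le_mul_of_nonneg_right b2
          (sq_nonneg (F_pi l2 l1 f (Q i x) * exp (ph (Q i) x / 2)))]
      have cs : CP fun y => F_pi l2 l1 f y ^ 2 := ⟨cF.1.pow 2, fun y => by simp only [cF.2 y]⟩
      rw [intervalIntegral.integral_const_mul, cs.integral_comp (hQ i).1 (hQ i).2.1] at a1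
      have a2 := mul_le_mul_of_nonneg_left (F_pi_sq h2 h21 h1 hf) (sq_nonneg b)
      have a3 := F_amgm (c := 2 * b) (X := ∫ x in (0 : ℝ)..1, f x ^ 2)
        (u := fun x => F_pi l2 l1 f (Q i x) * (1 - exp (ph (Q i) x / 2))) (by fun_prop) hv
        (by linarith) (by linarith)
      have a4 : ∫ x in (0 : ℝ)..1, F_pi l2 l1 f (Q i x) * v x
          = (∫ x in (0 : ℝ)..1, F_pi l2 l1 f (Q i x) * exp (ph (Q i) x / 2) * v x)
            + ∫ x in (0 : ℝ)..1, F_pi l2 l1 f (Q i x) * (1 - exp (ph (Q i) x / 2)) * v x := by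
        rw [← F_add (by fun_prop) (by fun_prop)]
        exact intervalIntegral.integral_congr fun x _ => by ring
      linarith
  linarith

theorem exp_of_gap {k : ℕ} (hk : 0 < k) {β Λ σ κ ρ : ℝ} (hβ : 0 < β) (hβ1 : β ≤ 1) (J : ℕ)
    (l e : ℕ → ℝ) (P : Fin k → Equiv.Perm ℝ) (Q : ℕ → Fin k → Equiv.Perm ℝ) (hl : ∀ j, 0 < l j)
    (hl0 : l 0 ≤ 1 / 8) (hr : ∀ j, j ≤ J + 1 → l (j + 1) ≤ e j * l j)
    (he : ∑ j ∈ range (J + 2), e j ≤ β / 1000) (hP : ∀ i, Good κ (P i))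
    (hQ : ∀ j, 1 ≤ j → j ≤ J → ∀ i, Good κ (Q j i)) (hκ : κ ≤ β / 1000) (hρ0 : 0 ≤ ρ)
    (hρ : ρ ≤ β / 1000) (hPQ : ∀ j, 1 ≤ j → j ≤ J → ∀ i x, |Q j i x - P i x| ≤ e j * l (j + 1))
    (hg : ∀ j, 1 ≤ j → j ≤ J → GAP (Q j) (l (j + 1)) (l j) ρ) (hσ : σ ≤ β / 10 * l 1)
    (hΛ : Λ * l (J + 1) ≤ β / 10) : EXP Λ σ β P := by
  intro g h cg ch g01 h01 gl gs
  have e0 : ∀ j, j ≤ J + 1 → 0 ≤ e j := fun j hj =>
    nonneg_of_mul_nonneg_left ((hl _).le.trans (hr j hj)) (hl j)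
  have e1 : ∀ j, j ≤ J + 1 → e j ≤ 1 := fun j hj => by
    have := single_le_sum (f := e) (s := range (J + 2))
      (fun i hi => e0 i (by have := mem_range.1 hi; omega)) (mem_range.2 (by omega : j < J + 2))
    linarith
  have dec : ∀ j, j ≤ J + 1 → l (j + 1) ≤ l j := fun j hj => by
    nlinarith [hr j hj, e1 j hj, hl j]
  have sm : ∀ j, j ≤ J + 2 → l j ≤ 1 / 4 := fun j hj => by
    induction j with
    | zero => linarith
    | succ j ih => exact (dec j (by omega)).trans (ih (by omega))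
  have s0 : ∑ j ∈ range J, e j ≤ β / 1000 := by
    rw [sum_range_succ, sum_range_succ] at he
    linarith [e0 J (by omega), e0 (J + 1) le_rfl]
  have s1 : ∑ j ∈ range J, e (j + 1) ≤ β / 1000 := by
    rw [sum_range_succ', sum_range_succ] at he
    linarith [e0 0 (by omega), e0 (J + 1) le_rfl]
  have s2 : ∑ j ∈ range J, e (j + 2) ≤ β / 1000 := by
    rw [sum_range_succ', sum_range_succ'] at he
    linarith [e0 0 (by omega), e0 (0 + 1) (by omega)]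
  have sf : ∀ f, CP f → (∀ x, 0 ≤ f x ∧ f x ≤ 1) →
      ∑ j ∈ range J, ∫ x in (0 : ℝ)..1, (F_A (l (j + 3)) f x - F_A (l j) f x) ^ 2
        ≤ 4 * ∫ x in (0 : ℝ)..1, f x := fun f cf f01 => by
    have f0 := F_nonneg fun x => (f01 x).1
    set n : ℕ → ℝ := fun j => ∫ x in (0 : ℝ)..1, F_A (l j) f x ^ 2 with hn
    have n0 : ∀ j, 0 ≤ n j := fun j => F_nonneg fun x => sq_nonneg _
    have n1 : ∀ j, j ≤ J + 2 → n j ≤ ∫ x in (0 : ℝ)..1, f x := fun j hj =>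
      F_A_sq_le (hl j) (sm j hj) cf f01
    have a1 : ∑ j ∈ range J, ∫ x in (0 : ℝ)..1, (F_A (l (j + 3)) f x - F_A (l j) f x) ^ 2
        ≤ ∑ j ∈ range J, ((n (j + 1) + n (j + 1 + 1) + n (j + 1 + 2) - (n j + n (j + 1) + n (j + 2)))
          + e j * (32 * ∫ x in (0 : ℝ)..1, f x)) := sum_le_sum fun j hj => by
      have hj := mem_range.1 hj
      have := F_sqf (ε := e j) (hl (j + 3)) (sm _ (by omega)) (hl j) (sm _ (by omega))
        (by linarith [dec (j + 2) (by omega), dec (j + 1) (by omega), hr j (by omega)]) cf f01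
      simp only [hn]
      linarith
    rw [sum_add_distrib, sum_range_sub (fun j => n j + n (j + 1) + n (j + 2)), ← sum_mul] at a1
    have a2 := mul_le_mul_of_nonneg_right s0 f0
    have a3 := mul_le_mul_of_nonneg_right hβ1 f0
    linarith [n0 0, n0 (0 + 1), n0 (0 + 2), n1 J (by omega), n1 (J + 1) (by omega),
      n1 (J + 2) le_rfl]
  have cP : ∀ i, Continuous (P i) := fun i => Reg.continuous (hP i).1
  have cπ : ∀ j i, Continuous fun x => F_pi (l (j + 2)) (l (j + 1)) g (P i x) := fun j i =>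
    (F_pi_cp cg).1.comp (cP i)
  have G0 := F_nonneg fun x => (g01 x).1
  have H0 := F_nonneg fun x => (h01 x).1
  have t1 : ∀ y, g y ≤ ∑ j ∈ range J, F_pi (l (j + 2)) (l (j + 1)) g y + β / 5 := fun y => by
    simp only [F_pi_eq cg]
    rw [sum_range_sub (fun j => cv (tk (l (j + 1))) g y)]
    have a1 := cv_tk_sub (hl (J + 1)) (by linarith [sm (J + 1) (by omega)]) cg gl y
    have a2 := cv_tk_le (hl (0 + 1)) cg (fun x => (g01 x).1) y
    have a3 : (∫ x in (0 : ℝ)..1, g x) / l (0 + 1) ≤ β / 10 := by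
      rw [div_le_iff₀ (hl _)]
      exact gs.trans hσ
    linarith [neg_le_of_abs_le a1]
  have t2 := F_avg_le hk (a := fun i => ∫ x in (0 : ℝ)..1, g (P i x) * h x)
    (b := fun i => ∑ j ∈ range J, ∫ x in (0 : ℝ)..1, F_pi (l (j + 2)) (l (j + 1)) g (P i x) * h x)
    (c := β / 5 * ∫ x in (0 : ℝ)..1, h x) fun i => by
      rw [← F_sum _ (fun j => cπ j i) ch.1]
      exact F_sup (cg.1.comp (cP i)) (continuous_finsetSum _ fun j _ => cπ j i) ch.1
        (fun x => (h01 x).1) fun x => t1 (P i x)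
  rw [sum_comm, sum_div (range J)] at t2
  have t3 : ∑ j ∈ range J,
      (∑ i, ∫ x in (0 : ℝ)..1, F_pi (l (j + 2)) (l (j + 1)) g (P i x) * h x) / k
      ≤ ∑ j ∈ range J, (3 / 2 * (β / 1000) *
          ((∫ x in (0 : ℝ)..1, (F_A (l (j + 3)) g x - F_A (l j) g x) ^ 2)
            + ∫ x in (0 : ℝ)..1, (F_A (l (j + 3)) h x - F_A (l j) h x) ^ 2)
        + ((16 * e j + 16 * e (j + 1) + 65 * e (j + 2)) * (∫ x in (0 : ℝ)..1, h x)
          + 36 * e j * ∫ x in (0 : ℝ)..1, g x)) := sum_le_sum fun j hj => by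
    have hj := mem_range.1 hj
    refine (F_avg_le hk fun i => F_band (hl (j + 3)) (dec (j + 2) (by omega))
      (dec (j + 1) (by omega)) (dec j (by omega)) (sm j (by omega)) (hr j (by omega))
      (hr (j + 2) (by omega)) (hP i).1 (hQ (j + 1) (by omega) (by omega) i) (by linarith)
      (hPQ (j + 1) (by omega) (by omega) i) cg ch g01 h01).trans (add_le_add_left ?_ _)
    exact F_main hk (hl (j + 2)) (dec (j + 1) (by omega)) (sm (j + 1) (by omega))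
      (hQ (j + 1) (by omega) (by omega)) hκ (by linarith) (by linarith) hρ0 hρ
      (hg (j + 1) (by omega) (by omega)) (F_cp_sub (F_A_cp cg) (F_A_cp cg))
      (F_cp_sub (F_A_cp ch) (F_A_cp ch)).1
  simp only [sum_add_distrib, ← mul_sum, ← sum_mul] at t3
  rw [F_avg (u := fun i x => g (P i x)) (fun i => cg.1.comp (cP i)) ch.1]
  have b1 := mul_le_mul_of_nonneg_left (add_le_add (sf g cg g01) (sf h ch h01)) hβ.le
  have b2 := mul_le_mul_of_nonneg_right s0 H0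
  have b3 := mul_le_mul_of_nonneg_right s1 H0
  have b4 := mul_le_mul_of_nonneg_right s2 H0
  have b5 := mul_le_mul_of_nonneg_right s0 G0
  have b6 := mul_nonneg hβ.le G0
  have b7 := mul_nonneg hβ.le H0
  linarith

end Pool.Agent.P.MP_0354a7_al
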