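import Pool.Agent.P.MP_0354a7_al.PF.Defs

/-!
A block of `k` elementary moves, with the computation of the nonlinearity.
-/

namespace Pool.Agent.P.MP_0354a7_al

open Real Finset

theorem A2_reg {e : Equiv.Perm ℝ} {c : ℝ} {p p1 p2 : ℝ → ℝ} (h : C2P p p1 p2)
    (he : ∀ x, e x = x + c + p x) (hb : ∀ x, |p1 x| ≤ 1 / 2) :
    IsReg e ∧ Per e ∧ ∀ x, nl e x = p2 x / (1 + p1 x) := by
  obtain ⟨e', h1, h2⟩ := exists_perm (p := fun x => c + p x) (fun x => (h.1 x).const_add c) h.2.1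
    h.2.2.1 hb
  obtain rfl : e = e' := Equiv.ext fun x => by rw [he, h1]; ring
  exact ⟨h2.isReg, fun x => by rw [he, he, h.2.2.2]; ring, fun x => congrFun h2.nl_eq x⟩

theorem A2_div {y t c : ℝ} (ht : |t| ≤ 1 / 2) (hy : |y| ≤ c) : |y / (1 + t)| ≤ 2 * c := by
  have h1 : 1 / 2 ≤ 1 + t := by linarith [(abs_le.1 ht).1]
  rw [abs_div, abs_of_pos (by linarith : 0 < 1 + t), div_le_iff₀ (by linarith)]
  nlinarith [abs_nonneg y]

theorem A2_mul {y z c c' : ℝ} (hy : |y| ≤ c) (hz : |z| ≤ c') : |y * z| ≤ c * c' := by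
  rw [abs_mul]
  exact mul_le_mul hy hz (abs_nonneg _) ((abs_nonneg _).trans hy)

theorem A2_exp {t : ℝ} (h : t ≤ 1 / 2) : exp t ≤ 2 := by
  have h1 : exp t * exp t ≤ exp 1 := by rw [← exp_add]; exact exp_le_exp.2 (by linarith)
  nlinarith [exp_one_lt_d9, exp_pos t]

theorem A2_abs_exp {t : ℝ} (h : |t| ≤ 1 / 2) : |exp t| ≤ 2 := by
  rw [abs_of_pos (exp_pos _)]
  exact A2_exp (le_of_abs_le h)

theorem A2_smu {η τ : ℝ} {u : Equiv.Perm ℝ} (h : Smu η τ u) (hη : η ≤ 1 / 2) :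
    Good (2 * η) u ∧ ∀ x y, |nl u x - nl u y| ≤ 4 * η * |x - y| := by
  obtain ⟨s, s1, s2, he, hc, hb, hl⟩ := h
  have h1 : ∀ x, |s1 x| ≤ 1 / 2 := fun x => (hb x).2.1.trans hη
  have h0 : 0 ≤ η := (abs_nonneg _).trans (hb 0).1
  obtain ⟨r1, r2, r3⟩ := A2_reg hc he h1
  refine ⟨⟨r1, r2, fun x => by rw [r3]; exact A2_div (h1 x) (hb x).2.2⟩, fun x y => ?_⟩
  have px : 1 + s1 x ≠ 0 := by linarith [(abs_le.1 (h1 x)).1]
  have py : 1 + s1 y ≠ 0 := by linarith [(abs_le.1 (h1 y)).1]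
  have e : nl u x - nl u y = (s2 x - s2 y) / (1 + s1 x)
      + s2 y * (s1 y - s1 x) / (1 + s1 x) / (1 + s1 y) := by
    rw [r3, r3]; field_simp; ring
  have a1 := A2_div (h1 x) (hl x y)
  have a2 : |s1 y - s1 x| ≤ η * |x - y| := by
    rw [abs_sub_comm]; exact mvt_abs hc.2.1 (fun z => (hb z).2.2) x y
  have a3 := A2_div (h1 y) (A2_div (h1 x) (A2_mul (hb y).2.2 a2))
  have a4 : η * (η * |x - y|) ≤ 1 / 2 * (η * |x - y|) :=
    mul_le_mul_of_nonneg_right hη (by positivity)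
  rw [e]
  linarith [abs_add_le ((s2 x - s2 y) / (1 + s1 x))
    (s2 y * (s1 y - s1 x) / (1 + s1 x) / (1 + s1 y))]

/-- One move. -/
theorem A2_move {κ η τ d d' ε : ℝ} {S u H : Equiv.Perm ℝ} (hS : Good κ S) (hu : Smu η τ u)
    (hH : IsReg H) (hP : Per H) (hd : ∀ x, |nl H x - nl S x| ≤ d) (hd' : ∀ x, |H x - S x| ≤ d')
    (hS1 : ∀ x, |S x - x| ≤ 1) (hκ : κ ≤ 1 / 2) (hη : η ≤ 1 / 4) (hdd : 2 * d + d' ≤ 1)
    (e1 : η ≤ ε) (e2 : κ ≤ ε) (e3 : 2 * d ≤ ε) (e4 : d' ≤ ε) :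
    ∃ H' : Equiv.Perm ℝ, IsReg H' ∧ Per H' ∧ Link ε τ H H' ∧
      (∀ x, |H' x - S x| ≤ exp (2 * η) * d') ∧
      ∀ x, |nl H' x - nl S x - (nl H ((S⁻¹ * u * S) x) - nl S ((S⁻¹ * u * S) x))
        * exp (ph (S⁻¹ * u * S) x)| ≤ 24 * η * (d + d') := by
  obtain ⟨gu, lu⟩ := A2_smu hu (by linarith)
  have η0 : 0 ≤ η := by linarith [gu.nonneg]
  have d0 : 0 ≤ d := (abs_nonneg _).trans (hd 0)
  have d0' : 0 ≤ d' := (abs_nonneg _).trans (hd' 0)
  set A := H * S⁻¹ with hA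
  set B := u⁻¹ * A * u with hB
  set v := S⁻¹ * u * S with hv
  have rA : IsReg A := hH.mul hS.1.inv
  have pA : Per A := hP.mul hS.2.1.inv
  have rB : IsReg B := (gu.1.inv.mul rA).mul gu.1
  have pB : Per B := (gu.2.1.inv.mul pA).mul gu.2.1
  have rv : IsReg v := (hS.1.inv.mul gu.1).mul hS.1
  have eH : H = A * S := by rw [hA]; group
  have eB : u * B = A * u := by rw [hB]; group
  have ev : S * v = u * S := by rw [hv]; group
  have nH : ∀ x, nl H x - nl S x = nl A (S x) * exp (ph S x) := fun x => by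
    rw [eH, rA.nl_mul hS.1]; ring
  have nA : ∀ y, |nl A y| ≤ 2 * d := fun y => by
    have h1 : nl A y = (nl H (S⁻¹ y) - nl S (S⁻¹ y)) * exp (-ph S (S⁻¹ y)) := by
      rw [nH, ap_inv, mul_assoc, ← exp_add, add_neg_cancel, exp_zero, mul_one]
    rw [h1, mul_comm 2 d]
    exact A2_mul (hd _) (A2_abs_exp (by rw [abs_neg]; exact (hS.ph_le _).trans hκ))
  have gA : Good (2 * d) A := ⟨rA, pA, nA⟩
  have dA : ∀ y, |A y - y| ≤ d' := fun y => by
    have := hd' (S⁻¹ y)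
    rwa [ap_inv] at this
  have dB : ∀ z, |B z - z| ≤ exp (2 * η) * d' := fun z => by
    have := gu.lip_inv (A (u z)) (u z)
    rw [inv_ap] at this
    exact this.trans (mul_le_mul_of_nonneg_left (dA _) (exp_pos _).le)
  have dB' : ∀ z, |B z - z| ≤ 2 * d' := fun z =>
    (dB z).trans (mul_le_mul_of_nonneg_right (A2_exp (by linarith)) d0')
  have phB : ∀ z, |ph B z| ≤ 2 * d + d' := fun z => by
    have h1 : ph (u * B) z = ph (A * u) z := by rw [eB]
    rw [gu.1.ph_mul rB, rA.ph_mul gu.1] at h1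
    have h2 := mvt_abs gu.1.d2 gu.2.2 z (B z)
    rw [abs_sub_comm z] at h2
    have h3 := mul_le_mul_of_nonneg_left (dB' z) gu.nonneg
    have h4 : η * d' ≤ 1 / 4 * d' := mul_le_mul_of_nonneg_right hη d0'
    have h5 : ph B z = ph A (u z) + (ph u z - ph u (B z)) := by linarith
    rw [h5]
    linarith [abs_add_le (ph A (u z)) (ph u z - ph u (B z)), gA.ph_le (u z)]
  have nB : ∀ z, |nl B z - nl A (u z) * exp (ph u z)| ≤ 12 * η * (d + d') := fun z => by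
    have h1 : nl (u * B) z = nl (A * u) z := by rw [eB]
    rw [gu.1.nl_mul rB, rA.nl_mul gu.1] at h1
    have h2 : nl B z - nl A (u z) * exp (ph u z)
        = (nl u z - nl u (B z)) - nl u (B z) * (exp (ph B z) - 1) := by linarith
    have h3 := lu z (B z)
    rw [abs_sub_comm z] at h3
    have h4 := mul_le_mul_of_nonneg_left (dB' z) (by positivity : 0 ≤ 4 * η)
    have h5 := A2_mul (gu.2.2 (B z)) (abs_exp_sub_one (phB z) hdd)
    have h6 := mul_nonneg η0 d0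
    rw [h2]
    linarith [abs_sub (nl u z - nl u (B z)) (nl u (B z) * (exp (ph B z) - 1))]
  refine ⟨B * S, rB.mul hS.1, pB.mul hS.2.1, ?_, fun x => dB (S x), fun x => ?_⟩
  · obtain ⟨s, s1, s2, he, hc, hb, -⟩ := hu
    exact ⟨A, S, u, s, s1, s2, rA, hS.1, pA, hS.2.1, eH, rfl, he, hc.2.2.2, hc.1, hc.2.1,
      hc.2.2.1, fun x => ⟨(hb x).1.trans e1, (hb x).2.1.trans e1, (hb x).2.2.trans e1,
        (nA x).trans e3, (hS.2.2 x).trans e2, (dA x).trans e4, hS1 x⟩⟩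
  · have h1 : S (v x) = u (S x) := by
      rw [← Equiv.Perm.mul_apply, ev, Equiv.Perm.mul_apply]
    have h2 : ph (S * v) x = ph (u * S) x := by rw [ev]
    rw [hS.1.ph_mul rv, gu.1.ph_mul hS.1] at h2
    have h3 : exp (ph S (v x)) * exp (ph v x) = exp (ph u (S x)) * exp (ph S x) := by
      rw [← exp_add, ← exp_add, h2]
    have h4 : nl (B * S) x - nl S x - (nl H (v x) - nl S (v x)) * exp (ph v x)
        = (nl B (S x) - nl A (u (S x)) * exp (ph u (S x))) * exp (ph S x) := by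
      rw [rB.nl_mul hS.1, nH, h1, mul_assoc, h3]; ring
    rw [h4]
    have := A2_mul (nB (S x)) (A2_abs_exp ((hS.ph_le x).trans hκ))
    linarith

theorem A2_cons {ε τ : ℝ} {n : ℕ} {F F' F'' : Equiv.Perm ℝ} (h0 : 0 ≤ τ) (h1 : τ ≤ 1)
    (h : Link ε τ F F') (h' : Links ε n F' F'') : Links ε (n + 1) F F'' := by
  obtain ⟨G, g0, gn, g⟩ := h'
  refine ⟨fun j => Nat.casesOn j F G, rfl, gn, fun j hj => ?_⟩
  rcases j with _ | j
  · exact ⟨τ, h0, h1, by simpa only [Nat.rec_zero, zero_add, g0] using (g0 ▸ h : Link ε τ F (G 0))⟩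
  · exact g j (by omega)

theorem A2_c2p {b b1 b2 : ℝ → ℝ} {q q1 q2 : ℕ → ℝ → ℝ} (hb : C2P b b1 b2) (i : ℕ)
    (hq : ∀ j, j < i → C2P (q j) (q1 j) (q2 j)) :
    C2P (fun x => b x + ∑ j ∈ range i, q j x) (fun x => b1 x + ∑ j ∈ range i, q1 j x)
      (fun x => b2 x + ∑ j ∈ range i, q2 j x) :=
  ⟨fun x => (hb.1 x).add (HasDerivAt.fun_sum fun j hj => (hq j (mem_range.1 hj)).1 x),
    fun x => (hb.2.1 x).add (HasDerivAt.fun_sum fun j hj => (hq j (mem_range.1 hj)).2.1 x),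
    hb.2.2.1.add (continuous_finsetSum _ fun j hj => (hq j (mem_range.1 hj)).2.2.1),
    fun x => by
      dsimp only
      rw [hb.2.2.2, sum_congr rfl fun j hj => (hq j (mem_range.1 hj)).2.2.2 x]⟩

theorem A2_sum {f : ℕ → ℝ} {c : ℝ} (s : Finset ℕ) (h : ∀ j ∈ s, |f j| ≤ c) :
    |∑ j ∈ s, f j| ≤ s.card * c := by
  refine (abs_sum_le_sum_abs _ _).trans ((sum_le_sum h).trans ?_)
  rw [sum_const, nsmul_eq_mul]

/-- The induction along the block. -/
theorem A2_ind {k : ℕ} {ε η τ δ : ℝ} {S u : ℕ → Equiv.Perm ℝ} (hε : 0 ≤ ε) (hη : 0 ≤ η)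
    (hδ : 0 ≤ δ) (hkδ : k * δ = ε) (hC : 1000 * k * (ε + η) ≤ 1) (h0 : 0 ≤ τ) (h1 : τ ≤ 1)
    (hS : ∀ i, i ≤ k → Good (4 * ε) (S i)) (hu : ∀ i, i < k → Smu η τ (u i))
    (hS1 : ∀ i, i ≤ k → ∀ x, |S i x - x| ≤ 1)
    (hq : ∀ i, i < k → ∀ x, |S (i + 1) x - S i x| ≤ δ)
    (hβ : ∀ i, i < k → ∀ x, |nl (S (i + 1)) x - nl (S i) x| ≤ 2 * δ)
    (hv : ∀ i, i < k → ∀ x, |ph ((S i)⁻¹ * u i * S i) x| ≤ 8 * (ε + η))
    (hPP : ∀ i, i ≤ k → IsReg (PP S u i) ∧ ∀ x, |ph (PP S u i) x| ≤ 1 / 2) (i : ℕ) :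
    ∀ (m : ℕ) (H : Equiv.Perm ℝ), i + m = k → IsReg H → Per H →
      (∀ x, |nl H x - nl (S i) x| ≤ 3 * (m * δ * exp (m * (8 * (ε + η))))) →
      (∀ x, |H x - S i x| ≤ m * δ * exp (m * (8 * (ε + η)))) →
      ∃ F', Links (1000 * (ε + η)) i H F' ∧ IsReg F' ∧ Per F' ∧ (∀ x, |F' x - S 0 x| ≤ 2 * ε) ∧
        ∀ x, |nl F' x - nl (S 0) x - (nl H (PP S u i x) - nl (S i) (PP S u i x)) * exp (ph (PP S u i) x)
          - ∑ j ∈ range i, (nl (S (j + 1)) (PP S u (j + 1) x) - nl (S j) (PP S u (j + 1) x))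
            * exp (ph (PP S u (j + 1)) x)| ≤ i * (528 * η * ε) := by
  have hg : ∀ m : ℕ, m ≤ k → m * δ * exp (m * (8 * (ε + η))) ≤ 2 * ε := fun m hm => by
    have hm' : (m : ℝ) ≤ k := by exact_mod_cast hm
    have a1 : m * δ ≤ ε := hkδ ▸ mul_le_mul_of_nonneg_right hm' hδ
    have a2 : m * (ε + η) ≤ k * (ε + η) := mul_le_mul_of_nonneg_right hm' (by linarith)
    have a3 : exp (m * (8 * (ε + η))) ≤ 2 := A2_exp (by linarith)
    calc m * δ * exp (m * (8 * (ε + η))) ≤ ε * 2 := by gcongr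
      _ = 2 * ε := by ring
  induction i with
  | zero =>
    intro m H hm rH pH _ hd'
    refine ⟨H, ⟨fun _ => H, rfl, rfl, fun j hj => absurd hj (Nat.not_lt_zero j)⟩, rH, pH,
      fun x => (hd' x).trans (hg m (by omega)), fun x => ?_⟩
    simp [PP, pu, ph_one]
  | succ i ih =>
    intro m H hm rH pH hd hd'
    have hi : i < k := by omega
    have hk1 : (1 : ℝ) ≤ k := by exact_mod_cast (by omega : 1 ≤ k)
    have hs : 1000 * (ε + η) ≤ 1 := by nlinarith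
    have hδε : δ ≤ ε := by nlinarith
    set g := m * δ * exp (m * (8 * (ε + η))) with hgdef
    have g0 : 0 ≤ g := by positivity
    have g2 : g ≤ 2 * ε := hg m (by omega)
    have c1 : ∀ x, |nl H x - nl (S i) x| ≤ 3 * g + 2 * δ := fun x => by
      linarith [abs_sub_le (nl H x) (nl (S (i + 1)) x) (nl (S i) x), hd x, hβ i hi x]
    have c2 : ∀ x, |H x - S i x| ≤ g + δ := fun x => by
      linarith [abs_sub_le (H x) (S (i + 1) x) (S i x), hd' x, hq i hi x]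
    obtain ⟨H', rH', pH', lk, m1, m2⟩ := A2_move (ε := 1000 * (ε + η)) (hS i hi.le) (hu i hi) rH pH
      c1 c2 (hS1 i hi.le) (by linarith) (by linarith) (by linarith) (by linarith) (by linarith)
      (by linarith) (by linarith)
    set v := (S i)⁻¹ * u i * S i with hvdef
    have E1 : 24 * η * (3 * g + 2 * δ + (g + δ)) ≤ 264 * η * ε := by
      have : η * (3 * g + 2 * δ + (g + δ)) ≤ η * (11 * ε) :=
        mul_le_mul_of_nonneg_left (by linarith) hη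
      linarith
    have E2 : 264 * η * ε ≤ δ := by
      have : 264 * η * k ≤ 1 := by nlinarith
      rw [← hkδ]
      nlinarith
    have x1 : 1 ≤ exp (8 * (ε + η)) := one_le_exp (by linarith)
    have x2 : 1 ≤ exp (m * (8 * (ε + η))) := one_le_exp (by positivity)
    have x3 : exp (8 * (ε + η)) * (g + δ)
        ≤ ((m + 1 : ℕ) : ℝ) * δ * exp (((m + 1 : ℕ) : ℝ) * (8 * (ε + η))) := by
      push_cast
      rw [add_mul (m : ℝ) 1 (8 * (ε + η)), exp_add, one_mul]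
      have : g + δ ≤ (m + 1) * δ * exp (m * (8 * (ε + η))) := by
        have := mul_le_mul_of_nonneg_left x2 hδ
        rw [hgdef]; linarith
      calc exp (8 * (ε + η)) * (g + δ)
          ≤ exp (8 * (ε + η)) * ((m + 1) * δ * exp (m * (8 * (ε + η)))) := by gcongr
        _ = _ := by ring
    obtain ⟨F', lks, rF, pF, f1, f2⟩ := ih (m + 1) H' (by omega) rH' pH' (fun x => by
        have a1 : |exp (ph v x)| ≤ exp (8 * (ε + η)) := by
          rw [abs_of_pos (exp_pos _)]; exact exp_le_exp.2 (le_of_abs_le (hv i hi x))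
        have a2 := A2_mul (c1 (v x)) a1
        have a3 := abs_sub_abs_le_abs_sub (nl H' x - nl (S i) x)
          ((nl H (v x) - nl (S i) (v x)) * exp (ph v x))
        have a4 := mul_le_mul_of_nonneg_left x1 hδ
        linarith [m2 x])
      (fun x => (m1 x).trans (le_trans (mul_le_mul_of_nonneg_right
        (exp_le_exp.2 (by linarith)) (by linarith)) x3))
    refine ⟨F', A2_cons h0 h1 lk lks, rF, pF, f1, fun x => ?_⟩
    have rv : IsReg v := ((hS i hi.le).1.inv.mul (A2_smu (hu i hi) (by linarith)).1.1).mul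
      (hS i hi.le).1
    have p1 : PP S u (i + 1) x = v (PP S u i x) := rfl
    have p2 : exp (ph (PP S u (i + 1)) x) = exp (ph v (PP S u i x)) * exp (ph (PP S u i) x) := by
      rw [← exp_add, ← rv.ph_mul (hPP i hi.le).1]; rfl
    have a1 := A2_mul (m2 (PP S u i x)) (A2_abs_exp ((hPP i hi.le).2 x))
    have a2 := f2 x
    rw [sum_range_succ, p1, p2]
    push_cast
    rw [abs_le] at a1 a2 ⊢
    constructor <;> linarith [a1.1, a1.2, a2.1, a2.2]

theorem block_links : ∃ C : ℝ, 1 ≤ C ∧ ∀ (k : ℕ) (ε η a τ D : ℝ) (S u : ℕ → Equiv.Perm ℝ)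
    (b b1 b2 : ℝ → ℝ) (q q1 q2 : ℕ → ℝ → ℝ), 0 < k → C * k * (ε + η) ≤ 1 → 0 ≤ τ → τ ≤ 1 →
    D ≤ 1 / 2 → a ≤ ε → C2P b b1 b2 → (∀ x, |b2 x| ≤ a) →
    (∀ i, i < k → C2P (q i) (q1 i) (q2 i) ∧ ∀ x, |q i x| ≤ ε / k ∧ |q2 i x| ≤ ε / k) →
    (∀ i, i ≤ k → ∀ x, S i x = x + b x + ∑ j ∈ range i, q j x) → (∀ i, i < k → Smu η τ (u i)) →
    (∀ x, |S k x - x| ≤ D) → (∀ x, |∑ i : Fin k, q2 i (PL k S u i x)| ≤ a) →
    ∃ F', Links (C * (ε + η)) k (S k) F' ∧ Good (3 * a + C * k * ε * (ε + η)) F' ∧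
      ∀ x, |F' x - x| ≤ D + C * ε := by
  refine ⟨1000, by norm_num, ?_⟩
  intro k ε η a τ D S u b b1 b2 q q1 q2 hk hC h0 h1 hD ha hb hb2 hq hS hu hSD hsum
  have a0 : 0 ≤ a := (abs_nonneg _).trans (hb2 0)
  have hε : 0 ≤ ε := a0.trans ha
  have hη : 0 ≤ η := by
    obtain ⟨s, s1, s2, -, -, h, -⟩ := hu 0 hk
    exact (abs_nonneg _).trans (h 0).1
  have hk1 : (1 : ℝ) ≤ k := by exact_mod_cast hk
  set δ := ε / k with hδdef
  have hδ : 0 ≤ δ := by positivity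
  have hkδ : k * δ = ε := by rw [hδdef]; field_simp
  have hs : 1000 * (ε + η) ≤ 1 := by nlinarith
  have hiδ : ∀ i : ℕ, i ≤ k → i * δ ≤ ε := fun i hi =>
    hkδ ▸ mul_le_mul_of_nonneg_right (by exact_mod_cast hi) hδ
  have cp : ∀ i, i ≤ k → C2P (fun x => b x + ∑ j ∈ range i, q j x)
      (fun x => b1 x + ∑ j ∈ range i, q1 j x) (fun x => b2 x + ∑ j ∈ range i, q2 j x) :=
    fun i hi => A2_c2p hb i fun j hj => (hq j (by omega)).1
  have p2 : ∀ i, i ≤ k → ∀ x, |b2 x + ∑ j ∈ range i, q2 j x| ≤ 2 * ε := fun i hi x => by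
    have := A2_sum (range i) fun j hj => ((hq j (by have := mem_range.1 hj; omega)).2 x).2
    rw [card_range] at this
    linarith [abs_add_le (b2 x) (∑ j ∈ range i, q2 j x), hb2 x, hiδ i hi]
  have p1 : ∀ i, i ≤ k → ∀ x, |b1 x + ∑ j ∈ range i, q1 j x| ≤ 2 * ε := fun i hi =>
    (cp i hi).d1_le (p2 i hi)
  have p1' : ∀ i, i ≤ k → ∀ x, |b1 x + ∑ j ∈ range i, q1 j x| ≤ 1 / 2 := fun i hi x =>
    (p1 i hi x).trans (by linarith)
  have rS := fun i (hi : i ≤ k) => A2_reg (e := S i) (c := 0) (cp i hi)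
    (fun x => by rw [hS i hi]; ring) (p1' i hi)
  have gS : ∀ i, i ≤ k → Good (4 * ε) (S i) := fun i hi =>
    ⟨(rS i hi).1, (rS i hi).2.1, fun x => by
      rw [(rS i hi).2.2]
      linarith [A2_div (p1' i hi x) (p2 i hi x)]⟩
  have dS : ∀ i, i ≤ k → ∀ x, |S i x - x| ≤ D + ε := fun i hi x => by
    have h2 := A2_sum (Ico i k) fun j hj => ((hq j (mem_Ico.1 hj).2).2 x).1
    rw [Nat.card_Ico] at h2
    have h3 : S i x - x = (S k x - x) - ∑ j ∈ Ico i k, q j x := by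
      rw [hS i hi, hS k le_rfl, ← sum_range_add_sum_Ico _ hi]; ring
    rw [h3]
    linarith [abs_sub (S k x - x) (∑ j ∈ Ico i k, q j x), hSD x, hiδ (k - i) (Nat.sub_le _ _)]
  have β1 : ∀ i, i < k → ∀ x, |nl (S (i + 1)) x - nl (S i) x - q2 i x| ≤ 12 * ε * δ := by
    intro i hi x
    have t1 := p1' i hi.le x
    have t2 := p1' (i + 1) hi x
    have t3 := p1 (i + 1) hi x
    rw [(rS (i + 1) hi).2.2, (rS i hi.le).2.2]
    rw [sum_range_succ, ← add_assoc] at t2 t3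
    rw [sum_range_succ, sum_range_succ, ← add_assoc (b1 x), ← add_assoc (b2 x)]
    have t4 := p2 i hi.le x
    generalize b1 x + ∑ j ∈ range i, q1 j x = y1 at *
    generalize b2 x + ∑ j ∈ range i, q2 j x = y2 at *
    have n1 : 1 + y1 ≠ 0 := by linarith [(abs_le.1 t1).1]
    have n2 : 1 + (y1 + q1 i x) ≠ 0 := by linarith [(abs_le.1 t2).1]
    have e : (y2 + q2 i x) / (1 + (y1 + q1 i x)) - y2 / (1 + y1) - q2 i x
        = -(q2 i x * (y1 + q1 i x) / (1 + (y1 + q1 i x)))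
          - y2 * q1 i x / (1 + y1) / (1 + (y1 + q1 i x)) := by
      field_simp; ring
    have b1 := A2_div t2 (A2_mul ((hq i hi).2 x).2 t3)
    have b2 := A2_div t2 (A2_div t1 (A2_mul t4
      ((hq i hi).1.d1_le (fun z => ((hq i hi).2 z).2) x)))
    have b3 := abs_sub (-(q2 i x * (y1 + q1 i x) / (1 + (y1 + q1 i x))))
      (y2 * q1 i x / (1 + y1) / (1 + (y1 + q1 i x)))
    rw [abs_neg] at b3
    rw [e]
    linarith
  have β2 : ∀ i, i < k → ∀ x, |nl (S (i + 1)) x - nl (S i) x| ≤ 2 * δ := fun i hi x => by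
    have := abs_sub_abs_le_abs_sub (nl (S (i + 1)) x - nl (S i) x) (q2 i x)
    have h2 : 12 * ε * δ ≤ 1 * δ := mul_le_mul_of_nonneg_right (by linarith) hδ
    linarith [β1 i hi x, ((hq i hi).2 x).2]
  have gu : ∀ i, i < k → Good (2 * η) (u i) := fun i hi => (A2_smu (hu i hi) (by linarith)).1
  have rv : ∀ i, i < k → IsReg ((S i)⁻¹ * u i * S i) := fun i hi =>
    ((gS i hi.le).1.inv.mul (gu i hi).1).mul (gS i hi.le).1
  have hv : ∀ i, i < k → ∀ x, |ph ((S i)⁻¹ * u i * S i) x| ≤ 8 * (ε + η) := fun i hi x => by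
    have g := gS i hi.le
    rw [(g.1.inv.mul (gu i hi).1).ph_mul g.1, g.1.inv.ph_mul (gu i hi).1, g.1.ph_inv]
    have t1 := abs_le.1 (g.ph_le ((S i)⁻¹ (u i (S i x))))
    have t2 := abs_le.1 ((gu i hi).ph_le (S i x))
    have t3 := abs_le.1 (g.ph_le x)
    rw [abs_le]
    constructor <;> linarith [t1.1, t1.2, t2.1, t2.2, t3.1, t3.2]
  have hPP : ∀ i, i ≤ k → IsReg (PP S u i) ∧ ∀ x, |ph (PP S u i) x| ≤ i * (8 * (ε + η)) := by
    intro i
    induction i with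
    | zero => exact fun _ => ⟨IsReg.one, fun x => by simp [PP, pu, ph_one]⟩
    | succ i ih =>
      intro hi
      obtain ⟨r, h⟩ := ih (by omega)
      refine ⟨(rv i hi).mul r, fun x => ?_⟩
      have e : ph (PP S u (i + 1)) x = _ := (rv i hi).ph_mul r x
      rw [e]
      push_cast
      linarith [abs_add_le (ph ((S i)⁻¹ * u i * S i) (PP S u i x)) (ph (PP S u i) x), h x,
        hv i hi (PP S u i x)]
  have hPP' : ∀ i, i ≤ k → ∀ x, |ph (PP S u i) x| ≤ k * (8 * (ε + η)) := fun i hi x =>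
    ((hPP i hi).2 x).trans (mul_le_mul_of_nonneg_right (by exact_mod_cast hi) (by linarith))
  obtain ⟨F', lks, rF, pF, f1, f2⟩ := A2_ind hε hη hδ hkδ hC h0 h1 gS hu
    (fun i hi x => (dS i hi x).trans (by linarith))
    (fun i hi x => by
      rw [hS (i + 1) hi, hS i hi.le, sum_range_succ]
      convert ((hq i hi).2 x).1 using 2
      ring) β2 hv
    (fun i hi => ⟨(hPP i hi).1, fun x => (hPP' i hi x).trans (by linarith)⟩) k 0 (S k) rfl
    (gS k le_rfl).1 (gS k le_rfl).2.1 (fun x => by simp) (fun x => by simp)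
  refine ⟨F', lks, ⟨rF, pF, fun x => ?_⟩, fun x => ?_⟩
  · have t0 : |nl (S 0) x| ≤ 2 * a := by
      rw [(rS 0 (Nat.zero_le _)).2.2]
      exact A2_div (p1' 0 (Nat.zero_le _) x) (by simpa using hb2 x)
    have t1 := f2 x
    have t2 : |∑ j ∈ range k, q2 j (PP S u (j + 1) x)| ≤ a := by
      rw [← Fin.sum_univ_eq_sum_range (fun j => q2 j (PP S u (j + 1) x)) k]
      exact hsum x
    have t3 := A2_sum (f := fun j => (nl (S (j + 1)) (PP S u (j + 1) x) - nl (S j) (PP S u (j + 1) x))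
        * exp (ph (PP S u (j + 1)) x) - q2 j (PP S u (j + 1) x))
      (c := 12 * ε * δ * 2 + δ * (2 * (k * (8 * (ε + η))))) (range k) fun j hj => by
        have hj' := mem_range.1 hj
        have s1 := A2_mul (β1 j hj' (PP S u (j + 1) x))
          (A2_abs_exp ((hPP' (j + 1) hj' x).trans (by linarith)))
        have s2 := A2_mul ((hq j hj').2 (PP S u (j + 1) x)).2
          (abs_exp_sub_one (hPP' (j + 1) hj' x) (by linarith))
        rw [abs_le] at s1 s2 ⊢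
        constructor <;> linarith [s1.1, s1.2, s2.1, s2.2]
    rw [card_range, sum_sub_distrib] at t3
    have t4 : k * (12 * ε * δ * 2 + δ * (2 * (k * (8 * (ε + η)))))
        = 24 * (ε * ε) + 16 * (k * (ε * ε)) + 16 * (k * (η * ε)) := by
      rw [← hkδ]; ring
    have t5 : ε * ε ≤ k * (ε * ε) := le_mul_of_one_le_left (by positivity) hk1
    have t6 : 0 ≤ k * (η * ε) := by positivity
    have t7 : 0 ≤ k * (ε * ε) := by positivity
    rw [sub_self, zero_mul, sub_zero] at t1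
    rw [t4] at t3
    rw [abs_le] at t0 t1 t2 t3 ⊢
    constructor <;> linarith [t0.1, t0.2, t1.1, t1.2, t2.1, t2.2, t3.1, t3.2]
  · linarith [abs_sub_le (F' x) (S 0 x) x, f1 x, dS 0 (Nat.zero_le _) x]

end Pool.Agent.P.MP_0354a7_al
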