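import Pool.Agent.P.MP_0354a7_al.PF.CountA

/-!
Walks without lonely visits in a sparse labelled graph are few.
-/

namespace Pool.Agent.P.MP_0354a7_al

open Finset

open Classical in
/-- The vertices near one of the odd positions before the time `s`. -/
noncomputable def C_U {V : Type} [Fintype V] (near : V → V → Prop) (v : ℕ → V) (s : ℕ) :
    Finset V := (range (s / 2)).biUnion fun t => univ.filter (near (v (2 * t + 1)))

theorem C_mem_U {V : Type} [Fintype V] {near : V → V → Prop} {v : ℕ → V} {s : ℕ} {u : V} :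
    u ∈ C_U near v s ↔ ∃ t, t < s / 2 ∧ near (v (2 * t + 1)) u := by simp [C_U]

theorem C_U_congr {V : Type} [Fintype V] {near : V → V → Prop} {v v' : ℕ → V} {s : ℕ}
    (h : ∀ j < s, v j = v' j) : C_U near v s = C_U near v' s := by
  ext u
  rw [C_mem_U, C_mem_U]
  refine exists_congr fun t => and_congr_right fun ht => ?_
  rw [h _ (by omega)]

theorem C_U_card {V : Type} [Fintype V] {near : V → V → Prop}
    (hn : ∀ u (s : Finset V), (∀ b ∈ s, near u b) → s.card ≤ 23) (v : ℕ → V) (s : ℕ) :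
    (C_U near v s).card ≤ s / 2 * 23 := by
  classical
  unfold C_U
  refine (card_biUnion_le_card_mul _ _ 23 fun t _ => hn _ _ fun b hb => (mem_filter.1 hb).2).trans ?_
  rw [card_range]

/-- The labels from `u` into `X`, when they are few. -/
noncomputable def C_light {V L : Type} [Fintype L] (E : L → V → V → Prop) (D : ℕ) (u : V)
    (X : Finset V) : Finset L := if (C_lab E u X).card ≤ D then C_lab E u X else ∅

theorem C_light_card {V L : Type} [Fintype L] (E : L → V → V → Prop) (D : ℕ) (u : V)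
    (X : Finset V) : (C_light E D u X).card ≤ D := by
  unfold C_light
  split_ifs with h
  · exact h
  · simp

open Classical in
/-- The predictable labels at the time `s`. -/
noncomputable def C_cheap {V L : Type} [Fintype V] [Fintype L] (E : L → V → V → Prop)
    (near : V → V → Prop) (D : ℕ) (v : ℕ → V) (l : ℕ → L) (s : ℕ) : Finset L :=
  C_light E D (v s) (C_U near v s) ∪ C_light E D (v s) (C_heavy E D (C_U near v (s + 1)))
    ∪ if s = 0 then ∅ else {l (s - 1)}

theorem C_cheap_card {V L : Type} [Fintype V] [Fintype L] (E : L → V → V → Prop)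
    (near : V → V → Prop) (D : ℕ) (v : ℕ → V) (l : ℕ → L) (s : ℕ) :
    (C_cheap E near D v l s).card ≤ 2 * D + 1 := by
  classical
  unfold C_cheap
  refine (card_union_le _ _).trans (add_le_add ((card_union_le _ _).trans ?_) ?_)
  · have := C_light_card E D (v s) (C_U near v s)
    have := C_light_card E D (v s) (C_heavy E D (C_U near v (s + 1)))
    omega
  · split_ifs <;> simp

theorem C_cheap_congr {V L : Type} [Fintype V] [Fintype L] (E : L → V → V → Prop)
    (near : V → V → Prop) (D : ℕ) {v v' : ℕ → V} {l l' : ℕ → L} {s : ℕ}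
    (hv : ∀ j ≤ s, v j = v' j) (hl : ∀ j < s, l j = l' j) :
    C_cheap E near D v l s = C_cheap E near D v' l' s := by
  unfold C_cheap
  rw [hv s le_rfl, C_U_congr (v := v) (v' := v') (s := s) fun j hj => hv j hj.le,
    C_U_congr (v := v) (v' := v') (s := s + 1) fun j hj => hv j (by omega)]
  split_ifs with h
  · rfl
  · rw [hl _ (by omega)]

open Classical in
/-- One of the two directions has many cheap or advised steps. -/
theorem C_many {V L : Type} [Fintype V] [Fintype L] (E : L → V → V → Prop)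
    (near : V → V → Prop) (hn1 : ∀ u, near u u) (hn2 : ∀ u u', near u u' → near u' u)
    (hn3 : ∀ u (s : Finset V), (∀ b ∈ s, near u b) → s.card ≤ 23) {D N : ℕ} (v : ℕ → V)
    (l : ℕ → L) (adv : V → Finset L) (hw : ∀ j < 2 * N, E (l j) (v j) (v (j + 1)))
    (hNL : ∀ t < N, l (2 * t) ≠ l (2 * t + 1) →
      ∃ t' < N, t' ≠ t ∧ near (v (2 * t + 1)) (v (2 * t' + 1)))
    (hadv : ∀ l', ∀ a ∈ C_heavy E D (C_heavy E D (C_U near v (2 * N))),
      ∀ b ∈ C_heavy E D (C_U near v (2 * N)), E l' a b → l' ∈ adv a ∨ l' ∈ adv b) :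
    N ≤ 73 * ((range (2 * N)).filter fun t =>
        l t ∈ C_cheap E near D v l t ∨ l t ∈ adv (v t)).card ∨
      N ≤ 73 * ((range (2 * N)).filter fun t =>
        l (2 * N - 1 - t) ∈ (∅ : Finset L) ∨ l (2 * N - 1 - t) ∈ adv (v (2 * N - t))).card := by
  set F := (range (2 * N)).filter fun t => l t ∈ C_cheap E near D v l t ∨ l t ∈ adv (v t) with hF
  set B := (range (2 * N)).filter fun t =>
    l (2 * N - 1 - t) ∈ (∅ : Finset L) ∨ l (2 * N - 1 - t) ∈ adv (v (2 * N - t)) with hB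
  let Rev := (range N).filter fun t => v (2 * t + 1) ∈ C_U near v (2 * t)
  have h1 : Rev ⊆ F.image (fun s => s / 2) ∪ F.image (fun s => (s + 1) / 2)
      ∪ B.image (fun j => (2 * N - j) / 2) := fun t ht => by
    obtain ⟨ht1, ht2⟩ := mem_filter.1 ht
    rw [mem_range] at ht1
    obtain ⟨t0, ht0, -⟩ := C_mem_U.1 ht2
    obtain ⟨s, hs⟩ : ∃ s, 2 * t = s + 1 := ⟨2 * t - 1, by omega⟩
    by_cases c1 : (C_lab E (v (2 * t)) (C_U near v (2 * t))).card ≤ D
    · refine mem_union_left _ (mem_union_left _ (mem_image.2 ⟨2 * t, mem_filter.2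
        ⟨mem_range.2 (by omega), Or.inl ?_⟩, by omega⟩))
      refine mem_union_left _ (mem_union_left _ ?_)
      rw [C_light, if_pos c1]
      exact C_mem_lab.2 ⟨_, ht2, hw _ (by omega)⟩
    have c1' : v (s + 1) ∈ C_heavy E D (C_U near v (s + 1)) := by
      rw [← hs]; exact C_mem_heavy.2 (not_le.1 c1)
    have hsF : l s ∈ C_cheap E near D v l s ∨ l s ∈ adv (v s) →
        t ∈ F.image (fun s => s / 2) ∪ F.image (fun s => (s + 1) / 2)
          ∪ B.image (fun j => (2 * N - j) / 2) := fun h =>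
      mem_union_left _ (mem_union_right _ (mem_image.2 ⟨s, mem_filter.2
        ⟨mem_range.2 (by omega), h⟩, by omega⟩))
    by_cases c2 : (C_lab E (v s) (C_heavy E D (C_U near v (s + 1)))).card ≤ D
    · refine hsF (Or.inl (mem_union_left _ (mem_union_right _ ?_)))
      rw [C_light, if_pos c2]
      exact C_mem_lab.2 ⟨_, c1', hw _ (by omega)⟩
    have hU : C_U near v (s + 1) ⊆ C_U near v (2 * N) := fun u hu => by
      obtain ⟨t1, h1, h2⟩ := C_mem_U.1 hu
      exact C_mem_U.2 ⟨t1, by omega, h2⟩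
    rcases hadv (l s) (v s) (C_heavy_mono (C_heavy_mono hU) (C_mem_heavy.2 (not_le.1 c2)))
      (v (s + 1)) (C_heavy_mono hU c1') (hw _ (by omega)) with h | h
    · exact hsF (Or.inr h)
    · refine mem_union_right _ (mem_image.2 ⟨2 * N - 2 * t, mem_filter.2
        ⟨mem_range.2 (by omega), Or.inr ?_⟩, by omega⟩)
      rw [show 2 * N - 1 - (2 * N - 2 * t) = s by omega,
        show 2 * N - (2 * N - 2 * t) = s + 1 by omega]
      exact h
  have h2 : Rev.card ≤ F.card + F.card + B.card :=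
    (card_le_card h1).trans ((card_union_le _ _).trans (add_le_add ((card_union_le _ _).trans
      (add_le_add card_image_le card_image_le)) card_image_le))
  let Fr : ℕ → Finset ℕ := fun t' =>
    (range N).filter fun t => t ∉ Rev ∧ near (v (2 * t' + 1)) (v (2 * t + 1))
  have h3 : range N ⊆ F.image (fun s => s / 2) ∪ Rev ∪ Rev.biUnion Fr := fun t ht => by
    have ht' := mem_range.1 ht
    by_cases c1 : l (2 * t) = l (2 * t + 1)
    · refine mem_union_left _ (mem_union_left _ (mem_image.2 ⟨2 * t + 1, mem_filter.2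
        ⟨mem_range.2 (by omega), Or.inl (mem_union_right _ ?_)⟩, by omega⟩))
      rw [if_neg (by omega), Nat.add_sub_cancel, c1]
      exact mem_singleton_self _
    by_cases c2 : t ∈ Rev
    · exact mem_union_left _ (mem_union_right _ c2)
    obtain ⟨t', h1, h2, h3⟩ := hNL t ht' c1
    refine mem_union_right _ (mem_biUnion.2 ⟨t', mem_filter.2 ⟨mem_range.2 h1, ?_⟩,
      mem_filter.2 ⟨ht, c2, hn2 _ _ h3⟩⟩)
    refine C_mem_U.2 ⟨t, ?_, h3⟩
    by_contra hc
    exact c2 (mem_filter.2 ⟨ht, C_mem_U.2 ⟨t', by omega, hn2 _ _ h3⟩⟩)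
  have h4 : ∀ t' ∈ Rev, (Fr t').card ≤ 23 := fun t' _ => by
    rw [← card_image_of_injOn (s := Fr t') (f := fun t => v (2 * t + 1))]
    · refine hn3 (v (2 * t' + 1)) _ fun b hb => ?_
      obtain ⟨t, ht, rfl⟩ := mem_image.1 hb
      exact (mem_filter.1 ht).2.2
    · have k : ∀ t1 t2, t2 ∈ Fr t' → v (2 * t1 + 1) = v (2 * t2 + 1) → ¬t1 < t2 :=
        fun t1 t2 h2 h12 hlt => (mem_filter.1 h2).2.1 (mem_filter.2 ⟨(mem_filter.1 h2).1,
          C_mem_U.2 ⟨t1, by omega, h12 ▸ hn1 _⟩⟩)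
      intro t1 h1 t2 h2 h12
      have := k t1 t2 h2 h12
      have := k t2 t1 h1 h12.symm
      omega
  have h5 := card_biUnion_le_card_mul Rev Fr 23 h4
  have h6 : N ≤ F.card + Rev.card + (Rev.biUnion Fr).card := by
    have := card_le_card h3
    rw [card_range] at this
    exact this.trans ((card_union_le _ _).trans (add_le_add ((card_union_le _ _).trans
      (add_le_add card_image_le le_rfl)) le_rfl))
  omega

theorem C_weight {k D η : ℝ} (hk : 1 ≤ k) (hD : 0 < D) (h0 : 0 < η) (h1 : η ≤ 1)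
    (h : D ≤ η ^ 73 * √k) {N τ q : ℕ} (hq : N ≤ 73 * q) (hτ : 146 * τ ≤ N) :
    (1 / η) ^ N * k ^ τ ≤ (k / D) ^ q := by
  have s1 : 1 ≤ √k := Real.one_le_sqrt.2 hk
  have s2 : √k * √k = k := Real.mul_self_sqrt (by linarith)
  have a1 : (1 / η) ^ N ≤ ((1 / η) ^ 73) ^ q := by
    rw [← pow_mul]
    exact pow_le_pow_right₀ ((one_le_div h0).2 h1) hq
  have a2 : k ^ τ ≤ √k ^ q := by
    calc k ^ τ = √k ^ (2 * τ) := by rw [pow_mul, sq, s2]
      _ ≤ √k ^ q := pow_le_pow_right₀ s1 (by omega)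
  refine (mul_le_mul a1 a2 (by positivity) (by positivity)).trans ?_
  rw [← mul_pow]
  refine pow_le_pow_left₀ (by positivity) ?_ _
  rw [le_div_iff₀ hD, one_div_pow, div_mul_eq_mul_div, div_mul_eq_mul_div, one_mul,
    div_le_iff₀ (by positivity)]
  calc √k * D ≤ √k * (η ^ 73 * √k) := mul_le_mul_of_nonneg_left h (by linarith)
    _ = k * η ^ 73 := by rw [mul_left_comm, s2, mul_comm]

/-- The constant bounding the number of cheap labels. -/
def C_D (c0 A : ℕ) : ℕ := A + c0 * A * (6716 * A + 1)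

theorem C_main {Ω V L : Type} [Fintype V] [Fintype L] (E : L → V → V → Prop)
    (hs : ∀ l a b, E l a b → E l b a) (near : V → V → Prop) (hn1 : ∀ u, near u u)
    (hn2 : ∀ u u', near u u' → near u' u)
    (hn3 : ∀ u (s : Finset V), (∀ b ∈ s, near u b) → s.card ≤ 23) {c0 A M N : ℕ}
    (hE : ∀ l a (s : Finset V), (∀ b ∈ s, E l a b) → s.card ≤ c0)
    (hSP : ∀ T : Finset V, T.Nonempty → T.card ≤ M →
      ∃ u ∈ T, ∀ s : Finset L, (∀ l ∈ s, ∃ u' ∈ T, E l u u') → s.card ≤ A)
    (hN : 0 < N) (hM : 100 * N ≤ M) (hL : 0 < Fintype.card L) {η : ℝ} (h0 : 0 < η) (h1 : η ≤ 1)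
    (hk : ((2 * C_D c0 A + 1 : ℕ) : ℝ) + 2 * A ≤ η ^ 73 * √(Fintype.card L : ℝ))
    (W : Finset Ω) (v : Ω → ℕ → V) (l : Ω → ℕ → L)
    (hinj : ∀ ω ∈ W, ∀ ω' ∈ W, (∀ j < 2 * N, l ω j = l ω' j) → ω = ω')
    (hw : ∀ ω ∈ W, ∀ j < 2 * N, E (l ω j) (v ω j) (v ω (j + 1)))
    (hNL : ∀ ω ∈ W, ∀ t < N, l ω (2 * t) ≠ l ω (2 * t + 1) →
      ∃ t' < N, t' ≠ t ∧ near (v ω (2 * t + 1)) (v ω (2 * t' + 1))) :
    (W.card : ℝ) ≤ 2 * Fintype.card V * ((6 * c0 * Fintype.card L) ^ 2 * η) ^ N := by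
  classical
  set D := C_D c0 A with hD
  set k : ℝ := (Fintype.card L : ℝ) with hkdef
  have hk1 : (1 : ℝ) ≤ k := by rw [hkdef]; exact_mod_cast hL
  set D' : ℝ := ((2 * D + 1 : ℕ) : ℝ) + 2 * A with hD'
  have hD0 : 0 < D' := by rw [hD']; positivity
  have hz : 1 ≤ k / D' := by
    rw [one_le_div hD0]
    have s1 : 1 ≤ √k := Real.one_le_sqrt.2 hk1
    have s2 : √k * √k = k := Real.mul_self_sqrt (by linarith)
    have s3 : η ^ 73 ≤ 1 := pow_le_one₀ h0.le h1
    nlinarith
  have hex : ∀ ω, ∃ adv : V → Finset L, (∀ u, (adv u).card ≤ A) ∧ 146 * ∑ u, (adv u).card ≤ N ∧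
      ∀ l', ∀ a ∈ C_heavy E D (C_heavy E D (C_U near (v ω) (2 * N))),
        ∀ b ∈ C_heavy E D (C_U near (v ω) (2 * N)), E l' a b → l' ∈ adv a ∨ l' ∈ adv b := fun ω => by
    have c1 := C_U_card hn3 (v ω) (2 * N)
    rw [Nat.mul_div_cancel_left _ two_pos] at c1
    have c2 := C_heavy_card E hs hE hSP (Θ := 6716 * A + 1) (by omega) (C_U near (v ω) (2 * N))
      (by omega)
    change (6716 * A + 1) * (C_heavy E D _).card ≤ _ at c2
    set Y := C_heavy E D (C_U near (v ω) (2 * N)) with hY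
    have c2' : Y.card ≤ N * 23 := by nlinarith
    have c3 := C_heavy_card E hs hE hSP (Θ := 6716 * A + 1) (by omega) Y (by omega)
    change (6716 * A + 1) * (C_heavy E D _).card ≤ _ at c3
    set X := C_heavy E D Y with hX
    have c3' : X.card ≤ Y.card := by nlinarith
    have c4 := card_union_le X Y
    obtain ⟨adv, a1, a2, a3⟩ := C_orient E hs hSP (X ∪ Y) (by omega)
    refine ⟨adv, a1, ?_, fun l' a ha b hb => a3 l' a (mem_union_left _ ha) b (mem_union_right _ hb)⟩
    have c5 : ∑ u, (adv u).card ≤ (X ∪ Y).card * A := by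
      rw [← sum_subset (subset_univ (X ∪ Y)) fun u _ hu => by rw [a2 u hu, card_empty]]
      exact sum_le_card_nsmul _ _ _ fun u _ => a1 u
    have c6 : (X ∪ Y).card * A ≤ 2 * Y.card * A := Nat.mul_le_mul_right _ (by omega)
    nlinarith
  choose adv a1 a2 a3 using hex
  have eB : 3 * (c0 * (k + k / D' * D')) = 6 * c0 * k := by field_simp; ring
  let pF : Ω → Prop := fun ω => N ≤ 73 * ((range (2 * N)).filter fun t =>
    l ω t ∈ C_cheap E near D (v ω) (l ω) t ∨ l ω t ∈ adv ω (v ω t)).card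
  have f1 := C_adv E (d := 2 * D + 1) (R := (1 / η) ^ N) hE hz hL (W.filter pF) v l
    (fun ω => C_cheap E near D (v ω) (l ω)) adv
    (fun ω hω ω' hω' => hinj ω (mem_filter.1 hω).1 ω' (mem_filter.1 hω').1)
    (fun ω hω => hw ω (mem_filter.1 hω).1) (fun ω t => C_cheap_card _ _ _ _ _ _)
    (fun ω _ ω' _ t _ hv hl => C_cheap_congr _ _ _ hv hl) a1
    (fun ω hω => C_weight hk1 hD0 h0 h1 hk (by convert (mem_filter.1 hω).2) (a2 ω))
  have f2 := C_adv E (m := 2 * N) (d := 2 * D + 1) (R := (1 / η) ^ N) hE hz hL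
    (W.filter fun ω => ¬pF ω) (fun ω j => v ω (2 * N - j)) (fun ω j => l ω (2 * N - 1 - j))
    (fun _ _ => ∅) adv
    (fun ω hω ω' hω' h => hinj ω (mem_filter.1 hω).1 ω' (mem_filter.1 hω').1 fun j hj => by
      have := h (2 * N - 1 - j) (by omega)
      rwa [show 2 * N - 1 - (2 * N - 1 - j) = j by omega] at this)
    (fun ω hω j hj => by
      have := hs _ _ _ (hw ω (mem_filter.1 hω).1 (2 * N - 1 - j) (by omega))
      rwa [show 2 * N - 1 - j + 1 = 2 * N - j by omega,
        show v ω (2 * N - 1 - j) = v ω (2 * N - (j + 1)) by congr 1; omega] at this)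
    (fun ω t => by simp) (fun _ _ _ _ _ _ _ _ => rfl) a1
    (fun ω hω => C_weight hk1 hD0 h0 h1 hk (by
      have := (C_many E near hn1 hn2 hn3 (v ω) (l ω) (adv ω) (hw ω (mem_filter.1 hω).1)
        (hNL ω (mem_filter.1 hω).1) (a3 ω)).resolve_left (by convert (mem_filter.1 hω).2)
      convert this) (a2 ω))
  rw [← hkdef, ← hD', eB] at f1 f2
  have e : (W.card : ℝ) = (W.filter pF).card + (W.filter fun ω => ¬pF ω).card := by
    exact_mod_cast (card_filter_add_card_filter_not (s := W) pF).symm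
  have e2 : (0 : ℝ) < η ^ N := by positivity
  rw [one_div_pow, mul_one_div, div_le_iff₀ e2] at f1 f2
  rw [e, mul_pow, ← pow_mul]
  linarith

end Pool.Agent.P.MP_0354a7_al
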