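import Pool.Agent.P.MP_0354a7_al.PF.Defs
import Pool.Agent.P.MP_0354a7_al.PF.CountB

/-!
The number of walks without lonely visits.
-/

namespace Pool.Agent.P.MP_0354a7_al

open Real Finset

/-- The labelled graph on receivers (`true`) and senders (`false`). -/
def C_E {k : ℕ} (n : ℕ) (P : Fin k → Equiv.Perm ℝ) (l : Fin k) (u u' : Bool × Fin n) : Prop :=
  (u.1 = true ∧ u'.1 = false ∧ nz (P l ((u.2 : ℕ) / n) - (u'.2 : ℕ) / n) ≤ 3 / n) ∨
    (u.1 = false ∧ u'.1 = true ∧ nz (P l ((u'.2 : ℕ) / n) - (u.2 : ℕ) / n) ≤ 3 / n)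

/-- Nearby cells on the same side. -/
def C_near (n : ℕ) (u u' : Bool × Fin n) : Prop :=
  u.1 = u'.1 ∧ nz (((u.2 : ℕ) : ℝ) / n - (u'.2 : ℕ) / n) ≤ 11 / n

theorem C_card {n : ℕ} (hn : 0 < n) (c : ℕ) (x : ℝ) (β : Bool) (s : Finset (Bool × Fin n))
    (h : ∀ b ∈ s, b.1 = β ∧ nz (x - (b.2 : ℕ) / n) ≤ c / n) : s.card ≤ 2 * c + 1 := by
  refine le_trans (card_le_card_of_injOn Prod.snd (fun b hb => ?_) fun b hb b' hb' e => ?_)
    (card_near n c hn x)
  · exact mem_coe.2 (mem_filter.2 ⟨mem_univ _, (h b hb).2⟩)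
  · exact Prod.ext ((h b hb).1.trans (h b' hb').1.symm) e

theorem C_exp : exp (1 / 100 : ℝ) ≤ 11 / 10 := by
  linarith [exp_small (t := 1 / 100) (by norm_num) (by norm_num)]

theorem C_deg {k n : ℕ} (hn : 0 < n) {P : Fin k → Equiv.Perm ℝ} (hP : ∀ i, Good (1 / 100) (P i))
    (l : Fin k) (a : Bool × Fin n) (s : Finset (Bool × Fin n)) (h : ∀ b ∈ s, C_E n P l a b) :
    s.card ≤ 9 := by
  have hn' : (0 : ℝ) < n := by exact_mod_cast hn
  obtain ⟨β, a⟩ := a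
  cases β
  · refine C_card hn 4 ((P l)⁻¹ ((a : ℕ) / n)) true s fun b hb => ?_
    rcases h b hb with h | h
    · exact absurd h.1 (by simp)
    refine ⟨h.2.1, ?_⟩
    have h1 := (hP l).nz_lip_inv ((a : ℕ) / n) (P l ((b.2 : ℕ) / n))
    rw [inv_ap, nz_sub_comm ((a : ℕ) / n)] at h1
    have h2 := mul_le_mul C_exp h.2.2 (nz_nonneg _) (by norm_num)
    refine h1.trans (h2.trans ?_)
    rw [← mul_div_assoc]
    exact div_le_div_of_nonneg_right (by norm_num) hn'.le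
  · refine (C_card hn 3 (P l ((a : ℕ) / n)) false s fun b hb => ?_).trans (by norm_num)
    rcases h b hb with h | h
    · exact ⟨h.2.1, by exact_mod_cast h.2.2⟩
    · exact absurd h.1 (by simp)

theorem C_sp {k n A M : ℕ} {P : Fin k → Equiv.Perm ℝ} (hV : ¬Viol A P (3 / n) M)
    (T : Finset (Bool × Fin n)) (hT : T.Nonempty) (hM : T.card ≤ M) :
    ∃ u ∈ T, ∀ s : Finset (Fin k), (∀ l ∈ s, ∃ u' ∈ T, C_E n P l u u') → s.card ≤ A := by
  classical
  by_contra hc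
  push Not at hc
  refine hV ⟨(T.filter fun u => u.1 = true).image fun u => ((u.2 : ℕ) : ℝ) / n,
    (T.filter fun u => ¬u.1 = true).image fun u => ((u.2 : ℕ) : ℝ) / n, ?_, ?_, fun x hx => ?_,
    fun y hy => ?_⟩
  · obtain ⟨u, hu⟩ := hT
    refine ⟨(u.2 : ℕ) / n, ?_⟩
    by_cases h : u.1 = true
    · exact mem_union_left _ (mem_image.2 ⟨u, mem_filter.2 ⟨hu, h⟩, rfl⟩)
    · exact mem_union_right _ (mem_image.2 ⟨u, mem_filter.2 ⟨hu, h⟩, rfl⟩)
  · refine (add_le_add card_image_le card_image_le).trans ?_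
    rw [card_filter_add_card_filter_not]
    exact hM
  · obtain ⟨u, hu, rfl⟩ := mem_image.1 hx
    obtain ⟨s, h1, h2⟩ := hc u (mem_filter.1 hu).1
    refine h2.le.trans (card_le_card fun l hl => mem_filter.2 ⟨mem_univ _, ?_⟩)
    obtain ⟨u', hu', h | h⟩ := h1 l hl
    · exact ⟨_, mem_image.2 ⟨u', mem_filter.2 ⟨hu', by simp [h.2.1]⟩, rfl⟩, h.2.2⟩
    · exact absurd ((mem_filter.1 hu).2.symm.trans h.1) (by simp)
  · obtain ⟨u, hu, rfl⟩ := mem_image.1 hy
    obtain ⟨s, h1, h2⟩ := hc u (mem_filter.1 hu).1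
    refine h2.le.trans (card_le_card fun l hl => mem_filter.2 ⟨mem_univ _, ?_⟩)
    obtain ⟨u', hu', h | h⟩ := h1 l hl
    · exact absurd h.1 (mem_filter.1 hu).2
    · exact ⟨_, mem_image.2 ⟨u', mem_filter.2 ⟨hu', h.2.1⟩, rfl⟩, h.2.2⟩

theorem C_edge {k n : ℕ} (hn : 0 < n) {P : Fin k → Equiv.Perm ℝ} (hP : ∀ i, Good (1 / 100) (P i))
    (l : Fin k) {x : ℝ} {a b : Fin n} (hb : nz (x - (b : ℕ) / n) ≤ 1 / (2 * n))
    (ha : nz (P l x - (a : ℕ) / n) ≤ 1 / (2 * n)) :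
    nz (P l ((b : ℕ) / n) - (a : ℕ) / n) ≤ 3 / n := by
  have hn' : (0 : ℝ) < n := by exact_mod_cast hn
  have h1 := (hP l).nz_lip ((b : ℕ) / n) x
  rw [nz_sub_comm _ x] at h1
  have h2 := mul_le_mul C_exp hb (nz_nonneg _) (by norm_num)
  have h3 := nz_tri (P l ((b : ℕ) / n)) (P l x) ((a : ℕ) / n)
  have e1 : (1 : ℝ) / (2 * n) = 1 / 2 * (1 / n) := by field_simp
  have e2 : (3 : ℝ) / n = 3 * (1 / n) := by field_simp
  have h4 : (0 : ℝ) < 1 / n := by positivity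
  rw [e1] at h2 ha
  rw [e2]
  linarith

open Classical in
theorem walk_count (A : ℕ) (f : ℝ) (hf : 0 < f) : ∃ k₀ : ℕ, ∀ k : ℕ, k₀ ≤ k →
    ∀ (n N M : ℕ) (P : Fin k → Equiv.Perm ℝ), 0 < n → (∀ i, Good (1 / 100) (P i)) →
      ¬Viol A P (3 / n) M → 100 * N ≤ M → ∀ y : ℝ,
      ((univ.filter fun w : Fin N → Fin k × Fin k => NL P (10 / n) y w).card : ℝ)
        ≤ 10 * n * (f * k ^ 2) ^ N := by
  set η : ℝ := min 1 (f / 54 ^ 2) with hη
  have h0 : 0 < η := lt_min one_pos (by positivity)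
  set D' : ℝ := ((2 * C_D 9 A + 1 : ℕ) : ℝ) + 2 * A with hD'
  refine ⟨⌈(D' / η ^ 73) ^ 2⌉₊ + 1, fun k hk n N M P hn hP hV hM y => ?_⟩
  have hn' : (1 : ℝ) ≤ n := by exact_mod_cast hn
  rcases Nat.eq_zero_or_pos N with rfl | hN
  · have : (univ.filter fun w : Fin 0 → Fin k × Fin k => NL P (10 / n) y w).card ≤ 1 :=
      card_le_one.2 fun a _ b _ => Subsingleton.elim a b
    have h : ((univ.filter fun w : Fin 0 → Fin k × Fin k => NL P (10 / n) y w).card : ℝ) ≤ 1 := by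
      exact_mod_cast this
    rw [pow_zero]
    linarith
  have hk0 : 0 < k := by omega
  choose c hc using exists_near n hn
  let l : (Fin N → Fin k × Fin k) → ℕ → Fin k := fun w s =>
    if h : s / 2 < N then (if s % 2 = 0 then (w ⟨s / 2, h⟩).1 else (w ⟨s / 2, h⟩).2) else ⟨0, hk0⟩
  let v : (Fin N → Fin k × Fin k) → ℕ → Bool × Fin n := fun w s =>
    if s % 2 = 0 then (false, c (VW P w (s / 2) y))
    else (true, c ((P (l w (s - 1)))⁻¹ (VW P w (s / 2) y)))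
  have d1 : ∀ t : ℕ, 2 * t / 2 = t := fun t => by omega
  have d2 : ∀ t : ℕ, (2 * t + 1) / 2 = t := fun t => by omega
  have d3 : ∀ t : ℕ, 2 * t % 2 = 0 := fun t => by omega
  have d4 : ∀ t : ℕ, ¬(2 * t + 1) % 2 = 0 := fun t => by omega
  have l1 : ∀ w t (h : t < N), l w (2 * t) = (w ⟨t, h⟩).1 := fun w t h => by
    simp only [l, d1, d3, dif_pos h, if_true]
  have l2 : ∀ w t (h : t < N), l w (2 * t + 1) = (w ⟨t, h⟩).2 := fun w t h => by
    simp only [l, d2, if_neg (d4 t), dif_pos h]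
  have v1 : ∀ w t, v w (2 * t) = (false, c (VW P w t y)) := fun w t => by
    simp only [v, d1, d3, if_true]
  have v2 : ∀ w t (h : t < N), v w (2 * t + 1) = (true, c (rx P w y ⟨t, h⟩)) := fun w t h => by
    simp only [v, d2, if_neg (d4 t), Nat.add_sub_cancel, l1 w t h, rx]
  have v3 : ∀ w t (h : t < N), VW P w (t + 1) y = P (w ⟨t, h⟩).2 (rx P w y ⟨t, h⟩) :=
    fun w t h => by
      simp only [VW, pu, rx, dif_pos h, Equiv.Perm.mul_apply]
  have main := C_main (C_E n P) (fun l a b h => h.symm.imp (fun h => ⟨h.2.1, h.1, h.2.2⟩)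
      fun h => ⟨h.2.1, h.1, h.2.2⟩) (C_near n)
    (fun u => ⟨rfl, by rw [sub_self]; exact (nz_le_abs 0).trans (by rw [abs_zero]; positivity)⟩)
    (fun u u' h => ⟨h.1.symm, by rw [nz_sub_comm]; exact h.2⟩)
    (fun u s h => C_card hn 11 ((u.2 : ℕ) / n) u.1 s fun b hb =>
      ⟨(h b hb).1.symm, by exact_mod_cast (h b hb).2⟩)
    (C_deg hn hP) (C_sp hV) hN hM (by rw [Fintype.card_fin]; exact hk0) h0 (min_le_left _ _)
    (by
      rw [← hD', ← div_le_iff₀' (by positivity), Fintype.card_fin]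
      refine Real.le_sqrt_of_sq_le ((Nat.le_ceil _).trans ?_)
      exact_mod_cast (by omega : ⌈(D' / η ^ 73) ^ 2⌉₊ ≤ k))
    (univ.filter fun w : Fin N → Fin k × Fin k => NL P (10 / n) y w) v l
    (fun w _ w' _ h => funext fun t => Prod.ext
      (by rw [← l1 w t t.2, ← l1 w' t t.2]; exact h _ (by omega))
      (by rw [← l2 w t t.2, ← l2 w' t t.2]; exact h _ (by omega)))
    (fun w _ j hj => by
      obtain ⟨t, rfl | rfl⟩ := Nat.even_or_odd' j
      · have h : t < N := by omega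
        rw [l1 w t h, v1, v2 w t h]
        refine Or.inr ⟨rfl, rfl, C_edge hn hP _ (hc _) ?_⟩
        rw [rx, ap_inv]
        exact hc _
      · have h : t < N := by omega
        rw [l2 w t h, v2 w t h, show 2 * t + 1 + 1 = 2 * (t + 1) by ring, v1, v3 w t h]
        exact Or.inl ⟨rfl, rfl, C_edge hn hP _ (hc _) (hc _)⟩)
    (fun w hw t ht hne => by
      rw [l1 w t ht, l2 w t ht] at hne
      obtain ⟨t', h1, h2⟩ := (mem_filter.1 hw).2 ⟨t, ht⟩ hne
      refine ⟨t', t'.2, fun h => h1 (Fin.ext h), ?_⟩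
      rw [v2 w t ht, v2 w t' t'.2]
      refine ⟨rfl, ?_⟩
      have h3 := hc (rx P w y ⟨t, ht⟩)
      have h4 := hc (rx P w y t')
      rw [nz_sub_comm] at h3
      have h5 := nz_tri (((c (rx P w y ⟨t, ht⟩) : ℕ) : ℝ) / n) (rx P w y ⟨t, ht⟩)
        ((c (rx P w y t') : ℕ) / n)
      have h6 := nz_tri (rx P w y ⟨t, ht⟩) (rx P w y t') ((c (rx P w y t') : ℕ) / n)
      have e1 : (1 : ℝ) / (2 * n) = 1 / 2 * (1 / n) := by field_simp
      have e2 : (10 : ℝ) / n = 10 * (1 / n) := by field_simp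
      have e3 : (11 : ℝ) / n = 11 * (1 / n) := by field_simp
      rw [e1] at h3 h4
      rw [e2] at h2
      rw [e3]
      dsimp only
      linarith)
  refine main.trans ?_
  rw [Fintype.card_prod, Fintype.card_bool, Fintype.card_fin, Fintype.card_fin]
  push_cast
  refine mul_le_mul (by linarith) (pow_le_pow_left₀ (by positivity) ?_ _) (by positivity)
    (by positivity)
  have h1 : η ≤ f / 54 ^ 2 := min_le_right _ _
  calc (6 * 9 * (k : ℝ)) ^ 2 * η ≤ (6 * 9 * (k : ℝ)) ^ 2 * (f / 54 ^ 2) :=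
        mul_le_mul_of_nonneg_left h1 (by positivity)
    _ = f * k ^ 2 := by ring

end Pool.Agent.P.MP_0354a7_al
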