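import Pool.Agent.P.MP_0354a7_al.PF.Defs

namespace Pool.Agent.P.MP_0354a7_al

open Real Finset

/-! ### The finite law -/

theorem L_int : ∫ t in (-1 : ℝ)..1, 15 / 16 * (1 - t ^ 2) ^ 2 = 1 := by
  rw [intervalIntegral.integral_eq_sub_of_hasDerivAt
    (f := fun t : ℝ => 15 / 16 * (t - 2 / 3 * t ^ 3 + 1 / 5 * t ^ 5)) (fun t _ => ?_)
    (Continuous.intervalIntegrable (by fun_prop) _ _)]
  · norm_num
  · have h := ((((hasDerivAt_id' t).sub ((hasDerivAt_pow 3 t).const_mul (2 / 3))).add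
      ((hasDerivAt_pow 5 t).const_mul (1 / 5))).const_mul (15 / 16))
    refine h.congr_deriv ?_
    push_cast
    ring

theorem L_card (G : ℕ) (b l : ℝ) (hl : 0 ≤ l) :
    ((univ.filter fun v : Fin G => b ≤ (v : ℕ) ∧ ((v : ℕ) : ℝ) ≤ b + l).card : ℝ) ≤ l + 1 := by
  have h : (univ.filter fun v : Fin G => b ≤ (v : ℕ) ∧ ((v : ℕ) : ℝ) ≤ b + l).card
      ≤ (Finset.Icc ⌈b⌉ ⌊b + l⌋).card := by
    refine card_le_card_of_injOn (fun v : Fin G => ((v : ℕ) : ℤ)) (fun v hv => ?_)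
      (fun v _ v' _ h => Fin.ext (Nat.cast_injective (R := ℤ) h))
    obtain ⟨h1, h2⟩ := (mem_filter.1 hv).2
    exact mem_coe.2 (mem_Icc.2 ⟨Int.ceil_le.2 (by exact_mod_cast h1),
      Int.le_floor.2 (by exact_mod_cast h2)⟩)
  rw [Int.card_Icc] at h
  refine (Nat.cast_le.2 h).trans ?_
  rcases le_total (⌊b + l⌋ + 1 - ⌈b⌉) 0 with h0 | h0
  · rw [Int.toNat_of_nonpos h0, Nat.cast_zero]
    linarith
  · rw [← Int.cast_natCast, Int.toNat_of_nonneg h0]
    push_cast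
    linarith [Int.floor_le (b + l), Int.le_ceil b]

theorem exists_law (γ : ℝ) (hγ : 0 < γ) : ∃ (G : ℕ) (w val : Fin G → ℝ), Law γ w val := by
  set G : ℕ := ⌈1 / γ⌉₊ + 1 with hG
  have hG0 : (0 : ℝ) < G := by positivity
  have hGγ : 1 / (G : ℝ) ≤ γ := by
    rw [one_div_le hG0 hγ, hG]
    push_cast
    linarith [Nat.le_ceil (1 / γ)]
  set a : ℕ → ℝ := fun v => -1 + 2 * v / G with ha
  set ρ : ℝ → ℝ := fun t => 15 / 16 * (1 - t ^ 2) ^ 2 with hρ
  have hc : Continuous ρ := by fun_prop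
  have hρ0 : ∀ t, 0 ≤ ρ t := fun t => by positivity
  have hstep : ∀ v, a (v + 1) = a v + 2 / G := fun v => by
    simp only [ha]
    push_cast
    ring
  have h2G : (0 : ℝ) < 2 / G := by positivity
  have hle : ∀ v, a v ≤ a (v + 1) := fun v => by rw [hstep]; linarith
  have hlo : ∀ v, -1 ≤ a v := fun v => le_add_of_nonneg_right (by positivity)
  have hhi : ∀ v : Fin G, a (v + 1) ≤ 1 := fun v => by
    have h1 : (((v : ℕ) + 1 : ℕ) : ℝ) ≤ G := by exact_mod_cast v.2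
    have h2 : 2 * (((v : ℕ) + 1 : ℕ) : ℝ) / G ≤ 2 := by rw [div_le_iff₀ hG0]; linarith
    simp only [ha]
    linarith
  have hsplit : ∀ f : ℝ → ℝ, Continuous f →
      ∑ v : Fin G, ∫ t in a v..a (v + 1), f t = ∫ t in (-1 : ℝ)..1, f t := fun f hf => by
    rw [Fin.sum_univ_eq_sum_range (fun v => ∫ t in a v..a (v + 1), f t) G,
      intervalIntegral.sum_integral_adjacent_intervals fun _ _ => hf.intervalIntegrable _ _]
    congr 1
    · simp [ha]
    · simp only [ha]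
      field_simp
      ring
  have e12 : 2 / (G : ℝ) = 1 / G + 1 / G := by ring
  have h1G : (0 : ℝ) < 1 / G := by positivity
  have hsum : ∑ v : Fin G, ∫ t in a v..a (v + 1), ρ t = 1 := by rw [hsplit ρ hc, L_int]
  refine ⟨G, fun v => ∫ t in a v..a (v + 1), ρ t, fun v => a v + 1 / G,
    fun v => intervalIntegral.integral_nonneg (hle v) fun t _ => hρ0 t, hsum, fun v => ?_,
    fun b δ hδ => ?_, fun F L hF => ?_⟩
  · have := hhi v
    rw [hstep] at this
    rw [abs_le]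
    constructor <;> linarith [hlo v]
  · have hw : ∀ v : Fin G, ∫ t in a v..a (v + 1), ρ t ≤ 2 / G := fun v => by
      have := intervalIntegral.integral_mono_on (μ := MeasureTheory.volume) (f := ρ)
        (g := fun _ => 1) (hle v) (hc.intervalIntegrable _ _) intervalIntegrable_const
        fun t ht => by
          have h1 : t ^ 2 ≤ 1 := by nlinarith [hlo v, hhi v, ht.1, ht.2]
          have h2 : (1 - t ^ 2) ^ 2 ≤ 1 := by nlinarith [sq_nonneg t]
          simp only [hρ]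
          linarith
      rwa [intervalIntegral.integral_const, hstep, add_sub_cancel_left, smul_eq_mul, mul_one,
        ← hstep] at this
    refine (sum_le_card_nsmul _ _ _ fun v _ => hw v).trans ?_
    have h1 := L_card G ((G * (1 + b - δ) - 1) / 2) (δ * G) (by positivity [hγ.trans_le hδ])
    have h2 : ((univ.filter fun v : Fin G => |a v + 1 / G - b| ≤ δ).card : ℝ) ≤ δ * G + 1 := by
      refine le_trans (Nat.cast_le.2 (card_le_card fun v hv => ?_)) h1
      obtain ⟨i1, i2⟩ := abs_le.1 (mem_filter.1 hv).2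
      have e : (a v + 1 / G - b) * G = 2 * (v : ℕ) + 1 - G * (1 + b) := by
        simp only [ha]
        field_simp
        ring
      have i3 := mul_le_mul_of_nonneg_right i1 hG0.le
      have i4 := mul_le_mul_of_nonneg_right i2 hG0.le
      rw [e] at i3 i4
      exact mem_filter.2 ⟨mem_univ _, by linarith, by linarith⟩
    rw [nsmul_eq_mul]
    refine (mul_le_mul_of_nonneg_right h2 h2G.le).trans ?_
    have e : (δ * G + 1) * (2 / G) = 2 * δ + 2 * (1 / G) := by field_simp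
    rw [e]
    linarith
  · have hL : 0 ≤ L := by simpa using (abs_nonneg _).trans (hF 1 0)
    have hFc : Continuous F :=
      (LipschitzWith.of_dist_le' (K := L) fun s t => by simpa [Real.dist_eq] using hF s t).continuous
    rw [← hsplit (fun t => ρ t * F t) (hc.mul hFc), ← sum_sub_distrib]
    refine (abs_sum_le_sum_abs _ _).trans ((sum_le_sum (g := fun v : Fin G =>
      (∫ t in a v..a (v + 1), ρ t) * (L * γ)) fun v _ => ?_).trans ?_)
    · rw [← intervalIntegral.integral_mul_const, ← intervalIntegral.integral_mul_const,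
        ← intervalIntegral.integral_sub ((hc.fun_mul continuous_const).intervalIntegrable _ _)
          ((hc.fun_mul hFc).intervalIntegrable _ _)]
      refine (intervalIntegral.abs_integral_le_integral_abs (hle v)).trans
        (intervalIntegral.integral_mono_on (hle v)
          (((hc.mul continuous_const).sub (hc.mul hFc)).abs.intervalIntegrable _ _)
          ((hc.mul continuous_const).intervalIntegrable _ _) fun t ht => ?_)
      rw [← mul_sub, abs_mul, abs_of_nonneg (hρ0 t)]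
      refine mul_le_mul_of_nonneg_left ((hF _ _).trans (mul_le_mul_of_nonneg_left ?_ hL)) (hρ0 t)
      have := ht.2
      rw [hstep] at this
      rw [abs_le]
      constructor <;> linarith [ht.1]
    · rw [← sum_mul, hsum, one_mul]

/-! ### Periodic windows -/

theorem L_bump : ∃ (ψ : ℕ → ℝ → ℝ) (C : ℝ), 1 ≤ C ∧ (∀ j t, HasDerivAt (ψ j) (ψ (j + 1) t) t) ∧
    (∀ j t, 3 / 2 < |t| → ψ j t = 0) ∧ (∀ j, j ≤ 3 → ∀ t, |ψ j t| ≤ C) ∧ (∀ t, |ψ 0 t| ≤ 1) ∧
    ∀ t, |t| ≤ 1 → ψ 0 t = 1 := by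
  let f : ContDiffBump (0 : ℝ) := ⟨1, 3 / 2, one_pos, by norm_num⟩
  have hd : ∀ j t, HasDerivAt (iteratedDeriv j f) (iteratedDeriv (j + 1) f t) t := fun j t => by
    rw [iteratedDeriv_succ]
    exact ((f.contDiff (n := (j + 1 : ℕ))).differentiable_iteratedDeriv j
      (by exact_mod_cast Nat.lt_succ_self j) t).hasDerivAt
  have hz : ∀ j t, 3 / 2 < |t| → iteratedDeriv j f t = 0 := by
    intro j
    induction j with
    | zero => exact fun t ht => f.zero_of_le_dist (by simpa using ht.le)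
    | succ j ih =>
      intro t ht
      have h1 : iteratedDeriv j f =ᶠ[nhds t] fun _ => 0 :=
        (continuous_abs.continuousAt.eventually (lt_mem_nhds ht)).mono fun s hs => ih s hs
      rw [iteratedDeriv_succ, h1.deriv_eq, deriv_const]
  have hb : ∀ j, ∃ C : ℝ, ∀ t, |iteratedDeriv j f t| ≤ C := fun j => by
    obtain ⟨C, hC⟩ := (isCompact_Icc (a := (-2 : ℝ)) (b := 2)).exists_bound_of_continuousOn
      (f := iteratedDeriv j f) fun t _ => (hd j t).continuousAt.continuousWithinAt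
    refine ⟨max C 0, fun t => ?_⟩
    by_cases ht : 3 / 2 < |t|
    · rw [hz j t ht, abs_zero]
      exact le_max_right _ _
    · have := abs_le.1 (not_lt.1 ht)
      exact (hC t ⟨by linarith, by linarith⟩).trans (le_max_left _ _)
  choose B hB using hb
  have hB0 : ∀ j, 0 ≤ B j := fun j => (abs_nonneg _).trans (hB j 0)
  refine ⟨fun j => iteratedDeriv j f, 1 + ∑ j ∈ range 4, B j,
    le_add_of_nonneg_right (sum_nonneg fun j _ => hB0 j), hd, hz, fun j hj t => ?_, fun t => ?_,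
    fun t ht => f.one_of_mem_closedBall (by simpa using ht)⟩
  · have := single_le_sum (f := B) (fun j _ => hB0 j) (mem_range.2 (Nat.lt_succ_of_le hj))
    linarith [hB j t]
  · exact abs_le.2 ⟨le_trans (by norm_num) (f.nonneg (x := t)), f.le_one⟩

/-- The derivatives of the periodic window of width `1 / n`. -/
noncomputable def L_win (ψ : ℕ → ℝ → ℝ) (j n : ℕ) (y : ℝ) : ℝ :=
  (n : ℝ) ^ j * ψ j (n * (y - round y))

/-- The windows of one level. -/
noncomputable def L_lev (ψ : ℕ → ℝ → ℝ) (j n : ℕ) (d : Fin n → ℝ) (x : ℝ) : ℝ :=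
  ∑ W, d W * L_win ψ j n (x - (W : ℕ) / n)

/-- The perturbation of row `i`. -/
noncomputable def L_pert (ψ : ℕ → ℝ → ℝ) {k M : ℕ} (m₀ j : ℕ)
    (c : (Σ n : Fin M, Fin k × Fin (2 ^ (n : ℕ))) → ℝ) (i : Fin k) (x : ℝ) : ℝ :=
  ∑ n : Fin M, if m₀ ≤ (n : ℕ) then L_lev ψ j (2 ^ (n : ℕ)) (fun W => c ⟨n, (i, W)⟩) x else 0

section Win

variable {ψ : ℕ → ℝ → ℝ}

theorem L_win_abs {n : ℕ} (y : ℝ) : |(n : ℝ) * (y - round y)| = n * nz y := by
  rw [abs_mul, Nat.abs_cast, nz]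

theorem L_win_zero (hz : ∀ j t, 3 / 2 < |t| → ψ j t = 0) (j : ℕ) {n : ℕ} (hn : 0 < n) {y : ℝ}
    (h : 2 / (n : ℝ) ≤ nz y) : L_win ψ j n y = 0 := by
  have hn' : (0 : ℝ) < n := by exact_mod_cast hn
  rw [div_le_iff₀ hn'] at h
  rw [L_win, hz, mul_zero]
  rw [L_win_abs]
  linarith

theorem L_win_deriv (hd : ∀ j t, HasDerivAt (ψ j) (ψ (j + 1) t) t)
    (hz : ∀ j t, 3 / 2 < |t| → ψ j t = 0) (j : ℕ) {n : ℕ} (hn : 8 ≤ n) (y : ℝ) :
    HasDerivAt (L_win ψ j n) (L_win ψ (j + 1) n y) y := by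
  have hn' : (8 : ℝ) ≤ n := by exact_mod_cast hn
  rcases lt_or_ge (nz y) (1 / 2) with h | h
  · have h1 : L_win ψ j n =ᶠ[nhds y] fun s => (n : ℝ) ^ j * ψ j (n * (s - round y)) := by
      have hc : Continuous fun s : ℝ => |s - round y| := by fun_prop
      refine (hc.continuousAt.eventually (gt_mem_nhds h)).mono fun s hs => ?_
      have h2 := abs_lt.1 hs
      have h3 : round s = round y := by
        rw [round_eq s, Int.floor_eq_iff]
        constructor <;> linarith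
      simp only [L_win, h3]
    refine HasDerivAt.congr_of_eventuallyEq ?_ h1
    have h4 := ((hd j _).comp y (((hasDerivAt_id' y).sub_const (round y : ℝ)).const_mul
      (n : ℝ))).const_mul ((n : ℝ) ^ j)
    refine h4.congr_deriv ?_
    rw [L_win]
    ring
  · have k : ∀ i s, 1 / 4 < nz s → L_win ψ i n s = 0 := fun i s hs =>
      L_win_zero hz i (by omega) (le_trans (by rw [div_le_iff₀ (by linarith)]; linarith) hs.le)
    rw [k _ y (by linarith)]
    refine (hasDerivAt_const y (0 : ℝ)).congr_of_eventuallyEq ?_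
    exact (continuous_nz.continuousAt.eventually (lt_mem_nhds (by linarith))).mono fun s hs =>
      k j s hs

theorem L_lev_le (hz : ∀ j t, 3 / 2 < |t| → ψ j t = 0) {j n : ℕ} (hn : 0 < n) {C r : ℝ}
    (hC : ∀ t, |ψ j t| ≤ C) {d : Fin n → ℝ} (hd : ∀ W, |d W| ≤ r) (x : ℝ) :
    |L_lev ψ j n d x| ≤ 5 * (r * ((n : ℝ) ^ j * C)) := by
  have hr : 0 ≤ r := (abs_nonneg _).trans (hd ⟨0, hn⟩)
  have hC0 : 0 ≤ C := (abs_nonneg _).trans (hC 0)
  rw [L_lev, ← sum_filter_of_ne (p := fun W : Fin n => nz (x - (W : ℕ) / n) ≤ (2 : ℕ) / n)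
    fun W _ hW => le_of_not_gt fun h => hW (by
      rw [L_win_zero hz j hn (by exact_mod_cast h.le), mul_zero])]
  refine (abs_sum_le_sum_abs _ _).trans ((sum_le_card_nsmul _ _ (r * ((n : ℝ) ^ j * C))
    fun W _ => ?_).trans ?_)
  · rw [abs_mul, L_win, abs_mul, abs_of_nonneg (by positivity : (0 : ℝ) ≤ (n : ℝ) ^ j)]
    exact mul_le_mul (hd W) (mul_le_mul_of_nonneg_left (hC _) (by positivity)) (by positivity) hr
  · rw [nsmul_eq_mul]
    exact mul_le_mul_of_nonneg_right (by exact_mod_cast card_near n 2 hn x) (by positivity)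

variable {k M m₀ : ℕ}

theorem L_pert_deriv (hd : ∀ j t, HasDerivAt (ψ j) (ψ (j + 1) t) t)
    (hz : ∀ j t, 3 / 2 < |t| → ψ j t = 0) (hm : 3 ≤ m₀) (j : ℕ)
    (c : (Σ n : Fin M, Fin k × Fin (2 ^ (n : ℕ))) → ℝ) (i : Fin k) (x : ℝ) :
    HasDerivAt (L_pert ψ m₀ j c i) (L_pert ψ m₀ (j + 1) c i x) x := by
  refine HasDerivAt.fun_sum fun n _ => ?_
  split_ifs with h
  · refine HasDerivAt.fun_sum fun W _ => HasDerivAt.const_mul _ ?_
    exact HasDerivAt.comp_sub_const x _ (L_win_deriv hd hz j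
      (le_trans (by norm_num) (Nat.pow_le_pow_right two_pos (hm.trans h))) _)
  · exact hasDerivAt_const x _

theorem L_pert_per (j : ℕ) (c : (Σ n : Fin M, Fin k × Fin (2 ^ (n : ℕ))) → ℝ) (i : Fin k) (x : ℝ) :
    L_pert ψ m₀ j c i (x + 1) = L_pert ψ m₀ j c i x := by
  simp only [L_pert, L_lev, L_win, add_sub_right_comm x 1, round_add_one, Int.cast_add,
    Int.cast_one, add_sub_add_right_eq_sub]

theorem L_geom (M m : ℕ) {q : ℝ} (h0 : 0 ≤ q) (h : q ≤ 1 / 2) :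
    ∑ n : Fin M, (if m ≤ (n : ℕ) then q ^ (n : ℕ) else 0) ≤ 2 * q ^ m := by
  rw [Fin.sum_univ_eq_sum_range (fun n => if m ≤ n then q ^ n else 0) M, ← sum_filter,
    show (range M).filter (fun n => m ≤ n) = Ico m M by ext n; simp [and_comm]]
  refine (geom_sum_Ico_le_of_lt_one h0 (by linarith)).trans ?_
  rw [div_le_iff₀ (by linarith)]
  nlinarith [pow_nonneg h0 m]

theorem L_pert_le (hz : ∀ j t, 3 / 2 < |t| → ψ j t = 0) {j m : ℕ} {C r q : ℝ} (h0 : 0 ≤ q)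
    (h : q ≤ 1 / 2) (hr : 0 ≤ r) (hq : (1 / 2 : ℝ) ^ 4 * 2 ^ j ≤ q) (hC : ∀ t, |ψ j t| ≤ C)
    {c : (Σ n : Fin M, Fin k × Fin (2 ^ (n : ℕ))) → ℝ} (hc : Adm k M m r c) (i : Fin k) (x : ℝ) :
    |L_pert ψ m₀ j c i x| ≤ 10 * r * C * q ^ m := by
  have hC0 : 0 ≤ C := (abs_nonneg _).trans (hC 0)
  refine (abs_sum_le_sum_abs _ _).trans ((sum_le_sum (g := fun n : Fin M =>
    5 * r * C * if m ≤ (n : ℕ) then q ^ (n : ℕ) else 0) fun n _ => ?_).trans ?_)
  · by_cases h1 : m₀ ≤ (n : ℕ)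
    · rw [if_pos h1]
      refine (L_lev_le hz (by positivity) hC
        (r := if m ≤ (n : ℕ) then r * (1 / 2) ^ (4 * (n : ℕ)) else 0)
        (fun W => hc ⟨n, (i, W)⟩) x).trans ?_
      split_ifs
      · have e : (1 / 2 : ℝ) ^ (4 * (n : ℕ)) * ((2 ^ (n : ℕ) : ℕ) : ℝ) ^ j
            = ((1 / 2 : ℝ) ^ 4 * 2 ^ j) ^ (n : ℕ) := by
          push_cast
          rw [mul_pow, ← pow_mul, ← pow_mul, ← pow_mul, mul_comm j]
        have h2 := pow_le_pow_left₀ (by positivity) hq (n : ℕ)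
        rw [← e] at h2
        refine le_trans (le_of_eq ?_) (mul_le_mul_of_nonneg_left h2 (by positivity))
        ring
      · simp
    · rw [if_neg h1, abs_zero]
      split_ifs <;> positivity
  · rw [← mul_sum]
    refine (mul_le_mul_of_nonneg_left (L_geom M m h0 h) (by positivity)).trans (le_of_eq ?_)
    ring

theorem L_pert_sub (j : ℕ) (c c' : (Σ n : Fin M, Fin k × Fin (2 ^ (n : ℕ))) → ℝ) (i : Fin k)
    (x : ℝ) : L_pert ψ m₀ j c i x - L_pert ψ m₀ j c' i x = L_pert ψ m₀ j (c - c') i x := by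
  simp only [L_pert, L_lev, ← sum_sub_distrib, Pi.sub_apply, sub_mul]
  refine sum_congr rfl fun n _ => ?_
  split_ifs
  · rw [sum_sub_distrib]
  · rw [sub_zero]

theorem L_ext_same (n : Fin M) (d : Fin k × Fin (2 ^ (n : ℕ)) → ℝ)
    (c : (Σ n : Fin M, Fin k × Fin (2 ^ (n : ℕ))) → ℝ) (p : Fin k × Fin (2 ^ (n : ℕ))) :
    Function.extend (Sigma.mk n) d c ⟨n, p⟩ = d p :=
  (sigma_mk_injective (β := fun n : Fin M => Fin k × Fin (2 ^ (n : ℕ)))).extend_apply d c p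

theorem L_ext_ne {n n' : Fin M} (h : n' ≠ n) (d : Fin k × Fin (2 ^ (n : ℕ)) → ℝ)
    (c : (Σ n : Fin M, Fin k × Fin (2 ^ (n : ℕ))) → ℝ) (p : Fin k × Fin (2 ^ (n' : ℕ))) :
    Function.extend (Sigma.mk n) d c ⟨n', p⟩ = c ⟨n', p⟩ :=
  Function.extend_apply' d c _ fun ⟨_, e⟩ => h (congrArg Sigma.fst e).symm

theorem L_pert_ext {n : Fin M} (hn : m₀ ≤ (n : ℕ)) (d d' : Fin k × Fin (2 ^ (n : ℕ)) → ℝ)
    (c : (Σ n : Fin M, Fin k × Fin (2 ^ (n : ℕ))) → ℝ) (i : Fin k) (x : ℝ) :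
    L_pert ψ m₀ 0 (Function.extend (Sigma.mk n) d c) i x
      - L_pert ψ m₀ 0 (Function.extend (Sigma.mk n) d' c) i x
      = L_lev ψ 0 (2 ^ (n : ℕ)) (fun W => d (i, W) - d' (i, W)) x := by
  rw [L_pert_sub, L_pert, sum_eq_single n (fun n' _ h => ?_) fun h => absurd (mem_univ n) h]
  · simp only [if_pos hn, Pi.sub_apply, L_ext_same]
  · simp [L_ext_ne h, L_lev]

theorem L_lev_update {n : ℕ} (d : Fin k × Fin n → ℝ) (i : Fin k) (W : Fin n) (s x : ℝ) :
    L_lev ψ 0 n (fun W' => Function.update d (i, W) s (i, W') - Function.update d (i, W) 0 (i, W')) x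
      = s * L_win ψ 0 n (x - (W : ℕ) / n) := by
  rw [L_lev, sum_eq_single W (fun W' _ h => ?_) fun h => absurd (mem_univ W) h]
  · simp
  · have : (i, W') ≠ (i, W) := fun e => h (Prod.ext_iff.1 e).2
    simp [Function.update_of_ne this]

end Win

open Classical in
/-- The map `x + τ + p x`, when it is a bijection. -/
noncomputable def L_map (τ : ℝ) (p : ℝ → ℝ) : Equiv.Perm ℝ :=
  if h : ∃ e : Equiv.Perm ℝ, ∀ x, e x = x + τ + p x then h.choose else 1

theorem L_map_spec (τ : ℝ) {p p1 p2 : ℝ → ℝ} (h : C2P p p1 p2) {η : ℝ} (hη : η ≤ 1 / 2)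
    (h1 : ∀ x, |p1 x| ≤ η) (h2 : ∀ x, |p2 x| ≤ η) :
    (∀ x, L_map τ p x = x + τ + p x) ∧ Good (2 * η) (L_map τ p) := by
  obtain ⟨e, he, hr⟩ := exists_perm (p := fun x => τ + p x) (fun x => (h.1 x).const_add τ) h.2.1
    h.2.2.1 fun x => (h1 x).trans hη
  have hex : ∃ e : Equiv.Perm ℝ, ∀ x, e x = x + τ + p x := ⟨e, fun x => by rw [he, add_assoc]⟩
  have h3 : ∀ x, L_map τ p x = x + τ + p x := by
    rw [L_map, dif_pos hex]
    exact hex.choose_spec
  have h4 : L_map τ p = e := Equiv.ext fun x => by rw [h3, he, add_assoc]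
  refine ⟨h3, h4 ▸ hr.isReg, fun x => by rw [h3, h3, h.2.2.2]; ring, fun x => ?_⟩
  have h5 : 1 / 2 ≤ 1 + p1 x := by linarith [neg_le_of_abs_le (h1 x)]
  have h6 : 0 ≤ η := (abs_nonneg _).trans (h1 x)
  rw [h4, hr.nl_eq, abs_div, abs_of_pos (by linarith : 0 < 1 + p1 x), div_le_iff₀ (by linarith)]
  nlinarith [h2 x]

theorem exists_maps : ∃ C₀ : ℝ, 1 ≤ C₀ ∧ ∀ (k M m₀ : ℕ) (r₀ κ : ℝ), 0 < k → 3 ≤ m₀ → 0 ≤ r₀ →
    r₀ ≤ 1 → C₀ * (1 / 2) ^ m₀ ≤ κ → κ ≤ 1 →
    ∃ uu : ((Σ n : Fin M, Fin k × Fin (2 ^ (n : ℕ))) → ℝ) → ℕ → Equiv.Perm ℝ,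
      (∀ c, Adm k M m₀ r₀ c → ∀ i, i < k →
        Good κ (uu c i) ∧ Smu (C₀ * (1 / 2) ^ m₀) (1 / (2 * k)) (uu c i)) ∧
      (∀ c c', Adm k M m₀ r₀ c → Adm k M m₀ r₀ c' → ∀ m : ℕ, (∀ j, (j.1 : ℕ) < m → c j = c' j) →
        ∀ i, i < k → ∀ x, |uu c i x - uu c' i x| ≤ 20 * r₀ * (1 / 2) ^ (4 * m)) ∧
      ∀ c, Adm k M m₀ r₀ c → ∀ n : Fin M, m₀ ≤ (n : ℕ) → ∀ S : ℕ → Equiv.Perm ℝ,
        (∀ i, i < k → Good κ (S i)) →
        Fam k (2 ^ (n : ℕ)) κ (r₀ * (1 / 2) ^ (4 * (n : ℕ))) S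
          fun d => uu (Function.extend (Sigma.mk n) d c) := by
  obtain ⟨ψ, C, hC, hd, hz, hb, hb0, h1⟩ := L_bump
  refine ⟨20 * C, by linarith, fun k M m₀ r₀ κ hk hm hr0 hr1 hκ hκ1 => ?_⟩
  set η : ℝ := 10 * C * (1 / 2) ^ m₀ with hη
  have hη0 : 0 ≤ η := by positivity
  have e2 : 20 * C * (1 / 2) ^ m₀ = 2 * η := by rw [hη]; ring
  rw [e2] at hκ ⊢
  have hbd : ∀ c, Adm k M m₀ r₀ c → ∀ j, j ≤ 3 → ∀ i x, |L_pert ψ m₀ j c i x| ≤ η := by
    intro c hc j hj i x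
    refine (L_pert_le hz (q := 1 / 2) (by norm_num) le_rfl hr0 ?_ (hb j hj) hc i x).trans ?_
    · have : (2 : ℝ) ^ j ≤ 2 ^ 3 := pow_le_pow_right₀ one_le_two hj
      linarith
    · rw [hη]
      gcongr
      linarith
  have hc2 : ∀ (c : (Σ n : Fin M, Fin k × Fin (2 ^ (n : ℕ))) → ℝ) (i : Fin k),
      C2P (L_pert ψ m₀ 0 c i) (L_pert ψ m₀ 1 c i) (L_pert ψ m₀ 2 c i) := fun c i =>
    ⟨L_pert_deriv hd hz hm 0 c i, L_pert_deriv hd hz hm 1 c i, continuous_iff_continuousAt.2 fun x =>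
      (L_pert_deriv hd hz hm 2 c i x).continuousAt, L_pert_per 0 c i⟩
  set uu : ((Σ n : Fin M, Fin k × Fin (2 ^ (n : ℕ))) → ℝ) → ℕ → Equiv.Perm ℝ := fun c i =>
    if hi : i < k then L_map (1 / (2 * k)) (L_pert ψ m₀ 0 c ⟨i, hi⟩) else 1 with huu
  have hs : ∀ c, Adm k M m₀ r₀ c → ∀ i (hi : i < k),
      (∀ x, uu c i x = x + 1 / (2 * k) + L_pert ψ m₀ 0 c ⟨i, hi⟩ x) ∧ Good κ (uu c i) := by
    intro c hc i hi
    obtain ⟨i1, i2⟩ := L_map_spec (1 / (2 * k)) (hc2 c ⟨i, hi⟩) (η := η) (by linarith)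
      (hbd c hc 1 (by norm_num) _) (hbd c hc 2 (by norm_num) _)
    simp only [huu, dif_pos hi]
    exact ⟨i1, i2.mono hκ⟩
  refine ⟨uu, fun c hc i hi => ⟨(hs c hc i hi).2, _, _, _, (hs c hc i hi).1, hc2 c _, fun x => ?_,
    fun x y => ?_⟩, fun c c' hc hc' m hcc i hi x => ?_, fun c hc n hn S hS => ?_⟩
  · refine ⟨?_, ?_, ?_⟩ <;> exact (hbd c hc _ (by norm_num) _ x).trans (by linarith)
  · exact mvt_abs (L_pert_deriv hd hz hm 2 c _)
      (fun z => (hbd c hc 3 le_rfl _ z).trans (by linarith)) x y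
  · rw [(hs c hc i hi).1, (hs c' hc' i hi).1, add_sub_add_left_eq_sub, L_pert_sub]
    refine (L_pert_le hz (q := (1 / 2) ^ 4) (m := m) (r := 2 * r₀) (by norm_num) (by norm_num)
      (by positivity) (by norm_num) hb0 (fun j => ?_) _ x).trans (le_of_eq ?_)
    · have k1 : ∀ c, Adm k M m₀ r₀ c → |c j| ≤ r₀ * (1 / 2) ^ (4 * (j.1 : ℕ)) := fun c hc =>
        (hc j).trans (by split_ifs; exacts [le_rfl, by positivity])
      split_ifs with h
      · rw [Pi.sub_apply]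
        linarith [abs_sub (c j) (c' j), k1 c hc, k1 c' hc']
      · rw [Pi.sub_apply, hcc j (not_le.1 h), sub_self, abs_zero]
    · rw [← pow_mul]
      ring
  · have hr : 0 ≤ r₀ * (1 / 2 : ℝ) ^ (4 * (n : ℕ)) := by positivity
    have hN : 0 < 2 ^ (n : ℕ) := by positivity
    have adm : ∀ d : Fin k × Fin (2 ^ (n : ℕ)) → ℝ, (∀ p, |d p| ≤ r₀ * (1 / 2) ^ (4 * (n : ℕ))) →
        Adm k M m₀ r₀ (Function.extend (Sigma.mk n) d c) := by
      rintro d hd' ⟨n', p⟩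
      rcases eq_or_ne n' n with rfl | h
      · rw [L_ext_same, if_pos hn]
        exact hd' p
      · rw [L_ext_ne h]
        exact hc _
    have upd : ∀ d : Fin k × Fin (2 ^ (n : ℕ)) → ℝ, (∀ p, |d p| ≤ r₀ * (1 / 2) ^ (4 * (n : ℕ))) →
        ∀ p s, |s| ≤ r₀ * (1 / 2) ^ (4 * (n : ℕ)) →
        ∀ p', |Function.update d p s p'| ≤ r₀ * (1 / 2) ^ (4 * (n : ℕ)) := by
      intro d hd' p s hs' p'
      rcases eq_or_ne p' p with rfl | h
      · rwa [Function.update_self]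
      · rw [Function.update_of_ne h]
        exact hd' p'
    have diff : ∀ d : Fin k × Fin (2 ^ (n : ℕ)) → ℝ, (∀ p, |d p| ≤ r₀ * (1 / 2) ^ (4 * (n : ℕ))) →
        ∀ (i : Fin k) W s, |s| ≤ r₀ * (1 / 2) ^ (4 * (n : ℕ)) → ∀ x,
        uu (Function.extend (Sigma.mk n) (Function.update d (i, W) s) c) i x
          = uu (Function.extend (Sigma.mk n) (Function.update d (i, W) 0) c) i x
            + s * L_win ψ 0 (2 ^ (n : ℕ)) (x - (W : ℕ) / (2 ^ (n : ℕ) : ℕ)) := by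
      intro d hd' i W s hs' x
      rw [(hs _ (adm _ (upd d hd' _ s hs')) i i.2).1,
        (hs _ (adm _ (upd d hd' _ 0 (by rwa [abs_zero]))) i i.2).1, ← L_lev_update d i W s x,
        ← L_pert_ext hn _ _ c i x]
      ring
    refine ⟨hS, fun d hd' i hi => (hs _ (adm d hd') i hi).2, fun d hd' i hi x => ?_,
      fun d i W s j hj => ?_, fun d hd' i W s hs' x hx => ?_, fun d hd' i W s hs' x hx => ?_⟩
    · rw [(hs _ (adm d hd') i hi).1, (hs _ (adm 0 fun p => by rwa [Pi.zero_apply, abs_zero]) i hi).1,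
        add_sub_add_left_eq_sub, L_pert_ext hn]
      refine (L_lev_le hz hN hb0 (fun W => by simpa using hd' _) x).trans (le_of_eq ?_)
      simp
    · simp only [huu]
      split_ifs with h
      · congr 1
        funext x
        rw [← sub_eq_zero, L_pert_ext hn, L_lev]
        refine sum_eq_zero fun W' _ => ?_
        rw [Function.update_of_ne fun e => hj (congrArg Fin.val (Prod.ext_iff.1 e).1), sub_self,
          zero_mul]
      · rfl
    · rw [diff d hd' i W s hs' x, L_win_zero hz 0 hN hx, mul_zero, add_zero]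
    · have hN' : (0 : ℝ) < (2 ^ (n : ℕ) : ℕ) := by exact_mod_cast hN
      rw [diff d hd' i W s hs' x, L_win, h1, pow_zero, mul_one, mul_one]
      rw [L_win_abs]
      rwa [le_div_iff₀' hN'] at hx

end Pool.Agent.P.MP_0354a7_al
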