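import Pool.Agent.P.MP_0354a7_al.PF.Kernel

/-!
Cancellation of the difference of two tent kernels against a smooth random displacement.
-/

namespace Pool.Agent.P.MP_0354a7_al

open Real Finset

theorem osc_pow (n : ℕ) (x : ℝ) :
    HasDerivAt (fun y : ℝ => max y 0 ^ (n + 2)) ((n + 2 : ℕ) * max x 0 ^ (n + 1)) x := by
  have hc : Continuous fun y : ℝ => max y 0 := continuous_id.max continuous_const
  refine hasDerivAt_of_hasDerivAt_of_ne' (x := 0)
    (g := fun y => ((n + 2 : ℕ) : ℝ) * max y 0 ^ (n + 1)) (fun y hy => ?_)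
    (hc.pow _).continuousAt (continuous_const.mul (hc.pow _)).continuousAt x
  rcases lt_or_gt_of_ne hy with h | h
  · have : (fun y : ℝ => max y 0 ^ (n + 2)) =ᶠ[nhds y] fun _ => 0 := by
      filter_upwards [gt_mem_nhds h] with u hu
      rw [max_eq_right hu.le, zero_pow (by omega)]
    rw [max_eq_right h.le, zero_pow (by omega), mul_zero]
    exact (hasDerivAt_const y 0).congr_of_eventuallyEq this
  · have : (fun y : ℝ => max y 0 ^ (n + 2)) =ᶠ[nhds y] fun u => u ^ (n + 2) := by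
      filter_upwards [lt_mem_nhds h] with u hu
      rw [max_eq_left hu.le]
    rw [max_eq_left h.le]
    exact (hasDerivAt_pow (n + 2) y).congr_of_eventuallyEq this

/-- The tent on the line. -/
noncomputable def oscT (l u : ℝ) : ℝ := max 0 (1 - |u| / l) / l

/-- Its first primitive. -/
noncomputable def oscP (l u : ℝ) : ℝ :=
  (max (u + l) 0 ^ 2 - 2 * max u 0 ^ 2 + max (u - l) 0 ^ 2) / (2 * l ^ 2)

/-- Its second primitive. -/
noncomputable def oscQ (l u : ℝ) : ℝ :=
  (max (u + l) 0 ^ 3 - 2 * max u 0 ^ 3 + max (u - l) 0 ^ 3) / (6 * l ^ 2)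

theorem oscT_eq {l : ℝ} (hl : 0 < l) (u : ℝ) :
    oscT l u = (max (u + l) 0 - 2 * max u 0 + max (u - l) 0) / l ^ 2 := by
  have h : max 0 (1 - |u| / l) = max 0 (l - |u|) / l := by
    rw [← max_div_div_right hl.le, zero_div, sub_div, div_self hl.ne']
  rw [oscT, h, div_div, ← sq]
  congr 1
  rcases le_total 0 u with h0 | h0
  · rw [abs_of_nonneg h0, max_eq_left h0, max_eq_left (by linarith : 0 ≤ u + l)]
    rcases le_total u l with h1 | h1
    · rw [max_eq_right (by linarith), max_eq_right (by linarith)]; ring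
    · rw [max_eq_left (by linarith), max_eq_left (by linarith)]; ring
  · rw [abs_of_nonpos h0, max_eq_right h0, max_eq_right (by linarith : u - l ≤ 0), max_comm]
    ring_nf

theorem oscP_deriv {l : ℝ} (hl : 0 < l) (u : ℝ) : HasDerivAt (oscP l) (oscT l u) u := by
  have h1 := HasDerivAt.comp_add_const u l (osc_pow 0 (u + l))
  have h2 := (osc_pow 0 u).const_mul 2
  have h3 := HasDerivAt.comp_sub_const u l (osc_pow 0 (u - l))
  have := ((h1.sub h2).add h3).div_const (2 * l ^ 2)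
  refine this.congr_deriv ?_
  rw [oscT_eq hl]
  push_cast
  field_simp

theorem oscQ_deriv {l : ℝ} (hl : 0 < l) (u : ℝ) : HasDerivAt (oscQ l) (oscP l u) u := by
  have h1 := HasDerivAt.comp_add_const u l (osc_pow 1 (u + l))
  have h2 := (osc_pow 1 u).const_mul 2
  have h3 := HasDerivAt.comp_sub_const u l (osc_pow 1 (u - l))
  have := ((h1.sub h2).add h3).div_const (6 * l ^ 2)
  refine this.congr_deriv ?_
  rw [oscP]
  push_cast
  field_simp
  ring

theorem osc_left {l u : ℝ} (hl : 0 < l) (h : u ≤ -l) : oscP l u = 0 ∧ oscQ l u = 0 := by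
  rw [oscP, oscQ, max_eq_right (by linarith), max_eq_right (by linarith),
    max_eq_right (by linarith)]
  simp

theorem osc_right {l u : ℝ} (hl : 0 < l) (h : l ≤ u) : oscP l u = 1 ∧ oscQ l u = u := by
  rw [oscP, oscQ, max_eq_left (by linarith), max_eq_left (by linarith),
    max_eq_left (by linarith)]
  constructor <;> field_simp <;> ring

theorem oscT_abs {l : ℝ} (hl : 0 < l) (u : ℝ) : |oscT l u| ≤ 1 / l := by
  rw [oscT, abs_of_nonneg (by positivity)]
  refine div_le_div_of_nonneg_right (max_le zero_le_one ?_) hl.le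
  have : 0 ≤ |u| / l := by positivity
  linarith

theorem oscP_abs {l : ℝ} (hl : 0 < l) (u : ℝ) : |oscP l u| ≤ 2 := by
  rcases le_total u (-l) with h | h
  · rw [(osc_left hl h).1]; norm_num
  rcases le_total l u with h' | h'
  · rw [(osc_right hl h').1]; norm_num
  have := mvt_abs (oscP_deriv hl) (oscT_abs hl) u (-l)
  rw [(osc_left hl le_rfl).1, sub_zero, abs_of_nonneg (by linarith : 0 ≤ u - -l)] at this
  refine this.trans ?_
  rw [one_div, inv_mul_le_iff₀ hl]
  linarith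

/-- Two primitives of the difference of two tents, with compact support. -/
theorem osc_prim {l₀ l₁ : ℝ} (h0 : 0 < l₀) (h01 : l₀ ≤ l₁) : ∃ K₁ K₂ : ℝ → ℝ,
    (∀ u, HasDerivAt K₁ (oscT l₀ u - oscT l₁ u) u) ∧ (∀ u, HasDerivAt K₂ (K₁ u) u) ∧
    (∀ u, |K₁ u| ≤ 4) ∧ (∀ u, |K₂ u| ≤ 8 * l₁) ∧ ∀ u, l₁ ≤ |u| → K₁ u = 0 ∧ K₂ u = 0 := by
  have h1 : 0 < l₁ := h0.trans_le h01
  have d2 : ∀ u, HasDerivAt (fun u => oscQ l₀ u - oscQ l₁ u) (oscP l₀ u - oscP l₁ u) u :=
    fun u => (oscQ_deriv h0 u).sub (oscQ_deriv h1 u)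
  have b1 : ∀ u, |oscP l₀ u - oscP l₁ u| ≤ 4 := fun u =>
    (abs_sub _ _).trans (by linarith [oscP_abs h0 u, oscP_abs h1 u])
  have z : ∀ u, l₁ ≤ |u| → oscP l₀ u - oscP l₁ u = 0 ∧ oscQ l₀ u - oscQ l₁ u = 0 := by
    intro u hu
    rcases le_abs.1 hu with h | h
    · rw [(osc_right h0 (h01.trans h)).1, (osc_right h0 (h01.trans h)).2, (osc_right h1 h).1,
        (osc_right h1 h).2]
      simp
    · have a0 := osc_left h0 (show u ≤ -l₀ by linarith)
      have a1 := osc_left h1 (show u ≤ -l₁ by linarith)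
      rw [a0.1, a0.2, a1.1, a1.2]
      simp
  refine ⟨fun u => oscP l₀ u - oscP l₁ u, fun u => oscQ l₀ u - oscQ l₁ u,
    fun u => (oscP_deriv h0 u).sub (oscP_deriv h1 u), d2, b1, fun u => ?_, z⟩
  rcases le_total l₁ |u| with h | h
  · simp only [(z u h).2, abs_zero]; positivity
  · have := mvt_abs d2 b1 u l₁
    simp only [(z l₁ (le_abs_self _)).2, sub_zero] at this
    have h3 : |u - l₁| ≤ 2 * l₁ := by
      rw [abs_le] at h ⊢
      constructor <;> linarith [h.1, h.2]
    linarith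

/-- The integral of a bounded function with a support of small diameter. -/
theorem osc_supp {f : ℝ → ℝ} {M d : ℝ} (hM : 0 ≤ M) (hd : 0 ≤ d)
    (h1 : ∀ s ∈ Set.Icc (-1 : ℝ) 1, |f s| ≤ M)
    (h2 : ∀ s s', f s ≠ 0 → f s' ≠ 0 → |s - s'| ≤ d) : |∫ s in (-1 : ℝ)..1, f s| ≤ 2 * d * M := by
  by_cases h : ∃ s, f s ≠ 0
  · obtain ⟨s₀, hs₀⟩ := h
    rw [intervalIntegral.integral_of_le (by norm_num),
      MeasureTheory.setIntegral_eq_of_subset_of_forall_sdiff_eq_zero measurableSet_Ioc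
        (Set.inter_subset_left (t := Set.Icc (s₀ - d) (s₀ + d))) (fun x hx => by
          by_contra hf
          have := abs_le.1 (h2 x s₀ hf hs₀)
          exact hx.2 ⟨hx.1, by linarith [this.1], by linarith [this.2]⟩)]
    have h3 := MeasureTheory.norm_setIntegral_le_of_norm_le_const (μ := MeasureTheory.volume)
      (s := Set.Ioc (-1 : ℝ) 1 ∩ Set.Icc (s₀ - d) (s₀ + d)) (f := f) (C := M)
      ((MeasureTheory.measure_mono Set.inter_subset_right).trans_lt measure_Icc_lt_top)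
      (fun x hx => h1 x (Set.Ioc_subset_Icc_self hx.1))
    have h4 : MeasureTheory.volume.real (Set.Ioc (-1 : ℝ) 1 ∩ Set.Icc (s₀ - d) (s₀ + d)) ≤ 2 * d := by
      refine (MeasureTheory.measureReal_mono Set.inter_subset_right measure_Icc_lt_top.ne).trans ?_
      rw [Real.volume_real_Icc_of_le (by linarith)]
      linarith
    rw [Real.norm_eq_abs] at h3
    nlinarith
  · push Not at h
    simp only [h, intervalIntegral.integral_zero, abs_zero]
    positivity

/-- Two integrations by parts. -/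
theorem osc_parts {B : Equiv.Perm ℝ} (hB : IsReg B) {p K₁ K₂ : ℝ → ℝ} (hp : Continuous p)
    (k1 : ∀ u, HasDerivAt K₁ (p u) u) (k2 : ∀ u, HasDerivAt K₂ (K₁ u) u) {t : ℝ} (ht : t ≠ 0)
    (a z : ℝ) :
    ∫ s in (-1 : ℝ)..1, 15 / 16 * (1 - s ^ 2) ^ 2 * (exp (ph B (a + t * s) / 2) * p (B (a + t * s) - z))
      = ∫ s in (-1 : ℝ)..1,
        (15 / 16 * (1 - s ^ 2) ^ 2 * exp (-(ph B (a + t * s) / 2)) * (nl B (a + t * s) / 2)
            * K₁ (B (a + t * s) - z)
          + (-(15 / 4) * (1 - 3 * s ^ 2) / t ^ 2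
              - 3 / 2 * (-(15 / 4) * (s * (1 - s ^ 2))) * nl B (a + t * s) / t)
            * exp (-(ph B (a + t * s) / 2)) ^ 3 * K₂ (B (a + t * s) - z)) := by
  have c0 : Continuous fun s : ℝ => a + t * s := by fun_prop
  have cφ : Continuous fun s => ph B (a + t * s) := (Reg.continuous_phi hB).comp c0
  have cn : Continuous fun s => nl B (a + t * s) := hB.cont.comp c0
  have cV : Continuous fun s => B (a + t * s) - z := ((Reg.continuous hB).comp c0).sub continuous_const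
  have c1 : Continuous K₁ := continuous_iff_continuousAt.2 fun u => (k1 u).continuousAt
  have c2 : Continuous K₂ := continuous_iff_continuousAt.2 fun u => (k2 u).continuousAt
  have cp := hp.comp cV
  have ck1 := c1.comp cV
  have ck2 := c2.comp cV
  simp only [Function.comp_def] at cp ck1 ck2
  have cA : Continuous fun s : ℝ => 15 / 16 * (1 - s ^ 2) ^ 2 *
      (exp (ph B (a + t * s) / 2) * p (B (a + t * s) - z)) := by fun_prop
  have cR : Continuous fun s : ℝ =>
      (15 / 16 * (1 - s ^ 2) ^ 2 * exp (-(ph B (a + t * s) / 2)) * (nl B (a + t * s) / 2)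
            * K₁ (B (a + t * s) - z)
          + (-(15 / 4) * (1 - 3 * s ^ 2) / t ^ 2
              - 3 / 2 * (-(15 / 4) * (s * (1 - s ^ 2))) * nl B (a + t * s) / t)
            * exp (-(ph B (a + t * s) / 2)) ^ 3 * K₂ (B (a + t * s) - z)) := by fun_prop
  rw [← sub_eq_zero, ← intervalIntegral.integral_sub (cA.intervalIntegrable _ _)
    (cR.intervalIntegrable _ _)]
  refine (intervalIntegral.integral_eq_sub_of_hasDerivAt (f := fun s =>
    15 / 16 * (1 - s ^ 2) ^ 2 * exp (-(ph B (a + t * s) / 2)) * K₁ (B (a + t * s) - z) / t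
      - -(15 / 4) * (s * (1 - s ^ 2)) * exp (-(ph B (a + t * s) / 2)) ^ 3
        * K₂ (B (a + t * s) - z) / t ^ 2) (fun s _ => ?_)
    ((cA.sub cR).intervalIntegrable _ _)).trans (by norm_num)
  have d0 : HasDerivAt (fun s : ℝ => a + t * s) t s := by
    simpa using ((hasDerivAt_id s).const_mul t).const_add a
  have dE : HasDerivAt (fun s => exp (-(ph B (a + t * s) / 2)))
      (exp (-(ph B (a + t * s) / 2)) * -(nl B (a + t * s) * t / 2)) s :=
    ((((hB.d2 _).comp s d0).div_const 2).neg).exp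
  have dV : HasDerivAt (fun s => B (a + t * s) - z) (exp (ph B (a + t * s)) * t) s :=
    ((hB.d1 _).comp s d0).sub_const z
  have dK1 : HasDerivAt (fun s => K₁ (B (a + t * s) - z))
      (p (B (a + t * s) - z) * (exp (ph B (a + t * s)) * t)) s := (k1 _).comp s dV
  have dK2 : HasDerivAt (fun s => K₂ (B (a + t * s) - z))
      (K₁ (B (a + t * s) - z) * (exp (ph B (a + t * s)) * t)) s := (k2 _).comp s dV
  have dq : HasDerivAt (fun s : ℝ => 1 - s ^ 2) (-(2 * s)) s := by
    simpa using (hasDerivAt_pow 2 s).const_sub 1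
  have dρ : HasDerivAt (fun s : ℝ => 15 / 16 * (1 - s ^ 2) ^ 2) (-(15 / 4) * (s * (1 - s ^ 2))) s :=
    ((dq.pow 2).const_mul (15 / 16)).congr_deriv (by norm_num; ring)
  have dρ' : HasDerivAt (fun s : ℝ => -(15 / 4) * (s * (1 - s ^ 2)))
      (-(15 / 4) * (1 - 3 * s ^ 2)) s :=
    (((hasDerivAt_id s).mul dq).const_mul (-(15 / 4))).congr_deriv (by simp only [id]; ring)
  refine ((((dρ.mul dE).mul dK1).div_const t).sub
    (((dρ'.mul (dE.pow 3)).mul dK2).div_const (t ^ 2))).congr_deriv ?_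
  have e1 : exp (ph B (a + t * s)) = exp (ph B (a + t * s) / 2) ^ 2 := by
    rw [← exp_nat_mul]; congr 1; push_cast; ring
  have e2 : exp (ph B (a + t * s) / 2) ≠ 0 := (exp_pos _).ne'
  simp only [Pi.mul_apply, Pi.pow_apply, Pi.sub_apply, e1, exp_neg]
  generalize exp (ph B (a + t * s) / 2) = E at e2 ⊢
  push_cast
  field_simp
  ring

/-- The bound for the integral against the smooth density. -/
theorem osc_int {B : Equiv.Perm ℝ} (hB : IsReg B) {a₁ b₁ : ℝ} (h1 : ∀ x, |ph B x| ≤ a₁)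
    (h2 : ∀ x, |nl B x| ≤ b₁) {l₀ l₁ t r : ℝ} (h0 : 0 < l₀) (h01 : l₀ ≤ l₁) (hr : 0 < r)
    (ht : |t| = r) (hr1 : r ≤ 1 / 8) (a z : ℝ) :
    |∫ s in (-1 : ℝ)..1, 15 / 16 * (1 - s ^ 2) ^ 2 * (exp (ph B (a + t * s) / 2) *
        (oscT l₀ (B (a + t * s) - z) - oscT l₁ (B (a + t * s) - z)))|
      ≤ 300 * exp (3 * a₁) * (1 + b₁) * (l₁ / r + l₁ ^ 2 / r ^ 3) := by
  obtain ⟨K₁, K₂, k1, k2, k3, k4, k5⟩ := osc_prim h0 h01
  have hl : 0 < l₁ := h0.trans_le h01
  have ha : 0 ≤ a₁ := (abs_nonneg _).trans (h1 0)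
  have hb : 0 ≤ b₁ := (abs_nonneg _).trans (h2 0)
  have ht0 : t ≠ 0 := by rw [← abs_pos, ht]; exact hr
  have cT : ∀ l, Continuous (oscT l) := fun l => by unfold oscT; fun_prop
  rw [osc_parts hB (p := fun u => oscT l₀ u - oscT l₁ u) ((cT _).sub (cT _)) k1 k2 ht0]
  have hE : ∀ x, exp (-(ph B x / 2)) ≤ exp (a₁ / 2) := fun x =>
    exp_le_exp.2 (by linarith [neg_le_of_abs_le (h1 x)])
  have hE1 : exp (a₁ / 2) ≤ exp (2 * a₁) := exp_le_exp.2 (by linarith)
  have hE3 : exp (a₁ / 2) ^ 3 ≤ exp (2 * a₁) := by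
    rw [← exp_nat_mul]; exact exp_le_exp.2 (by push_cast; linarith)
  refine (osc_supp (M := exp (2 * a₁) * (2 * b₁ + (8 / r ^ 2 + 6 * b₁ / r) * (8 * l₁)))
    (d := 2 * l₁ * exp a₁ / r) (by positivity) (by positivity) (fun s hs => ?_)
    (fun s s' hs hs' => ?_)).trans ?_
  · have s1 : s ^ 2 ≤ 1 := by nlinarith [hs.1, hs.2]
    have s0 : 0 ≤ s ^ 2 := sq_nonneg s
    have r0 : |15 / 16 * (1 - s ^ 2) ^ 2| ≤ 1 := by
      rw [abs_of_nonneg (by positivity)]; nlinarith
    have r1 : |-(15 / 4) * (s * (1 - s ^ 2))| ≤ 4 := by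
      rw [abs_le]; constructor <;> nlinarith [hs.1, hs.2]
    have r2 : |-(15 / 4) * (1 - 3 * s ^ 2)| ≤ 8 := by
      rw [abs_le]; constructor <;> nlinarith
    have q1 : |-(15 / 4) * (1 - 3 * s ^ 2) / t ^ 2
        - 3 / 2 * (-(15 / 4) * (s * (1 - s ^ 2))) * nl B (a + t * s) / t| ≤
        8 / r ^ 2 + 6 * b₁ / r := by
      refine (abs_sub _ _).trans (add_le_add ?_ ?_)
      · rw [abs_div, abs_pow, ht]; gcongr
      · rw [abs_div, abs_mul, abs_mul (3 / 2), ht, abs_of_pos (by norm_num : (0 : ℝ) < 3 / 2)]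
        refine div_le_div_of_nonneg_right ?_ hr.le
        exact mul_le_mul (by linarith) (h2 _) (abs_nonneg _) (by norm_num)
    refine (abs_add_le _ _).trans ?_
    rw [mul_add (exp (2 * a₁))]
    refine add_le_add ?_ ?_
    · rw [abs_mul, abs_mul, abs_mul _ (exp _), abs_of_pos (exp_pos _), abs_div, abs_two]
      calc _ ≤ 1 * exp (2 * a₁) * (b₁ / 2) * 4 := by
            gcongr
            exacts [exp_le_exp.1 ((hE _).trans hE1), h2 _, k3 _]
        _ = _ := by ring
    · rw [abs_mul, abs_mul, abs_pow, abs_of_pos (exp_pos _)]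
      calc _ ≤ (8 / r ^ 2 + 6 * b₁ / r) * exp (2 * a₁) * (8 * l₁) := by
            gcongr
            exacts [(pow_le_pow_left₀ (exp_pos _).le (hE _) 3).trans hE3, k4 _]
        _ = _ := by ring
  · have key : ∀ s, (15 / 16 * (1 - s ^ 2) ^ 2 * exp (-(ph B (a + t * s) / 2))
        * (nl B (a + t * s) / 2) * K₁ (B (a + t * s) - z)
          + (-(15 / 4) * (1 - 3 * s ^ 2) / t ^ 2
              - 3 / 2 * (-(15 / 4) * (s * (1 - s ^ 2))) * nl B (a + t * s) / t)
            * exp (-(ph B (a + t * s) / 2)) ^ 3 * K₂ (B (a + t * s) - z)) ≠ 0 →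
        |B (a + t * s) - z| ≤ l₁ := fun s h => by
      by_contra hc
      obtain ⟨e1, e2⟩ := k5 _ (not_le.1 hc).le
      exact h (by rw [e1, e2]; ring)
    have a1 := abs_le.1 (key s hs)
    have a2 := abs_le.1 (key s' hs')
    have a3 := Reg.lip (Reg.inv hB) (C := a₁) (fun x => by rw [abs_neg]; exact h1 _)
      (B (a + t * s)) (B (a + t * s'))
    rw [inv_ap, inv_ap, show a + t * s - (a + t * s') = t * (s - s') by ring, abs_mul, ht] at a3
    have a4 : |B (a + t * s) - B (a + t * s')| ≤ 2 * l₁ := by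
      rw [abs_le]; constructor <;> linarith [a1.1, a1.2, a2.1, a2.2]
    rw [le_div_iff₀ hr]
    nlinarith [exp_pos a₁]
  · have e3 : exp (3 * a₁) = exp a₁ * exp (2 * a₁) := by rw [← exp_add]; congr 1; ring
    have x1 : 0 < l₁ / r := by positivity
    have x2 : 0 < l₁ ^ 2 / r ^ 3 := by positivity
    have x3 : 2 * (2 * l₁ * exp a₁ / r) *
        (exp (2 * a₁) * (2 * b₁ + (8 / r ^ 2 + 6 * b₁ / r) * (8 * l₁))) =
        exp (3 * a₁) * (8 * b₁ * (l₁ / r) + (256 + 192 * r * b₁) * (l₁ ^ 2 / r ^ 3)) := by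
      rw [e3]; field_simp; ring
    rw [x3, mul_comm 300, mul_assoc (exp (3 * a₁)), mul_assoc (exp (3 * a₁))]
    refine mul_le_mul_of_nonneg_left ?_ (exp_pos _).le
    have x4 : r * b₁ ≤ b₁ := by nlinarith
    nlinarith [mul_nonneg hb x1.le, mul_nonneg hb x2.le, mul_le_mul_of_nonneg_right x4 x2.le]

theorem osc {V : Type} [Fintype V] {γ : ℝ} {w val : V → ℝ} (hL : Law γ w val) (hγ : 0 ≤ γ)
    {B : Equiv.Perm ℝ} (hB : IsReg B) {a₁ b₁ : ℝ} (h1 : ∀ x, |ph B x| ≤ a₁) (h2 : ∀ x, |nl B x| ≤ b₁)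
    {l₀ l₁ t r : ℝ} (h0 : 0 < l₀) (h01 : l₀ ≤ l₁) (h18 : l₁ ≤ 1 / 8) (hr : 0 < r) (ht : |t| = r)
    (hr1 : 8 * r * exp a₁ ≤ 1) (a z : ℝ) :
    |∑ v, w v * (exp (ph B (a + t * val v) / 2) *
        (tk l₀ (B (a + t * val v) - z) - tk l₁ (B (a + t * val v) - z)))|
      ≤ 300 * exp (3 * a₁) * (1 + b₁) * (l₁ / r + l₁ ^ 2 / r ^ 3 + γ / l₀ ^ 2) := by
  have hl : 0 < l₁ := h0.trans_le h01
  have ha : 0 ≤ a₁ := (abs_nonneg _).trans (h1 0)
  have hb : 0 ≤ b₁ := (abs_nonneg _).trans (h2 0)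
  have he1 : 1 ≤ exp a₁ := one_le_exp ha
  have hr8 : r ≤ 1 / 8 := by nlinarith
  have hV : ∀ s s', |B (a + t * s) - B (a + t * s')| ≤ |s - s'| / 8 := fun s s' => by
    have := Reg.lip hB h1 (a + t * s) (a + t * s')
    rw [show a + t * s - (a + t * s') = t * (s - s') by ring, abs_mul, ht] at this
    nlinarith [abs_nonneg (s - s')]
  have hπ : ∀ u, |tk l₀ u - tk l₁ u| ≤ 1 / l₀ := fun u => by
    have := one_div_le_one_div_of_le h0 h01
    rw [abs_le]
    constructor <;> linarith [tk_nonneg h0 u, tk_nonneg hl u, tk_le h0 u, tk_le hl u]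
  have hπ' : ∀ u u', |(tk l₀ u - tk l₁ u) - (tk l₀ u' - tk l₁ u')| ≤ 2 * |u - u'| / l₀ ^ 2 := by
    intro u u'
    have b1 := tk_lip h0 u u'
    have b2 := (tk_lip hl u u').trans (div_le_div_of_nonneg_left (abs_nonneg (u - u'))
      (by positivity : 0 < l₀ ^ 2) (by gcongr))
    rw [show (tk l₀ u - tk l₁ u) - (tk l₀ u' - tk l₁ u') =
      (tk l₀ u - tk l₀ u') - (tk l₁ u - tk l₁ u') by ring, mul_div_assoc]
    exact (abs_sub _ _).trans (by linarith)
  have hE : ∀ x, exp (ph B x / 2) ≤ exp (3 * a₁) := fun x =>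
    exp_le_exp.2 (by linarith [le_of_abs_le (h1 x)])
  have hE' : ∀ x y, |exp (ph B x / 2) - exp (ph B y / 2)| ≤ exp (3 * a₁) * b₁ * |x - y| :=
    mvt_abs (fun x => ((hB.d2 x).div_const 2).exp) fun x => by
      rw [abs_mul, abs_of_pos (exp_pos _), abs_div, abs_two]
      exact mul_le_mul (hE x) (by linarith [h2 x]) (by positivity) (exp_pos _).le
  have hF := hL.riem (fun s => exp (ph B (a + t * s) / 2) *
      (tk l₀ (B (a + t * s) - z) - tk l₁ (B (a + t * s) - z))) (exp (3 * a₁) * (1 + b₁) / l₀ ^ 2)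
    (fun s s' => by
      have c1 := hE' (a + t * s) (a + t * s')
      rw [show a + t * s - (a + t * s') = t * (s - s') by ring, abs_mul, ht] at c1
      have c2 := hπ' (B (a + t * s) - z) (B (a + t * s') - z)
      rw [sub_sub_sub_cancel_right] at c2
      have c3 := hV s s'
      have c4 : 1 / l₀ ≤ 1 / l₀ ^ 2 := one_div_le_one_div_of_le (by positivity) (by nlinarith)
      have c5 := abs_nonneg (s - s')
      rw [show ∀ x y x' y' : ℝ, x * y - x' * y' = (x - x') * y + x' * (y - y') from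
        fun _ _ _ _ => by ring]
      refine (abs_add_le _ _).trans ?_
      rw [abs_mul, abs_mul, abs_of_pos (exp_pos _)]
      calc _ ≤ exp (3 * a₁) * b₁ * (1 * |s - s'|) * (1 / l₀ ^ 2)
            + exp (3 * a₁) * (|s - s'| / l₀ ^ 2) := by
            gcongr
            · refine c1.trans ?_
              gcongr
              linarith
            · exact (hπ _).trans c4
            · exact exp_le_exp.1 (hE _)
            · exact c2.trans (div_le_div_of_nonneg_right (by linarith) (by positivity))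
        _ = _ := by ring)
  have hI : |∫ s in (-1 : ℝ)..1, 15 / 16 * (1 - s ^ 2) ^ 2 * (exp (ph B (a + t * s) / 2) *
        (tk l₀ (B (a + t * s) - z) - tk l₁ (B (a + t * s) - z)))|
      ≤ 300 * exp (3 * a₁) * (1 + b₁) * (l₁ / r + l₁ ^ 2 / r ^ 3) := by
    have hs : ∀ s ∈ Set.uIcc (-1 : ℝ) 1, |B (a + t * s) - z - (B (a + t * 0) - z)| ≤ 1 / 8 := by
      intro s hs
      rw [Set.uIcc_of_le (by norm_num)] at hs
      have := hV s 0
      rw [sub_zero] at this
      rw [sub_sub_sub_cancel_right]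
      linarith [abs_le.2 hs]
    rcases le_total (1 / 4) (nz (B (a + t * 0) - z)) with h | h
    · rw [intervalIntegral.integral_congr (g := fun _ => 0) fun s hs' => ?_]
      · simp only [intervalIntegral.integral_zero, abs_zero]
        positivity
      · have c1 := abs_le.1 ((nz_lip _ _).trans (hs s hs'))
        simp only
        rw [tk_zero h0 (by linarith [c1.1]), tk_zero hl (by linarith [c1.1])]
        ring
    · refine le_trans (le_of_eq ?_)
        (osc_int hB h1 h2 h0 h01 hr ht hr8 a (z + round (B (a + t * 0) - z)))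
      congr 1
      refine intervalIntegral.integral_congr fun s hs' => ?_
      have c1 := abs_le.1 (hs s hs')
      have c2 := abs_le.1 (show |B (a + t * 0) - z - round (B (a + t * 0) - z)| ≤ 1 / 4 from h)
      have c3 : nz (B (a + t * s) - z) = |B (a + t * s) - (z + round (B (a + t * 0) - z))| := by
        rw [← nz_sub_int _ (round (B (a + t * 0) - z)), sub_sub, nz_eq_abs]
        rw [abs_le]
        constructor <;> linarith [c1.1, c1.2, c2.1, c2.2]
      simp only [tk, oscT, c3]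
  have hx : exp (3 * a₁) * (1 + b₁) / l₀ ^ 2 * γ ≤ 300 * exp (3 * a₁) * (1 + b₁) * (γ / l₀ ^ 2) := by
    have : 0 ≤ exp (3 * a₁) * (1 + b₁) * (γ / l₀ ^ 2) := by positivity
    calc _ = exp (3 * a₁) * (1 + b₁) * (γ / l₀ ^ 2) := by ring
      _ ≤ _ := by linarith
  rw [mul_add _ (l₁ / r + l₁ ^ 2 / r ^ 3)]
  have := abs_sub_abs_le_abs_sub (∑ v, w v * (exp (ph B (a + t * val v) / 2) *
        (tk l₀ (B (a + t * val v) - z) - tk l₁ (B (a + t * val v) - z))))
    (∫ s in (-1 : ℝ)..1, 15 / 16 * (1 - s ^ 2) ^ 2 * (exp (ph B (a + t * s) / 2) *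
        (tk l₀ (B (a + t * s) - z) - tk l₁ (B (a + t * s) - z))))
  linarith

end Pool.Agent.P.MP_0354a7_al
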