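import Pool.Agent.P.MP_0354a7_al.PF.Window
import Pool.Agent.P.MP_0354a7_al.PF.Osc

/-!
The expected trace: walks with a lonely visit are handled by the oscillation bound, the others by
their number.
-/

namespace Pool.Agent.P.MP_0354a7_al

open Real Finset Function

theorem E3_exp {b : ℝ} (hb : b ≤ 1 / 10) : exp b ≤ 9 / 8 := by
  have h := Real.exp_bound_div_one_sub_of_interval (x := 1 / 10) (by norm_num) (by norm_num)
  exact (exp_le_exp.2 hb).trans (h.trans (by norm_num))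

theorem E3_mul {a b : ℝ} {e e' : Equiv.Perm ℝ} (h : Good a e) (h' : Good b e') (hb : b ≤ 1 / 10) :
    Good (9 / 8 * a + b) (e * e') :=
  (h.mul h').mono (by nlinarith [E3_exp hb, h.nonneg])

theorem E3_inv {a : ℝ} {e : Equiv.Perm ℝ} (h : Good a e) (ha : a ≤ 1 / 10) :
    Good (9 / 8 * a) e⁻¹ :=
  h.inv.mono (by nlinarith [E3_exp ha, h.nonneg])

/-- The steps of a walk. -/
def E3_st {k N : ℕ} (P : Fin k → Equiv.Perm ℝ) (w : Fin N → Fin k × Fin k) (t : ℕ) :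
    Equiv.Perm ℝ :=
  if h : t < N then P (w ⟨t, h⟩).2 * (P (w ⟨t, h⟩).1)⁻¹ else 1

theorem E3_VW {k N : ℕ} (P : Fin k → Equiv.Perm ℝ) (w : Fin N → Fin k × Fin k) :
    VW P w = pu (E3_st P w) := rfl

theorem E3_st_eq {k N : ℕ} (P : Fin k → Equiv.Perm ℝ) (w : Fin N → Fin k × Fin k) (t : Fin N) :
    E3_st P w t = P (w t).2 * (P (w t).1)⁻¹ := by
  rw [E3_st, dif_pos t.2]

theorem E3_st_good {k N : ℕ} {P : Fin k → Equiv.Perm ℝ} (hP : ∀ i, Good (1 / 100) (P i))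
    (w : Fin N → Fin k × Fin k) (t : ℕ) : Good (1 / 40) (E3_st P w t) := by
  unfold E3_st
  split_ifs with h
  · exact (E3_mul (hP _) (E3_inv (hP _) (by norm_num)) (by norm_num)).mono (by norm_num)
  · exact Good.one (by norm_num)

theorem E3_inv_close {a δ : ℝ} {e e' : Equiv.Perm ℝ} (h : Good a e) (hd : ∀ x, |e x - e' x| ≤ δ)
    (x y : ℝ) : |e⁻¹ x - e'⁻¹ y| ≤ exp a * (|x - y| + δ) := by
  have h1 := h.le_lip (e⁻¹ x) (e'⁻¹ y)
  have h2 := hd (e'⁻¹ y)
  rw [ap_inv] at h1 h2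
  rw [abs_sub_comm] at h2
  refine h1.trans (mul_le_mul_of_nonneg_left ?_ (exp_pos _).le)
  linarith [abs_sub_le x y (e (e'⁻¹ y))]

theorem E3_close {k N : ℕ} {P P' : Fin k → Equiv.Perm ℝ} (hP : ∀ i, Good (1 / 100) (P i)) {δ : ℝ}
    (h0 : 0 ≤ δ) (hd : ∀ i x, |P i x - P' i x| ≤ δ) (w : Fin N → Fin k × Fin k) (y : ℝ)
    (t : Fin N) : |rx P w y t - rx P' w y t| ≤ 4 * (N + 1) * exp (N / 20) * δ := by
  have e1 : exp (1 / 100 : ℝ) ≤ 9 / 8 := E3_exp (by norm_num)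
  have e2 : exp (1 / 50 : ℝ) = exp (1 / 100) * exp (1 / 100) := by rw [← exp_add]; norm_num
  have e3 : 1 ≤ exp (1 / 50 : ℝ) := one_le_exp (by norm_num)
  have e0 := exp_pos (1 / 100 : ℝ)
  have h1 := pu_close (L := exp (1 / 50)) (d := 3 * δ) (e := E3_st P w) (e' := E3_st P' w) e3
    (by linarith) t (fun j _ x z => by
      unfold E3_st
      split_ifs with h
      · simp only [Equiv.Perm.mul_apply]
        have a1 := E3_inv_close (hP (w ⟨j, h⟩).1) (hd _) x z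
        have a2 := (hP (w ⟨j, h⟩).2).lip ((P (w ⟨j, h⟩).1)⁻¹ x) ((P' (w ⟨j, h⟩).1)⁻¹ z)
        have a3 := hd (w ⟨j, h⟩).2 ((P' (w ⟨j, h⟩).1)⁻¹ z)
        have a4 := mul_le_mul_of_nonneg_left a1 e0.le
        have a5 : exp (1 / 100 : ℝ) * exp (1 / 100) * δ ≤ 2 * δ :=
          mul_le_mul_of_nonneg_right (by nlinarith) h0
        have a6 := abs_sub_le (P (w ⟨j, h⟩).2 ((P (w ⟨j, h⟩).1)⁻¹ x))
          (P (w ⟨j, h⟩).2 ((P' (w ⟨j, h⟩).1)⁻¹ z)) (P' (w ⟨j, h⟩).2 ((P' (w ⟨j, h⟩).1)⁻¹ z))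
        rw [e2]
        nlinarith
      · simp only [Equiv.Perm.one_apply]
        nlinarith [abs_nonneg (x - z)]) y y
  rw [sub_self, abs_zero, zero_add, ← exp_nat_mul] at h1
  have h2 := E3_inv_close (hP (w t).1) (hd _) (VW P w t y) (VW P' w t y)
  have ht : ((t : ℕ) : ℝ) ≤ N := by exact_mod_cast t.2.le
  have ht0 : (0 : ℝ) ≤ (t : ℕ) := by positivity
  have e4 : exp ((t : ℕ) * (1 / 50 : ℝ)) ≤ exp (N / 20) := exp_le_exp.2 (by linarith)
  have e5 : 1 ≤ exp (N / 20 : ℝ) := one_le_exp (by linarith)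
  have h3 : exp ((t : ℕ) * (1 / 50 : ℝ)) * ((t : ℕ) * (3 * δ)) ≤ exp (N / 20) * (N * (3 * δ)) :=
    mul_le_mul e4 (mul_le_mul_of_nonneg_right ht (by linarith)) (by positivity) (exp_pos _).le
  have h4 : |VW P w t y - VW P' w t y| + δ ≤ 3 * ((N + 1) * exp (N / 20) * δ) := by
    rw [E3_VW, E3_VW]
    nlinarith
  have h5 : 0 ≤ ((N : ℝ) + 1) * exp (N / 20) * δ := by positivity
  have h6 := mul_le_mul e1 h4 (by positivity) (by norm_num)
  unfold rx
  linarith

theorem E3_chain {e e' : ℕ → Equiv.Perm ℝ} (y : ℝ) (m : ℕ) (hr : ∀ j, IsReg (e j) ∧ Per (e j))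
    (h : ∀ j, j < m → Loc (e j) (e' j) (pu e j y)) : Loc (pu e m) (pu e' m) y := by
  induction m with
  | zero => exact Loc.rfl' _ _
  | succ m ih =>
    exact (h m (by omega)).mul (ih fun j hj => h j (by omega)) (pu_reg m fun j _ => hr j).1

theorem E3_split (e : ℕ → Equiv.Perm ℝ) (G : Equiv.Perm ℝ) {t N : ℕ} (ht : t < N) :
    pu (update e t G) N = pu (fun j => e (t + 1 + j)) (N - (t + 1)) * G * pu e t := by
  have h1 := pu_add (update e t G) (t + 1) (N - (t + 1))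
  rw [show t + 1 + (N - (t + 1)) = N by omega] at h1
  rw [h1, pu, update_self, mul_assoc, pu_congr (e := update e t G) (e' := e) t
    fun j hj => update_of_ne (by omega) _ _]
  congr 1
  exact pu_congr _ fun j _ => update_of_ne (by omega) _ _

theorem E3_bd {a : ℝ} {e : ℕ → Equiv.Perm ℝ} {X : Equiv.Perm ℝ} (he : ∀ j, Good a (e j))
    (hX : Good a X) (m : ℕ) (x : ℝ) :
    |ph (pu e m * X) x| ≤ (m + 1) * a ∧ |nl (pu e m * X) x| ≤ (m + 1) * a * exp ((m + 1) * a) := by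
  have h1 := pu_add (fun j => if j = 0 then X else e (j - 1)) 1 m
  have h2 := pu_bd (κ := a) (e := fun j => if j = 0 then X else e (j - 1)) (1 + m) (fun j _ => by
    split_ifs
    · exact hX
    · exact he _) x
  rw [h1, pu_congr (e' := e) m fun j _ => by simp] at h2
  simp only [pu, if_true, mul_one] at h2
  push_cast at h2
  rwa [add_comm (1 : ℝ)] at h2

variable {k n : ℕ} {κ r : ℝ} {S : ℕ → Equiv.Perm ℝ} {u : (Fin k × Fin n → ℝ) → ℕ → Equiv.Perm ℝ}

theorem E3_good (hF : Fam k n κ r S u) (h0 : 0 ≤ κ) (hκ : 400 * k * κ ≤ 1)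
    {c : Fin k × Fin n → ℝ} (hc : ∀ p, |c p| ≤ r) (i : Fin k) : Good (1 / 100) (PL k S (u c) i) :=
  hF.good h0 hκ hc i.2

/-- A walk with a lonely visit depends on one coefficient through a single translation. -/
theorem E3_struct (hF : Fam k n κ r S u) (h0 : 0 ≤ κ) (hκ : 400 * k * κ ≤ 1) (hn : 0 < n)
    (hr0 : 0 < r) {N : ℕ} (hr : 10000 * k * (N + 1) * exp (N / 20) * r * n ≤ 1)
    (w : Fin N → Fin k × Fin k) (y : ℝ) (t : Fin N) (hab : (w t).1 ≠ (w t).2)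
    (hfar : ∀ t', t' ≠ t →
      10 / (n : ℝ) < nz (rx (PL k S (u 0)) w y t - rx (PL k S (u 0)) w y t')) :
    ∃ (q : Fin k × Fin n) (σ : ℝ), |σ| = 1 ∧ ∀ c : Fin k × Fin n → ℝ, (∀ p, |c p| ≤ r) →
      ∃ A B : Equiv.Perm ℝ, IsReg A ∧ IsReg B ∧ |ph A y| ≤ (N + 1) / 25 ∧
        (∀ x, |ph B x| ≤ (N + 1) / 25) ∧ (∀ x, |nl B x| ≤ (N + 1) / 25 * exp ((N + 1) / 25)) ∧
        ∀ s, |s| ≤ r → Loc (VW (PL k S (u (update c q s))) w N) (B * tr (σ * s) * A) y := by
  have hn' : (0 : ℝ) < n := by exact_mod_cast hn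
  have hk : (1 : ℝ) ≤ k := by exact_mod_cast (w t).1.pos
  have e5 : 1 ≤ exp (N / 20 : ℝ) := one_le_exp (by positivity)
  have hN : (1 : ℝ) ≤ (N + 1) * exp (N / 20) := by nlinarith [(N.cast_nonneg : (0 : ℝ) ≤ N)]
  have hr' : 1000 * k * r * n ≤ 1 := by
    have : 0 ≤ k * r * n := by positivity
    nlinarith
  have hκ' : κ ≤ 1 / 400 := by nlinarith
  set x₀ := rx (PL k S (u 0)) w y t with hx₀
  have cl : ∀ d : Fin k × Fin n → ℝ, (∀ p, |d p| ≤ r) → ∀ t',
      |rx (PL k S (u d)) w y t' - rx (PL k S (u 0)) w y t'| ≤ 1 / (5 * n) := fun d hd t' => by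
    refine (E3_close (E3_good hF h0 hκ hd) (δ := 15 * k * r) (by positivity)
      (fun i x => hF.close h0 hκ hr0.le hd i.2 x) w y t').trans ?_
    rw [le_div_iff₀ (by positivity)]
    have : 0 ≤ k * (N + 1) * exp (N / 20) * r * n := by positivity
    nlinarith
  -- the general step, for a label `i` and the local form `G s` of the step `t`
  have key : ∀ (i : Fin k) (W : Fin n) (σ : ℝ) (c : Fin k × Fin n → ℝ), (∀ p, |c p| ≤ r) →
      ∀ X Y : Equiv.Perm ℝ, Good (1 / 25) X → Good (1 / 25) Y →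
      (∀ s, |s| ≤ r → (∀ x, 4 / (n : ℝ) ≤ nz (x - x₀) → ∀ j, j ≤ k →
          Loc (PP S (u (update c (i, W) s)) j) (PP S (u (update c (i, W) 0)) j) x) ∧
        Loc (E3_st (PL k S (u (update c (i, W) s))) w t) (X * tr (σ * s) * Y)
          (VW (PL k S (u (update c (i, W) s))) w t y)) →
      ∃ A B : Equiv.Perm ℝ, IsReg A ∧ IsReg B ∧ |ph A y| ≤ (N + 1) / 25 ∧
        (∀ x, |ph B x| ≤ (N + 1) / 25) ∧ (∀ x, |nl B x| ≤ (N + 1) / 25 * exp ((N + 1) / 25)) ∧
        ∀ s, |s| ≤ r → Loc (VW (PL k S (u (update c (i, W) s))) w N) (B * tr (σ * s) * A) y := by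
    intro i W σ c hc X Y hX hY h
    have b0 := bd_update hc (i, W) (show |(0 : ℝ)| ≤ r by simpa using hr0.le)
    set E := E3_st (PL k S (u (update c (i, W) 0))) w with hE
    have gE : ∀ j, Good (1 / 25) (E j) := fun j =>
      (E3_st_good (E3_good hF h0 hκ b0) w j).mono (by norm_num)
    have rA := (pu_reg (e := E) t fun j _ => ⟨(gE j).1, (gE j).2.1⟩).1
    have rB := (pu_reg (e := fun j => E (t + 1 + j)) (N - (t + 1))
      fun j _ => ⟨(gE _).1, (gE _).2.1⟩).1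
    have ht : ((t : ℕ) : ℝ) ≤ N := by exact_mod_cast t.2.le
    have ht2 : (((N - (t + 1) : ℕ) : ℝ) + 1) * (1 / 25) ≤ (N + 1) / 25 := by
      have : ((N - (t + 1) : ℕ) : ℝ) ≤ N := by exact_mod_cast Nat.sub_le _ _
      linarith
    refine ⟨Y * pu E t, pu (fun j => E (t + 1 + j)) (N - (t + 1)) * X, hY.1.mul rA, rB.mul hX.1,
      ?_, fun x => ?_, fun x => ?_, fun s hs => ?_⟩
    · rw [hY.1.ph_mul rA]
      refine (abs_add_le _ _).trans ?_
      linarith [hY.ph_le (pu E t y), (pu_bd t (fun j _ => gE j) y).1]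
    · exact (E3_bd (fun j => gE _) hX _ x).1.trans ht2
    · exact (E3_bd (fun j => gE _) hX _ x).2.trans
        (mul_le_mul ht2 (exp_le_exp.2 ht2) (exp_pos _).le (by positivity))
    · have bs := bd_update hc (i, W) hs
      have gP := E3_good hF h0 hκ bs
      have e : pu (fun j => E (t + 1 + j)) (N - (t + 1)) * X * tr (σ * s) * (Y * pu E t)
          = pu (update E t (X * tr (σ * s) * Y)) N := by
        rw [E3_split _ _ t.2]
        simp only [mul_assoc]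
      rw [e, E3_VW]
      refine E3_chain y N (fun j => ⟨(E3_st_good gP w j).1, (E3_st_good gP w j).2.1⟩) fun j hj => ?_
      rcases eq_or_ne j t with rfl | hjt
      · rw [update_self]
        exact (h s hs).2
      · rw [update_of_ne hjt]
        have f1 := hfar ⟨j, hj⟩ fun e => hjt (congrArg Fin.val e)
        have f2 := cl _ bs ⟨j, hj⟩
        set x := rx (PL k S (u (update c (i, W) s))) w y ⟨j, hj⟩ with hx
        have f3 : 4 / (n : ℝ) ≤ nz (x - x₀) := by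
          have := nz_tri x₀ x (rx (PL k S (u 0)) w y ⟨j, hj⟩)
          have := nz_le_abs (x - rx (PL k S (u 0)) w y ⟨j, hj⟩)
          have i1 : 0 < 1 / (n : ℝ) := by positivity
          rw [nz_sub_comm x]
          rw [← one_div_mul_one_div] at f2
          rw [div_eq_mul_one_div] at f1 ⊢
          linarith
        have l := (h s hs).1 x f3
        have := E3_st_eq (PL k S (u (update c (i, W) s))) w ⟨j, hj⟩
        have e0 := E3_st_eq (PL k S (u (update c (i, W) 0))) w ⟨j, hj⟩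
        simp only at this e0
        rw [this, hE, e0]
        exact Loc.mul (l _ (w ⟨j, hj⟩).2.2) (Loc.inv (l _ (w ⟨j, hj⟩).1.2) (gP _).1) (gP _).1.inv
  have form : ∀ (i : Fin k) (d : Fin k × Fin n → ℝ) (s : ℝ),
      (S i)⁻¹ * tr s * u d i * S i * PP S (u d) i = (S i)⁻¹ * tr s * S i * PL k S (u d) i := by
    intro i d s
    simp only [PL, PP, pu, mul_assoc, mul_inv_cancel_left]
  rcases lt_or_gt_of_ne hab with hlt | hlt
  · obtain ⟨W, hW⟩ := hF.window h0 hκ hn hr0.le hr' (w t).2 x₀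
    refine ⟨((w t).2, W), 1, abs_one, fun c hc => ?_⟩
    have b0 := bd_update hc ((w t).2, W) (show |(0 : ℝ)| ≤ r by simpa using hr0.le)
    have gS := hF.hS _ (w t).2.2
    refine key _ W 1 c hc (S (w t).2)⁻¹ (S (w t).2 * E3_st (PL k S (u (update c ((w t).2, W) 0))) w t)
      ((E3_inv gS (by linarith)).mono (by linarith))
      ((E3_mul gS (E3_st_good (E3_good hF h0 hκ b0) w t) (by norm_num)).mono (by linarith))
      fun s hs => ⟨(hW c hc s hs).2.1, ?_⟩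
    have bs := bd_update hc ((w t).2, W) hs
    have gP := E3_good hF h0 hκ bs
    have p1 : PL k S (u (update c ((w t).2, W) s)) (w t).1
        = PL k S (u (update c ((w t).2, W) 0)) (w t).1 := (hW c hc s hs).1 _ hlt
    have p3 := (hW c hc s hs).2.2 _ ((nz_le_abs _).trans (cl _ bs t))
    rw [form] at p3
    have := Loc.mul p3 (Loc.rfl' _ _) (gP (w t).1).1.inv
    rw [E3_st_eq, E3_st_eq, one_mul, ← p1]
    simp only [mul_assoc] at this ⊢
    exact this
  · obtain ⟨W, hW⟩ := hF.window h0 hκ hn hr0.le hr' (w t).1 x₀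
    refine ⟨((w t).1, W), -1, by simp, fun c hc => ?_⟩
    have b0 := bd_update hc ((w t).1, W) (show |(0 : ℝ)| ≤ r by simpa using hr0.le)
    have gS := hF.hS _ (w t).1.2
    refine key _ W (-1) c hc (E3_st (PL k S (u (update c ((w t).1, W) 0))) w t * (S (w t).1)⁻¹)
      (S (w t).1)
      ((E3_mul (E3_st_good (E3_good hF h0 hκ b0) w t) (E3_inv gS (by linarith))
        (by linarith)).mono (by linarith)) (gS.mono (by linarith))
      fun s hs => ⟨(hW c hc s hs).2.1, ?_⟩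
    have bs := bd_update hc ((w t).1, W) hs
    have gP := E3_good hF h0 hκ bs
    have p1 : PL k S (u (update c ((w t).1, W) s)) (w t).2
        = PL k S (u (update c ((w t).1, W) 0)) (w t).2 := (hW c hc s hs).1 _ hlt
    have p3 := (hW c hc s hs).2.2 _ ((nz_le_abs _).trans (cl _ bs t))
    rw [form] at p3
    have := Loc.mul (Loc.rfl' (PL k S (u (update c ((w t).1, W) s)) (w t).2) _)
      (Loc.inv p3 (gP (w t).1).1) (gP (w t).1).1.inv
    have et : tr (-1 * s) = (tr s)⁻¹ := Equiv.ext fun x => by rw [tr_inv_ap, tr_ap]; ring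
    rw [E3_st_eq, E3_st_eq, et, ← p1]
    simp only [mul_assoc, mul_inv_rev, inv_inv] at this ⊢
    exact this

theorem E3_swap {ι V : Type} [Fintype ι] [DecidableEq ι] [Fintype V] (w : V → ℝ)
    {F : (ι → V) → ℝ → ℝ} (hF : ∀ ξ, Continuous (F ξ)) :
    Ex w (fun ξ => ∫ y in (0 : ℝ)..1, F ξ y) = ∫ y in (0 : ℝ)..1, Ex w fun ξ => F ξ y := by
  simp only [Ex]
  rw [intervalIntegral.integral_finsetSum (f := fun ξ y => (∏ j, w (ξ j)) * F ξ y) fun ξ _ =>
    (continuous_const.mul (hF ξ)).intervalIntegrable _ _]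
  simp only [intervalIntegral.integral_const_mul]

theorem E3_lonely (hF : Fam k n κ r S u) (h0 : 0 ≤ κ) (hκ : 400 * k * κ ≤ 1) (hn : 0 < n)
    (hr0 : 0 < r) {V : Type} [Fintype V] {γ : ℝ} {w val : V → ℝ} (hL : Law γ w val) (hγ : 0 ≤ γ)
    {ι : Type} [Fintype ι] [DecidableEq ι] (idx : Fin k × Fin n → ι) (hi : Function.Injective idx)
    {N : ℕ} (hr : 10000 * k * (N + 1) * exp (N / 20) * r * n ≤ 1)
    {l₀ l₁ : ℝ} (hl0 : 0 < l₀) (h01 : l₀ ≤ l₁) (h18 : l₁ ≤ 1 / 8)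
    (ω : Fin N → Fin k × Fin k) (y z : ℝ) (h : ¬NL (PL k S (u 0)) (10 / n) y ω) :
    |Ex w fun ξ : ι → V => exp (ph (VW (PL k S (u fun p => r * val (ξ (idx p)))) ω N) y / 2) *
      (tk l₀ (VW (PL k S (u fun p => r * val (ξ (idx p)))) ω N y - z)
        - tk l₁ (VW (PL k S (u fun p => r * val (ξ (idx p)))) ω N y - z))|
      ≤ 300 * (N + 6) * exp ((N + 4) / 5) * (l₁ / r + l₁ ^ 2 / r ^ 3 + γ / l₀ ^ 2) := by
  unfold NL at h
  push Not at h
  obtain ⟨t, hab, hfar⟩ := h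
  obtain ⟨q, σ, hσ, hq⟩ := E3_struct hF h0 hκ hn hr0 hr ω y t hab hfar
  have bv : ∀ v, |r * val v| ≤ r := fun v => by
    rw [abs_mul, abs_of_pos hr0]
    exact mul_le_of_le_one_right hr0.le (hL.bd v)
  rw [Ex_update hL.sum (idx q)]
  refine abs_Ex_le hL.nonneg hL.sum fun ξ => ?_
  obtain ⟨A, B, rA, rB, hA, hB1, hB2, hl⟩ := hq (fun p => r * val (ξ (idx p))) fun p => bv _
  have ec : ∀ v, (fun p => r * val (update ξ (idx q) v (idx p)))
      = update (fun p => r * val (ξ (idx p))) q (r * val v) := fun v => funext fun p => by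
    rcases eq_or_ne p q with rfl | hp
    · rw [update_self, update_self]
    · rw [update_of_ne hp, update_of_ne (hi.ne hp)]
  have hn' : (1 : ℝ) ≤ n := by exact_mod_cast hn
  have hk : (1 : ℝ) ≤ k := by exact_mod_cast (ω t).1.pos
  have hN : (0 : ℝ) ≤ N := N.cast_nonneg
  have ho := osc hL hγ rB hB1 hB2 hl0 h01 h18 hr0 (t := σ * r)
    (by rw [abs_mul, hσ, one_mul, abs_of_pos hr0]) (by
      have e1 : exp (((N : ℝ) + 1) / 25) ≤ exp (N / 20) * (9 / 8) := by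
        refine le_trans ?_ (mul_le_mul_of_nonneg_left (E3_exp (b := 1 / 25) (by norm_num))
          (exp_pos _).le)
        rw [← exp_add]
        exact exp_le_exp.2 (by linarith)
      have e2 : (1 : ℝ) ≤ k * (N + 1) * n := one_le_mul_of_one_le_of_one_le
        (one_le_mul_of_one_le_of_one_le hk (by linarith)) hn'
      have e3 : 0 < exp (N / 20 : ℝ) * r := by positivity
      nlinarith) (A y) z
  have es : ∀ v, w v * (exp (ph (VW (PL k S (u fun p => r * val (update ξ (idx q) v (idx p)))) ω N) y / 2) *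
      (tk l₀ (VW (PL k S (u fun p => r * val (update ξ (idx q) v (idx p)))) ω N y - z)
        - tk l₁ (VW (PL k S (u fun p => r * val (update ξ (idx q) v (idx p)))) ω N y - z)))
      = exp (ph A y / 2) * (w v * (exp (ph B (A y + σ * r * val v) / 2) *
        (tk l₀ (B (A y + σ * r * val v) - z) - tk l₁ (B (A y + σ * r * val v) - z)))) := fun v => by
    have l := hl _ (bv v)
    have rt := (tr_reg (σ * (r * val v))).isReg
    rw [ec, l.eq, l.ph_eq, (rB.mul rt).ph_mul rA, rB.ph_mul rt, (tr_reg _).ph_eq]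
    simp only [Equiv.Perm.mul_apply, tr_ap, ← mul_assoc σ, add_zero]
    rw [add_div, exp_add]
    ring
  simp only [es]
  rw [← mul_sum, abs_mul, abs_of_pos (exp_pos _)]
  set a : ℝ := (N + 1) / 25 with ha
  have a0 : 0 ≤ a := by positivity
  have k1 : exp (ph A y / 2) ≤ exp a := exp_le_exp.2 (by linarith [le_of_abs_le hA])
  have k0 : 0 ≤ l₁ / r + l₁ ^ 2 / r ^ 3 + γ / l₀ ^ 2 := by
    have : 0 < l₁ := by linarith
    positivity
  refine (mul_le_mul k1 ho (abs_nonneg _) (exp_pos _).le).trans ?_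
  rw [← mul_assoc]
  refine mul_le_mul_of_nonneg_right ?_ k0
  have k2 : 1 + a * exp a ≤ (N + 6) * exp a := by nlinarith [one_le_exp a0]
  have k3 : exp a * exp (3 * a) * exp a ≤ exp ((N + 4) / 5) := by
    rw [← exp_add, ← exp_add]
    exact exp_le_exp.2 (by linarith)
  calc exp a * (300 * exp (3 * a) * (1 + a * exp a))
      ≤ exp a * (300 * exp (3 * a) * ((N + 6) * exp a)) := by gcongr
    _ = 300 * (N + 6) * (exp a * exp (3 * a) * exp a) := by ring
    _ ≤ _ := by gcongr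

open Classical in
theorem hs_expect {k n : ℕ} {κ r : ℝ} {S : ℕ → Equiv.Perm ℝ}
    {u : (Fin k × Fin n → ℝ) → ℕ → Equiv.Perm ℝ} (hF : Fam k n κ r S u) (hk : 0 < k) (h0 : 0 ≤ κ)
    (hκ : 400 * k * κ ≤ 1) (hn : 0 < n) (hr0 : 0 < r)
    {V : Type} [Fintype V] {γ : ℝ} {w val : V → ℝ} (hL : Law γ w val) (hγ : 0 ≤ γ)
    {ι : Type} [Fintype ι] [DecidableEq ι] (idx : Fin k × Fin n → ι) (hi : Function.Injective idx)
    (N : ℕ) (hr : 10000 * k * (N + 1) * exp (N / 20) * r * n ≤ 1) (Γ : ℝ)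
    (hΓ : ∀ y : ℝ, ((univ.filter fun w : Fin N → Fin k × Fin k =>
      NL (PL k S (u 0)) (10 / n) y w).card : ℝ) ≤ Γ * (k : ℝ) ^ (2 * N))
    {l₀ l₁ : ℝ} (hl0 : 0 < l₀) (h01 : l₀ ≤ l₁) (h18 : l₁ ≤ 1 / 8) :
    Ex w (fun ξ : ι → V =>
      HS (PL k S (u fun p => r * val (ξ (idx p)))) (fun t => tk l₀ t - tk l₁ t) N)
      ≤ 2 * (Γ * exp (N / 50) / l₀
        + 300 * (N + 6) * exp ((N + 4) / 5) * (l₁ / r + l₁ ^ 2 / r ^ 3 + γ / l₀ ^ 2)) := by
  have hl1 : 0 < l₁ := by linarith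
  have hk' : (0 : ℝ) < (k : ℝ) ^ (2 * N) := by positivity
  have bv : ∀ v, |r * val v| ≤ r := fun v => by
    rw [abs_mul, abs_of_pos hr0]
    exact mul_le_of_le_one_right hr0.le (hL.bd v)
  set K := 300 * (N + 6) * exp ((N + 4) / 5 : ℝ) * (l₁ / r + l₁ ^ 2 / r ^ 3 + γ / l₀ ^ 2) with hK
  have K0 : 0 ≤ K := by positivity
  set P : (ι → V) → Fin k → Equiv.Perm ℝ := fun ξ => PL k S (u fun p => r * val (ξ (idx p))) with hP
  have gE : ∀ ξ (ω : Fin N → Fin k × Fin k) j, Good (1 / 25) (E3_st (P ξ) ω j) := fun ξ ω j =>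
    (E3_st_good (E3_good hF h0 hκ fun p => bv _) ω j).mono (by norm_num)
  have rV : ∀ ξ (ω : Fin N → Fin k × Fin k), IsReg (VW (P ξ) ω N) := fun ξ ω =>
    (pu_reg N fun j _ => ⟨(gE ξ ω j).1, (gE ξ ω j).2.1⟩).1
  set T : (Fin N → Fin k × Fin k) → ℝ → ℝ → (ι → V) → ℝ := fun ω z y ξ =>
    exp (ph (VW (P ξ) ω N) y / 2) * (tk l₀ (VW (P ξ) ω N y - z) - tk l₁ (VW (P ξ) ω N y - z)) with hT
  have c0 := (tk_cp l₀).1
  have c1 := (tk_cp l₁).1
  have cT : ∀ ξ, Continuous fun p : ℝ × ℝ =>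
      (∑ ω, T ω p.1 p.2 ξ) / (k : ℝ) ^ (2 * N) * (tk l₀ (p.2 - p.1) - tk l₁ (p.2 - p.1)) := fun ξ => by
    refine ((continuous_finsetSum _ fun ω _ => ?_).div_const _).mul (by fun_prop)
    have a1 := Reg.continuous (rV ξ ω)
    have a2 := Reg.continuous_phi (rV ξ ω)
    simp only [hT]
    fun_prop
  have b1 : ∀ ω z y, |Ex w (T ω z y)| ≤ exp (N / 50) / l₀ := fun ω z y => by
    refine abs_Ex_le hL.nonneg hL.sum fun ξ => ?_
    have a1 := (pu_bd N (fun j _ => gE ξ ω j) y).1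
    have a2 : 1 / l₁ ≤ 1 / l₀ := one_div_le_one_div_of_le hl0 h01
    simp only [hT]
    rw [abs_mul, abs_of_pos (exp_pos _), div_eq_mul_one_div (exp _)]
    refine mul_le_mul (exp_le_exp.2 ?_) (abs_le.2 ⟨?_, ?_⟩) (abs_nonneg _) (exp_pos _).le
    · rw [E3_VW]
      linarith [le_of_abs_le a1]
    · linarith [tk_nonneg hl0 (VW (P ξ) ω N y - z), tk_le hl1 (VW (P ξ) ω N y - z)]
    · linarith [tk_le hl0 (VW (P ξ) ω N y - z), tk_nonneg hl1 (VW (P ξ) ω N y - z)]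
  have b2 : ∀ z y, |(∑ ω, Ex w (T ω z y)) / (k : ℝ) ^ (2 * N)| ≤ Γ * exp (N / 50) / l₀ + K := by
    intro z y
    rw [abs_div, abs_of_pos hk', div_le_iff₀ hk']
    refine (abs_sum_le_sum_abs _ _).trans ?_
    rw [← sum_filter_add_sum_filter_not univ fun ω => NL (PL k S (u 0)) (10 / n) y ω]
    have s1 := sum_le_card_nsmul (univ.filter fun ω => NL (PL k S (u 0)) (10 / n) y ω) _ _
      fun ω _ => b1 ω z y
    have s2 := sum_le_card_nsmul (univ.filter fun ω => ¬NL (PL k S (u 0)) (10 / n) y ω)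
      (fun ω => |Ex w (T ω z y)|) K fun ω hω =>
        E3_lonely hF h0 hκ hn hr0 hL hγ idx hi hr hl0 h01 h18 ω y z (mem_filter.1 hω).2
    rw [nsmul_eq_mul] at s1 s2
    have s3 : ((univ.filter fun ω : Fin N → Fin k × Fin k =>
        ¬NL (PL k S (u 0)) (10 / n) y ω).card : ℝ) ≤ (k : ℝ) ^ (2 * N) := by
      have := card_filter_le univ fun ω : Fin N → Fin k × Fin k => ¬NL (PL k S (u 0)) (10 / n) y ω
      rw [card_univ, Fintype.card_fun, Fintype.card_prod, Fintype.card_fin, Fintype.card_fin,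
        ← sq, ← pow_mul] at this
      exact_mod_cast this
    have s4 := mul_le_mul_of_nonneg_right (hΓ y) (show 0 ≤ exp (N / 50 : ℝ) / l₀ by positivity)
    have s5 := mul_le_mul_of_nonneg_right s3 K0
    have e : (Γ * exp (N / 50 : ℝ) / l₀ + K) * (k : ℝ) ^ (2 * N)
        = Γ * (k : ℝ) ^ (2 * N) * (exp (N / 50) / l₀) + (k : ℝ) ^ (2 * N) * K := by ring
    linarith
  set G := Γ * exp (N / 50 : ℝ) / l₀ + K with hG
  have G0 : 0 ≤ G := (abs_nonneg _).trans (b2 0 0)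
  change Ex w (fun ξ => ∫ z in (0 : ℝ)..1, ∫ y in (0 : ℝ)..1,
    (∑ ω, T ω z y ξ) / (k : ℝ) ^ (2 * N) * (tk l₀ (y - z) - tk l₁ (y - z))) ≤ 2 * G
  rw [E3_swap w fun ξ => intervalIntegral.continuous_parametric_intervalIntegral_of_continuous'
    (f := fun z y => (∑ ω, T ω z y ξ) / (k : ℝ) ^ (2 * N) * (tk l₀ (y - z) - tk l₁ (y - z)))
    (cT ξ) 0 1]
  refine (le_abs_self _).trans ?_
  rw [← Real.norm_eq_abs]
  refine (intervalIntegral.norm_integral_le_of_norm_le_const (C := 2 * G) fun z _ => ?_).trans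
    (by rw [sub_zero, abs_one, mul_one])
  rw [E3_swap w (F := fun ξ y =>
    (∑ ω, T ω z y ξ) / (k : ℝ) ^ (2 * N) * (tk l₀ (y - z) - tk l₁ (y - z)))
    fun ξ => (cT ξ).comp (f := fun y : ℝ => (z, y)) (by fun_prop)]
  have it : ∀ l : ℝ, 0 < l → l ≤ 1 / 2 → ∫ y in (0 : ℝ)..1, tk l (y - z) = 1 := fun l h1 h2 => by
    rw [intervalIntegral.integral_comp_sub_right (fun t => tk l t), show 1 - z = 0 - z + 1 by ring,
      (tk_cp l).shift, tk_int h1 h2]
  refine (intervalIntegral.norm_integral_le_of_norm_le zero_le_one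
    (g := fun y => G * (tk l₀ (y - z) + tk l₁ (y - z))) (Filter.Eventually.of_forall fun y _ => ?_)
    (Continuous.intervalIntegrable (by fun_prop) _ _)).trans (le_of_eq ?_)
  · have e : (Ex w fun ξ => (∑ ω, T ω z y ξ) / (k : ℝ) ^ (2 * N) * (tk l₀ (y - z) - tk l₁ (y - z)))
        = (∑ ω, Ex w (T ω z y)) / (k : ℝ) ^ (2 * N) * (tk l₀ (y - z) - tk l₁ (y - z)) := by
      rw [← Ex_sum, div_mul_eq_mul_div, mul_div_assoc, mul_comm (Ex _ _), ← Ex_mul]
      congr 1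
      funext ξ
      ring
    rw [Real.norm_eq_abs]
    change |Ex w fun ξ => (∑ ω, T ω z y ξ) / (k : ℝ) ^ (2 * N) * (tk l₀ (y - z) - tk l₁ (y - z))| ≤ _
    rw [e, abs_mul]
    refine mul_le_mul (b2 z y) (abs_le.2 ⟨?_, ?_⟩) (abs_nonneg _) G0
    all_goals linarith [tk_nonneg hl0 (y - z), tk_nonneg hl1 (y - z)]
  · rw [intervalIntegral.integral_const_mul, intervalIntegral.integral_add
      (Continuous.intervalIntegrable (by fun_prop) _ _) (Continuous.intervalIntegrable (by fun_prop) _ _),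
      it l₀ hl0 (by linarith), it l₁ hl1 (by linarith)]
    ring

end Pool.Agent.P.MP_0354a7_al
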