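import Pool.Agent.P.MP_0354a7_al.PF.Window

/-!
Sparsity of the alignment maps: the base case and the union bound.
-/

namespace Pool.Agent.P.MP_0354a7_al

open Real Finset Function

theorem D_exp : exp (1 / 100 : ℝ) ≤ 102 / 100 := by
  have := exp_small (t := 1 / 100) (by norm_num) (by norm_num)
  linarith

theorem D_move {κ a b : ℝ} {S u : Equiv.Perm ℝ} (hS : Good κ S) (hκ : κ ≤ 1 / 100) (ha : 0 < a)
    (hab : 20 * b ≤ a) (hu : ∀ x, |u x - (x + a / 2)| ≤ b) (x : ℝ) :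
    44 / 100 * a ≤ (S⁻¹ * u * S) x - x ∧ (S⁻¹ * u * S) x - x ≤ 56 / 100 * a := by
  have e1 := exp_small hS.nonneg (by linarith)
  have e2 : exp κ ≤ 1011 / 1000 := by linarith
  obtain ⟨h1, h2⟩ := abs_le.1 (hu (S x))
  have h3 := hS.lip_inv (u (S x)) (S x)
  have h4 := hS.lip (S⁻¹ (u (S x))) x
  have h5 : S⁻¹ (S x) ≤ S⁻¹ (u (S x)) := (Reg.strictMono_inv hS.1).monotone (by linarith)
  rw [inv_ap] at h3 h5
  rw [ap_inv] at h4
  simp only [Equiv.Perm.mul_apply]
  rw [abs_of_nonneg (a := S⁻¹ (u (S x)) - x) (by linarith),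
    abs_of_nonneg (a := u (S x) - S x) (by linarith)] at h3 h4
  have h6 := mul_le_mul_of_nonneg_right e2 (show 0 ≤ u (S x) - S x by linarith)
  have h7 := mul_le_mul_of_nonneg_right e2 (show 0 ≤ S⁻¹ (u (S x)) - x by linarith)
  constructor <;> linarith

theorem D_moves {k : ℕ} {a : ℝ} {e : ℕ → Equiv.Perm ℝ}
    (h : ∀ i, i < k → ∀ x, 44 / 100 * a ≤ e i x - x ∧ e i x - x ≤ 56 / 100 * a) (i d : ℕ)
    (hd : i + d ≤ k) (x : ℝ) :
    44 / 100 * a * d ≤ pu e (i + d) x - pu e i x ∧ pu e (i + d) x - pu e i x ≤ 56 / 100 * a * d := by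
  induction d with
  | zero => simp
  | succ d ih =>
    obtain ⟨h1, h2⟩ := ih (by omega)
    obtain ⟨h3, h4⟩ := h (i + d) (by omega) (pu e (i + d) x)
    rw [← add_assoc, pu, Equiv.Perm.mul_apply]
    push_cast
    constructor <;> linarith

theorem D_nz_ge {t b : ℝ} (h1 : b ≤ t) (h2 : t ≤ 1 - b) : b ≤ nz t := by
  rcases le_or_gt (round t) 0 with h | h
  · have : (round t : ℝ) ≤ 0 := by exact_mod_cast h
    exact le_trans (by linarith) (le_abs_self _)
  · have : (1 : ℝ) ≤ round t := by exact_mod_cast h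
    exact le_trans (by linarith) (neg_le_abs _)

theorem base_sparse {k A M : ℕ} {κ η δ : ℝ} {S u : ℕ → Equiv.Perm ℝ}
    (hS : ∀ i, i < k → Good κ (S i)) (hκ : κ ≤ 1 / 100)
    (hu : ∀ i, i < k → ∀ x, |u i x - (x + 1 / (2 * k))| ≤ η) (hη : η ≤ 1 / (20 * k))
    (hδ : δ ≤ 1 / (10 * k)) (hM : M < 2 * A) : ¬Viol A (PL k S u) δ M := by
  rintro ⟨X, Y, h1, h2, h3, h4⟩
  have key : ∀ i j : Fin k, i < j → ∀ x y, nz (PL k S u i x - y) ≤ δ → nz (PL k S u j x - y) ≤ δ →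
      False := fun i j hij x y hi hj => by
    have hk : (1 : ℝ) ≤ k := by exact_mod_cast i.pos
    have ha : 0 < 1 / (k : ℝ) := by positivity
    have ha1 : 1 / (k : ℝ) * k = 1 := by field_simp
    have ha2 : 1 / (k : ℝ) ≤ 1 := by rw [div_le_one (by linarith)]; exact hk
    rw [← one_div_mul_one_div] at hη hδ
    obtain ⟨d, hd⟩ : ∃ d, (j : ℕ) + 1 = i + 1 + (d + 1) := ⟨j - i - 1, by have := Fin.lt_def.1 hij; omega⟩
    have hm := D_moves (k := k) (a := 1 / k) (e := fun i => (S i)⁻¹ * u i * S i)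
      (fun i hi x => D_move (b := η) (hS i hi) hκ ha (by linarith) (fun z => by
        rw [div_div, mul_comm (k : ℝ)]; exact hu i hi z) x) (i + 1) (d + 1) (by have := j.2; omega) x
    rw [← hd] at hm
    have hd1 : (1 : ℝ) ≤ ((d + 1 : ℕ) : ℝ) := by exact_mod_cast Nat.succ_pos d
    have hd2 : ((d + 1 : ℕ) : ℝ) ≤ k := by exact_mod_cast (by have := j.2; omega : d + 1 ≤ k)
    have h5 : 44 / 100 * (1 / (k : ℝ)) ≤ nz (PL k S u j x - PL k S u i x) := by
      refine D_nz_ge (le_trans ?_ hm.1) (le_trans hm.2 ?_) <;> nlinarith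
    have h6 := nz_tri (PL k S u j x) y (PL k S u i x)
    rw [nz_sub_comm y] at h6
    linarith
  have inj : ∀ i j : Fin k, ∀ x y, nz (PL k S u i x - y) ≤ δ → nz (PL k S u j x - y) ≤ δ → i = j :=
    fun i j x y hi hj => by
      rcases lt_trichotomy i j with h | h | h
      · exact (key i j h x y hi hj).elim
      · exact h
      · exact (key j i h x y hj hi).elim
  have hY : X.Nonempty → A ≤ Y.card := fun ⟨x, hx⟩ => (h3 x hx).trans
    (card_le_card_of_forall_subsingleton (fun i y => nz (PL k S u i x - y) ≤ δ)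
      (fun i hi => (mem_filter.1 hi).2) fun y _ i hi j hj => inj i j x y hi.2 hj.2)
  have hX : Y.Nonempty → A ≤ X.card := fun ⟨y, hy⟩ => (h4 y hy).trans
    (card_le_card_of_forall_subsingleton (fun i x => nz (PL k S u i x - y) ≤ δ)
      (fun i hi => (mem_filter.1 hi).2) fun x _ i hi j hj => inj i j x y hi.2 hj.2)
  rcases union_nonempty.1 h1 with h | h
  · have := hY h
    have := hX (card_pos.1 (by omega))
    omega
  · have := hX h
    have := hY (card_pos.1 (by omega))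
    omega

/-- A maximal separated subset. -/
theorem D_net (ρ : ℝ) (hρ : 0 ≤ ρ) (X : Finset ℝ) : ∃ X₀ ⊆ X,
    (∀ a ∈ X₀, ∀ b ∈ X₀, a ≠ b → ρ ≤ nz (a - b)) ∧ ∀ x ∈ X, ∃ a ∈ X₀, nz (x - a) ≤ ρ := by
  induction X using Finset.induction_on with
  | empty => exact ⟨∅, Subset.refl _, by simp, by simp⟩
  | insert z X _ ih =>
    obtain ⟨X₀, h1, h2, h3⟩ := ih
    by_cases h : ∃ a ∈ X₀, nz (z - a) ≤ ρ
    · refine ⟨X₀, h1.trans (subset_insert _ _), h2, fun x hx => ?_⟩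
      rcases mem_insert.1 hx with rfl | hx
      exacts [h, h3 x hx]
    · push Not at h
      refine ⟨insert z X₀, insert_subset_insert _ h1, fun a ha b hb hab => ?_, fun x hx => ?_⟩
      · rcases mem_insert.1 ha with e | ha <;> rcases mem_insert.1 hb with e' | hb
        · exact absurd (e.trans e'.symm) hab
        · rw [e]; exact (h b hb).le
        · rw [e', nz_sub_comm]; exact (h a ha).le
        · exact h2 a ha b hb hab
      · rcases mem_insert.1 hx with e | hx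
        · refine ⟨z, mem_insert_self _ _, ?_⟩
          rw [e, sub_self]
          exact (nz_le_abs 0).trans (by rwa [abs_zero])
        · obtain ⟨a, ha, h'⟩ := h3 x hx
          exact ⟨a, mem_insert_of_mem ha, h'⟩

theorem D_pick {k A E : ℕ} (Z : Finset ℝ) (L : ℝ → Finset (Fin k)) (h : ∀ z ∈ Z, A ≤ (L z).card)
    (hE : E ≤ A * Z.card) : ∃ (z : Fin E → ℝ) (l : Fin E → Fin k), (∀ t, z t ∈ Z ∧ l t ∈ L (z t)) ∧
      ∀ t t', t ≠ t' → l t = l t' → z t ≠ z t' := by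
  have h1 : Fintype.card (Fin E) ≤ Fintype.card (Z.sigma L) := by
    rw [Fintype.card_fin, Fintype.card_coe, card_sigma]
    refine hE.trans ?_
    rw [mul_comm, ← smul_eq_mul]
    exact card_nsmul_le_sum _ _ _ h
  obtain ⟨e⟩ := Function.Embedding.nonempty_of_card_le h1
  refine ⟨fun t => (e t).1.1, fun t => (e t).1.2, fun t => mem_sigma.1 (e t).2,
    fun t t' ht hl hz => ht (e.injective (Subtype.ext (Sigma.ext hz (heq_of_eq hl))))⟩

/-- A small violation at the fine scale has many edges with separated starting points. -/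
theorem D_edges {k A M M' E : ℕ} {P P₀ : Fin k → Equiv.Perm ℝ} {δ a : ℝ} (ha : 0 ≤ a)
    (hP : ∀ i, Good (1 / 100) (P i)) (hc : ∀ i x, |P₀ i x - P i x| ≤ a) (hδ : 100 * δ ≤ a)
    (hQ : ¬Viol A P₀ (20 * a) M) (hE : 2 * E ≤ A * (M + 1)) (h : Viol A P δ M') :
    ∃ (Z : Finset ℝ) (x y : Fin E → ℝ) (l : Fin E → Fin k), Z.card ≤ M' ∧
      (∀ t, x t ∈ Z ∧ y t ∈ Z ∧ nz (P (l t) (x t) - y t) ≤ δ) ∧
      ∀ t t', t ≠ t' → l t = l t' → 10 * a ≤ nz (x t - x t') := by
  obtain ⟨X, Y, h1, h2, h3, h4⟩ := h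
  obtain ⟨X₀, x1, x2, x3⟩ := D_net (12 * a) (by linarith) X
  obtain ⟨Y₀, y1, y2, y3⟩ := D_net (12 * a) (by linarith) Y
  have e1 := D_exp
  have hM : M + 1 ≤ X₀.card + Y₀.card := by
    by_contra hM
    refine hQ ⟨X₀, Y₀, ?_, by omega, fun x hx => (h3 x (x1 hx)).trans (card_le_card fun i hi => ?_),
      fun y hy => (h4 y (y1 hy)).trans (card_le_card fun i hi => ?_)⟩
    · rcases union_nonempty.1 h1 with ⟨z, hz⟩ | ⟨z, hz⟩
      · obtain ⟨b, hb, -⟩ := x3 z hz
        exact ⟨b, mem_union_left _ hb⟩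
      · obtain ⟨b, hb, -⟩ := y3 z hz
        exact ⟨b, mem_union_right _ hb⟩
    · obtain ⟨y, hy, h5⟩ := (mem_filter.1 hi).2
      obtain ⟨b, hb, h6⟩ := y3 y hy
      refine mem_filter.2 ⟨mem_univ _, b, hb, ?_⟩
      linarith [nz_tri (P₀ i x) (P i x) b, nz_tri (P i x) y b, nz_le_abs (P₀ i x - P i x), hc i x]
    · obtain ⟨x, hx, h5⟩ := (mem_filter.1 hi).2
      obtain ⟨b, hb, h6⟩ := x3 x hx
      refine mem_filter.2 ⟨mem_univ _, b, hb, ?_⟩
      rw [nz_sub_comm] at h6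
      have h7 := (hP i).nz_lip b x
      have h8 := mul_le_mul e1 h6 (nz_nonneg _) (by norm_num)
      linarith [nz_tri (P₀ i b) (P i b) y, nz_tri (P i b) (P i x) y, nz_le_abs (P₀ i b - P i b),
        hc i b]
  have hZ : (X ∪ Y).card ≤ M' := (card_union_le _ _).trans h2
  rcases le_total Y₀.card X₀.card with hl | hl
  · obtain ⟨z, l, z1, z2⟩ := D_pick (E := E) X₀ _ (fun x hx => h3 x (x1 hx)) (by
      have : A * (M + 1) ≤ A * (2 * X₀.card) := Nat.mul_le_mul_left _ (by omega)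
      nlinarith)
    choose y y4 y5 using fun t => (mem_filter.1 (z1 t).2).2
    refine ⟨X ∪ Y, z, y, l, hZ, fun t => ⟨mem_union_left _ (x1 (z1 t).1), mem_union_right _ (y4 t),
      y5 t⟩, fun t t' ht hl => ?_⟩
    linarith [x2 _ (z1 t).1 _ (z1 t').1 (z2 t t' ht hl)]
  · obtain ⟨z, l, z1, z2⟩ := D_pick (E := E) Y₀ _ (fun y hy => h4 y (y1 hy)) (by
      have : A * (M + 1) ≤ A * (2 * Y₀.card) := Nat.mul_le_mul_left _ (by omega)
      nlinarith)
    choose x x4 x5 using fun t => (mem_filter.1 (z1 t).2).2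
    refine ⟨X ∪ Y, x, z, l, hZ, fun t => ⟨mem_union_left _ (x4 t), mem_union_right _ (y1 (z1 t).1),
      x5 t⟩, fun t t' ht hl => ?_⟩
    have h5 := y2 _ (z1 t).1 _ (z1 t').1 (z2 t t' ht hl)
    have h6 := x5 t
    have h7 := x5 t'
    rw [← hl] at h7
    rw [nz_sub_comm] at h6
    have h8 := (hP (l t)).nz_lip (x t) (x t')
    have h9 := mul_le_mul_of_nonneg_right e1 (nz_nonneg (x t - x t'))
    linarith [nz_tri (z t) (P (l t) (x t)) (z t'), nz_tri (P (l t) (x t)) (P (l t) (x t')) (z t')]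

/-- The edges moved to a grid. -/
theorem D_grid {k M' E n' : ℕ} {P : Fin k → Equiv.Perm ℝ} {δ a : ℝ}
    (hP : ∀ i, Good (1 / 100) (P i)) (hδ0 : 0 < δ) (hδ : 100 * δ ≤ a) (hn' : 1 ≤ δ * n')
    {Z : Finset ℝ} {x y : Fin E → ℝ} {l : Fin E → Fin k} (hZ : Z.card ≤ M')
    (h1 : ∀ t, x t ∈ Z ∧ y t ∈ Z ∧ nz (P (l t) (x t) - y t) ≤ δ)
    (h2 : ∀ t t', t ≠ t' → l t = l t' → 10 * a ≤ nz (x t - x t')) :
    ∃ q : (Fin M' → Fin n') × (Fin E → Fin M' × Fin k × Fin M'),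
      (∀ t t', t ≠ t' → (q.2 t).2.1 = (q.2 t').2.1 →
        4 * a ≤ nz (((q.1 (q.2 t).1 : ℕ) : ℝ) / n' - ((q.1 (q.2 t').1 : ℕ) : ℝ) / n')) ∧
      ∀ t, nz (P (q.2 t).2.1 (((q.1 (q.2 t).1 : ℕ) : ℝ) / n') - ((q.1 (q.2 t).2.2 : ℕ) : ℝ) / n')
        ≤ 4 * δ := by
  have hn0 : 0 < n' := by
    rcases Nat.eq_zero_or_pos n' with rfl | h
    · norm_num at hn'
    · exact h
  have hn1 : (0 : ℝ) < n' := by exact_mod_cast hn0
  have hh : 1 / (2 * (n' : ℝ)) ≤ δ := by
    rw [div_le_iff₀ (by positivity)]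
    linarith
  choose W hW using exists_near n' hn0
  obtain ⟨e⟩ := Function.Embedding.nonempty_of_card_le
    (show Fintype.card Z ≤ Fintype.card (Fin M') by rwa [Fintype.card_coe, Fintype.card_fin])
  refine ⟨(extend e (fun z => W z) fun _ => ⟨0, hn0⟩,
    fun t => (e ⟨x t, (h1 t).1⟩, l t, e ⟨y t, (h1 t).2.1⟩)), fun t t' ht hl => ?_, fun t => ?_⟩
  · simp only [e.injective.extend_apply]
    have h3 := hW (x t')
    rw [nz_sub_comm] at h3
    linarith [h2 t t' ht hl, hW (x t), nz_tri (x t) ((W (x t) : ℕ) / n') (x t'),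
      nz_tri ((W (x t) : ℕ) / n') ((W (x t') : ℕ) / n') (x t')]
  · simp only [e.injective.extend_apply]
    have h3 := (hW (x t)).trans hh
    rw [nz_sub_comm] at h3
    have h4 := (hP (l t)).nz_lip ((W (x t) : ℕ) / n') (x t)
    have h5 := mul_le_mul D_exp h3 (nz_nonneg _) (by norm_num)
    linarith [(h1 t).2.2, hW (y t), nz_tri (P (l t) ((W (x t) : ℕ) / n')) (P (l t) (x t))
      ((W (y t) : ℕ) / n'), nz_tri (P (l t) (x t)) (y t) ((W (y t) : ℕ) / n')]

open Classical in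
theorem D_anti {V : Type} [Fintype V] {γ κ r δ : ℝ} {w val : V → ℝ} (hL : Law γ w val)
    {e : Equiv.Perm ℝ} (he : Good κ e) (hκ : κ ≤ 1 / 100) (hr0 : 0 < r) (hr1 : 8 * r ≤ 1)
    (hδ : 0 < δ) (hγ : γ * r ≤ δ) (b y : ℝ) :
    ∑ v, w v * (if nz (e⁻¹ (b + r * val v) - y) ≤ 4 * δ then 1 else 0) ≤ 40 * δ / r := by
  simp only [mul_ite, mul_one, mul_zero]
  rw [← sum_filter]
  rcases (univ.filter fun v => nz (e⁻¹ (b + r * val v) - y) ≤ 4 * δ).eq_empty_or_nonempty with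
    h | ⟨v₀, hv₀⟩
  · rw [h, sum_empty]; positivity
  have h0 := (mem_filter.1 hv₀).2
  rw [nz_sub_comm] at h0
  have h1 := hL.anti (val v₀) (10 * δ / r) (by rw [le_div_iff₀ hr0]; linarith)
  refine le_trans (sum_le_sum_of_subset_of_nonneg (fun v hv => ?_) fun v _ _ => hL.nonneg v)
    (h1.trans (le_of_eq (by ring)))
  refine mem_filter.2 ⟨mem_univ _, ?_⟩
  have h2 := (mem_filter.1 hv).2
  have h3 := he.nz_lip (e⁻¹ (b + r * val v)) (e⁻¹ (b + r * val v₀))
  have h4 := nz_tri (e⁻¹ (b + r * val v)) y (e⁻¹ (b + r * val v₀))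
  have h5 := mul_le_mul ((exp_le_exp.2 hκ).trans D_exp) h4 (nz_nonneg _) (by norm_num)
  have h6 : |r * (val v - val v₀)| = r * |val v - val v₀| := by rw [abs_mul, abs_of_pos hr0]
  have h7 : |val v - val v₀| ≤ 2 := by linarith [abs_sub (val v) (val v₀), hL.bd v, hL.bd v₀]
  rw [ap_inv, ap_inv, show b + r * val v - (b + r * val v₀) = r * (val v - val v₀) by ring,
    nz_eq_abs (by rw [h6]; nlinarith), h6] at h3
  rw [le_div_iff₀ hr0]
  linarith

open Classical in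
/-- The probability that given separated edges are all closed. -/
theorem D_prob {k n : ℕ} {κ r : ℝ} {S : ℕ → Equiv.Perm ℝ}
    {u : (Fin k × Fin n → ℝ) → ℕ → Equiv.Perm ℝ} (hF : Fam k n κ r S u) (h0 : 0 ≤ κ)
    (hκ : 400 * k * κ ≤ 1) (hn : 0 < n) (hr0 : 0 < r) (hr : 1000 * k * r * n ≤ 1) (hr1 : 8 * r ≤ 1)
    {V : Type} [Fintype V] {γ : ℝ} {w val : V → ℝ} (hL : Law γ w val)
    {ι : Type} [Fintype ι] [DecidableEq ι] (idx : Fin k × Fin n → ι) (hi : Function.Injective idx)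
    {E : ℕ} {δ : ℝ} (hδ : 0 < δ) (hγ : γ * r ≤ δ) (x y : Fin E → ℝ) (l : Fin E → Fin k)
    (hs : ∀ t t', t ≠ t' → l t = l t' → 4 * (1 / (n : ℝ)) ≤ nz (x t - x t')) (T : Finset (Fin E)) :
    Ex w (fun ξ : ι → V => if ∀ t ∈ T,
      nz (PL k S (u fun p => r * val (ξ (idx p))) (l t) (x t) - y t) ≤ 4 * δ then 1 else 0)
      ≤ (40 * δ / r) ^ T.card := by
  induction T using Finset.induction_on_max_value l with
  | empty => simp [Ex_const hL.sum]
  | insert a T ha hmax ih =>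
    obtain ⟨W, hW⟩ := hF.window h0 hκ hn hr0.le hr (l a) (x a)
    have hk : (1 : ℝ) ≤ k := by exact_mod_cast (l a).pos
    have hb : ∀ v, |r * val v| ≤ r := fun v => by
      rw [abs_mul, abs_of_pos hr0]
      exact mul_le_of_le_one_right hr0.le (hL.bd v)
    have hpos : 0 ≤ 40 * δ / r := by positivity
    rw [Ex_update hL.sum (idx (l a, W)), card_insert_of_notMem ha, pow_succ']
    refine le_trans ?_ (mul_le_mul_of_nonneg_left ih hpos)
    rw [← Ex_mul]
    refine Ex_mono hL.nonneg fun ξ => ?_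
    set c : Fin k × Fin n → ℝ := fun p => r * val (ξ (idx p)) with hc
    have hcb : ∀ p, |c p| ≤ r := fun p => hb _
    have e1 : ∀ v, (fun p => r * val (update ξ (idx (l a, W)) v (idx p)))
        = update c (l a, W) (r * val v) := fun v => funext fun p => by
      rcases eq_or_ne p (l a, W) with rfl | h
      · rw [update_self, update_self]
      · rw [update_of_ne h, update_of_ne (hi.ne h)]
    have e2 : ∀ s, |s| ≤ r → ∀ t ∈ T, PL k S (u (update c (l a, W) s)) (l t) (x t)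
        = PL k S (u (update c (l a, W) 0)) (l t) (x t) := fun s hs' t ht => by
      obtain ⟨w1, w2, -⟩ := hW c hcb s hs'
      rcases (hmax t ht).lt_or_eq with h | h
      · rw [PL, PL, w1 _ (Fin.lt_def.1 h)]
      · refine (w2 (x t) ?_ _ (l t).2).eq
        rw [div_eq_mul_one_div]
        exact hs t a (fun e => ha (e ▸ ht)) h
    have e3 : ∀ s, |s| ≤ r → ∀ t ∈ T, PL k S (u (update c (l a, W) s)) (l t) (x t)
        = PL k S (u c) (l t) (x t) := fun s hs' t ht => by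
      have := e2 _ (hcb (l a, W)) t ht
      rw [update_eq_self] at this
      rw [e2 s hs' t ht, this]
    have e4 : ∀ s, |s| ≤ r → PL k S (u (update c (l a, W) s)) (l a) (x a) = (S (l a))⁻¹
        (u (update c (l a, W) 0) (l a) (S (l a) (PP S (u (update c (l a, W) 0)) (l a) (x a))) + s) :=
      fun s hs' => ((hW c hcb s hs').2.2 (x a) (by
        rw [sub_self]
        exact (nz_le_abs 0).trans (by rw [abs_zero]; positivity))).eq
    simp only [e1]
    by_cases hT : ∀ t ∈ T, nz (PL k S (u c) (l t) (x t) - y t) ≤ 4 * δ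
    · rw [if_pos hT, mul_one]
      refine le_trans (sum_le_sum fun v _ => mul_le_mul_of_nonneg_left ?_ (hL.nonneg v))
        (D_anti hL (hF.hS _ (l a).2) (by nlinarith) hr0 hr1 hδ hγ (u (update c (l a, W) 0) (l a)
          (S (l a) (PP S (u (update c (l a, W) 0)) (l a) (x a)))) (y a))
      split_ifs with h1 h2
      · exact le_rfl
      · exact absurd (e4 _ (hb v) ▸ h1 a (mem_insert_self _ _)) h2
      · exact zero_le_one
      · exact le_rfl
    · rw [if_neg hT, mul_zero]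
      refine le_of_eq (sum_eq_zero fun v _ => ?_)
      rw [if_neg fun h => hT fun t ht => e3 _ (hb v) t ht ▸ h t (mem_insert_of_mem ht), mul_zero]

open Classical in
theorem sparse_step {k n : ℕ} {κ r : ℝ} {S : ℕ → Equiv.Perm ℝ}
    {u : (Fin k × Fin n → ℝ) → ℕ → Equiv.Perm ℝ} (hF : Fam k n κ r S u) (h0 : 0 ≤ κ)
    (hκ : 400 * k * κ ≤ 1) (hn : 0 < n) (hr0 : 0 < r) (hr : 1000 * k * r * n ≤ 1) (hr1 : 8 * r ≤ 1)
    {V : Type} [Fintype V] {γ : ℝ} {w val : V → ℝ} (hL : Law γ w val)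
    {ι : Type} [Fintype ι] [DecidableEq ι] (idx : Fin k × Fin n → ι) (hi : Function.Injective idx)
    (A M M' n' E : ℕ) (δ : ℝ) (hQ : ¬Viol A (PL k S (u 0)) (20 / n) M) (hδ : 0 < δ)
    (hδn : 100 * δ * n ≤ 1) (hγ : γ * r ≤ δ) (hn' : 1 ≤ δ * n') (hE : 2 * E ≤ A * (M + 1)) :
    Ex w (fun ξ : ι → V =>
      if Viol A (PL k S (u fun p => r * val (ξ (idx p)))) δ M' then 1 else 0)
      ≤ (n' : ℝ) ^ M' * ((M' : ℝ) ^ 2 * k * (40 * δ / r)) ^ E := by
  have hn1 : (0 : ℝ) < n := by exact_mod_cast hn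
  have hδa : 100 * δ ≤ 1 / (n : ℝ) := by rwa [le_div_iff₀ hn1]
  have hra : 1000 * k * r ≤ 1 / (n : ℝ) := by rwa [le_div_iff₀ hn1]
  rw [div_eq_mul_one_div] at hQ
  let F : (Fin M' → Fin n') × (Fin E → Fin M' × Fin k × Fin M') → (ι → V) → ℝ := fun q ξ =>
    if ∀ t t', t ≠ t' → (q.2 t).2.1 = (q.2 t').2.1 → 4 * (1 / (n : ℝ)) ≤
      nz (((q.1 (q.2 t).1 : ℕ) : ℝ) / n' - ((q.1 (q.2 t').1 : ℕ) : ℝ) / n') then
      if ∀ t ∈ (univ : Finset (Fin E)), nz (PL k S (u fun p => r * val (ξ (idx p))) (q.2 t).2.1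
        (((q.1 (q.2 t).1 : ℕ) : ℝ) / n') - ((q.1 (q.2 t).2.2 : ℕ) : ℝ) / n') ≤ 4 * δ then 1 else 0
    else 0
  have F0 : ∀ q ξ, 0 ≤ F q ξ := fun q ξ => by
    simp only [F]
    split_ifs <;> norm_num
  have h1 : ∀ q, Ex w (F q) ≤ (40 * δ / r) ^ E := fun q => by
    simp only [F]
    split_ifs with h
    · have := D_prob hF h0 hκ hn hr0 hr hr1 hL idx hi hδ hγ
        (fun t => ((q.1 (q.2 t).1 : ℕ) : ℝ) / n') (fun t => ((q.1 (q.2 t).2.2 : ℕ) : ℝ) / n')
        (fun t => (q.2 t).2.1) h univ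
      rw [card_univ, Fintype.card_fin] at this
      exact this
    · rw [Ex_const hL.sum]; positivity
  refine le_trans (Ex_mono (g := fun ξ => ∑ q, F q ξ) hL.nonneg fun ξ => ?_) ?_
  · split_ifs with hv
    · have hb : ∀ p, |r * val (ξ (idx p))| ≤ r := fun p => by
        rw [abs_mul, abs_of_pos hr0]
        exact mul_le_of_le_one_right hr0.le (hL.bd _)
      have hP : ∀ i, Good (1 / 100) (PL k S (u fun p => r * val (ξ (idx p))) i) :=
        fun i => hF.good h0 hκ hb i.2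
      obtain ⟨Z, x, y, l, z1, z2, z3⟩ := D_edges (a := 1 / n) (by positivity) hP (fun i x => by
        have := hF.close h0 hκ hr0.le hb (j := i + 1) i.2 x
        have h2 : 0 ≤ (k : ℝ) * r := by positivity
        rw [abs_sub_comm]
        exact this.trans (by linarith)) hδa hQ hE hv
      obtain ⟨q, q1, q2⟩ := D_grid hP hδ hδa hn' z1 z2 z3
      refine le_trans ?_ (single_le_sum (fun q _ => F0 q ξ) (mem_univ q))
      simp only [F]
      rw [if_pos q1, if_pos fun t _ => q2 t]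
    · exact sum_nonneg fun q _ => F0 q ξ
  · rw [Ex_sum]
    refine (sum_le_sum fun q _ => h1 q).trans (le_of_eq ?_)
    simp only [sum_const, card_univ, Fintype.card_prod, Fintype.card_fun, Fintype.card_fin,
      nsmul_eq_mul]
    push_cast
    rw [mul_assoc, ← mul_pow]
    congr 2
    ring

end Pool.Agent.P.MP_0354a7_al
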