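import Pool.Agent.P.MP_0354a7_al.PF.Kernel

/-! Weighted composition operators on the circle and the trace bound for the spectral gap. -/

namespace Pool.Agent.P.MP_0354a7_al

open Real Finset

/-- The unitary composition operator. -/
noncomputable def E1_U (V : Equiv.Perm ℝ) (f : ℝ → ℝ) (y : ℝ) : ℝ := f (V y) * exp (ph V y / 2)

/-- The scalar product on the circle. -/
noncomputable def E1_ip (f g : ℝ → ℝ) : ℝ := ∫ x in (0 : ℝ)..1, f x * g x

theorem E1_mul {f g : ℝ → ℝ} (hf : CP f) (hg : CP g) : CP fun x => f x * g x :=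
  ⟨hf.1.mul hg.1, fun x => by simp only [hf.2 x, hg.2 x]⟩

theorem E1_avg {ι : Type} [Fintype ι] {f : ι → ℝ → ℝ} (hf : ∀ i, CP (f i)) (c : ℝ) :
    CP fun x => (∑ i, f i x) / c :=
  ⟨(continuous_finsetSum _ fun i _ => (hf i).1).div_const c, fun x => by simp only [(hf _).2 x]⟩

theorem E1_U_cp {V : Equiv.Perm ℝ} (hV : IsReg V ∧ Per V) {f : ℝ → ℝ} (hf : CP f) :
    CP (E1_U V f) :=
  E1_mul (hf.comp hV.1 hV.2)
    ⟨((cp_ph hV.1 hV.2).1.div_const 2).rexp, fun x => by simp only [(cp_ph hV.1 hV.2).2 x]⟩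

theorem E1_U_mul {V W : Equiv.Perm ℝ} (hV : IsReg V) (hW : IsReg W) (f : ℝ → ℝ) (y : ℝ) :
    E1_U V (E1_U W f) y = E1_U (W * V) f y := by
  simp only [E1_U, hW.ph_mul hV, Equiv.Perm.mul_apply, add_div, exp_add]
  ring

theorem E1_U_avg {ι : Type} [Fintype ι] (V : Equiv.Perm ℝ) (f : ι → ℝ → ℝ) (c y : ℝ) :
    E1_U V (fun x => (∑ i, f i x) / c) y = (∑ i, E1_U V (f i) y) / c := by
  simp only [E1_U]
  rw [← sum_mul]
  ring

theorem E1_ip_comm (f g : ℝ → ℝ) : E1_ip f g = E1_ip g f := by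
  simp only [E1_ip, mul_comm]

theorem E1_ip_self (f : ℝ → ℝ) : E1_ip f f = ∫ x in (0 : ℝ)..1, f x ^ 2 := by
  simp only [E1_ip, sq]

theorem E1_ip_nonneg (f : ℝ → ℝ) : 0 ≤ E1_ip f f :=
  intervalIntegral.integral_nonneg zero_le_one fun _ _ => mul_self_nonneg _

theorem E1_ip_cs {f g : ℝ → ℝ} (hf : CP f) (hg : CP g) :
    E1_ip f g ^ 2 ≤ E1_ip f f * E1_ip g g := by
  rw [E1_ip_self, E1_ip_self]
  exact cs_int hf.1 hg.1

theorem E1_ip_avg {ι : Type} [Fintype ι] {f : ι → ℝ → ℝ} (hf : ∀ i, CP (f i)) (c : ℝ)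
    {g : ℝ → ℝ} (hg : CP g) :
    E1_ip (fun x => (∑ i, f i x) / c) g = (∑ i, E1_ip (f i) g) / c := by
  simp only [E1_ip]
  rw [← intervalIntegral.integral_finsetSum (f := fun i x => f i x * g x)
    (fun i _ => ((hf i).1.mul hg.1).intervalIntegrable _ _), ← intervalIntegral.integral_div]
  congr 1
  funext x
  rw [← sum_mul]
  ring

theorem E1_U_adj {V : Equiv.Perm ℝ} (hV : IsReg V ∧ Per V) {f g : ℝ → ℝ} (hf : CP f) (hg : CP g) :
    E1_ip (E1_U V⁻¹ f) g = E1_ip f (E1_U V g) := by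
  have h := (E1_mul (E1_U_cp ⟨hV.1.inv, hV.2.inv⟩ hf) hg).integral_comp hV.1 hV.2
  simp only [E1_ip]
  rw [← h]
  congr 1
  funext x
  simp only [E1_U, hV.1.ph_inv, inv_ap]
  have e : exp (ph V x) = exp (ph V x / 2) * exp (ph V x / 2) := by
    rw [← exp_add]; congr 1; ring
  have e' : exp (-ph V x / 2) * exp (ph V x / 2) = 1 := by
    rw [← exp_add, ← exp_zero]; congr 1; ring
  rw [e]
  calc f x * exp (-ph V x / 2) * g (V x) * (exp (ph V x / 2) * exp (ph V x / 2))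
      = f x * g (V x) * (exp (-ph V x / 2) * exp (ph V x / 2)) * exp (ph V x / 2) := by ring
    _ = _ := by rw [e']; ring

section Ops

variable {k : ℕ} {P : Fin k → Equiv.Perm ℝ}

variable (P) in
/-- The averaging operator. -/
noncomputable def E1_M (f : ℝ → ℝ) (y : ℝ) : ℝ := (∑ i, E1_U (P i) f y) / k

variable (P) in
/-- The square of the averaging operator. -/
noncomputable def E1_T (f : ℝ → ℝ) (y : ℝ) : ℝ := (∑ i, E1_U (P i)⁻¹ (E1_M P f) y) / k

theorem E1_M_cp (hP : ∀ i, IsReg (P i) ∧ Per (P i)) {f : ℝ → ℝ} (hf : CP f) : CP (E1_M P f) :=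
  E1_avg (fun i => E1_U_cp (hP i) hf) _

theorem E1_T_cp (hP : ∀ i, IsReg (P i) ∧ Per (P i)) {f : ℝ → ℝ} (hf : CP f) : CP (E1_T P f) :=
  E1_avg (fun i => E1_U_cp ⟨(hP i).1.inv, (hP i).2.inv⟩ (E1_M_cp hP hf)) _

theorem E1_T_ip (hP : ∀ i, IsReg (P i) ∧ Per (P i)) {f g : ℝ → ℝ} (hf : CP f) (hg : CP g) :
    E1_ip (E1_T P f) g = E1_ip (E1_M P f) (E1_M P g) := by
  have h1 : E1_ip (E1_T P f) g = (∑ i, E1_ip (E1_U (P i)⁻¹ (E1_M P f)) g) / k :=
    E1_ip_avg (fun i => E1_U_cp ⟨(hP i).1.inv, (hP i).2.inv⟩ (E1_M_cp hP hf)) _ hg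
  have h2 : E1_ip (E1_M P g) (E1_M P f) = (∑ i, E1_ip (E1_U (P i) g) (E1_M P f)) / k :=
    E1_ip_avg (fun i => E1_U_cp (hP i) hg) _ (E1_M_cp hP hf)
  rw [h1, E1_ip_comm (E1_M P f), h2]
  congr 1
  refine sum_congr rfl fun i _ => ?_
  rw [E1_U_adj (hP i) (E1_M_cp hP hf) hg, E1_ip_comm]

theorem E1_T_symm (hP : ∀ i, IsReg (P i) ∧ Per (P i)) {f g : ℝ → ℝ} (hf : CP f) (hg : CP g) :
    E1_ip (E1_T P f) g = E1_ip f (E1_T P g) := by
  rw [E1_T_ip hP hf hg, E1_ip_comm f, E1_T_ip hP hg hf, E1_ip_comm]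

theorem E1_it_cp (hP : ∀ i, IsReg (P i) ∧ Per (P i)) {f : ℝ → ℝ} (hf : CP f) (n : ℕ) :
    CP ((E1_T P)^[n] f) := by
  induction n with
  | zero => exact hf
  | succ n ih => rw [Function.iterate_succ_apply']; exact E1_T_cp hP ih

theorem E1_it_symm (hP : ∀ i, IsReg (P i) ∧ Per (P i)) (n : ℕ) {f g : ℝ → ℝ} (hf : CP f)
    (hg : CP g) : E1_ip ((E1_T P)^[n] f) g = E1_ip f ((E1_T P)^[n] g) := by
  induction n generalizing g with
  | zero => rfl
  | succ n ih =>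
    rw [Function.iterate_succ_apply', E1_T_symm hP (E1_it_cp hP hf n) hg, ih (E1_T_cp hP hg),
      Function.iterate_succ_apply]

theorem E1_T_eq (hP : ∀ i, IsReg (P i) ∧ Per (P i)) (f : ℝ → ℝ) :
    E1_T P f = fun y => (∑ p : Fin k × Fin k, E1_U (P p.2 * (P p.1)⁻¹) f y) / (k : ℝ) ^ 2 := by
  funext y
  have h : ∀ i, E1_U (P i)⁻¹ (E1_M P f) y = (∑ j, E1_U (P j * (P i)⁻¹) f y) / k := fun i => by
    have := E1_U_avg (P i)⁻¹ (fun j => E1_U (P j) f) k y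
    refine this.trans ?_
    congr 1
    exact sum_congr rfl fun j _ => E1_U_mul (hP i).1.inv (hP j).1 f y
  rw [E1_T, Fintype.sum_prod_type]
  simp only [h]
  rw [← sum_div, div_div, sq]

theorem E1_VW_reg (hP : ∀ i, IsReg (P i) ∧ Per (P i)) {N : ℕ} (w : Fin N → Fin k × Fin k)
    (t : ℕ) : IsReg (VW P w t) ∧ Per (VW P w t) :=
  pu_reg t fun j _ => by
    by_cases h : j < N
    · simp only [h, dif_pos]
      exact ⟨(hP _).1.mul (hP _).1.inv, (hP _).2.mul (hP _).2.inv⟩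
    · simp only [h, dif_neg, not_false_eq_true]
      exact ⟨IsReg.one, fun _ => rfl⟩

theorem E1_VW_snoc {N : ℕ} (w : Fin N → Fin k × Fin k) (p : Fin k × Fin k) :
    VW P (Fin.snoc (α := fun _ => Fin k × Fin k) w p) (N + 1) =
      (P p.2 * (P p.1)⁻¹) * VW P w N := by
  unfold VW
  rw [pu]
  congr 1
  · have e : (⟨N, Nat.lt_succ_self N⟩ : Fin (N + 1)) = Fin.last N := rfl
    simp only [Nat.lt_succ_self, dif_pos, e, Fin.snoc_last]
  · refine pu_congr N fun j hj => ?_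
    have e : (⟨j, Nat.lt_succ_of_lt hj⟩ : Fin (N + 1)) = Fin.castSucc ⟨j, hj⟩ := rfl
    simp only [hj, Nat.lt_succ_of_lt hj, dif_pos, e, Fin.snoc_castSucc]

theorem E1_it_eq (hP : ∀ i, IsReg (P i) ∧ Per (P i)) (N : ℕ) (f : ℝ → ℝ) (y : ℝ) :
    (E1_T P)^[N] f y =
      (∑ w : Fin N → Fin k × Fin k, E1_U (VW P w N) f y) / (k : ℝ) ^ (2 * N) := by
  induction N generalizing f with
  | zero => simp [VW, pu, E1_U, ph_one]
  | succ N ih =>
    rw [Function.iterate_succ_apply, ih, E1_T_eq hP,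
      ← (Fin.snocEquiv fun _ : Fin (N + 1) => Fin k × Fin k).sum_comp, Fintype.sum_prod_type,
      sum_comm]
    have h : ∀ w : Fin N → Fin k × Fin k, E1_U (VW P w N)
        (fun y => (∑ p : Fin k × Fin k, E1_U (P p.2 * (P p.1)⁻¹) f y) / (k : ℝ) ^ 2) y =
        (∑ p : Fin k × Fin k, E1_U (VW P ((Fin.snocEquiv fun _ : Fin (N + 1) => Fin k × Fin k)
          (p, w)) (N + 1)) f y) / (k : ℝ) ^ 2 := fun w => by
      rw [E1_U_avg]
      congr 1
      refine sum_congr rfl fun p _ => ?_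
      rw [E1_U_mul (E1_VW_reg hP w N).1 ((hP _).1.mul (hP _).1.inv), ← E1_VW_snoc]
      rfl
    simp only [h]
    rw [← sum_div, div_div, ← pow_add]
    congr 2
    ring

theorem E1_shift {a : ℝ → ℝ} (ha : CP a) (z : ℝ) : CP fun y => a (y - z) :=
  ⟨ha.1.comp (continuous_id.sub continuous_const), fun x => by
    simp only [show x + 1 - z = x - z + 1 by ring, ha.2 _]⟩

theorem E1_HS_eq (hP : ∀ i, IsReg (P i) ∧ Per (P i)) {a : ℝ → ℝ} (ha : CP a) (m : ℕ) :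
    HS P a (2 * m) = ∫ z in (0 : ℝ)..1, ∫ y in (0 : ℝ)..1,
      (E1_T P)^[m] (fun y => a (y - z)) y ^ 2 := by
  unfold HS
  congr 1
  funext z
  have h1 : E1_ip ((E1_T P)^[2 * m] fun y => a (y - z)) (fun y => a (y - z)) =
      E1_ip ((E1_T P)^[m] fun y => a (y - z)) ((E1_T P)^[m] fun y => a (y - z)) := by
    rw [two_mul, Function.iterate_add_apply,
      E1_it_symm hP m (E1_it_cp hP (E1_shift ha z) m) (E1_shift ha z)]
  rw [← E1_ip_self, ← h1, E1_ip]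
  congr 1
  funext y
  rw [E1_it_eq hP]
  simp only [E1_U, mul_comm]

theorem E1_joint (hP : ∀ i, IsReg (P i) ∧ Per (P i)) {a : ℝ → ℝ} (ha : CP a) (m : ℕ) :
    Continuous fun p : ℝ × ℝ => (E1_T P)^[m] (fun y => a (y - p.2)) p.1 := by
  simp only [E1_it_eq hP, E1_U]
  refine (continuous_finsetSum _ fun w _ => ?_).div_const _
  have h1 := Reg.continuous (E1_VW_reg hP w m).1
  have h2 := Reg.continuous_phi (E1_VW_reg hP w m).1
  exact (ha.1.comp ((h1.comp continuous_fst).sub continuous_snd)).mul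
    ((h2.comp continuous_fst).div_const 2).rexp

theorem E1_it_cv (hP : ∀ i, IsReg (P i) ∧ Per (P i)) {a g : ℝ → ℝ} (ha : CP a) (hg : CP g)
    (m : ℕ) (y : ℝ) : (E1_T P)^[m] (cv a g) y =
      ∫ z in (0 : ℝ)..1, (E1_T P)^[m] (fun y => a (y - z)) y * g z := by
  simp only [E1_it_eq hP, E1_U, cv]
  have e : ∀ z, (∑ w : Fin m → Fin k × Fin k, a (VW P w m y - z) * exp (ph (VW P w m) y / 2))
      / (k : ℝ) ^ (2 * m) * g z = (∑ w : Fin m → Fin k × Fin k,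
        a (VW P w m y - z) * g z * exp (ph (VW P w m) y / 2)) / (k : ℝ) ^ (2 * m) := fun z => by
    rw [div_mul_eq_mul_div, sum_mul]
    congr 1
    exact sum_congr rfl fun w _ => by ring
  simp only [e]
  rw [intervalIntegral.integral_div, intervalIntegral.integral_finsetSum
    (f := fun (w : Fin m → Fin k × Fin k) z =>
      a (VW P w m y - z) * g z * exp (ph (VW P w m) y / 2)) fun w _ =>
    (((ha.1.comp (continuous_const.sub continuous_id)).mul hg.1).mul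
      continuous_const).intervalIntegrable _ _]
  simp only [intervalIntegral.integral_mul_const]

theorem E1_hs_bound (hP : ∀ i, IsReg (P i) ∧ Per (P i)) {a g : ℝ → ℝ} (ha : CP a) (hg : CP g)
    (m : ℕ) : E1_ip ((E1_T P)^[m] (cv a g)) ((E1_T P)^[m] (cv a g)) ≤
      HS P a (2 * m) * E1_ip g g := by
  have hj := E1_joint hP ha m
  rw [E1_HS_eq hP ha, E1_ip_self, E1_ip_self,
    ← swap_int (F := fun y z => (E1_T P)^[m] (fun y => a (y - z)) y ^ 2) (hj.pow 2) zero_le_one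
      zero_le_one, ← intervalIntegral.integral_mul_const]
  refine intervalIntegral.integral_mono_on zero_le_one
    (((E1_it_cp hP (cv_cp ha hg) m).1.pow 2).intervalIntegrable _ _)
    (((intervalIntegral.continuous_parametric_intervalIntegral_of_continuous' (hj.pow 2) 0 1).mul
      continuous_const).intervalIntegrable _ _) fun y _ => ?_
  rw [E1_it_cv hP ha hg]
  exact cs_int (hj.comp (continuous_const.prodMk continuous_id)) hg.1

end Ops

theorem E1_logconv {n : ℕ → ℝ} (h0 : ∀ j, 0 ≤ n j) (h : ∀ j, n (j + 1) ^ 2 ≤ n j * n (j + 2))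
    (m : ℕ) : n 1 ^ (m + 1) ≤ n 0 ^ m * n (m + 1) := by
  have h1 : ∀ j, n 1 * n j ≤ n 0 * n (j + 1) := by
    intro j
    induction j with
    | zero => rw [mul_comm]
    | succ j ih =>
      rcases (h0 (j + 1)).eq_or_lt with e | e
      · rw [← e, mul_zero]
        exact mul_nonneg (h0 _) (h0 _)
      · refine le_of_mul_le_mul_right ?_ e
        have a1 := mul_le_mul_of_nonneg_left (h j) (h0 1)
        have a2 := mul_le_mul_of_nonneg_right ih (h0 (j + 2))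
        nlinarith
  induction m with
  | zero => simp
  | succ m ih =>
    have a1 := mul_le_mul_of_nonneg_left ih (h0 1)
    have a2 := mul_le_mul_of_nonneg_left (h1 (m + 1)) (pow_nonneg (h0 0) m)
    calc n 1 ^ (m + 1 + 1) = n 1 * n 1 ^ (m + 1) := by ring
      _ ≤ n 1 * (n 0 ^ m * n (m + 1)) := a1
      _ = n 0 ^ m * (n 1 * n (m + 1)) := by ring
      _ ≤ n 0 ^ m * (n 0 * n (m + 1 + 1)) := a2
      _ = n 0 ^ (m + 1) * n (m + 1 + 1) := by ring

theorem hs_nonneg {k : ℕ} {P : Fin k → Equiv.Perm ℝ} (hP : ∀ i, IsReg (P i) ∧ Per (P i))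
    {a : ℝ → ℝ} (ha : CP a) (m : ℕ) : 0 ≤ HS P a (2 * m) := by
  rw [E1_HS_eq hP ha]
  exact intervalIntegral.integral_nonneg zero_le_one fun _ _ =>
    intervalIntegral.integral_nonneg zero_le_one fun _ _ => sq_nonneg _

theorem gap_of_hs {k : ℕ} (hk : 0 < k) {P : Fin k → Equiv.Perm ℝ}
    (hP : ∀ i, IsReg (P i) ∧ Per (P i)) {l₀ l₁ ρ : ℝ} (h0 : 0 < l₀) (h0' : l₀ ≤ 1 / 2) (h1 : 0 < l₁)
    (h1' : l₁ ≤ 1 / 2) {m : ℕ} (hm : 1 ≤ m) (hρ : 0 ≤ ρ)
    (h : HS P (fun t => tk l₀ t - tk l₁ t) (2 * m) ≤ ρ ^ (4 * m)) : GAP P l₀ l₁ (2 * ρ) := by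
  intro g hg
  have ha : CP fun t => tk l₀ t - tk l₁ t :=
    ⟨(tk_cp l₀).1.sub (tk_cp l₁).1, fun t => by simp only [(tk_cp l₀).2 t, (tk_cp l₁).2 t]⟩
  set x := cv (fun t => tk l₀ t - tk l₁ t) g with hx
  have hxc : CP x := cv_cp ha hg
  set G := E1_ip g g with hG
  have hG0 : 0 ≤ G := E1_ip_nonneg g
  let n : ℕ → ℝ := fun j => E1_ip ((E1_T P)^[j] x) ((E1_T P)^[j] x)
  have hn0 : ∀ j, 0 ≤ n j := fun j => E1_ip_nonneg _
  have hlc : ∀ j, n (j + 1) ^ 2 ≤ n j * n (j + 2) := fun j => by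
    have e : n (j + 1) = E1_ip ((E1_T P)^[j] x) ((E1_T P)^[j + 2] x) := by
      simp only [n]
      rw [Function.iterate_succ_apply' _ (j + 1), ← E1_T_symm hP (E1_it_cp hP hxc j)
        (E1_it_cp hP hxc (j + 1)), ← Function.iterate_succ_apply' (E1_T P) j]
    rw [e]
    exact E1_ip_cs (E1_it_cp hP hxc _) (E1_it_cp hP hxc _)
  have hx0 : n 0 ≤ 4 * G := by
    have a0 := cv_tk_sq h0 h0' hg
    have a1 := cv_tk_sq h1 h1' hg
    have c0 := (cv_cp (tk_cp l₀) hg).1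
    have c1 := (cv_cp (tk_cp l₁) hg).1
    have a2 : (∫ y in (0 : ℝ)..1, x y ^ 2) ≤
        ∫ y in (0 : ℝ)..1, (2 * cv (tk l₀) g y ^ 2 + 2 * cv (tk l₁) g y ^ 2) := by
      refine intervalIntegral.integral_mono_on zero_le_one ((hxc.1.pow 2).intervalIntegrable _ _)
        (Continuous.intervalIntegrable (by fun_prop) _ _) fun y _ => ?_
      rw [hx, cv_sub_left (tk_cp l₀) (tk_cp l₁) hg]
      nlinarith [sq_nonneg (cv (tk l₀) g y + cv (tk l₁) g y)]
    rw [intervalIntegral.integral_add (Continuous.intervalIntegrable (by fun_prop) _ _)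
      (Continuous.intervalIntegrable (by fun_prop) _ _), intervalIntegral.integral_const_mul,
      intervalIntegral.integral_const_mul] at a2
    have e : n 0 = ∫ y in (0 : ℝ)..1, x y ^ 2 := E1_ip_self x
    rw [e, hG, E1_ip_self]
    linarith
  obtain ⟨m, rfl⟩ : ∃ j, m = j + 1 := ⟨m - 1, by omega⟩
  have hm1 : n (m + 1) ≤ ρ ^ (4 * (m + 1)) * G :=
    (E1_hs_bound hP ha hg (m + 1)).trans (mul_le_mul_of_nonneg_right h hG0)
  have hn1 : n 1 ≤ 4 * ρ ^ 4 * G := by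
    refine le_of_pow_le_pow_left₀ (n := m + 1) (by omega) (by positivity) ?_
    calc n 1 ^ (m + 1) ≤ n 0 ^ m * n (m + 1) := E1_logconv hn0 hlc m
      _ ≤ (4 * G) ^ m * (ρ ^ (4 * (m + 1)) * G) :=
          mul_le_mul (pow_le_pow_left₀ (hn0 0) hx0 m) hm1 (hn0 _) (by positivity)
      _ ≤ (4 * G) ^ m * (ρ ^ (4 * (m + 1)) * (4 * G)) := by gcongr; linarith
      _ = (4 * ρ ^ 4 * G) ^ (m + 1) := by rw [pow_mul]; ring
  have hM : E1_ip (E1_M P x) (E1_M P x) ≤ (2 * ρ) ^ 2 * G := by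
    rw [← E1_T_ip hP hxc hxc]
    refine le_of_pow_le_pow_left₀ (n := 2) (by omega) (by positivity) ?_
    calc E1_ip (E1_T P x) x ^ 2 ≤ n 1 * n 0 := E1_ip_cs (E1_T_cp hP hxc) hxc
      _ ≤ (4 * ρ ^ 4 * G) * (4 * G) := mul_le_mul hn1 hx0 (hn0 0) (by positivity)
      _ = ((2 * ρ) ^ 2 * G) ^ 2 := by ring
  rw [E1_ip_self, hG, E1_ip_self] at hM
  exact hM

end Pool.Agent.P.MP_0354a7_al
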