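import Pool.Agent.P.MP_0354a7_al.PF.RsideN
import Pool.Agent.P.MP_0354a7_al.PF.Law
import Pool.Agent.P.MP_0354a7_al.PF.Count
import Pool.Agent.P.MP_0354a7_al.PF.Sparse
import Pool.Agent.P.MP_0354a7_al.PF.Trace
import Pool.Agent.P.MP_0354a7_al.PF.Lonely
import Pool.Agent.P.MP_0354a7_al.PF.Bands

/-!
The random side: an adapted choice of the alignment maps that expands at all large scales.
-/

namespace Pool.Agent.P.MP_0354a7_al

open Real Finset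

/-- The size of the configurations excluded at the level `m`. -/
def R_Mn (m₀ m : ℕ) : ℕ := 2000 * m ^ 2 / (6 * m₀ + 5) ^ 2

/-- Sparsity at the level `n`. -/
def R_Q {k : ℕ} (m₀ n : ℕ) (P : Fin k → Equiv.Perm ℝ) : Prop :=
  ¬Viol 2000 P (20 / 2 ^ n) (R_Mn m₀ n)

/-- Failure of the trace bound at the level `b ^ 2`. -/
def R_T {k : ℕ} (ρ : ℝ) (c' b : ℕ) (P : Fin k → Equiv.Perm ℝ) : Prop :=
  ρ ^ (4 * (b ^ 2 / c')) < HS P
    (fun t => tk ((1 / 2) ^ (7 * (b + 1) ^ 2)) t - tk ((1 / 2) ^ (7 * b ^ 2)) t) (2 * (b ^ 2 / c'))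

open Classical in
/-- The walk count for the chosen number of labels. -/
def R_W (k c' : ℕ) : Prop :=
  ∀ (n N M : ℕ) (P : Fin k → Equiv.Perm ℝ), 0 < n → (∀ i, Good (1 / 100) (P i)) →
    ¬Viol 2000 P (3 / n) M → 100 * N ≤ M → ∀ y : ℝ,
    ((univ.filter fun w : Fin N → Fin k × Fin k => NL P (10 / n) y w).card : ℝ)
      ≤ 10 * n * ((1 / 2) ^ (12 * c') * k ^ 2) ^ N

theorem R_Mn_le (m₀ m : ℕ) : R_Mn m₀ m ≤ 2000 * m ^ 2 := Nat.div_le_self _ _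

theorem R_Mn_step {m₀ m n : ℕ} (h : m ≤ 7 * n) : R_Mn m₀ m ≤ 49 * (R_Mn m₀ n + 1) := by
  have h0 : 0 < (6 * m₀ + 5) ^ 2 := by positivity
  have h1 := Nat.lt_mul_div_succ (2000 * n ^ 2) h0
  have h2 : m ^ 2 ≤ (7 * n) ^ 2 := Nat.pow_le_pow_left h 2
  unfold R_Mn
  refine (Nat.div_lt_of_lt_mul ?_).le
  nlinarith

theorem R_Mn_base {m₀ n : ℕ} (h : n ≤ 6 * m₀ + 5) : R_Mn m₀ n ≤ 2000 := by
  have h2 : n ^ 2 ≤ (6 * m₀ + 5) ^ 2 := Nat.pow_le_pow_left h 2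
  exact Nat.div_le_of_le_mul (by nlinarith)

theorem R_Mn_sq {m₀ b : ℕ} (h : 6 * m₀ + 5 ≤ b) : 2000 * b ^ 2 ≤ R_Mn m₀ (b ^ 2) := by
  have h2 : (6 * m₀ + 5) ^ 2 ≤ b ^ 2 := Nat.pow_le_pow_left h 2
  refine (Nat.le_div_iff_mul_le (by positivity)).2 ?_
  rw [pow_two (b ^ 2), mul_assoc]
  exact Nat.mul_le_mul_left _ (Nat.mul_le_mul_left _ h2)

theorem R_exp_mono {k : ℕ} {Λ σ β β' : ℝ} {P : Fin k → Equiv.Perm ℝ} (h : EXP Λ σ β P)
    (hβ : β ≤ β') : EXP Λ σ β' P := fun g f hg hf g1 f1 hl hs =>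
  (h g f hg hf g1 f1 hl hs).trans (mul_le_mul_of_nonneg_right hβ (add_nonneg
    (intervalIntegral.integral_nonneg zero_le_one fun x _ => (g1 x).1)
    (intervalIntegral.integral_nonneg zero_le_one fun x _ => (f1 x).1)))

open Classical in
/-- The indicator of a proposition. -/
noncomputable def R_ind (p : Prop) : ℝ := if p then 1 else 0

theorem R_ind_le {p : Prop} {x : ℝ} (h0 : 0 ≤ x) (h1 : p → 1 ≤ x) : R_ind p ≤ x := by
  unfold R_ind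
  split_ifs with hp
  exacts [h1 hp, h0]

theorem R_ind_nonneg (p : Prop) : 0 ≤ R_ind p := by
  unfold R_ind
  split_ifs <;> norm_num

theorem R_ind_one {p : Prop} (h : p) : R_ind p = 1 := if_pos h

theorem R_inj {k M : ℕ} (n : Fin M) :
    Function.Injective fun p : Fin k × Fin (2 ^ (n : ℕ)) => (⟨n, p⟩ : R_I k M) :=
  fun _ _ h => eq_of_heq (Sigma.mk.inj h).2

namespace R_D.H

variable {k M m₀ : ℕ} {St : Type} {D : R_D k M St} {κ η : ℝ}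

theorem probQ (h : D.H m₀ κ η) {V : Type} [Fintype V] {w val : V → ℝ}
    (hL : Law ((1 / 2) ^ (20 * M)) w val)
    (hb : ∀ n : ℕ, m₀ ≤ n → 10 ^ 13 * (k : ℝ) * (n : ℝ) ^ 4 ≤ κ ^ 3 * 2 ^ n) {m : ℕ}
    (h1 : 6 * m₀ + 5 < m) (h2 : m < M) :
    Ex w (fun ω : R_I k M → V => R_ind
      (R_Q m₀ (m / 6) (D.pl (R_cf m₀ κ val ω) (m / 6) (R_wo (m / 6) (R_cf m₀ κ val ω))) ∧
        Viol 2000 (D.pl (R_cf m₀ κ val ω) (m / 6) (R_cf m₀ κ val ω)) (21 / 2 ^ m) (R_Mn m₀ m)))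
      ≤ (1 / 2) ^ m := by
  have κ0 := h.κ0
  have κ3 := h.κ3
  have h12 := h.m12
  obtain ⟨n, hn⟩ : ∃ n : Fin M, (n : ℕ) = m / 6 := ⟨⟨m / 6, by omega⟩, rfl⟩
  rw [← hn]
  refine R_resample D κ val hL.nonneg hL.sum n (by omega)
    (fun P₀ P => R_ind (R_Q m₀ n P₀ ∧ Viol 2000 P (21 / 2 ^ m) (R_Mn m₀ m))) _ fun ω => ?_
  by_cases hQ : R_Q m₀ n (D.pl (R_cf m₀ κ val ω) n (R_wo n (R_cf m₀ κ val ω)))
  swap
  · rw [← Ex_const (ι := R_I k M) hL.sum ((1 / 2) ^ m)]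
    exact Ex_mono hL.nonneg fun ξ => R_ind_le (by positivity) fun e => absurd e.1 hQ
  have hF := h.fam _ (R_adm_cf κ0.le hL.bd ω) n (by omega) _ (h.hS (D.st (R_cf m₀ κ val ω) n))
  have t1 : (2 : ℝ) ^ 12 ≤ 2 ^ (n : ℕ) := pow_le_pow_right₀ (by norm_num) (by omega)
  have t6 : ((2 : ℝ) ^ (n : ℕ)) ^ 6 ≤ 2 ^ m := by
    rw [← pow_mul]
    exact pow_le_pow_right₀ (by norm_num) (by omega)
  have r1 : (1 / 2 : ℝ) ^ (4 * (n : ℕ)) ≤ 1 := pow_le_one₀ (by norm_num) (by norm_num)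
  have r2 : κ * (1 / 2 : ℝ) ^ (4 * (n : ℕ)) ≤ κ := mul_le_of_le_one_right κ0.le r1
  have r3 : 8 * (κ * (1 / 2 : ℝ) ^ (4 * (n : ℕ))) ≤ 1 := by linarith
  have r4 : R_Mn m₀ m ≤ 98000 * (n : ℕ) ^ 2 := by
    have : m ^ 2 ≤ (7 * (n : ℕ)) ^ 2 := Nat.pow_le_pow_left (by omega) 2
    nlinarith [R_Mn_le m₀ m]
  have r5 : 1000 * k * (κ * (1 / 2 : ℝ) ^ (4 * (n : ℕ))) * ((2 ^ (n : ℕ) : ℕ) : ℝ) ≤ 1 := by
    have e : (1 / 2 : ℝ) ^ (4 * (n : ℕ)) * 2 ^ (n : ℕ) ≤ 1 := by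
      refine (mul_le_mul_of_nonneg_right (R_half_le (show (n : ℕ) ≤ 4 * n by omega))
        (by positivity)).trans (le_of_eq ?_)
      rw [← mul_pow]
      norm_num
    have k0 : 0 ≤ k * κ := by positivity
    push_cast
    nlinarith [h.κ1]
  have r6 : ¬Viol 2000 (PL k (D.S (D.st (R_cf m₀ κ val ω) n))
      (D.uu (Function.extend (Sigma.mk n) 0 (R_cf m₀ κ val ω)))) (20 / ((2 ^ (n : ℕ) : ℕ) : ℝ))
      (R_Mn m₀ n) := by
    rw [R_ext_zero, Nat.cast_pow, Nat.cast_ofNat]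
    exact hQ
  have r7 : 100 * (21 / 2 ^ m : ℝ) * ((2 ^ (n : ℕ) : ℕ) : ℝ) ≤ 1 := by
    push_cast
    rw [← mul_div_assoc, div_mul_eq_mul_div, div_le_one (by positivity)]
    refine le_trans ?_ t6
    have t2 : (1 : ℝ) ≤ (2 ^ (n : ℕ)) ^ 4 := one_le_pow₀ (by linarith)
    have t3 : (0 : ℝ) < 2 ^ (n : ℕ) := by positivity
    nlinarith [mul_pos t3 t3]
  have r8 : (1 / 2 : ℝ) ^ (20 * M) * (κ * (1 / 2 : ℝ) ^ (4 * (n : ℕ))) ≤ 21 / 2 ^ m := by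
    have g1 : (1 / 2 : ℝ) ^ (20 * M) ≤ 1 / 2 ^ m := by
      rw [← one_div_pow]
      exact R_half_le (by omega)
    have g2 : (0 : ℝ) < 1 / 2 ^ m := by positivity
    have g3 := mul_le_mul g1 (show κ * (1 / 2 : ℝ) ^ (4 * (n : ℕ)) ≤ 1 by linarith) (by positivity)
      g2.le
    rw [div_eq_mul_one_div 21]
    linarith
  have r9 : 1 ≤ (21 / 2 ^ m : ℝ) * ((2 ^ m : ℕ) : ℝ) := by
    push_cast
    rw [div_mul_cancel₀ _ (by positivity)]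
    norm_num
  have key := sparse_step hF κ0.le h.κ2 (by positivity) (by positivity) r5 r3 hL _ (R_inj n) 2000
    (R_Mn m₀ n) (R_Mn m₀ m) (2 ^ m) (1000 * (R_Mn m₀ n + 1)) (21 / 2 ^ m) r6 (by positivity) r7 r8
    r9 (by omega)
  have num := R_numQ (k := k) (n := n) (m := m) (Y := R_Mn m₀ n) κ0 (by linarith) (by omega) (by omega)
    (R_Mn_step (by omega)) r4 (hb n (by omega))
  refine le_trans (Ex_mono hL.nonneg fun ξ => ?_) (key.trans num)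
  exact R_ind_le (R_ind_nonneg _) fun e => (R_ind_one e.2).ge

theorem probG (h : D.H m₀ κ η) {V : Type} [Fintype V] {w val : V → ℝ}
    (hL : Law ((1 / 2) ^ (20 * M)) w val)
    (hb : ∀ n : ℕ, m₀ ≤ n → 10 ^ 13 * (k : ℝ) * (n : ℝ) ^ 4 ≤ κ ^ 3 * 2 ^ n) {ρ : ℝ} {c' : ℕ}
    (ρ0 : 0 < ρ) (hc : 2 ≤ c') (hc' : c' ≤ m₀) (hρ : exp 1 ≤ 2 ^ c' * ρ ^ 4)
    (hw : R_W k c') {b : ℕ} (h1 : 6 * m₀ + 5 ≤ b) (h2 : b ^ 2 < M) :
    Ex w (fun ω : R_I k M → V => R_ind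
      (R_Q m₀ (b ^ 2) (D.pl (R_cf m₀ κ val ω) (b ^ 2) (R_wo (b ^ 2) (R_cf m₀ κ val ω))) ∧
        R_T ρ c' b (D.pl (R_cf m₀ κ val ω) (b ^ 2) (R_cf m₀ κ val ω)))) ≤ (1 / 2) ^ b := by
  classical
  have κ0 := h.κ0
  have κ3 := h.κ3
  have h12 := h.m12
  have hbb : b ≤ b ^ 2 := by nlinarith
  have a1 : c' * (b ^ 2 / c') ≤ b ^ 2 := Nat.mul_div_le _ c'
  have a4 : 2 * (b ^ 2 / c') ≤ b ^ 2 := by nlinarith
  refine R_resample D κ val hL.nonneg hL.sum ⟨b ^ 2, h2⟩ (by simp only; omega)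
    (fun P₀ P => R_ind (R_Q m₀ (b ^ 2) P₀ ∧ R_T ρ c' b P)) _ fun ω => ?_
  by_cases hQ : R_Q m₀ (b ^ 2) (D.pl (R_cf m₀ κ val ω) (b ^ 2) (R_wo (b ^ 2) (R_cf m₀ κ val ω)))
  swap
  · rw [← Ex_const (ι := R_I k M) hL.sum ((1 / 2) ^ b)]
    exact Ex_mono hL.nonneg fun ξ => R_ind_le (by positivity) fun e => absurd e.1 hQ
  have hA := R_adm_cf (k := k) (M := M) (m₀ := m₀) κ0.le hL.bd ω
  have hF := h.fam _ hA ⟨b ^ 2, h2⟩ (by simp only; omega) _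
    (h.hS (D.st (R_cf m₀ κ val ω) (b ^ 2)))
  have l1 : (1 / 2 : ℝ) ^ (7 * b ^ 2) ≤ 1 / 8 :=
    (R_half_le (show 3 ≤ 7 * b ^ 2 by omega)).trans (by norm_num)
  have l2 : (1 / 2 : ℝ) ^ (7 * (b + 1) ^ 2) ≤ (1 / 2) ^ (7 * b ^ 2) := R_half_le (by nlinarith)
  have l3 : ∀ y : ℝ, ((univ.filter fun w : Fin (2 * (b ^ 2 / c')) → Fin k × Fin k =>
      NL (PL k (D.S (D.st (R_cf m₀ κ val ω) (b ^ 2)))
        (D.uu (Function.extend (Sigma.mk (⟨b ^ 2, h2⟩ : Fin M)) 0 (R_cf m₀ κ val ω))))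
        (10 / ((2 ^ b ^ 2 : ℕ) : ℝ)) y w).card : ℝ)
      ≤ 10 * ((2 ^ b ^ 2 : ℕ) : ℝ) * ((1 / 2) ^ (12 * c')) ^ (2 * (b ^ 2 / c'))
        * (k : ℝ) ^ (2 * (2 * (b ^ 2 / c'))) := fun y => by
    rw [R_ext_zero]
    refine (hw (2 ^ b ^ 2) _ (R_Mn m₀ (b ^ 2)) _ (by positivity)
      (h.goodP' (R_cf m₀ κ val ω) (b ^ 2) (R_adm_wo hA _)) (fun hV => hQ ?_) ?_ y).trans
      (le_of_eq ?_)
    · refine hV.mono (d := 0) (fun i x => by simp) ?_ le_rfl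
      push_cast
      rw [add_zero]
      exact div_le_div_of_nonneg_right (by norm_num) (by positivity)
    · have := R_Mn_sq h1
      omega
    · rw [mul_pow, ← pow_mul (k : ℝ), ← mul_assoc]
  have key := hs_expect hF h.hk κ0.le h.κ2 (by positivity) (by positivity) hL (by positivity) _
    (R_inj ⟨b ^ 2, h2⟩) (2 * (b ^ 2 / c')) (R_numH (n := b ^ 2) κ0 h.κ1 a4 (by omega)) _ l3
    (by positivity) l2 l1
  have num := R_numG κ0 (by linarith) ρ0 hc (by omega) (by omega) hρ h2 h.hk (hb b (by omega))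
  have p0 : 0 < ρ ^ (4 * (b ^ 2 / c')) := by positivity
  refine le_trans ?_ ((mul_le_mul_of_nonneg_left key (inv_pos.2 p0).le).trans num)
  rw [← Ex_mul]
  refine Ex_mono hL.nonneg fun ξ => R_ind_le (mul_nonneg (by positivity)
    (hs_nonneg (fun i => ?_) ?_ _)) fun e => ?_
  · have g := hF.good κ0.le h.κ2
      (c := fun p => κ * (1 / 2) ^ (4 * b ^ 2) * val (ξ ⟨⟨b ^ 2, h2⟩, p⟩)) (fun p => by
        rw [abs_mul, abs_of_nonneg (by positivity)]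
        exact mul_le_of_le_one_right (by positivity) (hL.bd _)) (j := i + 1) i.2
    exact ⟨g.1, g.2.1⟩
  · exact ⟨(tk_cp _).1.sub (tk_cp _).1, fun x => by simp only [(tk_cp _).2 x]⟩
  · rw [← div_eq_inv_mul, one_le_div p0]
    exact le_of_lt e.2

theorem allQ (h : D.H m₀ κ η) {c : R_I k M → ℝ} (hc : Adm k M m₀ κ c)
    (hB : ∀ m, 6 * m₀ + 5 < m → m < M → ¬(R_Q m₀ (m / 6) (D.pl c (m / 6) (R_wo (m / 6) c)) ∧
      Viol 2000 (D.pl c (m / 6) c) (21 / 2 ^ m) (R_Mn m₀ m))) (m : ℕ) (h1 : m₀ ≤ m) (h2 : m < M) :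
    R_Q m₀ m (D.pl c m (R_wo m c)) := by
  have κ0 := h.κ0
  have κ3 := h.κ3
  have h12 := h.m12
  have k1 := h.k1
  induction m using Nat.strong_induction_on with
  | _ m ih =>
  by_cases hm : m ≤ 6 * m₀ + 5
  · refine base_sparse (κ := κ) (η := η) (h.hS _) (by linarith) (fun i hi x => ?_) ?_ ?_ ?_
    · obtain ⟨s, s1, s2, e, -, hs, -⟩ := (h.good _ (R_adm_wo hc m) i hi).2
      rw [e, add_sub_cancel_left]
      exact (hs x).1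
    · rw [le_div_iff₀ (by positivity)]
      nlinarith [h.η1, h.κ1]
    · have := h.kn h1
      rw [one_div_pow] at this
      rw [le_div_iff₀ (by positivity), div_eq_mul_one_div 20]
      have : (0 : ℝ) ≤ k * (1 / 2 ^ m) := by positivity
      nlinarith
    · have := R_Mn_base hm
      omega
  · refine fun hV => hB m (by omega) h2 ⟨ih (m / 6) (by omega) (by omega) (by omega),
      hV.mono (d := 1 / 2 ^ m) (fun i x => ?_) (le_of_eq (by ring)) le_rfl⟩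
    have h3 := h.closeP c (show m / 6 ≤ m by omega) (R_adm_wo hc m) hc m
      (fun j hj => if_neg hj.ne) i x
    have h4 := R_half_le (show m / 6 + m ≤ 8 * (m / 6) by omega)
    have h5 := R_half_le (show m ≤ 4 * m by omega)
    have h6 := h.kn (show m₀ ≤ m / 6 by omega)
    rw [pow_add] at h4
    rw [abs_sub_comm, ← one_div_pow]
    have h7 : (0 : ℝ) < (1 / 2) ^ m := by positivity
    have h8 := mul_le_mul_of_nonneg_left h4 (show (0 : ℝ) ≤ 6 * k by positivity)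
    have h9 := mul_le_mul_of_nonneg_left h5 (show (0 : ℝ) ≤ 60 * k * κ by positivity)
    have h10 := mul_le_mul_of_nonneg_right h6 h7.le
    have h11 := mul_le_mul_of_nonneg_right h.κ1 h7.le
    linarith

theorem expP (h : D.H m₀ κ η) {c : R_I k M → ℝ} (hc : Adm k M m₀ κ c) {β : ℝ} (β1 : β ≤ 1)
    (hβ : 8000 * k * κ ≤ β) {c' : ℕ} (hc1 : 1 ≤ c') (hc' : c' ≤ m₀)
    (hG : ∀ b, 6 * m₀ + 5 ≤ b → b ^ 2 < M → ¬R_T (β / 4000) c' b (D.pl c (b ^ 2) c)) {m : ℕ}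
    (h1 : 3 * (6 * m₀ + 5) ^ 2 ≤ m) (h2 : m < M) :
    EXP (2 ^ (4 * m)) ((1 / 2) ^ (3 * (3 * (6 * m₀ + 5) ^ 2))) β (D.pl c m (R_tru m c)) := by
  have κ0 := h.κ0
  have h12 := h.m12
  have k1 := h.k1
  have β2 : 8000 * κ ≤ β := by nlinarith
  have β0 : 0 < β := by linarith
  have m1 := h.m1
  have q1 : 6 * m₀ + 5 ≤ Nat.sqrt m := Nat.le_sqrt'.2 (by omega)
  obtain ⟨J, hJ⟩ : ∃ J, Nat.sqrt m = 6 * m₀ + 4 + J := ⟨Nat.sqrt m - (6 * m₀ + 4), by omega⟩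
  have q2 : ∀ j, j ≤ J → (6 * m₀ + 4 + j) ^ 2 ≤ m := fun j hj => Nat.le_sqrt'.1 (by omega)
  have q3 : m < (6 * m₀ + 4 + (J + 1)) ^ 2 := by
    have := Nat.lt_succ_sqrt' m
    rwa [hJ] at this
  have q4 : ∀ j, (1 / 2 : ℝ) ^ (7 * (6 * m₀ + 4 + j) ^ 2) ≤ 1 / 8 := fun j =>
    (R_half_le (show 3 ≤ _ by
      have := Nat.pow_le_pow_left (show 1 ≤ 6 * m₀ + 4 + j by omega) 2
      omega)).trans (by norm_num)
  have key : EXP (2 ^ (4 * m)) ((1 / 2) ^ (3 * (3 * (6 * m₀ + 5) ^ 2))) (β / 2) (D.pl c m c) := by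
    refine exp_of_gap (κ := 4 * k * κ) (ρ := 2 * (β / 4000)) h.hk (by linarith) (by linarith) J
      (fun j => (1 / 2) ^ (7 * (6 * m₀ + 4 + j) ^ 2)) (fun j => (1 / 2) ^ (6 * m₀ + 4 + j)) _
      (fun j => D.pl c ((6 * m₀ + 4 + j) ^ 2) c) (fun j => by positivity) (q4 0) (fun j _ => ?_) ?_
      (h.goodP c m hc) (fun j _ _ => h.goodP c _ hc) (by linarith) (by linarith) (by linarith)
      (fun j j1 j2 i x => ?_) (fun j j1 j2 => ?_) ?_ ?_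
    · rw [← pow_add]
      exact R_half_le (by nlinarith)
    · have := R_geom (6 * m₀ + 4) (J + 2)
      have := R_half_le (show m₀ ≤ 6 * m₀ + 4 by omega)
      linarith
    · have h3 := h.closeP_st c (q2 j j2) hc i x
      have h4 := R_half_le (show 6 * m₀ + 4 + j + (6 * m₀ + 4 + j + 7 * (6 * m₀ + 4 + (j + 1)) ^ 2)
        ≤ 8 * (6 * m₀ + 4 + j) ^ 2 by nlinarith)
      have h6 := h.kn (show m₀ ≤ 6 * m₀ + 4 + j by omega)
      rw [pow_add] at h4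
      rw [abs_sub_comm, ← pow_add]
      have h7 : (0 : ℝ) < (1 / 2) ^ (6 * m₀ + 4 + j + 7 * (6 * m₀ + 4 + (j + 1)) ^ 2) := by
        positivity
      have h8 := mul_le_mul_of_nonneg_left h4 (show (0 : ℝ) ≤ 6 * k by positivity)
      have h10 := mul_le_mul_of_nonneg_right h6 h7.le
      linarith
    · refine gap_of_hs h.hk (fun i => ⟨(h.goodP c _ hc i).1, (h.goodP c _ hc i).2.1⟩)
        (by positivity) ((q4 _).trans (by norm_num)) (by positivity) ((q4 _).trans (by norm_num))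
        (m := (6 * m₀ + 4 + j) ^ 2 / c') ((Nat.le_div_iff_mul_le hc1).2 (by nlinarith))
        (by linarith) (not_lt.1 (hG (6 * m₀ + 4 + j) (by omega) ((q2 j j2).trans_lt h2)))
    · have h4 := R_half_le (show m₀ + 7 * (6 * m₀ + 4 + 1) ^ 2 ≤ 3 * (3 * (6 * m₀ + 5) ^ 2) by
        nlinarith)
      rw [pow_add] at h4
      exact h4.trans (mul_le_mul_of_nonneg_right (by linarith) (by positivity))
    · have h4 := R_half_le (show 4 * m + m₀ ≤ 7 * (6 * m₀ + 4 + (J + 1)) ^ 2 by nlinarith)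
      refine (mul_le_mul_of_nonneg_left h4 (by positivity)).trans ?_
      rw [pow_add, ← mul_assoc, ← mul_pow]
      norm_num
      linarith
  refine R_exp_mono (key.perturb h.hk (fun i => (h.goodP c m hc i).1)
    (fun i => (h.goodP c m (R_adm_tru hc m) i).1) (by positivity) (by positivity)
    (h.closeP_same c m (R_adm_tru hc m) hc m fun j hj => if_pos hj)) ?_
  rw [mul_left_comm, ← mul_pow]
  norm_num
  nlinarith

end R_D.H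

theorem R_geom' {a M : ℕ} {s : Finset ℕ} (h : s ⊆ Ico a M) :
    ∑ m ∈ s, (1 / 2 : ℝ) ^ m ≤ 2 * (1 / 2) ^ a := by
  refine (sum_le_sum_of_subset_of_nonneg h fun _ _ _ => by positivity).trans ?_
  rw [sum_Ico_eq_sum_range]
  exact R_geom _ _

theorem R_union {ι V : Type} [Fintype ι] [DecidableEq ι] [Fintype V] {w : V → ℝ}
    (hw : ∀ v, 0 ≤ w v) (hs : ∑ v, w v = 1) {M : ℕ} {s t : Finset ℕ} (h1 : s ⊆ Ico 3 M)
    (h2 : t ⊆ Ico 3 M) (p q : ℕ → (ι → V) → Prop)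
    (hp : ∀ m ∈ s, Ex w (fun ω => R_ind (p m ω)) ≤ (1 / 2) ^ m)
    (hq : ∀ m ∈ t, Ex w (fun ω => R_ind (q m ω)) ≤ (1 / 2) ^ m) :
    ∃ ω, (∀ m ∈ s, ¬p m ω) ∧ ∀ m ∈ t, ¬q m ω := by
  have h3 : Ex w (fun ω => ∑ m ∈ s, R_ind (p m ω) + ∑ m ∈ t, R_ind (q m ω)) < 1 := by
    rw [Ex_add, Ex_sum s fun m ω => R_ind (p m ω), Ex_sum t fun m ω => R_ind (q m ω)]
    have a1 := (sum_le_sum hp).trans (R_geom' h1)
    have a2 := (sum_le_sum hq).trans (R_geom' h2)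
    linarith
  obtain ⟨ω, hω⟩ := exists_lt_of_Ex hw hs h3
  have b1 : 0 ≤ ∑ m ∈ s, R_ind (p m ω) := sum_nonneg fun _ _ => R_ind_nonneg _
  have b2 : 0 ≤ ∑ m ∈ t, R_ind (q m ω) := sum_nonneg fun _ _ => R_ind_nonneg _
  refine ⟨ω, fun m hm e => ?_, fun m hm e => ?_⟩
  · have := single_le_sum (f := fun m => R_ind (p m ω)) (fun _ _ => R_ind_nonneg _) hm
    rw [R_ind_one e] at this
    linarith
  · have := single_le_sum (f := fun m => R_ind (q m ω)) (fun _ _ => R_ind_nonneg _) hm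
    rw [R_ind_one e] at this
    linarith

theorem rside (β c : ℝ) (hβ : 0 < β) (hc : 0 < c) : ∃ (k : ℕ) (κ₀ C : ℝ) (M₀ N₀ : ℕ), 0 < k ∧
    0 < κ₀ ∧ 1 ≤ C ∧ ∀ m₀ : ℕ, M₀ ≤ m₀ → ∃ mg : ℕ, m₀ ≤ mg ∧ mg ≤ N₀ * m₀ ^ 2 ∧
      ∀ (ms : ℕ) (St : Type) (S : St → ℕ → Equiv.Perm ℝ)
        (nx : ℕ → St → (Fin k → Equiv.Perm ℝ) → St) (st₀ : St),
        (∀ s i, i < k → Good κ₀ (S s i)) →
        (∀ m s P i, i < k → ∀ x, |S (nx m s P) i x - S s i x| ≤ (1 / 2) ^ (8 * m)) →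
        ∃ (u : ℕ → ℕ → Equiv.Perm ℝ) (st : ℕ → St), st 0 = st₀ ∧
          (∀ m, st (m + 1) = nx m (st m) (PL k (S (st m)) (u m))) ∧
          (∀ m, mg ≤ m → m ≤ ms →
            EXP (2 ^ (4 * m)) ((1 / 2) ^ (3 * mg)) β (PL k (S (st m)) (u m))) ∧
          (∀ m i, Good (1 / 100) (PL k (S (st m)) (u m) i)) ∧
          (∀ m, mg ≤ m → ∀ i x, |PL k (S (st (m + 1))) (u (m + 1)) i x - PL k (S (st m)) (u m) i x|
            ≤ c * (1 / 2) ^ (4 * m)) ∧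
          ∀ m i, i < k → Smu (C * (1 / 2) ^ m₀) (1 / (2 * k)) (u m i) := by
  obtain ⟨C₀, hC₀, hmaps⟩ := exists_maps
  obtain ⟨β', β0, β1, β2⟩ : ∃ β' : ℝ, 0 < β' ∧ β' ≤ 1 ∧ β' ≤ β :=
    ⟨min β 1, lt_min hβ one_pos, min_le_right _ _, min_le_left _ _⟩
  obtain ⟨c', hc2, hρ⟩ : ∃ c' : ℕ, 2 ≤ c' ∧ exp 1 ≤ 2 ^ c' * (β' / 4000) ^ 4 := by
    obtain ⟨n, hn⟩ := pow_unbounded_of_one_lt (exp 1 / (β' / 4000) ^ 4) (show (1 : ℝ) < 2 by norm_num)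
    rw [div_lt_iff₀ (by positivity)] at hn
    exact ⟨n + 2, by omega, hn.le.trans (mul_le_mul_of_nonneg_right
      (pow_le_pow_right₀ (by norm_num) (by omega)) (by positivity))⟩
  obtain ⟨k₀, hk₀⟩ := walk_count 2000 ((1 / 2) ^ (12 * c')) (by positivity)
  obtain ⟨k, hk, hW⟩ : ∃ k, 0 < k ∧ R_W k c' := ⟨k₀ + 1, by omega, hk₀ _ (by omega)⟩
  have k1 : (1 : ℝ) ≤ k := by exact_mod_cast hk
  obtain ⟨κ, κ0, κ1, κ2⟩ : ∃ κ : ℝ, 0 < κ ∧ 8000 * k * κ ≤ β' ∧ 8000 * k * κ ≤ c := by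
    have := lt_min β0 hc
    refine ⟨min β' c / (8000 * k), by positivity, ?_, ?_⟩ <;>
      rw [mul_div_cancel₀ _ (by positivity)]
    exacts [min_le_left _ _, min_le_right _ _]
  have κ3 : κ ≤ 1 := by nlinarith
  obtain ⟨M₁, hM₁⟩ := R_large (10 ^ 13 * k) (pow_pos κ0 3)
  obtain ⟨M₂, hM₂⟩ := R_large C₀ κ0
  refine ⟨k, κ, C₀, M₁ + M₂ + c' + 3, 400, hk, κ0, hC₀, fun m₀ hm₀ =>
    ⟨3 * (6 * m₀ + 5) ^ 2, by nlinarith, by nlinarith, fun ms St S nx st₀ hS hn => ?_⟩⟩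
  have η1 : C₀ * (1 / 2) ^ m₀ ≤ κ := by
    have h1 := hM₂ m₀ (by omega)
    have h2 : (1 : ℝ) ≤ (m₀ : ℝ) ^ 4 := one_le_pow₀ (by exact_mod_cast (by omega : 1 ≤ m₀))
    rw [one_div_pow, mul_one_div, div_le_iff₀ (by positivity)]
    nlinarith
  obtain ⟨uu, u1, u2, u3⟩ := hmaps k (ms + 1) m₀ κ κ hk (by omega) κ0.le κ3 η1 κ3
  obtain ⟨G, w, val, hL⟩ := exists_law ((1 / 2) ^ (20 * (ms + 1))) (by positivity)
  let D : R_D k (ms + 1) St := ⟨uu, S, nx, st₀⟩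
  have h : D.H m₀ κ (C₀ * (1 / 2) ^ m₀) := ⟨hk, κ0, by linarith, η1,
    (le_mul_of_one_le_left (by positivity) hC₀).trans η1, u1, u2, u3, hS, hn⟩
  have hb : ∀ n : ℕ, m₀ ≤ n → 10 ^ 13 * (k : ℝ) * (n : ℝ) ^ 4 ≤ κ ^ 3 * 2 ^ n :=
    fun n hn => hM₁ n (by omega)
  obtain ⟨ω, hQ, hG⟩ := R_union hL.nonneg hL.sum (M := ms + 1) (s := Ioo (6 * m₀ + 5) (ms + 1))
    (t := (Ico (6 * m₀ + 5) (ms + 1)).filter fun b => b ^ 2 < ms + 1)
    (fun m hm => by rw [mem_Ioo] at hm; rw [mem_Ico]; omega)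
    (fun m hm => by rw [mem_filter, mem_Ico] at hm; rw [mem_Ico]; omega) _ _
    (fun m hm => h.probQ hL hb (mem_Ioo.1 hm).1 (mem_Ioo.1 hm).2)
    (fun b hb' => h.probG hL hb (ρ := β' / 4000) (by positivity) hc2 (by omega) hρ hW
      (mem_Ico.1 (mem_filter.1 hb').1).1 (mem_filter.1 hb').2)
  have hA := R_adm_cf (k := k) (M := ms + 1) (m₀ := m₀) κ0.le hL.bd ω
  set cf := R_cf m₀ κ val ω
  have hQ' := h.allQ hA fun m h1 h2 => hQ m (mem_Ioo.2 ⟨h1, h2⟩)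
  refine ⟨fun m => uu (R_tru m cf), D.st cf, rfl, fun m => rfl, fun m h1 h2 => ?_,
    fun m i => h.goodP' cf m (R_adm_tru hA m) i, fun m hm i x => ?_,
    fun m i hi => (u1 _ (R_adm_tru hA m) i hi).2⟩
  · refine R_exp_mono (h.expP hA β1 κ1 (c' := c') (by omega) (by omega) (fun b b1 b2 hT => ?_) h1
      (by omega)) β2
    have hbb : b ≤ b ^ 2 := by nlinarith
    exact hG b (mem_filter.2 ⟨mem_Ico.2 ⟨b1, by omega⟩, b2⟩) ⟨hQ' _ (by omega) b2, hT⟩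
  · have h3 := h.closeP cf (Nat.le_succ m) (R_adm_tru hA (m + 1)) (R_adm_tru hA m) m
      (fun j hj => by rw [R_tru, R_tru, if_pos hj, if_pos (by omega)]) i x
    have h4 := R_half_le (show m₀ + 4 * m ≤ 8 * m by nlinarith)
    rw [pow_add] at h4
    have h7 : (0 : ℝ) < (1 / 2) ^ (4 * m) := by positivity
    have h5 := mul_le_mul_of_nonneg_right h.m1 h7.le
    have h8 := mul_le_mul_of_nonneg_left (h4.trans h5) (show (0 : ℝ) ≤ 6 * k by positivity)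
    have h9 := mul_le_mul_of_nonneg_right κ2 h7.le
    have h10 : (0 : ℝ) ≤ k * κ * (1 / 2) ^ (4 * m) := by positivity
    refine le_trans h3 ?_
    linarith

end Pool.Agent.P.MP_0354a7_al
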