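import Pool.Agent.P.MP_0354a7_al.PF.Sside
import Pool.Agent.P.MP_0354a7_al.PF.Rside
import Pool.Agent.P.MP_0354a7_al.PF.Moves

/-!
One block of moves divides the nonlinearity by eight.
-/

namespace Pool.Agent.P.MP_0354a7_al

open Real Finset

theorem B_mono {ε ε' : ℝ} {n : ℕ} {F F' : Equiv.Perm ℝ} (h : Links ε n F F') (hε : ε ≤ ε') :
    Links ε' n F F' := by
  obtain ⟨G, h0, h1, h2⟩ := h
  refine ⟨G, h0, h1, fun j hj => (h2 j hj).imp fun τ h => ⟨h.1, h.2.1, ?_⟩⟩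
  obtain ⟨A, G, k, s, s1, s2, h1, h2, h3, h4, h5, h6, h7, h8, h9, h10, h11, hb⟩ := h.2.2
  refine ⟨A, G, k, s, s1, s2, h1, h2, h3, h4, h5, h6, h7, h8, h9, h10, h11, fun x => ?_⟩
  obtain ⟨b1, b2, b3, b4, b5, b6, b7⟩ := hb x
  exact ⟨b1.trans hε, b2.trans hε, b3.trans hε, b4.trans hε, b5.trans hε, b6.trans hε, b7⟩

theorem B_c2p {ε I : ℝ} {F : Equiv.Perm ℝ} (h : Good ε F) (e1 : ε ≤ 1 / 2) (I0 : 0 ≤ I)
    (hI : (∫ x in (0 : ℝ)..1, nl F x ^ 2) ≤ I ^ 2) :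
    ∃ p1 p2, C2P (fun x => F x - x) p1 p2 ∧ (∀ x, |p2 x| ≤ 2 * ε) ∧
      (∫ x in (0 : ℝ)..1, |p2 x|) ≤ 2 * I := by
  have c1 := (cp_ph h.1 h.2.1).1
  have c2 := (cp_nl h.1 h.2.1).1
  have b : ∀ x, |exp (ph F x) * nl F x| ≤ 2 * |nl F x| := fun x =>
    A2_mul (A2_abs_exp ((h.ph_le x).trans e1)) (by rw [abs_abs]) |>.trans' (by simp [abs_mul])
  refine ⟨fun x => exp (ph F x) - 1, fun x => exp (ph F x) * nl F x,
    ⟨fun x => (h.1.d1 x).sub (hasDerivAt_id x), fun x => (h.1.d2 x).exp.sub_const 1, by fun_prop,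
      fun x => by simp only [h.2.1 x]; ring⟩, fun x => by linarith [b x, h.2.2 x], ?_⟩
  have a1 := cs_int (f := fun x => |nl F x|) (g := fun _ => 1) c2.abs continuous_const
  simp only [mul_one, sq_abs (nl F _), one_pow, intervalIntegral.integral_const, sub_zero,
    smul_eq_mul] at a1
  have a2 := abs_le_of_sq_le_sq' (a1.trans hI) I0
  refine (intervalIntegral.integral_mono_on zero_le_one (Continuous.intervalIntegrable (by fun_prop) _ _)
    (Continuous.intervalIntegrable (by fun_prop) _ _) fun x _ => b x).trans ?_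
  rw [intervalIntegral.integral_const_mul]
  linarith [a2.2]

theorem block : ∃ (k : ℕ) (C : ℝ) (M₀ N₀ : ℕ), 1 ≤ C ∧ ∀ (m₀ : ℕ) (ε D : ℝ) (F : Equiv.Perm ℝ),
    M₀ ≤ m₀ → 0 < ε → Good ε F → C * ε ≤ 1 → (∀ x, |F x - x| ≤ D) → D ≤ 1 / 2 →
    (∫ x in (0 : ℝ)..1, nl F x ^ 2) ≤ (ε * (1 / 2) ^ (N₀ * m₀ ^ 2)) ^ 2 →
    ∃ F', Links (C * (ε + (1 / 2) ^ m₀)) k F F' ∧ Good (ε / 8) F' ∧
      ∀ x, |F' x - x| ≤ D + C * ε := by
  classical
  obtain ⟨β, c, Cs, M₁, β0, c0, Cs1, hs⟩ := sside (1 / 100) (by norm_num)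
  obtain ⟨k, κ₀, Cr, M₀, N₀, hk, κ0, Cr1, hr⟩ := rside β c β0 c0
  obtain ⟨Cb, Cb1, hb⟩ := block_links
  have k1 : (1 : ℝ) ≤ k := by exact_mod_cast hk
  have k0 : (0 : ℝ) < k := by linarith
  have K1 : 1 ≤ Cb * k := one_le_mul_of_one_le_of_one_le Cb1 k1
  have K2 : Cb ≤ Cb * k := le_mul_of_one_le_right (by linarith) k1
  have K3 : Cs ≤ Cs * Cs := le_mul_of_one_le_right (by linarith) Cs1
  have K4 : 0 < 8 * Cs / κ₀ := by positivity
  have K5 : Cb * k * Cs ≤ Cb * k * (Cs * Cs) := mul_le_mul_of_nonneg_left K3 (by linarith)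
  have K6 : Cb * Cs ≤ Cb * k * Cs := mul_le_mul_of_nonneg_right K2 (by linarith)
  have K7 : Cs ≤ Cb * Cs := le_mul_of_one_le_left (by linarith) Cb1
  have K8 : 0 < Cb * Cr := by positivity
  obtain ⟨M₂, hM₂⟩ := exists_pow_lt_of_lt_one
    (show 0 < 1 / (100 * (Cb * k * Cs * Cr)) by positivity) (show (1 / 2 : ℝ) < 1 by norm_num)
  refine ⟨k, 100 * (Cb * k * (Cs * Cs)) + Cb * Cr + 8 * Cs / κ₀, max (max M₀ M₁) M₂, 5 * N₀,
    by linarith, fun m₀ ε D F hm e0 hF hC hD hD2 hI => ?_⟩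
  have Hm : ∀ {m m' : ℕ}, m ≤ m' → (1 / 2 : ℝ) ^ m' ≤ (1 / 2) ^ m := fun h =>
    pow_le_pow_of_le_one (by norm_num) (by norm_num) h
  have H0 : (0 : ℝ) < (1 / 2) ^ m₀ := by positivity
  have E1 : 100 * (Cb * k * (Cs * Cs)) * ε ≤ 1 := by nlinarith [mul_pos K8 e0, mul_pos K4 e0]
  have E2 : 8 * Cs * ε ≤ κ₀ := by
    have : 8 * Cs / κ₀ * ε ≤ 1 := by
      nlinarith [mul_pos K8 e0, mul_pos (show 0 < Cb * k * (Cs * Cs) by positivity) e0]
    rwa [div_mul_eq_mul_div, div_le_one κ0] at this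
  have E3 : 100 * (Cb * k * Cs) * ε ≤ 1 := by nlinarith
  have E4 : 100 * Cs * ε ≤ 1 := by nlinarith
  have E5 : ε ≤ Cs * ε := le_mul_of_one_le_left e0.le Cs1
  have E6 : (1 / 2 : ℝ) ^ m₀ * (100 * (Cb * k * Cs * Cr)) ≤ 1 := by
    rw [← le_div_iff₀ (by positivity)]
    exact (Hm (by omega)).trans hM₂.le
  have E7 : Cb * k * (Cr * (1 / 2) ^ m₀) ≤ Cb * k * (Cr * (1 / 2) ^ m₀) * Cs :=
    le_mul_of_one_le_right (by positivity) Cs1
  obtain ⟨mg, hmg, hmg', hr⟩ := hr m₀ (by omega)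
  obtain ⟨p1, p2, hp, h2, hI'⟩ := B_c2p hF (by linarith) (by positivity) hI
  obtain ⟨St, q, q1, q2, b, b1, b2, Inv, st₀, ms, hms, hbc, hb2, hq, hsum, hin, hst, hfin⟩ :=
    hs k mg (2 * ε) _ p1 p2 hk (by omega) (by linarith) (by linarith) hp h2 (hI'.trans (by
      rw [← mul_assoc]
      exact mul_le_mul_of_nonneg_left (Hm (by rw [mul_assoc]; omega)) (by linarith)))
  have hS : ∀ s i, ∃ e : Equiv.Perm ℝ, i ≤ k →
      (∀ x, e x = x + b x + ∑ j ∈ range i, q s j x) ∧ Good κ₀ e := fun s i => by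
    by_cases hi : i ≤ k
    · have cp := A2_c2p hbc i fun j hj => (hq s j (by omega)).1
      have a2 : ∀ x, |b2 x + ∑ j ∈ range i, q2 s j x| ≤ 4 * Cs * ε := fun x => by
        have a3 := A2_sum (range i) fun j hj => ((hq s j (by have := mem_range.1 hj; omega)).2 x).2
        have a4 : (i : ℝ) * (Cs * (2 * ε) / k) ≤ k * (Cs * (2 * ε) / k) :=
          mul_le_mul_of_nonneg_right (by exact_mod_cast hi) (by positivity)
        rw [card_range] at a3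
        rw [mul_div_cancel₀ _ k0.ne'] at a4
        linarith [abs_add_le (b2 x) (∑ j ∈ range i, q2 s j x), hb2 x]
      have a1 := fun x => (cp.d1_le a2 x).trans (show _ ≤ 1 / 2 by linarith)
      obtain ⟨e, he, -⟩ := exists_perm cp.1 cp.2.1 cp.2.2.1 a1
      have r := A2_reg (e := e) (c := 0) cp (fun x => by rw [he]; ring) a1
      exact ⟨e, fun _ => ⟨fun x => by rw [he]; ring, r.1, r.2.1, fun x => by
        rw [r.2.2]; linarith [A2_div (a1 x) (a2 x)]⟩⟩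
    · exact ⟨1, fun h => (hi h).elim⟩
  choose S hS using hS
  have hn : ∀ m s P, ∃ s', (∀ i, i < k → ∀ x, |q s' i x - q s i x| ≤ (1 / 2) ^ (8 * m) / k) ∧
      (m < mg → s' = s) ∧ (mg ≤ m → Inv m s P → (∀ i, Good (1 / 100) (P i)) →
        EXP (2 ^ (4 * m)) ((1 / 2) ^ (3 * mg)) β P →
        ∀ P' : Fin k → Equiv.Perm ℝ, (∀ i x, |P' i x - P i x| ≤ c * (1 / 2) ^ (4 * m)) →
          Inv (m + 1) s' P') := fun m s P => by
    by_cases h : mg ≤ m ∧ Inv m s P ∧ (∀ i, Good (1 / 100) (P i)) ∧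
      EXP (2 ^ (4 * m)) ((1 / 2) ^ (3 * mg)) β P
    · obtain ⟨s', h1, h3⟩ := hst m s P h.1 h.2.1 h.2.2.1 h.2.2.2
      exact ⟨s', h1, fun h' => by omega, fun _ _ _ _ => h3⟩
    · exact ⟨s, fun i _ x => by rw [sub_self, abs_zero]; positivity, fun _ => rfl,
        fun a1 a2 a3 a4 => (h ⟨a1, a2, a3, a4⟩).elim⟩
  choose nx n1 n2 n3 using hn
  obtain ⟨u, st, s0, s1, s2, s3, s4, s5⟩ := hr ms St S nx st₀ (fun s i hi => (hS s i hi.le).2)
    fun m s P i hi x => by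
      rw [(hS _ i hi.le).1, (hS _ i hi.le).1, add_sub_add_left_eq_sub, ← sum_sub_distrib]
      refine (A2_sum (range i) fun j hj => n1 m s P j (by have := mem_range.1 hj; omega) x).trans ?_
      rw [card_range, ← mul_div_assoc, div_le_iff₀ k0, mul_comm]
      exact mul_le_mul_of_nonneg_left (by exact_mod_cast hi.le) (by positivity)
  have i0 : ∀ m, m ≤ mg → st m = st₀ := fun m => by
    induction m with
    | zero => exact fun _ => s0
    | succ m ih => exact fun h => by rw [s1, n2 _ _ _ (by omega), ih (by omega)]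
  have i1 : ∀ m, mg ≤ m → m ≤ ms → Inv m (st m) (PL k (S (st m)) (u m)) := fun m h => by
    induction m, h using Nat.le_induction with
    | base => exact fun _ => by rw [i0 mg le_rfl]; exact hin _
    | succ m h ih =>
      intro h'
      have := n3 m _ _ h (ih (by omega)) (s3 m) (s2 m h (by omega)) _ (s4 m h)
      rwa [← s1] at this
  have eF : S (st ms) k = F := Equiv.ext fun x => by
    rw [(hS _ k le_rfl).1, add_assoc, hsum]; ring
  obtain ⟨F', f1, f2, f3⟩ := hb k (Cs * (2 * ε)) (Cr * (1 / 2) ^ m₀) (1 / 100 * (2 * ε)) (1 / (2 * k)) D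
    (S (st ms)) (u ms) b b1 b2 (q (st ms)) (q1 (st ms)) (q2 (st ms)) hk (by nlinarith) (by positivity)
    (by rw [div_le_one (by positivity)]; linarith) hD2 (by linarith) hbc hb2 (hq _)
    (fun i hi => (hS _ i hi).1) (s5 ms) (eF ▸ hD) (hfin _ _ (i1 ms hms le_rfl))
  rw [eF] at f1
  refine ⟨F', B_mono f1 ?_, f2.mono ?_, fun x => (f3 x).trans ?_⟩
  · nlinarith [mul_pos K8 e0, mul_pos K4 e0, mul_pos K4 H0, mul_le_mul_of_nonneg_right (K6.trans K5) e0.le,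
      mul_pos (show 0 < Cb * k * (Cs * Cs) by positivity) H0,
      mul_pos (show 0 < Cb * k * (Cs * Cs) by positivity) e0]
  · nlinarith [mul_le_mul_of_nonneg_left E1 e0.le, mul_le_mul_of_nonneg_left E6 e0.le]
  · nlinarith [mul_pos K8 e0, mul_pos K4 e0, mul_le_mul_of_nonneg_right (K6.trans K5) e0.le,
      mul_pos (show 0 < Cb * k * (Cs * Cs) by positivity) e0]

end Pool.Agent.P.MP_0354a7_al
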