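import Pool.Agent.P.MP_0354a7_al.PF.Defs

/-!
Bumps with controlled logarithmic derivatives, box averages, and the update of the shares.
-/

namespace Pool.Agent.P.MP_0354a7_al

open Real Finset

theorem C2P.add {f f1 f2 g g1 g2 : ℝ → ℝ} (h : C2P f f1 f2) (h' : C2P g g1 g2) :
    C2P (fun x => f x + g x) (fun x => f1 x + g1 x) fun x => f2 x + g2 x :=
  ⟨fun x => (h.1 x).add (h'.1 x), fun x => (h.2.1 x).add (h'.2.1 x), h.2.2.1.add h'.2.2.1,
    fun x => by simp only [h.2.2.2 x, h'.2.2.2 x]⟩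

theorem C2P.sub {f f1 f2 g g1 g2 : ℝ → ℝ} (h : C2P f f1 f2) (h' : C2P g g1 g2) :
    C2P (fun x => f x - g x) (fun x => f1 x - g1 x) fun x => f2 x - g2 x :=
  ⟨fun x => (h.1 x).sub (h'.1 x), fun x => (h.2.1 x).sub (h'.2.1 x), h.2.2.1.sub h'.2.2.1,
    fun x => by simp only [h.2.2.2 x, h'.2.2.2 x]⟩

theorem C2P.mul {f f1 f2 g g1 g2 : ℝ → ℝ} (h : C2P f f1 f2) (h' : C2P g g1 g2) :
    C2P (fun x => f x * g x) (fun x => f1 x * g x + f x * g1 x)
      fun x => f2 x * g x + 2 * (f1 x * g1 x) + f x * g2 x := by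
  refine ⟨fun x => (h.1 x).mul (h'.1 x), fun x => ?_, ?_, fun x => by simp only [h.2.2.2 x, h'.2.2.2 x]⟩
  · exact (((h.2.1 x).fun_mul (h'.1 x)).fun_add ((h.1 x).fun_mul (h'.2.1 x))).congr_deriv (by ring)
  · have := h.cp0.1; have := h.cp1.1; have := h.cp2.1
    have := h'.cp0.1; have := h'.cp1.1; have := h'.cp2.1
    fun_prop

theorem C2P.div {f f1 f2 : ℝ → ℝ} (h : C2P f f1 f2) (c : ℝ) :
    C2P (fun x => f x / c) (fun x => f1 x / c) fun x => f2 x / c :=
  ⟨fun x => (h.1 x).div_const c, fun x => (h.2.1 x).div_const c, h.2.2.1.div_const c,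
    fun x => by simp only [h.2.2.2 x]⟩

theorem C2P.sum {α : Type} (s : Finset α) {f f1 f2 : α → ℝ → ℝ} (h : ∀ a, C2P (f a) (f1 a) (f2 a)) :
    C2P (fun x => ∑ a ∈ s, f a x) (fun x => ∑ a ∈ s, f1 a x) fun x => ∑ a ∈ s, f2 a x :=
  ⟨fun x => HasDerivAt.fun_sum fun a _ => (h a).1 x, fun x => HasDerivAt.fun_sum fun a _ => (h a).2.1 x,
    continuous_finsetSum _ fun a _ => (h a).2.2.1, fun x => sum_congr rfl fun a _ => (h a).2.2.2 x⟩

theorem C2P.expn {f f1 f2 : ℝ → ℝ} (h : C2P f f1 f2) :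
    C2P (fun x => exp (-f x)) (fun x => -f1 x * exp (-f x)) fun x => (f1 x ^ 2 - f2 x) * exp (-f x) := by
  have d : ∀ x, HasDerivAt (fun x => exp (-f x)) (-f1 x * exp (-f x)) x := fun x =>
    (h.1 x).fun_neg.exp.congr_deriv (by ring)
  refine ⟨d, fun x => ?_, ?_, fun x => by simp only [h.2.2.2 x]⟩
  · exact ((h.2.1 x).fun_neg.fun_mul (d x)).congr_deriv (by ring)
  · have := h.cp0.1; have := h.cp1.1; have := h.cp2.1
    fun_prop

/-- A nonnegative function with bounded logarithmic derivatives. -/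
structure Tame (a b : ℝ) (f f1 f2 : ℝ → ℝ) : Prop where
  c : C2P f f1 f2
  nn : ∀ x, 0 ≤ f x
  d1 : ∀ x, |f1 x| ≤ a * f x
  d2 : ∀ x, |f2 x| ≤ b * f x

theorem Tame.zero (a b : ℝ) : Tame a b (fun _ => 0) (fun _ => 0) fun _ => 0 :=
  ⟨⟨fun x => hasDerivAt_const x 0, fun x => hasDerivAt_const x 0, continuous_const, fun _ => rfl⟩,
    fun _ => le_rfl, fun _ => by simp, fun _ => by simp⟩

theorem Tame.mono {a b a' b' : ℝ} {f f1 f2 : ℝ → ℝ} (h : Tame a b f f1 f2) (ha : a ≤ a')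
    (hb : b ≤ b') : Tame a' b' f f1 f2 :=
  ⟨h.c, h.nn, fun x => (h.d1 x).trans (mul_le_mul_of_nonneg_right ha (h.nn x)),
    fun x => (h.d2 x).trans (mul_le_mul_of_nonneg_right hb (h.nn x))⟩

theorem Tame.add {a b : ℝ} {f f1 f2 g g1 g2 : ℝ → ℝ} (h : Tame a b f f1 f2) (h' : Tame a b g g1 g2) :
    Tame a b (fun x => f x + g x) (fun x => f1 x + g1 x) fun x => f2 x + g2 x :=
  ⟨h.c.add h'.c, fun x => add_nonneg (h.nn x) (h'.nn x),
    fun x => (abs_add_le _ _).trans (by linarith [h.d1 x, h'.d1 x]),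
    fun x => (abs_add_le _ _).trans (by linarith [h.d2 x, h'.d2 x])⟩

theorem Tame.sum {α : Type} (s : Finset α) {a b : ℝ} {f f1 f2 : α → ℝ → ℝ}
    (h : ∀ j, Tame a b (f j) (f1 j) (f2 j)) :
    Tame a b (fun x => ∑ j ∈ s, f j x) (fun x => ∑ j ∈ s, f1 j x) fun x => ∑ j ∈ s, f2 j x :=
  ⟨C2P.sum s fun j => (h j).c, fun x => sum_nonneg fun j _ => (h j).nn x,
    fun x => (abs_sum_le_sum_abs _ _).trans (by
      rw [mul_sum]; exact sum_le_sum fun j _ => (h j).d1 x),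
    fun x => (abs_sum_le_sum_abs _ _).trans (by
      rw [mul_sum]; exact sum_le_sum fun j _ => (h j).d2 x)⟩

theorem Tame.comp {H : ℝ} {f f1 f2 : ℝ → ℝ} (h : Tame (1 / H) (4 / H ^ 2) f f1 f2) (H0 : 0 < H)
    (H1 : H ≤ 1) {e : Equiv.Perm ℝ} (he : Good (1 / 50) e) :
    Tame (2 / H) (5 / H ^ 2) (fun x => f (e x)) (fun x => f1 (e x) * exp (ph e x))
      fun x => (f2 (e x) * exp (ph e x) + f1 (e x) * nl e x) * exp (ph e x) := by
  have e1 : ∀ x, exp (ph e x) ≤ 103 / 100 := fun x => by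
    have := exp_small (t := 1 / 50) (by norm_num) le_rfl
    linarith [exp_le_exp.2 (le_of_abs_le (he.ph_le x))]
  refine ⟨⟨fun x => (h.c.1 _).comp x (he.1.d1 x), fun x => ?_, ?_, fun x => ?_⟩, fun x => h.nn _,
    fun x => ?_, fun x => ?_⟩
  · exact (((h.c.2.1 _).comp x (he.1.d1 x)).fun_mul (he.1.d2 x).exp).congr_deriv
      (by simp only [Function.comp]; ring)
  · have := h.c.cp1.1; have := h.c.cp2.1; have := Reg.continuous he.1
    have := Reg.continuous_phi he.1; have := he.1.cont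
    fun_prop
  · simp only [he.2.1 x, h.c.2.2.2]
  · rw [abs_mul, abs_of_pos (exp_pos _)]
    have := mul_le_mul (h.d1 (e x)) (e1 x) (exp_pos _).le (mul_nonneg (by positivity) (h.nn _))
    have h2 : 0 ≤ 1 / H * f (e x) := mul_nonneg (by positivity) (h.nn _)
    rw [show 2 / H * f (e x) = 2 * (1 / H * f (e x)) by ring]
    linarith
  · rw [abs_mul, abs_of_pos (exp_pos _)]
    have h2 : 0 ≤ 1 / H ^ 2 * f (e x) := mul_nonneg (by positivity) (h.nn _)
    have h3 : 1 / H * f (e x) ≤ 1 / H ^ 2 * f (e x) := by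
      refine mul_le_mul_of_nonneg_right ?_ (h.nn _)
      rw [div_le_div_iff₀ H0 (by positivity)]
      nlinarith
    have h4 : |f2 (e x) * exp (ph e x)| ≤ 4 * (1 / H ^ 2 * f (e x)) * (103 / 100) := by
      rw [abs_mul, abs_of_pos (exp_pos _)]
      refine mul_le_mul ((h.d2 _).trans (le_of_eq (by ring))) (e1 x) (exp_pos _).le (by linarith)
    have h5 : |f1 (e x) * nl e x| ≤ 1 / H ^ 2 * f (e x) * (1 / 50) := by
      rw [abs_mul]
      exact mul_le_mul ((h.d1 _).trans h3) (he.2.2 x) (abs_nonneg _) h2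
    have h6 := (abs_add_le _ _).trans (add_le_add h4 h5)
    have := mul_le_mul h6 (e1 x) (exp_pos _).le (by linarith)
    rw [show 5 / H ^ 2 * f (e x) = 5 * (1 / H ^ 2 * f (e x)) by ring]
    linarith

theorem Tame.log_lip {a b : ℝ} {f f1 f2 : ℝ → ℝ} (h : Tame a b f f1 f2) (x y : ℝ) :
    f y ≤ exp (a * |x - y|) * f x := by
  rcases le_total x y with c | c
  · obtain ⟨z, -, -, hz⟩ := mvt_ex (f := fun t => f t * exp (-a * t))
      (f' := fun t => (f1 t - a * f t) * exp (-a * t)) (fun t =>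
        ((h.c.1 t).fun_mul ((hasDerivAt_id' t).const_mul (-a)).exp).congr_deriv (by ring)) c
    have h1 : (f1 z - a * f z) * exp (-a * z) * (y - x) ≤ 0 :=
      mul_nonpos_of_nonpos_of_nonneg (mul_nonpos_of_nonpos_of_nonneg
        (by linarith [le_of_abs_le (h.d1 z)]) (exp_pos _).le) (by linarith)
    have e : exp (a * |x - y|) = exp (-a * x) / exp (-a * y) := by
      rw [← exp_sub, abs_of_nonpos (by linarith)]; congr 1; ring
    rw [e, div_mul_eq_mul_div, le_div_iff₀ (exp_pos _)]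
    linarith
  · obtain ⟨z, -, -, hz⟩ := mvt_ex (f := fun t => f t * exp (a * t))
      (f' := fun t => (f1 t + a * f t) * exp (a * t)) (fun t =>
        ((h.c.1 t).fun_mul ((hasDerivAt_id' t).const_mul a).exp).congr_deriv (by ring)) c
    have h1 : 0 ≤ (f1 z + a * f z) * exp (a * z) * (x - y) :=
      mul_nonneg (mul_nonneg (by linarith [neg_le_of_abs_le (h.d1 z)]) (exp_pos _).le) (by linarith)
    have e : exp (a * |x - y|) = exp (a * x) / exp (a * y) := by
      rw [← exp_sub, abs_of_nonneg (by linarith)]; congr 1; ring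
    rw [e, div_mul_eq_mul_div, le_div_iff₀ (exp_pos _)]
    linarith

theorem mul_expn_le {t : ℝ} (h : 0 ≤ t) : t * exp (-t) ≤ 1 / 2 ∧ t ^ 2 * exp (-t) ≤ 2 := by
  have h1 := quadratic_le_exp_of_nonneg h
  rw [exp_neg, ← div_eq_mul_inv, ← div_eq_mul_inv, div_le_iff₀ (exp_pos _), div_le_iff₀ (exp_pos _)]
  constructor <;> nlinarith [sq_nonneg (t - 1)]

theorem Tame.expn {H : ℝ} {f f1 f2 : ℝ → ℝ} (h : Tame (2 / H) (5 / H ^ 2) f f1 f2) (H0 : 0 < H)
    (x : ℝ) : |-f1 x * exp (-f x)| ≤ 1 / H ∧ |(f1 x ^ 2 - f2 x) * exp (-f x)| ≤ 11 / H ^ 2 := by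
  have m := mul_expn_le (h.nn x)
  have e0 := exp_pos (-f x)
  have i1 : 0 < 1 / H := by positivity
  have i2 : 0 < 1 / H ^ 2 := by positivity
  constructor
  · rw [abs_mul, abs_neg, abs_of_pos e0]
    have := mul_le_mul_of_nonneg_right (h.d1 x) e0.le
    have h2 := mul_le_mul_of_nonneg_left m.1 i1.le
    rw [show 2 / H * f x * exp (-f x) = 2 * (1 / H * (f x * exp (-f x))) by ring] at this
    linarith
  · rw [abs_mul, abs_of_pos e0]
    have h1 : f1 x ^ 2 ≤ (2 / H * f x) ^ 2 := by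
      rw [← sq_abs]; exact pow_le_pow_left₀ (abs_nonneg _) (h.d1 x) 2
    have h2 : |f1 x ^ 2 - f2 x| ≤ (2 / H * f x) ^ 2 + 5 / H ^ 2 * f x :=
      (abs_sub _ _).trans (by rw [abs_of_nonneg (sq_nonneg _)]; linarith [h.d2 x])
    have := mul_le_mul_of_nonneg_right h2 e0.le
    have h3 := mul_le_mul_of_nonneg_left m.1 i2.le
    have h4 := mul_le_mul_of_nonneg_left m.2 i2.le
    rw [show ((2 / H * f x) ^ 2 + 5 / H ^ 2 * f x) * exp (-f x) = 4 * (1 / H ^ 2 * (f x ^ 2 * exp (-f x)))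
      + 5 * (1 / H ^ 2 * (f x * exp (-f x))) by ring] at this
    rw [show 11 / H ^ 2 = 11 * (1 / H ^ 2) by ring]
    linarith

theorem Tame.exp_lip {H : ℝ} {f f1 f2 : ℝ → ℝ} (h : Tame (2 / H) (5 / H ^ 2) f f1 f2) (H0 : 0 < H)
    (x y : ℝ) : |exp (-f x) - exp (-f y)| ≤ 1 / H * |x - y| :=
  mvt_abs h.c.expn.1 (fun z => (h.expn H0 z).1) x y

theorem one_sub_exp_ge {s a b : ℝ} (s0 : 0 ≤ s) (s1 : s ≤ 1) (h : s * a ≤ b) :
    s * (1 - exp (-a)) ≤ 1 - exp (-b) := by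
  have := convexOn_exp.2 (Set.mem_univ (-a)) (Set.mem_univ 0) s0 (show 0 ≤ 1 - s by linarith)
    (by ring)
  simp only [smul_eq_mul, mul_zero, add_zero, exp_zero, mul_one] at this
  have h2 : exp (-b) ≤ exp (s * -a) := exp_le_exp.2 (by linarith)
  linarith

theorem one_sub_exp_add {a b : ℝ} (ha : 0 ≤ a) (hb : 0 ≤ b) :
    1 - exp (-(a + b)) ≤ 1 - exp (-a) + (1 - exp (-b)) := by
  have h1 : exp (-a) ≤ 1 := exp_le_one_iff.2 (by linarith)
  have h2 : exp (-b) ≤ 1 := exp_le_one_iff.2 (by linarith)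
  rw [neg_add, exp_add]
  nlinarith

/-! ### The bump -/

/-- A smooth substitute for the squared distance to the integers. -/
noncomputable def sq0 (t : ℝ) : ℝ := (sin (π * t) / π) ^ 2

/-- The bump of height `L` and width `H`. -/
noncomputable def bb (L H t : ℝ) : ℝ := L * H ^ 2 / (H ^ 2 + sq0 t)

theorem sq0_nz (t : ℝ) : sq0 t = (sin (π * nz t) / π) ^ 2 := by
  have e : π * t = π * (t - round t) + (round t : ℤ) * π := by ring
  rw [sq0, div_pow, div_pow, e, sin_add_int_mul_pi, mul_pow, ← zpow_natCast ((-1 : ℝ) ^ round t),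
    ← zpow_mul, show ((-1 : ℝ)) ^ (round t * (2 : ℕ)) = 1 from Even.neg_one_zpow (by simp), one_mul, nz]
  rcases abs_cases (t - round t) with h | h <;> rw [h.1]
  rw [mul_neg, sin_neg, neg_sq]

theorem sq0_le (t : ℝ) : sq0 t ≤ nz t ^ 2 := by
  rw [sq0_nz, div_pow, div_le_iff₀ (by positivity)]
  exact (sin_sq_le_sq).trans (le_of_eq (by ring))

theorem le_sq0 (t : ℝ) : 2 / 5 * nz t ^ 2 ≤ sq0 t := by
  have h1 := mul_le_sin (x := π * nz t) (mul_nonneg pi_pos.le (nz_nonneg t))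
    (by nlinarith [nz_le_half t, pi_pos])
  rw [show 2 / π * (π * nz t) = 2 * nz t by field_simp] at h1
  have h2 := pow_le_pow_left₀ (by linarith [nz_nonneg t]) h1 2
  rw [sq0_nz, div_pow, le_div_iff₀ (by positivity)]
  have h3 : π ^ 2 ≤ 10 := by nlinarith [pi_lt_d2, pi_pos]
  nlinarith [sq_nonneg (nz t)]

theorem bb_ge {L H t : ℝ} (L0 : 0 ≤ L) (H0 : 0 < H) (h : |t| ≤ 3 / 2 * H) : L ≤ bb (4 * L) H t := by
  have h1 := (sq0_le t).trans (pow_le_pow_left₀ (nz_nonneg t) ((nz_le_abs t).trans h) 2)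
  have h2 : 0 ≤ sq0 t := sq_nonneg _
  rw [bb, le_div_iff₀ (by positivity)]
  nlinarith [mul_le_mul_of_nonneg_left h1 L0, mul_nonneg L0 (sq_nonneg H)]

theorem bb_tame {L H : ℝ} (L0 : 0 ≤ L) (H0 : 0 < H) (z : ℝ) :
    ∃ f1 f2, Tame (1 / H) (4 / H ^ 2) (fun x => bb L H (x - z)) f1 f2 := by
  have p0 := pi_pos
  have ds : ∀ t, HasDerivAt (fun t => sin (π * (t - z)) / π) (cos (π * (t - z))) t := fun t =>
    ((((hasDerivAt_id' t).sub_const z).const_mul π).sin.div_const π).congr_deriv (by field_simp)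
  have dc : ∀ t, HasDerivAt (fun t => cos (π * (t - z))) (-π ^ 2 * (sin (π * (t - z)) / π)) t :=
    fun t => (((hasDerivAt_id' t).sub_const z).const_mul π).cos.congr_deriv (by field_simp)
  set s : ℝ → ℝ := fun t => sin (π * (t - z)) / π with hs
  set c : ℝ → ℝ := fun t => cos (π * (t - z)) with hc
  replace ds : ∀ t, HasDerivAt s (c t) t := ds
  replace dc : ∀ t, HasDerivAt c (-π ^ 2 * s t) t := dc
  have cs : Continuous s := by rw [hs]; fun_prop
  have cc : Continuous c := by rw [hc]; fun_prop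
  have sc : ∀ t, π ^ 2 * s t ^ 2 + c t ^ 2 = 1 := fun t => by
    rw [← sin_sq_add_cos_sq (π * (t - z)), hs, hc]
    field_simp
  have D0 : ∀ t, 0 < H ^ 2 + s t ^ 2 := fun t => by positivity
  have dD : ∀ t, HasDerivAt (fun t => H ^ 2 + s t ^ 2) (2 * s t * c t) t := fun t =>
    (((ds t).fun_pow 2).const_add (H ^ 2)).congr_deriv (by simp)
  have d0 : ∀ t, HasDerivAt (fun t => L * H ^ 2 / (H ^ 2 + s t ^ 2))
      (-(L * H ^ 2 / (H ^ 2 + s t ^ 2) * (2 * s t * c t / (H ^ 2 + s t ^ 2)))) t := fun t => by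
    refine ((hasDerivAt_const t (L * H ^ 2)).fun_div (dD t) (D0 t).ne').congr_deriv ?_
    have := (D0 t).ne'
    field_simp
    ring
  have d1 : ∀ t, HasDerivAt (fun t => 2 * s t * c t / (H ^ 2 + s t ^ 2))
      (2 * (c t ^ 2 - π ^ 2 * s t ^ 2) / (H ^ 2 + s t ^ 2) - (2 * s t * c t / (H ^ 2 + s t ^ 2)) ^ 2) t :=
    fun t => by
    refine ((((ds t).const_mul 2).fun_mul (dc t)).fun_div (dD t) (D0 t).ne').congr_deriv ?_
    have := (D0 t).ne'
    field_simp
    ring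
  have b1 : ∀ t, |2 * s t * c t / (H ^ 2 + s t ^ 2)| ≤ 1 / H := fun t => by
    rw [abs_div, abs_of_pos (D0 t), div_le_div_iff₀ (D0 t) H0, abs_mul, abs_mul, abs_two]
    have h1 : |c t| ≤ 1 := abs_cos_le_one _
    have h2 := mul_le_mul_of_nonneg_left h1 (show 0 ≤ 2 * |s t| * H by positivity)
    nlinarith [sq_nonneg (|s t| - H), sq_abs (s t)]
  have n0 : ∀ t, 0 ≤ L * H ^ 2 / (H ^ 2 + s t ^ 2) := fun t => by positivity
  refine ⟨fun t => -(L * H ^ 2 / (H ^ 2 + s t ^ 2) * (2 * s t * c t / (H ^ 2 + s t ^ 2))),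
    fun t => L * H ^ 2 / (H ^ 2 + s t ^ 2) * (2 * (2 * s t * c t / (H ^ 2 + s t ^ 2)) ^ 2
      - 2 * (c t ^ 2 - π ^ 2 * s t ^ 2) / (H ^ 2 + s t ^ 2)), ⟨d0, fun t => ?_, ?_, fun t => ?_⟩, n0,
    fun t => ?_, fun t => ?_⟩
  · exact ((d0 t).fun_mul (d1 t)).fun_neg.congr_deriv (by ring)
  · have := fun t => (D0 t).ne'
    fun_prop (disch := assumption)
  · simp only [bb, sq0]
    rw [show π * (t + 1 - z) = π * (t - z) + π by ring, sin_add_pi, neg_div, neg_sq]
  · rw [abs_neg, abs_mul, abs_of_nonneg (n0 t), mul_comm]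
    exact mul_le_mul_of_nonneg_right (b1 t) (n0 t)
  · rw [abs_mul, abs_of_nonneg (n0 t), mul_comm]
    refine mul_le_mul_of_nonneg_right ((abs_sub _ _).trans ?_) (n0 t)
    have h1 : (2 * s t * c t / (H ^ 2 + s t ^ 2)) ^ 2 ≤ (1 / H) ^ 2 := by
      rw [← sq_abs]; exact pow_le_pow_left₀ (abs_nonneg _) (b1 t) 2
    have h2 : |2 * (c t ^ 2 - π ^ 2 * s t ^ 2) / (H ^ 2 + s t ^ 2)| ≤ 2 / H ^ 2 := by
      rw [abs_div, abs_of_pos (D0 t)]
      refine div_le_div₀ zero_le_two ?_ (by positivity) (by nlinarith [sq_nonneg (s t)])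
      rw [abs_le]
      constructor <;> nlinarith [sc t, sq_nonneg (c t), sq_nonneg (π * s t)]
    rw [abs_of_nonneg (by positivity), show 4 / H ^ 2 = 2 * (1 / H) ^ 2 + 2 / H ^ 2 by ring]
    linarith

theorem bb_int {L H : ℝ} (L0 : 0 ≤ L) (H0 : 0 < H) (z : ℝ) :
    ∫ x in (0 : ℝ)..1, bb L H (x - z) ≤ 8 * L * H := by
  obtain ⟨f1, f2, h⟩ := bb_tame L0 H0 z
  rw [← h.c.cp0.shift (z - 1 / 2)]
  have D0 : ∀ t : ℝ, 0 < H ^ 2 + (t - z) ^ 2 := fun t => by positivity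
  have d : ∀ t, HasDerivAt (fun t => 5 / 2 * L * H * arctan ((t - z) / H))
      (5 / 2 * L * H ^ 2 / (H ^ 2 + (t - z) ^ 2)) t := fun t =>
    ((((hasDerivAt_id' t).sub_const z).div_const H).arctan.const_mul (5 / 2 * L * H)).congr_deriv
      (by field_simp)
  have c : Continuous fun t : ℝ => 5 / 2 * L * H ^ 2 / (H ^ 2 + (t - z) ^ 2) := by
    have := fun t => (D0 t).ne'
    fun_prop (disch := assumption)
  refine (intervalIntegral.integral_mono_on (by linarith) (h.c.cp0.1.intervalIntegrable _ _)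
    (c.intervalIntegrable _ _) fun t ht => ?_).trans ?_
  · have h1 := le_sq0 (t - z)
    rw [nz_eq_abs (by rw [abs_le]; constructor <;> linarith [ht.1, ht.2]), sq_abs] at h1
    have h2 : 0 ≤ sq0 (t - z) := sq_nonneg _
    rw [bb, div_le_div_iff₀ (by positivity) (D0 t)]
    have h3 : 0 ≤ L * H ^ 2 := by positivity
    nlinarith [mul_le_mul_of_nonneg_left h1 h3, mul_nonneg h3 (sq_nonneg H)]
  · rw [intervalIntegral.integral_eq_sub_of_hasDerivAt (fun t _ => d t) (c.intervalIntegrable _ _)]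
    have h1 := arctan_lt_pi_div_two ((z - 1 / 2 + 1 - z) / H)
    have h2 := neg_pi_div_two_lt_arctan ((z - 1 / 2 - z) / H)
    have h3 : 0 ≤ L * H := by positivity
    nlinarith [pi_lt_d2]

/-! ### Box averages -/

/-- The average over the interval of radius `μ`. -/
noncomputable def av (μ : ℝ) (f : ℝ → ℝ) (y : ℝ) : ℝ := (∫ t in y - μ..y + μ, f t) / (2 * μ)

theorem av_deriv {f : ℝ → ℝ} (hf : Continuous f) (μ y : ℝ) :
    HasDerivAt (av μ f) ((f (y + μ) - f (y - μ)) / (2 * μ)) y := by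
  have d : ∀ u, HasDerivAt (fun u => ∫ t in (0 : ℝ)..u, f t) (f u) u := fun u =>
    (hf.integral_hasStrictDerivAt 0 u).hasDerivAt
  have e : av μ f = fun y => ((∫ t in (0 : ℝ)..y + μ, f t) - ∫ t in (0 : ℝ)..y - μ, f t) / (2 * μ) :=
    funext fun y => by
      rw [av, intervalIntegral.integral_interval_sub_left (hf.intervalIntegrable _ _)
        (hf.intervalIntegrable _ _)]
  rw [e]
  exact ((HasDerivAt.comp_add_const y μ (d _)).sub (HasDerivAt.comp_sub_const y μ (d _))).div_const _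

theorem av_c2p {p p1 p2 : ℝ → ℝ} (h : C2P p p1 p2) (μ : ℝ) : C2P (av μ p) (av μ p1) (av μ p2) := by
  refine ⟨fun y => ?_, fun y => ?_, continuous_iff_continuousAt.2 fun y =>
    (av_deriv h.cp2.1 μ y).continuousAt, fun y => ?_⟩
  · rw [av, intervalIntegral.integral_eq_sub_of_hasDerivAt (fun t _ => h.1 t)
      (h.cp1.1.intervalIntegrable _ _)]
    exact av_deriv h.cp0.1 μ y
  · rw [av, intervalIntegral.integral_eq_sub_of_hasDerivAt (fun t _ => h.2.1 t)
      (h.cp2.1.intervalIntegrable _ _)]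
    exact av_deriv h.cp1.1 μ y
  · rw [av, av, show y + 1 - μ = y - μ + 1 by ring, show y + 1 + μ = y + μ + 1 by ring,
      ← intervalIntegral.integral_comp_add_right]
    simp only [h.2.2.2]

theorem av_sub {f : ℝ → ℝ} (hf : Continuous f) {μ y a b M : ℝ} (hμ : 0 < μ)
    (h : ∀ t, |t - y| ≤ μ → |f t - (a + b * (t - y))| ≤ M) : |av μ f y - a| ≤ M := by
  have e : ∫ t in y - μ..y + μ, (a + b * (t - y)) = 2 * μ * a := by
    rw [intervalIntegral.integral_eq_sub_of_hasDerivAt (f := fun t => a * t + b * (t - y) ^ 2 / 2)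
      (fun t _ => ?_) (Continuous.intervalIntegrable (by fun_prop) _ _)]
    · ring
    · exact (((hasDerivAt_id' t).const_mul a).fun_add
        (((((hasDerivAt_id' t).sub_const y).fun_pow 2).const_mul b).div_const 2)).congr_deriv
        (by simp; ring)
  have h1 := intervalIntegral.norm_integral_le_of_norm_le_const (a := y - μ) (b := y + μ) (C := M)
    (f := fun t => f t - (a + b * (t - y))) fun t ht => by
      rw [Set.uIoc_of_le (by linarith)] at ht
      exact h t (by rw [abs_le]; constructor <;> linarith [ht.1, ht.2])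
  rw [intervalIntegral.integral_sub (hf.intervalIntegrable _ _)
    (Continuous.intervalIntegrable (by fun_prop) _ _), e, Real.norm_eq_abs,
    show y + μ - (y - μ) = 2 * μ by ring, abs_of_pos (show 0 < 2 * μ by linarith)] at h1
  rw [av, show (∫ t in y - μ..y + μ, f t) / (2 * μ) - a
    = ((∫ t in y - μ..y + μ, f t) - 2 * μ * a) / (2 * μ) by field_simp, abs_div,
    abs_of_pos (show 0 < 2 * μ by linarith), div_le_iff₀ (by linarith)]
  exact h1

theorem av_bds {p p1 p2 : ℝ → ℝ} (h : C2P p p1 p2) {ε μ : ℝ} (h2 : ∀ x, |p2 x| ≤ ε) (hμ : 0 < μ)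
    (y : ℝ) : |p y - av μ p y| ≤ ε * μ ^ 2 ∧ |p1 y - av μ p1 y| ≤ ε * μ ∧ |av μ p2 y| ≤ ε := by
  have e0 : 0 ≤ ε := (abs_nonneg _).trans (h2 0)
  have l : ∀ t, |t - y| ≤ μ → |p1 t - p1 y| ≤ ε * μ := fun t ht =>
    (mvt_abs h.2.1 h2 t y).trans (mul_le_mul_of_nonneg_left ht e0)
  refine ⟨?_, ?_, ?_⟩
  · rw [abs_sub_comm]
    refine av_sub h.cp0.1 (b := p1 y) hμ fun t ht => ?_
    have k : ∀ z, |z - y| ≤ μ → |(p1 z - p1 y) * (t - y)| ≤ ε * μ ^ 2 := fun z hz => by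
      rw [abs_mul, sq, ← mul_assoc]
      exact mul_le_mul (l z hz) ht (abs_nonneg _) (by positivity)
    have b := abs_le.1 ht
    rcases le_total y t with c | c
    · obtain ⟨z, z1, z2, hz⟩ := mvt_ex h.1 c
      convert k z (by rw [abs_le]; constructor <;> linarith) using 2
      linarith
    · obtain ⟨z, z1, z2, hz⟩ := mvt_ex h.1 c
      convert k z (by rw [abs_le]; constructor <;> linarith) using 2
      linarith
  · rw [abs_sub_comm]
    exact av_sub h.cp1.1 (b := 0) hμ fun t ht => by simpa using l t ht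
  · simpa using av_sub h.cp2.1 (a := 0) (b := 0) hμ fun t _ => by simpa using h2 t

end Pool.Agent.P.MP_0354a7_al
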