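import Mathlib

/-!
Abstract counting lemmas for walks in sparse labelled graphs.
-/

namespace Pool.Agent.P.MP_0354a7_al

open Finset

/-- Sums of predictable weights along injectively coded histories. -/
theorem C_tree {Ω S : Type} [Fintype S] {B : ℝ} (hB : 0 ≤ B) (m : ℕ) :
    ∀ (W : Finset Ω) (s : Ω → ℕ → S) (φ : Ω → ℕ → S → ℝ),
    (∀ ω ∈ W, ∀ ω' ∈ W, (∀ j < m, s ω j = s ω' j) → ω = ω') →
    (∀ ω t σ, 0 ≤ φ ω t σ) →
    (∀ ω ∈ W, ∀ ω' ∈ W, ∀ t < m, (∀ j < t, s ω j = s ω' j) → φ ω t = φ ω' t) →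
    (∀ ω ∈ W, ∀ t < m, ∑ σ, φ ω t σ ≤ B) →
    ∑ ω ∈ W, ∏ t ∈ range m, φ ω t (s ω t) ≤ B ^ m := by
  classical
  induction m with
  | zero =>
    intro W s φ hi _ _ _
    have : W.card ≤ 1 := card_le_one.2 fun a ha b hb => hi a ha b hb fun j hj => by omega
    simp only [range_zero, prod_empty, sum_const, nsmul_eq_mul, mul_one, pow_zero]
    exact_mod_cast this
  | succ m ih =>
    intro W s φ hi h0 hp hs
    rcases W.eq_empty_or_nonempty with rfl | ⟨ω₀, h₀⟩
    · simp only [sum_empty]; positivity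
    rw [← sum_fiberwise W (fun ω => s ω 0)]
    have key : ∀ σ, ∑ ω ∈ W with s ω 0 = σ, ∏ t ∈ range (m + 1), φ ω t (s ω t)
        ≤ B ^ m * φ ω₀ 0 σ := fun σ => by
      have e : ∀ ω ∈ W.filter (fun ω => s ω 0 = σ), ∏ t ∈ range (m + 1), φ ω t (s ω t)
          = (∏ t ∈ range m, φ ω (t + 1) (s ω (t + 1))) * φ ω₀ 0 σ := fun ω hω => by
        rw [prod_range_succ', (mem_filter.1 hω).2,
          hp ω (mem_filter.1 hω).1 ω₀ h₀ 0 (by omega) fun j hj => by omega]
      rw [sum_congr rfl e, ← sum_mul]
      refine mul_le_mul_of_nonneg_right (ih _ (fun ω j => s ω (j + 1)) (fun ω j => φ ω (j + 1))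
        (fun ω hω ω' hω' h => ?_) (fun ω t σ => h0 _ _ _) (fun ω hω ω' hω' t ht h => ?_)
        (fun ω hω t ht => hs ω (mem_filter.1 hω).1 _ (by omega))) (h0 _ _ _)
      · refine hi ω (mem_filter.1 hω).1 ω' (mem_filter.1 hω').1 fun j hj => ?_
        rcases j with _ | j
        · rw [(mem_filter.1 hω).2, (mem_filter.1 hω').2]
        · exact h j (by omega)
      · refine hp ω (mem_filter.1 hω).1 ω' (mem_filter.1 hω').1 _ (by omega) fun j hj => ?_
        rcases j with _ | j
        · rw [(mem_filter.1 hω).2, (mem_filter.1 hω').2]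
        · exact h j (by omega)
    refine (sum_le_sum fun σ _ => key σ).trans ?_
    rw [← mul_sum, pow_succ]
    exact mul_le_mul_of_nonneg_left (hs ω₀ h₀ 0 (by omega)) (by positivity)

theorem C_sum_sets {L : Type} [Fintype L] (hL : 0 < Fintype.card L) :
    ∑ γ : Finset L, (1 / (Fintype.card L : ℝ)) ^ γ.card ≤ 3 := by
  have h := Fintype.sum_pow_mul_eq_add_pow L (1 / (Fintype.card L : ℝ)) 1
  simp only [one_pow, mul_one] at h
  rw [h]
  have hk : (0 : ℝ) < Fintype.card L := by exact_mod_cast hL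
  have h1 : 1 / (Fintype.card L : ℝ) + 1 ≤ Real.exp (1 / (Fintype.card L : ℝ)) :=
    Real.add_one_le_exp _
  refine (pow_le_pow_left₀ (by positivity) h1 _).trans ?_
  rw [← Real.exp_nat_mul, mul_one_div_cancel hk.ne']
  exact Real.exp_one_lt_three.le

open Classical in
/-- Walks with many steps that are predictable or advised are few. -/
theorem C_adv {Ω V L : Type} [Fintype V] [Fintype L] (E : L → V → V → Prop) {c0 A d m : ℕ}
    {z R : ℝ} (hE : ∀ l a (s : Finset V), (∀ b ∈ s, E l a b) → s.card ≤ c0) (hz : 1 ≤ z)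
    (hL : 0 < Fintype.card L) (W : Finset Ω) (v : Ω → ℕ → V) (l : Ω → ℕ → L)
    (C : Ω → ℕ → Finset L) (adv : Ω → V → Finset L)
    (hinj : ∀ ω ∈ W, ∀ ω' ∈ W, (∀ j < m, l ω j = l ω' j) → ω = ω')
    (hw : ∀ ω ∈ W, ∀ j < m, E (l ω j) (v ω j) (v ω (j + 1))) (hC : ∀ ω t, (C ω t).card ≤ d)
    (hpred : ∀ ω ∈ W, ∀ ω' ∈ W, ∀ t < m, (∀ j ≤ t, v ω j = v ω' j) → (∀ j < t, l ω j = l ω' j) →
      C ω t = C ω' t)
    (hA : ∀ ω u, (adv ω u).card ≤ A)
    (hR : ∀ ω ∈ W, R * (Fintype.card L : ℝ) ^ (∑ u, (adv ω u).card)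
      ≤ z ^ ((range m).filter fun t => l ω t ∈ C ω t ∨ l ω t ∈ adv ω (v ω t)).card) :
    W.card * R ≤ Fintype.card V * (3 * (c0 * (Fintype.card L + z * (d + 2 * A)))) ^ m := by
  set k : ℝ := (Fintype.card L : ℝ) with hkdef
  have hk : (1 : ℝ) ≤ k := by rw [hkdef]; exact_mod_cast hL
  set B : ℝ := 3 * (c0 * (k + z * (d + 2 * A))) with hB
  have hB0 : 0 ≤ B := by positivity
  let fst : Ω → ℕ → Prop := fun ω t => ∀ j < t, v ω j ≠ v ω t
  let g : Ω → ℕ → Finset L := fun ω t => if fst ω t then adv ω (v ω t) else ∅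
  let old : Ω → ℕ → Finset L := fun ω t => if fst ω t then ∅ else adv ω (v ω t)
  let s : Ω → ℕ → Finset L × L × V := fun ω t => (g ω t, l ω t, v ω (t + 1))
  let φ : Ω → ℕ → Finset L × L × V → ℝ := fun ω t σ =>
    (if σ.1.card ≤ A then (1 / k) ^ σ.1.card else 0) *
      ((if σ.2.1 ∈ C ω t ∪ old ω t ∪ σ.1 then z else 1) * if E σ.2.1 (v ω t) σ.2.2 then 1 else 0)
  have key : ∀ a : V, ((W.filter fun ω => v ω 0 = a).card : ℝ) * R ≤ B ^ m := fun a => by
    have hv : ∀ ω ∈ W.filter (fun ω => v ω 0 = a), ∀ ω' ∈ W.filter (fun ω => v ω 0 = a), ∀ t,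
        (∀ j < t, s ω j = s ω' j) → ∀ j ≤ t, v ω j = v ω' j := fun ω hω ω' hω' t h j hj => by
      rcases j with _ | j
      · rw [(mem_filter.1 hω).2, (mem_filter.1 hω').2]
      · exact congrArg (fun σ => σ.2.2) (h j (by omega))
    refine le_trans ?_ (C_tree hB0 m (W.filter fun ω => v ω 0 = a) s φ (fun ω hω ω' hω' h => ?_)
      (fun ω t σ => ?_) (fun ω hω ω' hω' t ht h => ?_) (fun ω hω t ht => ?_))
    · rw [← nsmul_eq_mul]
      refine card_nsmul_le_sum _ _ _ fun ω hω => ?_
      have hω' := (mem_filter.1 hω).1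
      have e : ∀ t ∈ range m, φ ω t (s ω t) = (1 / k) ^ (g ω t).card *
          (if l ω t ∈ C ω t ∨ l ω t ∈ adv ω (v ω t) then z else 1) := fun t ht => by
        have h1 : (g ω t).card ≤ A := by
          simp only [g]; split_ifs
          · exact hA _ _
          · simp
        have h2 : l ω t ∈ C ω t ∪ old ω t ∪ g ω t ↔ l ω t ∈ C ω t ∨ l ω t ∈ adv ω (v ω t) := by
          simp only [g, old]; split_ifs <;> simp
        simp only [φ, s, if_pos h1, if_pos (hw ω hω' t (mem_range.1 ht)), mul_one, h2]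
      rw [prod_congr rfl e, prod_mul_distrib, prod_pow_eq_pow_sum, prod_ite, prod_const, prod_const,
        one_pow, mul_one]
      have h3 : ∑ t ∈ range m, (g ω t).card ≤ ∑ u, (adv ω u).card := by
        have e1 : ∑ t ∈ range m, (g ω t).card
            = ∑ t ∈ (range m).filter (fst ω), (adv ω (v ω t)).card := by
          rw [sum_filter]
          refine sum_congr rfl fun t _ => ?_
          simp only [g]; split_ifs <;> simp
        rw [e1, ← sum_image (s := (range m).filter (fst ω)) (g := v ω)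
          (f := fun u => (adv ω u).card)]
        · exact sum_le_sum_of_subset (subset_univ _)
        · intro t1 h1 t2 h2 h12
          have f1 := (mem_filter.1 (mem_coe.1 h1)).2
          have f2 := (mem_filter.1 (mem_coe.1 h2)).2
          rcases lt_trichotomy t1 t2 with h | h | h
          · exact absurd h12 (f2 t1 h)
          · exact h
          · exact absurd h12.symm (f1 t2 h)
      have h4 : (1 / k) ^ (∑ u, (adv ω u).card) ≤ (1 / k) ^ (∑ t ∈ range m, (g ω t).card) :=
        pow_le_pow_of_le_one (by positivity) ((div_le_one (by linarith)).2 hk) h3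
      refine le_trans ?_ (mul_le_mul_of_nonneg_right h4 (by positivity))
      rw [one_div_pow, div_mul_eq_mul_div, one_mul, le_div_iff₀ (by positivity)]
      exact hR ω hω'
    · exact hinj ω (mem_filter.1 hω).1 ω' (mem_filter.1 hω').1 fun j hj =>
        congrArg (fun σ => σ.2.1) (h j hj)
    · have : (0 : ℝ) ≤ z := by linarith
      simp only [φ]
      split_ifs <;> positivity
    · have hv' := hv ω hω ω' hω' t h
      have e1 : C ω t = C ω' t := hpred ω (mem_filter.1 hω).1 ω' (mem_filter.1 hω').1 t ht hv'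
        fun j hj => congrArg (fun σ => σ.2.1) (h j hj)
      have ef : ∀ j ≤ t, (fst ω j ↔ fst ω' j) := fun j hj => by
        refine forall_congr' fun i => forall_congr' fun hi => ?_
        rw [hv' i (by omega), hv' j hj]
      have e2 : old ω t = old ω' t := by
        simp only [old]
        by_cases hf : fst ω t
        · rw [if_pos hf, if_pos ((ef t le_rfl).1 hf)]
        · rw [if_neg hf, if_neg fun h' => hf ((ef t le_rfl).2 h')]
          have hex : ∃ j, v ω j = v ω t := ⟨t, rfl⟩
          have hj := Nat.find_spec hex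
          have hlt : Nat.find hex < t := by
            by_contra hc
            exact hf fun j hj' hj2 => hc (lt_of_le_of_lt (Nat.find_min' hex hj2) hj')
          have hf0 : fst ω (Nat.find hex) := fun j hj' hj2 => Nat.find_min hex hj' (hj2.trans hj)
          have hg : g ω (Nat.find hex) = g ω' (Nat.find hex) := congrArg (fun σ => σ.1) (h _ hlt)
          simp only [g] at hg
          rw [if_pos hf0, if_pos ((ef _ hlt.le).1 hf0), ← hv' _ hlt.le, hj] at hg
          rw [← hv' t le_rfl, hg]
      funext σ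
      simp only [φ, e1, e2, hv' t le_rfl]
    · rw [Fintype.sum_prod_type]
      have h5 : ∀ γ : Finset L, ∑ σ : L × V, φ ω t (γ, σ)
          ≤ (1 / k) ^ γ.card * (c0 * (k + z * (d + 2 * A))) := fun γ => by
        simp only [φ]
        rw [← mul_sum]
        split_ifs with hγ
        · refine mul_le_mul_of_nonneg_left ?_ (by positivity)
          rw [Fintype.sum_prod_type]
          have h6 : ∀ l' : L, ∑ v' : V, (if l' ∈ C ω t ∪ old ω t ∪ γ then z else 1) *
              (if E l' (v ω t) v' then (1 : ℝ) else 0)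
              ≤ c0 * (1 + if l' ∈ C ω t ∪ old ω t ∪ γ then z else 0) := fun l' => by
            rw [← mul_sum, sum_boole, mul_comm]
            refine mul_le_mul ?_ ?_ ?_ (by positivity)
            · exact_mod_cast hE l' (v ω t) _ fun b hb => (mem_filter.1 hb).2
            · split_ifs <;> linarith
            · split_ifs <;> linarith
          refine (sum_le_sum fun l' _ => h6 l').trans ?_
          rw [← mul_sum, sum_add_distrib, sum_ite_mem, univ_inter, sum_const, sum_const, card_univ,
            nsmul_eq_mul, nsmul_eq_mul, mul_one, mul_comm _ z]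
          have h7 : (old ω t).card ≤ A := by
            simp only [old]; split_ifs
            · simp
            · exact hA _ _
          have h8 : (C ω t ∪ old ω t ∪ γ).card ≤ d + 2 * A := by
            have := card_union_le (C ω t ∪ old ω t) γ
            have := card_union_le (C ω t) (old ω t)
            have := hC ω t
            omega
          have h9 : ((C ω t ∪ old ω t ∪ γ).card : ℝ) ≤ d + 2 * A := by exact_mod_cast h8
          gcongr
        · rw [zero_mul]; positivity
      refine (sum_le_sum fun γ _ => h5 γ).trans ?_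
      rw [← sum_mul]
      exact mul_le_mul_of_nonneg_right (C_sum_sets hL) (by positivity)
  rw [card_eq_sum_card_fiberwise (f := fun ω => v ω 0) (t := univ) fun _ _ => mem_univ _]
  push_cast
  rw [sum_mul]
  refine (sum_le_sum fun a _ => key a).trans ?_
  rw [sum_const, card_univ, nsmul_eq_mul]

open Classical in
/-- Degeneracy orientation. -/
theorem C_orient {V L : Type} [Fintype L] (E : L → V → V → Prop) (hs : ∀ l a b, E l a b → E l b a)
    {A M : ℕ} (hSP : ∀ T : Finset V, T.Nonempty → T.card ≤ M →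
      ∃ u ∈ T, ∀ s : Finset L, (∀ l ∈ s, ∃ u' ∈ T, E l u u') → s.card ≤ A)
    (T : Finset V) (hT : T.card ≤ M) :
    ∃ adv : V → Finset L, (∀ u, (adv u).card ≤ A) ∧ (∀ u, u ∉ T → adv u = ∅) ∧
      ∀ l, ∀ a ∈ T, ∀ b ∈ T, E l a b → l ∈ adv a ∨ l ∈ adv b := by
  induction T using Finset.strongInduction with
  | H T ih =>
    rcases T.eq_empty_or_nonempty with rfl | hne
    · exact ⟨fun _ => ∅, fun _ => by simp, fun _ _ => rfl, fun l a ha => by simp at ha⟩
    obtain ⟨u, hu, hlow⟩ := hSP T hne hT
    obtain ⟨adv, h1, h2, h3⟩ := ih (T.erase u) (erase_ssubset hu)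
      (card_erase_le.trans hT)
    refine ⟨Function.update adv u (univ.filter fun l => ∃ u' ∈ T, E l u u'), fun a => ?_,
      fun a ha => ?_, fun l a ha b hb hab => ?_⟩
    · by_cases h : a = u
      · rw [h, Function.update_self]
        exact hlow _ fun l hl => (mem_filter.1 hl).2
      · rw [Function.update_of_ne h]; exact h1 a
    · rw [Function.update_of_ne (by rintro rfl; exact ha hu)]
      exact h2 a fun h => ha (mem_of_mem_erase h)
    · by_cases h : a = u
      · left
        rw [h, Function.update_self]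
        exact mem_filter.2 ⟨mem_univ _, b, hb, h ▸ hab⟩
      by_cases h' : b = u
      · right
        rw [h', Function.update_self]
        exact mem_filter.2 ⟨mem_univ _, a, ha, h' ▸ hs l a b hab⟩
      rw [Function.update_of_ne h, Function.update_of_ne h']
      exact h3 l a (mem_erase.2 ⟨h, ha⟩) b (mem_erase.2 ⟨h', hb⟩) hab

open Classical in
/-- The labels leading from `u` into `X`. -/
noncomputable def C_lab {V L : Type} [Fintype L] (E : L → V → V → Prop) (u : V) (X : Finset V) :
    Finset L := univ.filter fun l => ∃ u' ∈ X, E l u u'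

open Classical in
/-- The vertices with more than `D` labels into `X`. -/
noncomputable def C_heavy {V L : Type} [Fintype V] [Fintype L] (E : L → V → V → Prop) (D : ℕ)
    (X : Finset V) : Finset V := univ.filter fun u => D < (C_lab E u X).card

theorem C_mem_lab {V L : Type} [Fintype L] {E : L → V → V → Prop} {u : V} {X : Finset V} {l : L} :
    l ∈ C_lab E u X ↔ ∃ u' ∈ X, E l u u' := by simp [C_lab]

theorem C_mem_heavy {V L : Type} [Fintype V] [Fintype L] {E : L → V → V → Prop} {D : ℕ}
    {X : Finset V} {u : V} : u ∈ C_heavy E D X ↔ D < (C_lab E u X).card := by simp [C_heavy]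

theorem C_heavy_mono {V L : Type} [Fintype V] [Fintype L] {E : L → V → V → Prop} {D : ℕ}
    {X Y : Finset V} (h : X ⊆ Y) : C_heavy E D X ⊆ C_heavy E D Y := fun u hu => by
  rw [C_mem_heavy] at hu ⊢
  refine hu.trans_le (card_le_card fun l hl => ?_)
  obtain ⟨u', h1, h2⟩ := C_mem_lab.1 hl
  exact C_mem_lab.2 ⟨u', h h1, h2⟩

/-- Few vertices are heavy. -/
theorem C_heavy_card {V L : Type} [Fintype V] [Fintype L] (E : L → V → V → Prop)
    (hs : ∀ l a b, E l a b → E l b a) {c0 A M Θ : ℕ}
    (hE : ∀ l a (s : Finset V), (∀ b ∈ s, E l a b) → s.card ≤ c0)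
    (hSP : ∀ T : Finset V, T.Nonempty → T.card ≤ M →
      ∃ u ∈ T, ∀ s : Finset L, (∀ l ∈ s, ∃ u' ∈ T, E l u u') → s.card ≤ A) (hΘ : 1 ≤ Θ)
    (X : Finset V) (hX : 2 * X.card + 1 ≤ M) :
    Θ * (C_heavy E (A + c0 * A * Θ) X).card ≤ X.card := by
  classical
  have key : ∀ H ⊆ C_heavy E (A + c0 * A * Θ) X, H.card ≤ X.card + 1 →
      (c0 * A * Θ + 1) * H.card ≤ c0 * A * X.card := fun H hH hc => by
    obtain ⟨adv, h1, -, h3⟩ := C_orient E hs hSP (X ∪ H) (by have := card_union_le X H; omega)
    let Z : Finset (V × L) := (H ×ˢ univ).filter fun p => p.2 ∈ C_lab E p.1 X ∧ p.2 ∉ adv p.1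
    have lo : (c0 * A * Θ + 1) * H.card ≤ Z.card := by
      rw [card_eq_sum_card_fiberwise (s := Z) (f := Prod.fst) (t := H)
        fun p hp => (mem_product.1 (mem_filter.1 hp).1).1, mul_comm, ← smul_eq_mul]
      refine card_nsmul_le_sum _ _ _ fun u hu => ?_
      have h4 := C_mem_heavy.1 (hH hu)
      have h5 := le_card_sdiff (adv u) (C_lab E u X)
      have h6 := h1 u
      have h7 : (C_lab E u X \ adv u).card ≤ (Z.filter fun p => p.1 = u).card := by
        refine card_le_card_of_injOn (fun l => (u, l)) (fun l hl => ?_)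
          fun l _ l' _ h => (Prod.ext_iff.1 h).2
        have := mem_sdiff.1 (mem_coe.1 hl)
        simp only [Z, coe_filter, mem_filter, mem_product, mem_univ, and_true, Set.mem_ofPred_eq]
        exact ⟨hu, this.1, this.2⟩
      omega
    have hi : Z.card ≤ c0 * A * X.card := by
      have hsub : Z ⊆ X.biUnion fun u' => (adv u').biUnion fun l =>
          (univ.filter fun u => E l u' u).image fun u => (u, l) := fun p hp => by
        obtain ⟨hp1, hp2, hp3⟩ := mem_filter.1 hp
        obtain ⟨u', hu', he⟩ := C_mem_lab.1 hp2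
        have := h3 p.2 p.1 (mem_union_right _ (mem_product.1 hp1).1) u' (mem_union_left _ hu') he
        exact mem_biUnion.2 ⟨u', hu', mem_biUnion.2 ⟨p.2, this.resolve_left hp3,
          mem_image.2 ⟨p.1, mem_filter.2 ⟨mem_univ _, hs _ _ _ he⟩, rfl⟩⟩⟩
      refine (card_le_card hsub).trans ?_
      rw [mul_comm]
      refine card_biUnion_le_card_mul _ _ _ fun u' _ => ?_
      refine (card_biUnion_le_card_mul _ _ c0 fun l _ => card_image_le.trans
        (hE l u' _ fun b hb => (mem_filter.1 hb).2)).trans ?_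
      rw [mul_comm]
      exact Nat.mul_le_mul_left _ (h1 u')
    exact lo.trans hi
  have h1 : (C_heavy E (A + c0 * A * Θ) X).card ≤ X.card := by
    by_contra hc
    obtain ⟨H, hH, hcard⟩ := exists_subset_card_eq (s := C_heavy E (A + c0 * A * Θ) X)
      (n := X.card + 1) (by omega)
    have := key H hH hcard.le
    rw [hcard] at this
    have h2 : c0 * A * X.card ≤ c0 * A * Θ * X.card :=
      Nat.mul_le_mul_right _ (Nat.le_mul_of_pos_right _ hΘ)
    rw [add_mul, mul_add] at this
    omega
  have h2 := key _ subset_rfl (by omega)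
  rcases Nat.eq_zero_or_pos (c0 * A) with h0 | h0
  · rw [h0] at h2 ⊢
    simp only [zero_mul, zero_add, one_mul, Nat.le_zero] at h2 ⊢
    rw [h2]
    simp
  · refine Nat.le_of_mul_le_mul_left ?_ h0
    nlinarith

end Pool.Agent.P.MP_0354a7_al
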