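import Pool.Agent.P.MP_0354a7_al.Defs

/-!
Definitions and basic tools for the proof that the group is perfect.
-/

namespace Pool.Agent.P.MP_0354a7_al

open Real Finset

/-! ### Distance to the nearest integer -/

/-- The distance from `t` to the nearest integer. -/
noncomputable def nz (t : ℝ) : ℝ := |t - round t|

theorem nz_nonneg (t : ℝ) : 0 ≤ nz t := abs_nonneg _

theorem nz_le (t : ℝ) (n : ℤ) : nz t ≤ |t - n| := round_le t n

theorem nz_le_abs (t : ℝ) : nz t ≤ |t| := by simpa using nz_le t 0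

theorem nz_le_half (t : ℝ) : nz t ≤ 1 / 2 := abs_sub_round t

theorem nz_add_int (t : ℝ) (n : ℤ) : nz (t + n) = nz t := by
  simp only [nz, round_add_intCast, Int.cast_add]
  congr 1
  ring

theorem nz_sub_int (t : ℝ) (n : ℤ) : nz (t - n) = nz t := by
  have := nz_add_int t (-n)
  rwa [Int.cast_neg, ← sub_eq_add_neg] at this

theorem nz_add_one (t : ℝ) : nz (t + 1) = nz t := by simpa using nz_add_int t 1

theorem nz_neg (t : ℝ) : nz (-t) = nz t := by
  have k : ∀ s : ℝ, nz (-s) ≤ nz s := fun s => by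
    refine (nz_le (-s) (-round s)).trans (le_of_eq ?_)
    rw [nz, Int.cast_neg, ← abs_neg]
    congr 1
    ring
  exact le_antisymm (k t) (by simpa using k (-t))

theorem nz_sub_comm (a b : ℝ) : nz (a - b) = nz (b - a) := by rw [← nz_neg, neg_sub]

theorem nz_add_le (a b : ℝ) : nz (a + b) ≤ nz a + nz b := by
  refine (nz_le (a + b) (round a + round b)).trans ?_
  rw [nz, nz, Int.cast_add, show a + b - (round a + round b) = (a - round a) + (b - round b) by ring]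
  exact abs_add_le _ _

theorem nz_tri (a b c : ℝ) : nz (a - c) ≤ nz (a - b) + nz (b - c) := by
  have := nz_add_le (a - b) (b - c)
  rwa [show a - b + (b - c) = a - c by ring] at this

theorem nz_lip (a b : ℝ) : |nz a - nz b| ≤ |a - b| := by
  have h1 := nz_add_le b (a - b)
  have h2 := nz_add_le a (b - a)
  have h3 := nz_le_abs (a - b)
  have h4 := nz_le_abs (b - a)
  rw [show b + (a - b) = a by ring] at h1
  rw [show a + (b - a) = b by ring] at h2
  rw [abs_sub_comm b a] at h4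
  rw [abs_le]
  constructor <;> linarith

theorem continuous_nz : Continuous nz :=
  (LipschitzWith.of_dist_le_mul (K := 1) fun a b => by
    simpa [Real.dist_eq] using nz_lip a b).continuous

theorem nz_eq_abs {t : ℝ} (h : |t| ≤ 1 / 2) : nz t = |t| := by
  refine le_antisymm (nz_le_abs t) ?_
  rcases eq_or_ne (round t) 0 with h0 | h0
  · simp [nz, h0]
  · have h1 : (1 : ℝ) ≤ |(round t : ℝ)| := by exact_mod_cast Int.one_le_abs h0
    have h2 := abs_sub_abs_le_abs_sub (round t : ℝ) t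
    rw [abs_sub_comm] at h2
    unfold nz
    linarith

/-- At most `2 c + 1` points of the grid are within `c / n` of a given point. -/
theorem card_near (n c : ℕ) (hn : 0 < n) (x : ℝ) :
    (univ.filter fun W : Fin n => nz (x - (W : ℕ) / n) ≤ c / n).card ≤ 2 * c + 1 := by
  have hn' : (0 : ℝ) < n := by exact_mod_cast hn
  set a : ℤ := ⌈n * x - c⌉ with ha
  have : (univ.filter fun W : Fin n => nz (x - (W : ℕ) / n) ≤ c / n).card
      ≤ (Finset.Icc a (a + 2 * c)).card := by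
    refine Finset.card_le_card_of_injOn (fun W : Fin n => ((W : ℕ) : ℤ) + n * round (x - (W : ℕ) / n))
      (fun W hW => ?_) (fun W _ W' _ h => ?_)
    · have hW' : nz (x - (W : ℕ) / n) ≤ c / n := (Finset.mem_filter.1 hW).2
      have h1 := abs_le.1 hW'
      set q : ℤ := round (x - (W : ℕ) / n)
      have e : (n : ℝ) * (x - (W : ℕ) / n - q) = n * x - ((W : ℕ) + n * q) := by field_simp; ring
      have e2 : (n : ℝ) * (c / n) = c := by field_simp
      have h2 : n * x - ((W : ℕ) + n * q) ≤ c := by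
        rw [← e, ← e2]; exact mul_le_mul_of_nonneg_left h1.2 hn'.le
      have h3 : -c ≤ n * x - ((W : ℕ) + n * q) := by
        rw [← e, ← e2, ← mul_neg]; exact mul_le_mul_of_nonneg_left h1.1 hn'.le
      have h4 := Int.le_ceil (n * x - c)
      simp only [Finset.coe_Icc, Set.mem_Icc]
      constructor
      · rw [ha, Int.ceil_le]; push_cast; linarith
      · have : ((((W : ℕ) : ℤ) + n * q : ℤ) : ℝ) ≤ ((a + 2 * c : ℤ) : ℝ) := by
          push_cast; rw [ha]; linarith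
        exact_mod_cast this
    · have h1 : (((W : ℕ) : ℤ) + n * round (x - (W : ℕ) / n)) % n = (W : ℕ) := by
        rw [Int.add_mul_emod_self_left]
        exact Int.emod_eq_of_lt (by positivity) (by exact_mod_cast W.2)
      have h2 : (((W' : ℕ) : ℤ) + n * round (x - (W' : ℕ) / n)) % n = (W' : ℕ) := by
        rw [Int.add_mul_emod_self_left]
        exact Int.emod_eq_of_lt (by positivity) (by exact_mod_cast W'.2)
      have h' : ((W : ℕ) : ℤ) + n * round (x - (W : ℕ) / n)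
        = ((W' : ℕ) : ℤ) + n * round (x - (W' : ℕ) / n) := h
      rw [h', h2] at h1
      exact Fin.ext (by exact_mod_cast h1.symm)
  rw [Int.card_Icc] at this
  omega

/-- Every point is within `1 / (2 n)` of the grid. -/
theorem exists_near (n : ℕ) (hn : 0 < n) (x : ℝ) :
    ∃ W : Fin n, nz (x - (W : ℕ) / n) ≤ 1 / (2 * n) := by
  have hn' : (0 : ℝ) < n := by exact_mod_cast hn
  have hz : (0 : ℤ) < n := by exact_mod_cast hn
  set j : ℤ := round (n * x)
  have h0 := Int.emod_nonneg j hz.ne'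
  have h1 := Int.emod_lt_of_pos j hz
  refine ⟨⟨(j % n).toNat, by omega⟩, (nz_le _ (j / n)).trans ?_⟩
  have e : (((j % n).toNat : ℕ) : ℝ) = ((j % n : ℤ) : ℝ) := by
    rw [← Int.cast_natCast, Int.toNat_of_nonneg h0]
  have e2 : (j : ℝ) = n * ((j / n : ℤ) : ℝ) + ((j % n : ℤ) : ℝ) := by
    exact_mod_cast (Int.mul_ediv_add_emod j n).symm
  have e3 : x - ((j % n : ℤ) : ℝ) / n - ((j / n : ℤ) : ℝ) = (n * x - j) / n := by
    rw [e2]; field_simp; ring
  simp only [e]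
  rw [e3, abs_div, abs_of_pos hn', div_le_div_iff₀ hn' (by positivity)]
  have := abs_sub_round (n * x)
  nlinarith

/-! ### Periodic functions and maps -/

/-- Continuous and `1`-periodic. -/
def CP (f : ℝ → ℝ) : Prop := Continuous f ∧ ∀ x, f (x + 1) = f x

theorem CP.int {f : ℝ → ℝ} (h : CP f) (n : ℤ) (x : ℝ) : f (x + n) = f x := by
  have hp : Function.Periodic f 1 := h.2
  simpa using hp.int_mul n x

theorem CP.shift {f : ℝ → ℝ} (h : CP f) (a : ℝ) :
    ∫ x in a..a + 1, f x = ∫ x in (0 : ℝ)..1, f x := by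
  have hp : Function.Periodic f 1 := h.2
  simpa using hp.intervalIntegral_add_eq a 0

/-- A periodic `C^2` function with its two derivatives. -/
def C2P (q q1 q2 : ℝ → ℝ) : Prop :=
  (∀ x, HasDerivAt q (q1 x) x) ∧ (∀ x, HasDerivAt q1 (q2 x) x) ∧ Continuous q2 ∧
    ∀ x, q (x + 1) = q x

theorem per_d1 {q q1 : ℝ → ℝ} (h : ∀ x, HasDerivAt q (q1 x) x) (hp : ∀ x, q (x + 1) = q x)
    (x : ℝ) : q1 (x + 1) = q1 x := by
  have h1 : HasDerivAt (fun y => q (y + 1)) (q1 (x + 1)) x :=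
    HasDerivAt.comp_add_const x 1 (h (x + 1))
  rw [show (fun y => q (y + 1)) = q from funext hp] at h1
  exact h1.unique (h x)

theorem C2P.cp0 {q q1 q2 : ℝ → ℝ} (h : C2P q q1 q2) : CP q :=
  ⟨continuous_iff_continuousAt.2 fun x => (h.1 x).continuousAt, h.2.2.2⟩

theorem C2P.cp1 {q q1 q2 : ℝ → ℝ} (h : C2P q q1 q2) : CP q1 :=
  ⟨continuous_iff_continuousAt.2 fun x => (h.2.1 x).continuousAt, per_d1 h.1 h.2.2.2⟩

theorem C2P.cp2 {q q1 q2 : ℝ → ℝ} (h : C2P q q1 q2) : CP q2 :=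
  ⟨h.2.2.1, per_d1 h.2.1 h.cp1.2⟩

/-- The first derivative of a periodic function is bounded by the second. -/
theorem C2P.d1_le {q q1 q2 : ℝ → ℝ} (h : C2P q q1 q2) {ε : ℝ} (h2 : ∀ x, |q2 x| ≤ ε) (x : ℝ) :
    |q1 x| ≤ ε := by
  obtain ⟨z, z1, z2, hz⟩ := mvt_ex h.1 (show x ≤ x + 1 by linarith)
  rw [h.2.2.2, sub_self, add_sub_cancel_left, mul_one] at hz
  have := mvt_abs h.2.1 h2 x z
  rw [← hz, sub_zero] at this
  have e0 : 0 ≤ ε := (abs_nonneg _).trans (h2 0)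
  have : |x - z| ≤ 1 := by rw [abs_le]; constructor <;> linarith
  nlinarith

/-- A periodic diffeomorphism with nonlinearity at most `κ`. -/
def Good (κ : ℝ) (e : Equiv.Perm ℝ) : Prop := IsReg e ∧ Per e ∧ ∀ x, |nl e x| ≤ κ

namespace Good

variable {κ κ' : ℝ} {e e' : Equiv.Perm ℝ}

theorem nonneg (h : Good κ e) : 0 ≤ κ := (abs_nonneg _).trans (h.2.2 0)

theorem mono (h : Good κ e) (hκ : κ ≤ κ') : Good κ' e :=
  ⟨h.1, h.2.1, fun x => (h.2.2 x).trans hκ⟩

theorem ph_le (h : Good κ e) (x : ℝ) : |ph e x| ≤ κ := Reg.phi_le h.1 h.2.1 h.2.2 x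

theorem one (hκ : 0 ≤ κ) : Good κ 1 :=
  ⟨IsReg.one, fun _ => rfl, fun x => by rw [nl_one, abs_zero]; exact hκ⟩

theorem tr (τ : ℝ) : Good 0 (tr τ) :=
  ⟨(tr_reg τ).isReg, tr_per τ, fun x => by rw [(tr_reg τ).nl_eq, abs_zero]⟩

theorem mul (h : Good κ e) (h' : Good κ' e') : Good (κ * exp κ' + κ') (e * e') := by
  refine ⟨h.1.mul h'.1, h.2.1.mul h'.2.1, fun x => ?_⟩
  rw [h.1.nl_mul h'.1]
  refine (abs_add_le _ _).trans (add_le_add ?_ (h'.2.2 x))
  rw [abs_mul, abs_of_pos (exp_pos _)]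
  exact mul_le_mul (h.2.2 _) (exp_le_exp.2 (le_of_abs_le (h'.ph_le x))) (exp_pos _).le h.nonneg

theorem inv (h : Good κ e) : Good (κ * exp κ) e⁻¹ := by
  refine ⟨h.1.inv, h.2.1.inv, fun x => ?_⟩
  rw [h.1.nl_inv, abs_neg, abs_mul, abs_of_pos (exp_pos _)]
  exact mul_le_mul (h.2.2 _) (exp_le_exp.2 (by linarith [neg_le_of_abs_le (h.ph_le (e⁻¹ x))]))
    (exp_pos _).le h.nonneg

theorem lip (h : Good κ e) (x y : ℝ) : |e x - e y| ≤ exp κ * |x - y| := Reg.lip h.1 h.ph_le x y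

theorem lip_inv (h : Good κ e) (x y : ℝ) : |e⁻¹ x - e⁻¹ y| ≤ exp κ * |x - y| :=
  Reg.lip (Reg.inv h.1) (fun z => by rw [abs_neg]; exact h.ph_le _) x y

theorem le_lip (h : Good κ e) (x y : ℝ) : |x - y| ≤ exp κ * |e x - e y| := by
  simpa only [inv_ap] using h.lip_inv (e x) (e y)

theorem nz_lip (h : Good κ e) (x y : ℝ) : nz (e x - e y) ≤ exp κ * nz (x - y) := by
  have h1 := h.lip x (y + round (x - y))
  rw [h.2.1.int] at h1
  refine (nz_le _ (round (x - y))).trans ?_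
  rw [nz, show e x - e y - round (x - y) = e x - (e y + round (x - y)) by ring,
    show x - y - round (x - y) = x - (y + round (x - y)) by ring]
  exact h1

theorem nz_lip_inv (h : Good κ e) (x y : ℝ) : nz (e⁻¹ x - e⁻¹ y) ≤ exp κ * nz (x - y) := by
  have h1 := h.lip_inv x (y + round (x - y))
  rw [h.2.1.inv.int] at h1
  refine (nz_le _ (round (x - y))).trans ?_
  rw [nz, show e⁻¹ x - e⁻¹ y - round (x - y) = e⁻¹ x - (e⁻¹ y + round (x - y)) by ring,
    show x - y - round (x - y) = x - (y + round (x - y)) by ring]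
  exact h1

theorem nz_le_lip (h : Good κ e) (x y : ℝ) : nz (x - y) ≤ exp κ * nz (e x - e y) := by
  simpa only [inv_ap] using h.nz_lip_inv (e x) (e y)

end Good

theorem CP.comp {f : ℝ → ℝ} {e : Equiv.Perm ℝ} (h : CP f) (hr : IsReg e) (hp : Per e) :
    CP fun x => f (e x) :=
  ⟨h.1.comp (Reg.continuous hr), fun x => by simp only [hp x, h.2]⟩

theorem cp_ph {e : Equiv.Perm ℝ} (hr : IsReg e) (hp : Per e) : CP (ph e) :=
  ⟨Reg.continuous_phi hr, Reg.per_phi hr hp⟩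

theorem cp_nl {e : Equiv.Perm ℝ} (hr : IsReg e) (hp : Per e) : CP (nl e) :=
  ⟨hr.cont, Reg.per_a hr hp⟩

/-- Change of variables on the circle. -/
theorem CP.integral_comp {f : ℝ → ℝ} {e : Equiv.Perm ℝ} (h : CP f) (hr : IsReg e) (hp : Per e) :
    ∫ x in (0 : ℝ)..1, f (e x) * exp (ph e x) = ∫ x in (0 : ℝ)..1, f x := by
  have := intervalIntegral.integral_comp_mul_deriv (a := 0) (b := 1) (f := e)
    (f' := fun x => exp (ph e x)) (g := f) (fun x _ => hr.d1 x)
    (Reg.continuous_phi hr).rexp.continuousOn h.1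
  have e1 : e 1 = e 0 + 1 := by simpa using hp 0
  rw [e1, h.shift] at this
  exact this

/-- Fubini for a continuous function on a rectangle. -/
theorem swap_int {F : ℝ → ℝ → ℝ} (h : Continuous fun p : ℝ × ℝ => F p.1 p.2) {a b c d : ℝ}
    (hab : a ≤ b) (hcd : c ≤ d) :
    ∫ x in a..b, ∫ y in c..d, F x y = ∫ y in c..d, ∫ x in a..b, F x y := by
  simp only [intervalIntegral.integral_of_le hab, intervalIntegral.integral_of_le hcd]
  refine MeasureTheory.integral_integral_swap ?_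
  rw [MeasureTheory.Measure.prod_restrict]
  exact (h.continuousOn.integrableOn_compact (isCompact_Icc.prod isCompact_Icc)).mono_set
    (Set.prod_mono Set.Ioc_subset_Icc_self Set.Ioc_subset_Icc_self)

/-- Cauchy-Schwarz on the unit interval. -/
theorem cs_int {f g : ℝ → ℝ} (hf : Continuous f) (hg : Continuous g) :
    (∫ x in (0 : ℝ)..1, f x * g x) ^ 2 ≤ (∫ x in (0 : ℝ)..1, f x ^ 2) * ∫ x in (0 : ℝ)..1, g x ^ 2 := by
  have k : ∀ t : ℝ, 0 ≤ (∫ x in (0 : ℝ)..1, f x ^ 2) * (t * t)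
      + 2 * (∫ x in (0 : ℝ)..1, f x * g x) * t + ∫ x in (0 : ℝ)..1, g x ^ 2 := fun t => by
    have h0 : 0 ≤ ∫ x in (0 : ℝ)..1, (t * f x + g x) ^ 2 :=
      intervalIntegral.integral_nonneg zero_le_one fun x _ => sq_nonneg _
    have e : ∀ x, (t * f x + g x) ^ 2 = (t * t) * f x ^ 2 + (2 * t) * (f x * g x) + g x ^ 2 :=
      fun x => by ring
    simp only [e] at h0
    rw [intervalIntegral.integral_add, intervalIntegral.integral_add,
      intervalIntegral.integral_const_mul, intervalIntegral.integral_const_mul] at h0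
    · linarith
    all_goals exact Continuous.intervalIntegrable (by fun_prop) _ _
  have := discrim_le_zero k
  unfold discrim at this
  nlinarith

/-! ### Local agreement and products -/

/-- Two maps agree near `x`. -/
def Loc (e e' : Equiv.Perm ℝ) (x : ℝ) : Prop := (e : ℝ → ℝ) =ᶠ[nhds x] e'

theorem Loc.rfl' (e : Equiv.Perm ℝ) (x : ℝ) : Loc e e x := Filter.EventuallyEq.refl _ _

theorem Loc.symm {e e' : Equiv.Perm ℝ} {x : ℝ} (h : Loc e e' x) : Loc e' e x :=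
  Filter.EventuallyEq.symm h

theorem Loc.trans {e e' e'' : Equiv.Perm ℝ} {x : ℝ} (h : Loc e e' x) (h' : Loc e' e'' x) :
    Loc e e'' x := Filter.EventuallyEq.trans h h'

theorem Loc.eq {e e' : Equiv.Perm ℝ} {x : ℝ} (h : Loc e e' x) : e x = e' x := h.self_of_nhds

theorem Loc.ph_eq {e e' : Equiv.Perm ℝ} {x : ℝ} (h : Loc e e' x) : ph e x = ph e' x :=
  (ph_congr h).self_of_nhds

theorem Loc.mul {a a' b b' : Equiv.Perm ℝ} {x : ℝ} (ha : Loc a a' (b x)) (hb : Loc b b' x)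
    (hc : IsReg b) : Loc (a * b) (a' * b') x := by
  have h1 : ∀ᶠ y in nhds x, a (b y) = a' (b y) := (Reg.continuous hc).continuousAt.eventually ha
  filter_upwards [h1, hb] with y h1 h2
  simp only [Equiv.Perm.mul_apply]
  rw [h1, h2]

theorem Loc.inv {a a' : Equiv.Perm ℝ} {y : ℝ} (ha : Loc a a' (a⁻¹ y)) (hc : IsReg a) :
    Loc a⁻¹ a'⁻¹ y := by
  have h1 : ∀ᶠ z in nhds y, a (a⁻¹ z) = a' (a⁻¹ z) :=
    (Reg.continuous_inv hc).continuousAt.eventually ha
  filter_upwards [h1] with z h1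
  apply a'.injective
  rw [← h1, ap_inv, ap_inv]

/-- The product `e (n - 1) * ... * e 0`. -/
def pu (e : ℕ → Equiv.Perm ℝ) : ℕ → Equiv.Perm ℝ
  | 0 => 1
  | n + 1 => e n * pu e n

theorem pu_add (e : ℕ → Equiv.Perm ℝ) (a b : ℕ) :
    pu e (a + b) = pu (fun s => e (a + s)) b * pu e a := by
  induction b with
  | zero => simp [pu]
  | succ b ih => rw [← add_assoc, pu, ih, pu, mul_assoc]

theorem pu_congr {e e' : ℕ → Equiv.Perm ℝ} (n : ℕ) (h : ∀ j, j < n → e j = e' j) :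
    pu e n = pu e' n := by
  induction n with
  | zero => rfl
  | succ n ih => rw [pu, pu, h n (by omega), ih fun j hj => h j (by omega)]

theorem pu_reg {e : ℕ → Equiv.Perm ℝ} (n : ℕ) (h : ∀ j, j < n → IsReg (e j) ∧ Per (e j)) :
    IsReg (pu e n) ∧ Per (pu e n) := by
  induction n with
  | zero => exact ⟨IsReg.one, fun _ => rfl⟩
  | succ n ih =>
    have := ih fun j hj => h j (by omega)
    exact ⟨(h n (by omega)).1.mul this.1, (h n (by omega)).2.mul this.2⟩

theorem pu_bd {κ : ℝ} {e : ℕ → Equiv.Perm ℝ} (n : ℕ) (h : ∀ j, j < n → Good κ (e j)) (x : ℝ) :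
    |ph (pu e n) x| ≤ n * κ ∧ |nl (pu e n) x| ≤ n * κ * exp (n * κ) := by
  induction n with
  | zero => simp [pu, ph_one, nl_one]
  | succ n ih =>
    have i := ih fun j hj => h j (by omega)
    have g := h n (by omega)
    have r := pu_reg (e := e) n fun j hj => ⟨(h j (by omega)).1, (h j (by omega)).2.1⟩
    have k0 := g.nonneg
    rw [pu, g.1.ph_mul r.1, g.1.nl_mul r.1]
    push_cast
    refine ⟨(abs_add_le _ _).trans (by linarith [g.ph_le (pu e n x)]), (abs_add_le _ _).trans ?_⟩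
    rw [abs_mul, abs_of_pos (exp_pos _)]
    have h1 : |nl (e n) (pu e n x)| * exp (ph (pu e n) x) ≤ κ * exp (n * κ) :=
      mul_le_mul (g.2.2 _) (exp_le_exp.2 (le_of_abs_le i.1)) (exp_pos _).le k0
    have h2 : exp (n * κ) ≤ exp ((n + 1) * κ) := exp_le_exp.2 (by linarith)
    have h3 : 0 ≤ (n + 1) * κ := by positivity
    nlinarith [i.2]

theorem pu_good {κ : ℝ} {e : ℕ → Equiv.Perm ℝ} (n : ℕ) (h : ∀ j, j < n → Good κ (e j)) :
    Good (n * κ * exp (n * κ)) (pu e n) :=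
  have r := pu_reg (e := e) n fun j hj => ⟨(h j hj).1, (h j hj).2.1⟩
  ⟨r.1, r.2, fun x => (pu_bd n h x).2⟩

theorem pu_close {L d : ℝ} {e e' : ℕ → Equiv.Perm ℝ} (hL : 1 ≤ L) (hd : 0 ≤ d) (n : ℕ)
    (h : ∀ j, j < n → ∀ x y, |e j x - e' j y| ≤ L * |x - y| + d) (x y : ℝ) :
    |pu e n x - pu e' n y| ≤ L ^ n * (|x - y| + n * d) := by
  induction n with
  | zero => simp [pu]
  | succ n ih =>
    have i := ih fun j hj => h j (by omega)
    have g := h n (by omega) (pu e n x) (pu e' n y)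
    have h1 : 1 ≤ L ^ (n + 1) := one_le_pow₀ hL
    have h2 : L * |pu e n x - pu e' n y| ≤ L * (L ^ n * (|x - y| + n * d)) :=
      mul_le_mul_of_nonneg_left i (by linarith)
    simp only [pu, Equiv.Perm.mul_apply]
    push_cast
    rw [pow_succ] at h1 ⊢
    nlinarith

/-- The alignment maps. -/
def PP (S u : ℕ → Equiv.Perm ℝ) : ℕ → Equiv.Perm ℝ := pu fun i => (S i)⁻¹ * u i * S i

/-- The alignment maps as a family of `k` labels. -/
def PL (k : ℕ) (S u : ℕ → Equiv.Perm ℝ) (i : Fin k) : Equiv.Perm ℝ := PP S u (i + 1)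

theorem exp_small {t : ℝ} (h0 : 0 ≤ t) (h : t ≤ 1 / 50) : exp t ≤ 1 + 21 / 20 * t := by
  have h1 := Real.abs_exp_sub_one_sub_id_le (x := t) (by rw [abs_of_nonneg h0]; linarith)
  have := le_of_abs_le h1
  nlinarith

theorem good_step {κ : ℝ} {S u : Equiv.Perm ℝ} (hS : Good κ S) (hu : Good κ u) (h : κ ≤ 1 / 400) :
    Good (7 / 2 * κ) (S⁻¹ * u * S) := by
  have k0 := hS.nonneg
  have e1 := exp_small k0 (by linarith)
  have e0 := exp_pos κ
  refine ((hS.inv.mul hu).mul hS).mono ?_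
  have h1 : exp κ ≤ 11 / 10 := by linarith
  have h2 : κ * exp κ ≤ 11 / 10 * κ := by nlinarith
  have h3 : κ * exp κ * exp κ ≤ 121 / 100 * κ := by nlinarith
  nlinarith

theorem PP_good {k : ℕ} {κ : ℝ} {S u : ℕ → Equiv.Perm ℝ} (hS : ∀ i, i < k → Good κ (S i))
    (hu : ∀ i, i < k → Good κ (u i)) (h0 : 0 ≤ κ) (h : 400 * k * κ ≤ 1) (j : ℕ) (hj : j ≤ k) :
    Good (4 * k * κ) (PP S u j) := by
  have hj' : (j : ℝ) ≤ k := by exact_mod_cast hj
  have hj0 : (0 : ℝ) ≤ j := by positivity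
  refine (pu_good (κ := 7 / 2 * κ) j fun i hi => good_step (hS i (by omega)) (hu i (by omega)) ?_).mono ?_
  · have : (1 : ℝ) ≤ k := by exact_mod_cast (by omega : 1 ≤ k)
    nlinarith
  · have h1 : j * κ ≤ k * κ := mul_le_mul_of_nonneg_right hj' h0
    have h2 : 0 ≤ j * κ := by positivity
    have e1 := exp_small (t := j * (7 / 2 * κ)) (by positivity) (by nlinarith)
    have e2 : exp (j * (7 / 2 * κ)) ≤ 11 / 10 := by nlinarith
    nlinarith

theorem PP_close {k : ℕ} {κ a b : ℝ} {S u S' u' : ℕ → Equiv.Perm ℝ}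
    (hS : ∀ i, i < k → Good κ (S i)) (hu : ∀ i, i < k → Good κ (u i))
    (h0 : 0 ≤ κ) (h : 400 * k * κ ≤ 1) (ha0 : 0 ≤ a) (hb0 : 0 ≤ b)
    (ha : ∀ i, i < k → ∀ x, |S i x - S' i x| ≤ a) (hb : ∀ i, i < k → ∀ x, |u i x - u' i x| ≤ b)
    (j : ℕ) (hj : j ≤ k) (x : ℝ) : |PP S u j x - PP S' u' j x| ≤ 3 * k * (a + b) := by
  rcases Nat.eq_zero_or_pos j with rfl | hj0
  · simp only [PP, pu, sub_self, abs_zero]
    positivity
  have hk : (1 : ℝ) ≤ k := by exact_mod_cast (by omega : 1 ≤ k)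
  have hj' : (j : ℝ) ≤ k := by exact_mod_cast hj
  have e1 := exp_small h0 (by nlinarith)
  have e2 : exp κ ≤ 11 / 10 := by nlinarith
  have e0 : 1 ≤ exp κ := one_le_exp h0
  have := pu_close (L := exp (3 * κ)) (d := 5 / 2 * (a + b)) (e := fun i => (S i)⁻¹ * u i * S i)
    (e' := fun i => (S' i)⁻¹ * u' i * S' i) (one_le_exp (by linarith)) (by positivity) j
    (fun i hi y z => by
      have gS := hS i (by omega)
      have gu := hu i (by omega)
      simp only [Equiv.Perm.mul_apply]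
      set w := u' i (S' i z)
      have t1 := gS.le_lip ((S i)⁻¹ (u i (S i y))) ((S' i)⁻¹ w)
      have t2 := ha i (by omega) ((S' i)⁻¹ w)
      have t3 := gu.lip (S i y) (S' i z)
      have t4 := hb i (by omega) (S' i z)
      have t5 := gS.lip y z
      have t6 := ha i (by omega) z
      rw [ap_inv] at t1 t2
      have t7 : |S i y - S' i z| ≤ exp κ * |y - z| + a := by
        linarith [abs_sub_le (S i y) (S i z) (S' i z)]
      have t8 : |u i (S i y) - w| ≤ exp κ * (exp κ * |y - z| + a) + b := by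
        have := mul_le_mul_of_nonneg_left t7 (exp_pos κ).le
        linarith [abs_sub_le (u i (S i y)) (u i (S' i z)) w]
      have t9 : |u i (S i y) - S i ((S' i)⁻¹ w)| ≤ exp κ * (exp κ * |y - z| + a) + b + a := by
        rw [abs_sub_comm] at t2
        linarith [abs_sub_le (u i (S i y)) w (S i ((S' i)⁻¹ w))]
      have t10 := mul_le_mul_of_nonneg_left t9 (exp_pos κ).le
      have e3 : exp (3 * κ) = exp κ * (exp κ * exp κ) := by
        rw [← exp_add, ← exp_add]; congr 1; ring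
      have t11 : exp κ * exp κ ≤ 121 / 100 := by nlinarith
      have t12 : exp κ * exp κ * a ≤ 121 / 100 * a := mul_le_mul_of_nonneg_right t11 ha0
      have t13 : exp κ * a ≤ 11 / 10 * a := mul_le_mul_of_nonneg_right e2 ha0
      have t14 : exp κ * b ≤ 11 / 10 * b := mul_le_mul_of_nonneg_right e2 hb0
      rw [e3]
      nlinarith) x x
  rw [sub_self, abs_zero, zero_add, ← exp_nat_mul] at this
  have h1 : j * κ ≤ k * κ := mul_le_mul_of_nonneg_right hj' h0
  have e4 := exp_small (t := j * (3 * κ)) (by positivity) (by nlinarith)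
  have e5 : exp (j * (3 * κ)) ≤ 11 / 10 := by nlinarith
  have h2 : j * (5 / 2 * (a + b)) ≤ k * (5 / 2 * (a + b)) :=
    mul_le_mul_of_nonneg_right hj' (by positivity)
  have h3 : 0 ≤ j * (5 / 2 * (a + b)) := by positivity
  have h4 : 0 ≤ k * (a + b) := by positivity
  refine le_trans this ?_
  nlinarith

/-! ### Finite probability -/

/-- Expectation for independent coordinates with the weights `w`. -/
noncomputable def Ex {ι V : Type} [Fintype ι] [DecidableEq ι] [Fintype V] (w : V → ℝ)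
    (f : (ι → V) → ℝ) : ℝ := ∑ ξ : ι → V, (∏ j, w (ξ j)) * f ξ

section Prob

variable {ι V : Type} [Fintype ι] [DecidableEq ι] [Fintype V] {w : V → ℝ}

theorem Ex_mono (hw : ∀ v, 0 ≤ w v) {f g : (ι → V) → ℝ} (h : ∀ ξ, f ξ ≤ g ξ) : Ex w f ≤ Ex w g :=
  sum_le_sum fun ξ _ => mul_le_mul_of_nonneg_left (h ξ) (prod_nonneg fun _ _ => hw _)

theorem Ex_const (hw : ∑ v, w v = 1) (c : ℝ) : Ex w (fun _ : ι → V => c) = c := by
  have := Finset.prod_univ_sum (fun _ : ι => (univ : Finset V)) fun _ v => w v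
  rw [Fintype.piFinset_univ] at this
  rw [Ex, ← sum_mul, ← this]
  simp [hw]

theorem Ex_add (f g : (ι → V) → ℝ) : Ex w (fun ξ => f ξ + g ξ) = Ex w f + Ex w g := by
  simp only [Ex, mul_add, sum_add_distrib]

theorem Ex_mul (c : ℝ) (f : (ι → V) → ℝ) : Ex w (fun ξ => c * f ξ) = c * Ex w f := by
  simp only [Ex, mul_sum]
  exact sum_congr rfl fun _ _ => by ring

theorem Ex_sum {α : Type} (s : Finset α) (f : α → (ι → V) → ℝ) :
    Ex w (fun ξ => ∑ a ∈ s, f a ξ) = ∑ a ∈ s, Ex w (f a) := by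
  simp only [Ex, mul_sum]
  exact sum_comm

theorem abs_Ex_le (hw : ∀ v, 0 ≤ w v) (hs : ∑ v, w v = 1) {f : (ι → V) → ℝ} {c : ℝ}
    (h : ∀ ξ, |f ξ| ≤ c) : |Ex w f| ≤ c := by
  rw [abs_le]
  constructor
  · rw [← Ex_const (ι := ι) hs (-c)]
    exact Ex_mono hw fun ξ => neg_le_of_abs_le (h ξ)
  · rw [← Ex_const (ι := ι) hs c]
    exact Ex_mono hw fun ξ => le_of_abs_le (h ξ)

theorem exists_lt_of_Ex (hw : ∀ v, 0 ≤ w v) (hs : ∑ v, w v = 1) {f : (ι → V) → ℝ} {c : ℝ}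
    (h : Ex w f < c) : ∃ ξ, f ξ < c := by
  by_contra hc
  push Not at hc
  have := Ex_mono hw (f := fun _ => c) hc
  rw [Ex_const hs] at this
  linarith

/-- Resampling the coordinates in a set from an independent copy. -/
theorem Ex_merge (hs : ∑ v, w v = 1) (s : Finset ι) (f : (ι → V) → ℝ) :
    Ex w f = Ex w fun ω => Ex w fun ξ => f (s.piecewise ξ ω) := by
  let σ : (ι → V) × (ι → V) → (ι → V) × (ι → V) :=
    fun p => (s.piecewise p.2 p.1, s.piecewise p.1 p.2)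
  have inv : Function.Involutive σ := fun p => by
    refine Prod.ext (funext fun j => ?_) (funext fun j => ?_) <;>
      by_cases hj : j ∈ s <;> simp [σ, Finset.piecewise, hj]
  have e1 : Ex w f = ∑ p : (ι → V) × (ι → V), ((∏ j, w (p.1 j)) * ∏ j, w (p.2 j)) * f p.1 := by
    rw [Fintype.sum_prod_type, Ex]
    refine sum_congr rfl fun ω _ => ?_
    have := Ex_const (ι := ι) hs ((∏ j, w (ω j)) * f ω)
    rw [← this, Ex]
    exact sum_congr rfl fun _ _ => by ring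
  rw [e1, ← Equiv.sum_comp inv.toPerm, Fintype.sum_prod_type]
  simp only [Ex, mul_sum]
  refine sum_congr rfl fun ω _ => sum_congr rfl fun ξ _ => ?_
  simp only [Function.Involutive.coe_toPerm, σ]
  rw [← mul_assoc, ← prod_mul_distrib, ← prod_mul_distrib]
  congr 1
  refine prod_congr rfl fun j _ => ?_
  by_cases hj : j ∈ s <;> simp [Finset.piecewise, hj, mul_comm]

/-- Resampling one coordinate. -/
theorem Ex_update (hs : ∑ v, w v = 1) (j : ι) (f : (ι → V) → ℝ) :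
    Ex w f = Ex w fun ξ => ∑ v, w v * f (Function.update ξ j v) := by
  let σ : (ι → V) × V → (ι → V) × V := fun p => (Function.update p.1 j p.2, p.1 j)
  have inv : Function.Involutive σ := fun p => by simp [σ]
  have e1 : Ex w f = ∑ p : (ι → V) × V, ((∏ i, w (p.1 i)) * w p.2) * f p.1 := by
    rw [Fintype.sum_prod_type, Ex]
    refine sum_congr rfl fun ω _ => ?_
    simp only [mul_assoc]
    rw [← mul_sum, ← sum_mul, hs, one_mul]
  rw [e1, ← Equiv.sum_comp inv.toPerm, Fintype.sum_prod_type]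
  simp only [Ex, mul_sum]
  refine sum_congr rfl fun ω _ => sum_congr rfl fun v _ => ?_
  simp only [Function.Involutive.coe_toPerm, σ]
  rw [← mul_assoc]
  congr 1
  rw [← mul_prod_erase univ _ (mem_univ j), ← mul_prod_erase univ (fun i => w (ω i)) (mem_univ j),
    Function.update_self,
    prod_congr rfl fun i hi => by rw [Function.update_of_ne (ne_of_mem_erase hi)]]
  ring

end Prob

/-- A finite law on `[-1, 1]` approximating the density `15/16 (1 - t^2)^2` with mesh `γ`. -/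
structure Law {V : Type} [Fintype V] (γ : ℝ) (w val : V → ℝ) : Prop where
  nonneg : ∀ v, 0 ≤ w v
  sum : ∑ v, w v = 1
  bd : ∀ v, |val v| ≤ 1
  anti : ∀ a δ : ℝ, γ ≤ δ → ∑ v ∈ univ.filter (fun v => |val v - a| ≤ δ), w v ≤ 4 * δ
  riem : ∀ (F : ℝ → ℝ) (L : ℝ), (∀ s t, |F s - F t| ≤ L * |s - t|) →
    |∑ v, w v * F (val v) - ∫ t in (-1 : ℝ)..1, 15 / 16 * (1 - t ^ 2) ^ 2 * F t| ≤ L * γ

/-! ### Windows, walks, sparsity, gaps -/

/-- A family of maps `u c` depending on window coefficients `c`, `|c| ≤ r`; the window `W` is centred at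
`W / n`. -/
structure Fam (k n : ℕ) (κ r : ℝ) (S : ℕ → Equiv.Perm ℝ)
    (u : (Fin k × Fin n → ℝ) → ℕ → Equiv.Perm ℝ) : Prop where
  hS : ∀ i, i < k → Good κ (S i)
  hu : ∀ c, (∀ p, |c p| ≤ r) → ∀ i, i < k → Good κ (u c i)
  near : ∀ c, (∀ p, |c p| ≤ r) → ∀ i, i < k → ∀ x, |u c i x - u 0 i x| ≤ 5 * r
  other : ∀ c (i : Fin k) W s j, j ≠ (i : ℕ) → u (Function.update c (i, W) s) j = u c j
  far : ∀ c, (∀ p, |c p| ≤ r) → ∀ (i : Fin k) (W : Fin n) s, |s| ≤ r → ∀ x,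
    2 / (n : ℝ) ≤ nz (x - (W : ℕ) / n) →
    u (Function.update c (i, W) s) i x = u (Function.update c (i, W) 0) i x
  plat : ∀ c, (∀ p, |c p| ≤ r) → ∀ (i : Fin k) (W : Fin n) s, |s| ≤ r → ∀ x,
    nz (x - (W : ℕ) / n) ≤ 1 / (n : ℝ) →
    u (Function.update c (i, W) s) i x = u (Function.update c (i, W) 0) i x + s

/-- A small configuration in which every point has at least `A` labels towards the other side. -/
def Viol {k : ℕ} (A : ℕ) (P : Fin k → Equiv.Perm ℝ) (δ : ℝ) (M : ℕ) : Prop :=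
  ∃ X Y : Finset ℝ, (X ∪ Y).Nonempty ∧ X.card + Y.card ≤ M ∧
    (∀ x ∈ X, A ≤ (univ.filter fun i => ∃ y ∈ Y, nz (P i x - y) ≤ δ).card) ∧
    ∀ y ∈ Y, A ≤ (univ.filter fun i => ∃ x ∈ X, nz (P i x - y) ≤ δ).card

theorem Viol.mono {k A M M' : ℕ} {P P' : Fin k → Equiv.Perm ℝ} {δ δ' d : ℝ} (h : Viol A P δ M)
    (hP : ∀ i x, |P' i x - P i x| ≤ d) (hδ : δ + d ≤ δ') (hM : M ≤ M') : Viol A P' δ' M' := by
  obtain ⟨X, Y, h1, h2, h3, h4⟩ := h
  have k : ∀ i x y, nz (P i x - y) ≤ δ → nz (P' i x - y) ≤ δ' := fun i x y hxy => by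
    linarith [nz_tri (P' i x) (P i x) y, nz_le_abs (P' i x - P i x), hP i x]
  refine ⟨X, Y, h1, h2.trans hM, fun x hx => (h3 x hx).trans (card_le_card fun i hi => ?_),
    fun y hy => (h4 y hy).trans (card_le_card fun i hi => ?_)⟩
  · obtain ⟨y, hy, h⟩ := (mem_filter.1 hi).2
    exact mem_filter.2 ⟨mem_univ _, y, hy, k i x y h⟩
  · obtain ⟨x, hx, h⟩ := (mem_filter.1 hi).2
    exact mem_filter.2 ⟨mem_univ _, x, hx, k i x y h⟩

/-- The map after `t` steps of the walk `w`; the step with labels `a, b` is `P b * (P a)⁻¹`. -/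
def VW {k N : ℕ} (P : Fin k → Equiv.Perm ℝ) (w : Fin N → Fin k × Fin k) : ℕ → Equiv.Perm ℝ :=
  pu fun t => if h : t < N then P (w ⟨t, h⟩).2 * (P (w ⟨t, h⟩).1)⁻¹ else 1

/-- The receiver visited at the step `t` of the walk `w` started at `y`. -/
def rx {k N : ℕ} (P : Fin k → Equiv.Perm ℝ) (w : Fin N → Fin k × Fin k) (y : ℝ) (t : Fin N) : ℝ :=
  (P (w t).1)⁻¹ (VW P w t y)

/-- Every nontrivial visit of the walk has another visit within `δ`. -/
def NL {k N : ℕ} (P : Fin k → Equiv.Perm ℝ) (δ y : ℝ) (w : Fin N → Fin k × Fin k) : Prop :=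
  ∀ t, (w t).1 ≠ (w t).2 → ∃ t', t' ≠ t ∧ nz (rx P w y t - rx P w y t') ≤ δ

/-- The periodic tent kernel of width `l`. -/
noncomputable def tk (l t : ℝ) : ℝ := max 0 (1 - nz t / l) / l

/-- Convolution on the circle. -/
noncomputable def cv (a g : ℝ → ℝ) (y : ℝ) : ℝ := ∫ z in (0 : ℝ)..1, a (y - z) * g z

/-- The trace functional of the walks of length `N` against the kernel `a`. -/
noncomputable def HS {k : ℕ} (P : Fin k → Equiv.Perm ℝ) (a : ℝ → ℝ) (N : ℕ) : ℝ :=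
  ∫ z in (0 : ℝ)..1, ∫ y in (0 : ℝ)..1,
    (∑ w : Fin N → Fin k × Fin k, exp (ph (VW P w N) y / 2) * a (VW P w N y - z)) / (k : ℝ) ^ (2 * N)
      * a (y - z)

/-- The averaging operator contracts the band between the scales `l₀` and `l₁`. -/
def GAP {k : ℕ} (P : Fin k → Equiv.Perm ℝ) (l₀ l₁ ρ : ℝ) : Prop :=
  ∀ g, CP g → (∫ x in (0 : ℝ)..1,
    ((∑ i, cv (fun t => tk l₀ t - tk l₁ t) g (P i x) * exp (ph (P i) x / 2)) / k) ^ 2)
      ≤ ρ ^ 2 * ∫ x in (0 : ℝ)..1, g x ^ 2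

/-- Expansion of small sets. -/
def EXP {k : ℕ} (Λ σ β : ℝ) (P : Fin k → Equiv.Perm ℝ) : Prop :=
  ∀ g h : ℝ → ℝ, CP g → CP h → (∀ x, 0 ≤ g x ∧ g x ≤ 1) → (∀ x, 0 ≤ h x ∧ h x ≤ 1) →
    (∀ x y, |g x - g y| ≤ Λ * |x - y|) → (∫ x in (0 : ℝ)..1, g x) ≤ σ →
    (∫ x in (0 : ℝ)..1, (∑ i, g (P i x)) / k * h x)
      ≤ β * ((∫ x in (0 : ℝ)..1, g x) + ∫ x in (0 : ℝ)..1, h x)

/-- A translation by `τ` up to a perturbation of `C^3` size `η`. -/
def Smu (η τ : ℝ) (e : Equiv.Perm ℝ) : Prop :=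
  ∃ s s1 s2 : ℝ → ℝ, (∀ x, e x = x + τ + s x) ∧ C2P s s1 s2 ∧
    (∀ x, |s x| ≤ η ∧ |s1 x| ≤ η ∧ |s2 x| ≤ η) ∧ ∀ x y, |s2 x - s2 y| ≤ η * |x - y|

/-- Admissible window coefficients for the levels `m₀ ≤ n < M`. -/
def Adm (k M m₀ : ℕ) (r₀ : ℝ) (c : (Σ n : Fin M, Fin k × Fin (2 ^ (n : ℕ))) → ℝ) : Prop :=
  ∀ j, |c j| ≤ if m₀ ≤ (j.1 : ℕ) then r₀ * (1 / 2) ^ (4 * (j.1 : ℕ)) else 0

/-- A chain of `n` elementary moves of size `ε`. -/
def Links (ε : ℝ) (n : ℕ) (F F' : Equiv.Perm ℝ) : Prop :=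
  ∃ G : ℕ → Equiv.Perm ℝ, G 0 = F ∧ G n = F' ∧
    ∀ j, j < n → ∃ τ, 0 ≤ τ ∧ τ ≤ 1 ∧ Link ε τ (G j) (G (j + 1))

/-- The statement for small periodic maps. -/
def Core' : Prop :=
  ∃ ε₀ : ℝ, 0 < ε₀ ∧ ∀ F f : Equiv.Perm ℝ, Good ε₀ F → (∀ x, |x| ≤ 1 / 4 → F x = x) →
    (∀ x, -1 ≤ x → x ≤ 0 → f x = F x) → (∀ x, x ≤ -1 ∨ 0 ≤ x → f x = x) → f ∈ Comm

end Pool.Agent.P.MP_0354a7_al
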