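import Pool.Agent.P.MP_0354a7_al.PF.Bump

/-!
The seeds: measure estimate from expansion, and the addition of a family of seeds.
-/

namespace Pool.Agent.P.MP_0354a7_al

open Real Finset MeasureTheory

/-- Lebesgue measure as an integral. -/
noncomputable def vol (Z : Set ℝ) : ℝ := ∫ _ in Z, (1 : ℝ)

theorem vol_nonneg (Z : Set ℝ) : 0 ≤ vol Z := integral_nonneg fun _ => zero_le_one

theorem intOn {f : ℝ → ℝ} (hf : Continuous f) {Z : Set ℝ} (h : Z ⊆ Set.Icc 0 1) :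
    IntegrableOn f Z := hf.integrableOn_Icc.mono_set h

theorem setInt_le {f : ℝ → ℝ} (hf : Continuous f) (h0 : ∀ x, 0 ≤ f x) {Z : Set ℝ}
    (h : Z ⊆ Set.Icc 0 1) : ∫ x in Z, f x ≤ ∫ x in (0 : ℝ)..1, f x := by
  rw [intervalIntegral.integral_of_le zero_le_one, ← integral_Icc_eq_integral_Ioc]
  exact setIntegral_mono_set hf.integrableOn_Icc (Filter.Eventually.of_forall h0) h.eventuallyLE

theorem vol_le_int {f : ℝ → ℝ} (hf : Continuous f) (h0 : ∀ x, 0 ≤ f x) {Z : Set ℝ}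
    (hm : MeasurableSet Z) (h : Z ⊆ Set.Icc 0 1) {c : ℝ} (hc : ∀ x ∈ Z, c ≤ f x) :
    c * vol Z ≤ ∫ x in (0 : ℝ)..1, f x := by
  refine le_trans ?_ (setInt_le hf h0 h)
  rw [vol, ← integral_const_mul, mul_one]
  exact setIntegral_mono_on (intOn continuous_const h) (intOn hf h) hm hc

/-- The data attached to the seeds placed so far. -/
structure Geo (k : ℕ) where
  B : ℝ → ℝ
  R : ℝ → ℝ
  T : Fin k → ℝ → ℝ
  Zs : Set ℝ
  Zr : Set ℝ
  Zh : Set ℝ

/-- The invariant of the seeds. -/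
structure GI {k : ℕ} (H a ρ L δ η : ℝ) (p2 : ℝ → ℝ) (P : Fin k → Equiv.Perm ℝ) (g : Geo k) : Prop where
  tB : ∃ f1 f2, Tame (2 / H) (5 / H ^ 2) g.B f1 f2
  tT : ∀ i, ∃ f1 f2, Tame (2 / H) (5 / H ^ 2) (g.T i) f1 f2
  cR : CP g.R
  nR : ∀ x, 0 ≤ g.R x
  ms : MeasurableSet g.Zs
  mr : MeasurableSet g.Zr
  mh : MeasurableSet g.Zh
  ss : g.Zs ⊆ Set.Icc 0 1
  sr : g.Zr ⊆ Set.Icc 0 1
  sh : g.Zh ⊆ g.Zs
  iB : ∫ x in (0 : ℝ)..1, g.B x ≤ 32 * L * vol g.Zs
  iR : ∫ x in (0 : ℝ)..1, g.R x ≤ 32 * L * vol g.Zr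
  plS : ∀ y ∈ g.Zs, ∀ y', |y - y'| ≤ a → L ≤ g.B y'
  plR : ∀ y ∈ g.Zr, ∀ y', |y - y'| ≤ a → L ≤ g.R y'
  jR : ∀ x ∈ g.Zr, ∀ y : Fin k → ℝ, (∀ i, |y i - P i x| ≤ ρ) →
    δ / 30 ≤ (∑ i, (1 - exp (-g.B (y i)))) / k
  jS : ∀ y ∈ g.Zs \ g.Zh, ∀ x : Fin k → ℝ, (∀ i, |y - P i (x i)| ≤ ρ) →
    δ / 30 ≤ (∑ i, (1 - exp (-g.R (x i)))) / k
  rel : ∀ i x y, |y - P i x| ≤ ρ → g.R x ≤ 3 * g.T i y ∧ g.T i y ≤ 3 * g.R x
  hot : η * vol g.Zh ≤ ∫ x in g.Zh, |p2 x|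

theorem GI.mono {k : ℕ} {H a ρ H' a' ρ' L δ η d : ℝ} {p2 : ℝ → ℝ} {P P' : Fin k → Equiv.Perm ℝ}
    {g : Geo k} (h : GI H a ρ L δ η p2 P g) (H0 : 0 < H') (hH : H' ≤ H) (ha : a' ≤ a)
    (hP : ∀ i x, |P' i x - P i x| ≤ d) (hρ : ρ' + d ≤ ρ) : GI H' a' ρ' L δ η p2 P' g := by
  have k1 : 2 / H ≤ 2 / H' := div_le_div_of_nonneg_left zero_le_two H0 hH
  have k2 : 5 / H ^ 2 ≤ 5 / H' ^ 2 :=
    div_le_div_of_nonneg_left (by norm_num) (by positivity) (pow_le_pow_left₀ H0.le hH 2)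
  have k3 : ∀ i x y, |y - P' i x| ≤ ρ' → |y - P i x| ≤ ρ := fun i x y hy => by
    linarith [abs_sub_le y (P' i x) (P i x), hP i x]
  obtain ⟨f1, f2, hB⟩ := h.tB
  refine ⟨⟨f1, f2, hB.mono k1 k2⟩, fun i => ?_, h.cR, h.nR, h.ms, h.mr, h.mh, h.ss, h.sr, h.sh, h.iB,
    h.iR, fun y hy y' h' => h.plS y hy y' (h'.trans ha), fun y hy y' h' => h.plR y hy y' (h'.trans ha),
    fun x hx y hy => h.jR x hx y fun i => k3 i x _ (hy i),
    fun y hy x hx => h.jS y hy x fun i => k3 i _ y (hx i), fun i x y hy => h.rel i x y (k3 i x y hy),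
    h.hot⟩
  obtain ⟨f1, f2, hT⟩ := h.tT i
  exact ⟨f1, f2, hT.mono k1 k2⟩

/-- No seeds. -/
def Geo.zero (k : ℕ) : Geo k := ⟨fun _ => 0, fun _ => 0, fun _ _ => 0, ∅, ∅, ∅⟩

theorem GI.zero {k : ℕ} (H a ρ L δ η : ℝ) (p2 : ℝ → ℝ) (P : Fin k → Equiv.Perm ℝ) :
    GI H a ρ L δ η p2 P (Geo.zero k) :=
  ⟨⟨_, _, Tame.zero _ _⟩, fun _ => ⟨_, _, Tame.zero _ _⟩, ⟨continuous_const, fun _ => rfl⟩,
    fun _ => le_rfl, MeasurableSet.empty, MeasurableSet.empty, MeasurableSet.empty,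
    Set.empty_subset _, Set.empty_subset _, Set.empty_subset _, by simp [Geo.zero, vol],
    by simp [Geo.zero, vol], fun _ h => h.elim, fun _ h => h.elim, fun _ h => h.elim,
    fun _ h => h.1.elim, fun _ _ _ _ => by simp [Geo.zero], by simp [Geo.zero, vol]⟩

theorem half_le_one_sub {t : ℝ} (h : 1 ≤ t) : 1 / 2 ≤ 1 - exp (-t) := by
  have := (mul_expn_le (show 0 ≤ t by linarith)).1
  nlinarith [exp_pos (-t)]

theorem one_sub_exp_mem {t : ℝ} (h : 0 ≤ t) : 0 ≤ 1 - exp (-t) ∧ 1 - exp (-t) ≤ 1 :=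
  ⟨sub_nonneg.2 (exp_le_one_iff.2 (by linarith)), by linarith [exp_pos (-t)]⟩

theorem GI.meas {k : ℕ} (hk : 0 < k) {H a ρ L δ η σ β : ℝ} {p2 : ℝ → ℝ}
    {P : Fin k → Equiv.Perm ℝ} {g : Geo k} (h : GI H a ρ L δ η p2 P g)
    (hP : ∀ i, Good (1 / 100) (P i)) (H0 : 0 < H) (a0 : 0 ≤ a) (ρ0 : 0 ≤ ρ) (L1 : 1 ≤ L) (δ0 : 0 < δ)
    (hE : EXP (1 / H) σ β P) (hσ : 32 * L * vol g.Zs ≤ σ) (β0 : 0 ≤ β) (hβ : 12000 * L * β ≤ δ) :
    vol g.Zs + vol g.Zr ≤ 2 * vol g.Zh := by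
  have k0 : (0 : ℝ) < k := by exact_mod_cast hk
  obtain ⟨f1, f2, hB⟩ := h.tB
  have cB := hB.c.cp0
  have c1 : CP fun x => 1 - exp (-g.B x) :=
    ⟨by have := cB.1; fun_prop, fun x => by simp only [cB.2 x]⟩
  have c2 : CP fun x => 1 - exp (-g.R x) :=
    ⟨by have := h.cR.1; fun_prop, fun x => by simp only [h.cR.2 x]⟩
  have m1 := fun x => one_sub_exp_mem (hB.nn x)
  have m2 := fun x => one_sub_exp_mem (h.nR x)
  have i1 : ∫ x in (0 : ℝ)..1, (1 - exp (-g.B x)) ≤ 32 * L * vol g.Zs :=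
    (intervalIntegral.integral_mono_on zero_le_one (c1.1.intervalIntegrable _ _)
      (cB.1.intervalIntegrable _ _) fun x _ => by linarith [add_one_le_exp (-g.B x)]).trans h.iB
  have i2 : ∫ x in (0 : ℝ)..1, (1 - exp (-g.R x)) ≤ 32 * L * vol g.Zr :=
    (intervalIntegral.integral_mono_on zero_le_one (c2.1.intervalIntegrable _ _)
      (h.cR.1.intervalIntegrable _ _) fun x _ => by linarith [add_one_le_exp (-g.R x)]).trans h.iR
  have e := (hE _ _ c1 c2 m1 m2 (fun x y => by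
    rw [show 1 - exp (-g.B x) - (1 - exp (-g.B y)) = -(exp (-g.B x) - exp (-g.B y)) by ring, abs_neg]
    exact hB.exp_lip H0 x y) (i1.trans hσ)).trans (mul_le_mul_of_nonneg_left (add_le_add i1 i2) β0)
  have cP := fun i => (c1.comp (hP i).1 (hP i).2.1).1
  have cQ := fun i => c2.comp (hP i).1.inv (hP i).2.1.inv
  have l1 := vol_le_int (f := fun x => (∑ i, (1 - exp (-g.B (P i x)))) / k * (1 - exp (-g.R x)))
    (((continuous_finsetSum _ fun i _ => cP i).div_const _).mul c2.1)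
    (fun x => mul_nonneg (div_nonneg (sum_nonneg fun i _ => (m1 _).1) k0.le) (m2 x).1) h.mr h.sr
    (c := δ / 30 * (1 / 2)) fun x hx => mul_le_mul (h.jR x hx _ fun i => by simpa using ρ0)
      (half_le_one_sub (L1.trans (h.plR x hx x (by simpa using a0)))) (by norm_num)
      (div_nonneg (sum_nonneg fun i _ => (m1 _).1) k0.le)
  have l2 := vol_le_int (f := fun y => (∑ i, (1 - exp (-g.R ((P i)⁻¹ y)))) / k * (1 - exp (-g.B y)))
    (((continuous_finsetSum _ fun i _ => (cQ i).1).div_const _).mul c1.1)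
    (fun x => mul_nonneg (div_nonneg (sum_nonneg fun i _ => (m2 _).1) k0.le) (m1 x).1)
    (h.ms.diff h.mh) (Set.sdiff_subset.trans h.ss)
    (c := δ / 30 * (1 / 2)) fun y hy => mul_le_mul (h.jS y hy _ fun i => by simpa [ap_inv] using ρ0)
      (half_le_one_sub (L1.trans (h.plS y hy.1 y (by simpa using a0)))) (by norm_num)
      (div_nonneg (sum_nonneg fun i _ => (m2 _).1) k0.le)
  have l3 : ∫ y in (0 : ℝ)..1, (∑ i, (1 - exp (-g.R ((P i)⁻¹ y)))) / k * (1 - exp (-g.B y))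
      ≤ 2 * ∫ x in (0 : ℝ)..1, (∑ i, (1 - exp (-g.B (P i x)))) / k * (1 - exp (-g.R x)) := by
    simp only [div_mul_eq_mul_div, sum_mul, intervalIntegral.integral_div]
    rw [intervalIntegral.integral_finsetSum fun i _ => ((cQ i).1.fun_mul c1.1).intervalIntegrable _ _,
      intervalIntegral.integral_finsetSum fun i _ => ((cP i).fun_mul c2.1).intervalIntegrable _ _,
      ← mul_div_assoc, mul_sum]
    refine div_le_div_of_nonneg_right (sum_le_sum fun i _ => ?_) k0.le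
    have cf : CP fun y => (1 - exp (-g.R ((P i)⁻¹ y))) * (1 - exp (-g.B y)) :=
      ⟨(cQ i).1.mul c1.1, fun y => by simp only [(hP i).2.1.inv y, h.cR.2, cB.2]⟩
    rw [← cf.integral_comp (hP i).1 (hP i).2.1, ← intervalIntegral.integral_const_mul]
    refine intervalIntegral.integral_mono_on zero_le_one
      (((cf.comp (hP i).1 (hP i).2.1).1.mul (Reg.continuous_phi (hP i).1).rexp).intervalIntegrable _ _)
      ((continuous_const.mul ((cP i).mul c2.1)).intervalIntegrable _ _) fun x _ => ?_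
    have e2 : exp (ph (P i) x) ≤ 2 := by
      have := exp_small (t := 1 / 100) (by norm_num) (by norm_num)
      linarith [exp_le_exp.2 (le_of_abs_le ((hP i).ph_le x))]
    simp only [inv_ap]
    nlinarith [mul_le_mul_of_nonneg_left e2 (mul_nonneg (m2 x).1 (m1 (P i x)).1)]
  have v : vol (g.Zs \ g.Zh) = vol g.Zs - vol g.Zh :=
    setIntegral_sdiff h.mh (intOn continuous_const h.ss) h.sh
  rw [v] at l2
  have v0 := add_nonneg (vol_nonneg g.Zs) (vol_nonneg g.Zr)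
  have b1 := mul_le_mul_of_nonneg_right hβ v0
  have b2 : δ * (vol g.Zs + vol g.Zr) ≤ δ * (2 * vol g.Zh) := by
    nlinarith [mul_nonneg (mul_nonneg (show 0 ≤ L by linarith) β0) v0]
  exact le_of_mul_le_mul_left b2 δ0

/-! ### Cells -/

/-- The cell number `j` of length `1 / n`. -/
def cell (n : ℕ) (j : Fin n) : Set ℝ := Set.Ico (((j : ℕ) : ℝ) / n) ((((j : ℕ) : ℝ) + 1) / n)

/-- Its centre. -/
noncomputable def zc (n : ℕ) (j : Fin n) : ℝ := (((j : ℕ) : ℝ) + 1 / 2) / n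

/-- A union of cells. -/
def cs {n : ℕ} (F : Finset (Fin n)) : Set ℝ := ⋃ j ∈ F, cell n j

theorem mem_cs {n : ℕ} {F : Finset (Fin n)} {x : ℝ} : x ∈ cs F ↔ ∃ j ∈ F, x ∈ cell n j := by
  simp [cs]

theorem cell_near {n : ℕ} {j : Fin n} {x : ℝ} (h : x ∈ cell n j) : |x - zc n j| ≤ 1 / 2 * (1 / n) := by
  have h1 := h.1
  have h2 := h.2
  rw [zc, abs_le]
  rw [add_div] at h2 ⊢
  rw [show (1 / 2 : ℝ) / n = 1 / 2 * (1 / n) by ring]
  constructor <;> linarith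

theorem cell_sub {n : ℕ} (j : Fin n) : cell n j ⊆ Set.Icc 0 1 := fun x h => by
  have hn : (0 : ℝ) < n := by exact_mod_cast j.pos
  have h1 : (((j : ℕ) : ℝ) + 1) / n ≤ 1 := by
    rw [div_le_one hn]; exact_mod_cast j.2
  exact ⟨le_trans (by positivity) h.1, h.2.le.trans h1⟩

theorem cs_sub {n : ℕ} (F : Finset (Fin n)) : cs F ⊆ Set.Icc 0 1 := fun x h => by
  obtain ⟨j, -, hj⟩ := mem_cs.1 h
  exact cell_sub j hj

theorem cs_meas {n : ℕ} (F : Finset (Fin n)) : MeasurableSet (cs F) :=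
  F.measurableSet_biUnion fun _ _ => measurableSet_Ico

theorem exists_cell {n : ℕ} (hn : 0 < n) (y : ℝ) : ∃ (j : Fin n) (m : ℤ), y - m ∈ cell n j := by
  have hn' : (0 : ℝ) < n := by exact_mod_cast hn
  have f0 := Int.fract_nonneg y
  have f1 := Int.fract_lt_one y
  have g0 : 0 ≤ n * Int.fract y := by positivity
  refine ⟨⟨⌊n * Int.fract y⌋₊, (Nat.floor_lt g0).2 (by nlinarith)⟩, ⌊y⌋, ?_, ?_⟩
  · rw [div_le_iff₀ hn', Int.self_sub_floor, mul_comm (Int.fract y)]; exact Nat.floor_le g0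
  · rw [lt_div_iff₀ hn', Int.self_sub_floor, mul_comm (Int.fract y)]; exact Nat.lt_floor_add_one _

theorem int_union {n : ℕ} (F : Finset (Fin n)) {f : ℝ → ℝ} (hf : Continuous f) {Z : Set ℝ}
    (hZ : Z ⊆ Set.Icc 0 1) (hd : Disjoint Z (cs F)) :
    ∫ x in Z ∪ cs F, f x = (∫ x in Z, f x)
      + ∑ j ∈ F, ∫ x in (((j : ℕ) : ℝ) / n)..((((j : ℕ) : ℝ) + 1) / n), f x := by
  rw [setIntegral_union hd (cs_meas F) (intOn hf hZ) (intOn hf (cs_sub F)), cs,
    integral_biUnion_finset F (s := cell n) (fun _ _ => measurableSet_Ico) ?_ fun j _ => intOn hf (cell_sub j)]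
  · congr 1
    refine sum_congr rfl fun j _ => ?_
    have hn : (0 : ℝ) < n := by exact_mod_cast j.pos
    rw [cell, integral_Ico_eq_integral_Ioc, intervalIntegral.integral_of_le
      (div_le_div_of_nonneg_right (by linarith) hn.le)]
  · intro j _ j' _ hj
    have hn : (0 : ℝ) < n := by exact_mod_cast j.pos
    refine Set.disjoint_left.2 fun x h1 h2 => hj (Fin.ext ?_)
    have a1 : (((j : ℕ) : ℝ)) < (j' : ℕ) + 1 := (div_lt_div_iff_of_pos_right hn).1 (h1.1.trans_lt h2.2)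
    have a2 : (((j' : ℕ) : ℝ)) < (j : ℕ) + 1 := (div_lt_div_iff_of_pos_right hn).1 (h2.1.trans_lt h1.2)
    have b1 : (j : ℕ) < j' + 1 := by exact_mod_cast a1
    have b2 : (j' : ℕ) < j + 1 := by exact_mod_cast a2
    omega

theorem vol_union {n : ℕ} (F : Finset (Fin n)) {Z : Set ℝ} (hZ : Z ⊆ Set.Icc 0 1)
    (hd : Disjoint Z (cs F)) : vol (Z ∪ cs F) = vol Z + F.card * (1 / n) := by
  rw [vol, int_union F continuous_const hZ hd, vol]
  congr 1
  rw [← nsmul_eq_mul, ← sum_const]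
  refine sum_congr rfl fun j _ => ?_
  simp only [intervalIntegral.integral_const, smul_eq_mul]
  ring

/-- The sum of the bumps centred at a family of cells. -/
noncomputable def nb (L : ℝ) {n : ℕ} (F : Finset (Fin n)) (x : ℝ) : ℝ :=
  ∑ j ∈ F, bb (4 * L) (1 / n) (x - zc n j)

theorem nb_tame {L : ℝ} (L0 : 0 ≤ L) {n : ℕ} (hn : 0 < n) (F : Finset (Fin n)) :
    ∃ f1 f2, Tame (1 / (1 / n)) (4 / (1 / n) ^ 2) (nb L F) f1 f2 := by
  have hn' : (0 : ℝ) < 1 / n := by have : (0 : ℝ) < n := by exact_mod_cast hn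
                                   positivity
  choose f1 f2 h using fun j => bb_tame (L := 4 * L) (by linarith) hn' (zc n j)
  exact ⟨_, _, Tame.sum F h⟩

theorem bb_nonneg {L : ℝ} (L0 : 0 ≤ L) (H t : ℝ) : 0 ≤ bb L H t :=
  div_nonneg (by positivity) (add_nonneg (sq_nonneg _) (sq_nonneg _))

theorem nb_mono {L : ℝ} (L0 : 0 ≤ L) {n : ℕ} {F F' : Finset (Fin n)} (h : F ⊆ F') (x : ℝ) :
    nb L F x ≤ nb L F' x :=
  sum_le_sum_of_subset_of_nonneg h fun _ _ _ => bb_nonneg (by linarith) _ _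

theorem nb_nonneg {L : ℝ} (L0 : 0 ≤ L) {n : ℕ} (F : Finset (Fin n)) (x : ℝ) : 0 ≤ nb L F x :=
  sum_nonneg fun _ _ => bb_nonneg (by linarith) _ _

theorem nb_ge {L : ℝ} (L0 : 0 ≤ L) {n : ℕ} {F : Finset (Fin n)} {j : Fin n} (hj : j ∈ F) {x : ℝ}
    (hx : |x - zc n j| ≤ 3 / 2 * (1 / n)) : L ≤ nb L F x := by
  have hn' : (0 : ℝ) < n := by exact_mod_cast j.pos
  exact (bb_ge L0 (by positivity) hx).trans
    (single_le_sum (f := fun j => bb (4 * L) (1 / n) (x - zc n j))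
      (fun _ _ => bb_nonneg (by linarith) _ _) hj)

theorem nb_int {L : ℝ} (L0 : 0 ≤ L) {n : ℕ} (hn : 0 < n) (F : Finset (Fin n)) :
    ∫ x in (0 : ℝ)..1, nb L F x ≤ 32 * L * (F.card * (1 / n)) := by
  have hn' : (0 : ℝ) < 1 / n := by have : (0 : ℝ) < n := by exact_mod_cast hn
                                   positivity
  unfold nb
  rw [intervalIntegral.integral_finsetSum fun j _ => by
    obtain ⟨f1, f2, h⟩ := bb_tame (L := 4 * L) (by linarith) hn' (zc n j)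
    exact h.c.cp0.1.intervalIntegrable _ _]
  refine (sum_le_sum fun j _ => bb_int (L := 4 * L) (by linarith) hn' (zc n j)).trans (le_of_eq ?_)
  rw [sum_const, nsmul_eq_mul]
  ring

/-- The cells of one type in a family of seeds. -/
def sel {n : ℕ} (s : Bool) (Y : Finset (Bool × Fin n)) : Finset (Fin n) :=
  univ.filter fun j => (s, j) ∈ Y

theorem mem_sel {n : ℕ} {s : Bool} {Y : Finset (Bool × Fin n)} {j : Fin n} :
    j ∈ sel s Y ↔ (s, j) ∈ Y := by simp [sel]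

theorem sel_mono {n : ℕ} (s : Bool) {Y Y' : Finset (Bool × Fin n)} (h : Y ⊆ Y') :
    sel s Y ⊆ sel s Y' := fun _ hj => mem_sel.2 (h (mem_sel.1 hj))

open Classical in
/-- The addition of a family of seeds. -/
noncomputable def Geo.add {k n : ℕ} (g : Geo k) (L : ℝ) (P : Fin k → Equiv.Perm ℝ)
    (hot : Fin n → Prop) (Y : Finset (Bool × Fin n)) : Geo k where
  B x := g.B x + nb L (sel true Y) x
  R x := g.R x + nb L (sel false Y) x
  T i y := g.T i y + nb L (sel false Y) ((P i)⁻¹ y)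
  Zs := g.Zs ∪ cs (sel true Y)
  Zr := g.Zr ∪ cs (sel false Y)
  Zh := g.Zh ∪ cs ((sel true Y).filter hot)

/-- Every seed of the family is new and has a reason to be placed. -/
def Just {k n : ℕ} (g : Geo k) (L δ : ℝ) (P : Fin k → Equiv.Perm ℝ) (hot : Fin n → Prop)
    (Y : Finset (Bool × Fin n)) : Prop :=
  ∀ j, ((true, j) ∈ Y → (∃ y, |y - zc n j| ≤ 3 / 2 * (1 / n) ∧ g.B y < L) ∧
      (hot j ∨ ∃ y ∈ cell n j, δ < (∑ i, (1 - exp (-(g.add L P hot Y).T i y))) / k)) ∧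
    ((false, j) ∈ Y → (∃ y, |y - zc n j| ≤ 3 / 2 * (1 / n) ∧ g.R y < L) ∧
      ∃ x ∈ cell n j, δ < (∑ i, (1 - exp (-(g.add L P hot Y).B (P i x)))) / k)

theorem exp_three : exp 1 ≤ 3 ∧ exp 2 ≤ 10 ∧ exp 3 ≤ 30 := by
  have h := exp_one_lt_d9
  have h0 := exp_pos 1
  have e2 : exp 2 = exp 1 * exp 1 := by rw [← exp_add]; norm_num
  have e3 : exp 3 = exp 1 * exp 2 := by rw [← exp_add]; norm_num
  refine ⟨by linarith, by nlinarith, by nlinarith⟩

theorem avg_ge {k : ℕ} {δ : ℝ} {a b : Fin k → ℝ} (h : δ < (∑ i, (1 - exp (-a i))) / k)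
    (hab : ∀ i, a i ≤ 30 * b i) : δ / 30 ≤ (∑ i, (1 - exp (-b i))) / k := by
  have : 1 / 30 * ((∑ i, (1 - exp (-a i))) / k) ≤ (∑ i, (1 - exp (-b i))) / k := by
    rw [← mul_div_assoc, mul_sum]
    exact div_le_div_of_nonneg_right (sum_le_sum fun i _ =>
      one_sub_exp_ge (by norm_num) (by norm_num) (by linarith [hab i])) (Nat.cast_nonneg k)
  linarith

theorem avg_mono {k : ℕ} {a b : Fin k → ℝ} (hab : ∀ i, a i ≤ b i) :
    (∑ i, (1 - exp (-a i))) / k ≤ (∑ i, (1 - exp (-b i))) / k :=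
  div_le_div_of_nonneg_right (sum_le_sum fun i _ =>
    sub_le_sub_left (exp_le_exp.2 (neg_le_neg (hab i))) _) (Nat.cast_nonneg k)

theorem rel_nb {L : ℝ} (L0 : 0 ≤ L) {n : ℕ} (hn : 0 < n) (F : Finset (Fin n)) {x y : ℝ}
    (h : |x - y| ≤ 1 / n) : nb L F y ≤ 3 * nb L F x := by
  obtain ⟨f1, f2, hT⟩ := nb_tame L0 hn F
  have hn' : (0 : ℝ) < 1 / n := by have : (0 : ℝ) < n := by exact_mod_cast hn
                                   positivity
  refine (hT.log_lip x y).trans (mul_le_mul_of_nonneg_right ((exp_le_exp.2 ?_).trans exp_three.1)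
    (hT.nn x))
  rwa [one_div_mul_eq_div, div_le_one hn']

theorem GI.add' {k n : ℕ} (hn : 0 < n) {a ρ L δ η : ℝ} {p2 : ℝ → ℝ} {P : Fin k → Equiv.Perm ℝ}
    {g : Geo k} (h : GI (1 / n) a ρ L δ η p2 P g) (hP : ∀ i, Good (1 / 100) (P i)) (L0 : 0 ≤ L)
    (hρ : ρ ≤ 1 / 5 * (1 / n)) (hot : Fin n → Prop) (Y : Finset (Bool × Fin n)) :
    (∃ f1 f2, Tame (2 / (1 / n)) (5 / (1 / n) ^ 2) (g.add L P hot Y).B f1 f2) ∧
    (∀ i, ∃ f1 f2, Tame (2 / (1 / n)) (5 / (1 / n) ^ 2) ((g.add L P hot Y).T i) f1 f2) ∧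
    CP (g.add L P hot Y).R ∧
    ∀ i x y, |y - P i x| ≤ ρ → (g.add L P hot Y).R x ≤ 3 * (g.add L P hot Y).T i y ∧
      (g.add L P hot Y).T i y ≤ 3 * (g.add L P hot Y).R x := by
  have n1 : (1 : ℝ) ≤ n := by exact_mod_cast hn
  have H0 : (0 : ℝ) < 1 / n := by positivity
  have H1 : (1 : ℝ) / n ≤ 1 := by rw [div_le_one (by linarith)]; exact n1
  have e1 : exp (1 / 100 : ℝ) ≤ 102 / 100 := by
    have := exp_small (t := 1 / 100) (by norm_num) (by norm_num)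
    linarith
  obtain ⟨f1, f2, hB⟩ := h.tB
  obtain ⟨s1, s2, hs⟩ := nb_tame L0 hn (sel true Y)
  obtain ⟨r1, r2, hr⟩ := nb_tame L0 hn (sel false Y)
  refine ⟨⟨_, _, hB.add (hs.mono (div_le_div_of_nonneg_right one_le_two H0.le)
    (div_le_div_of_nonneg_right (by norm_num) (by positivity)))⟩, fun i => ?_,
    ⟨h.cR.1.add hr.c.cp0.1, fun x => by simp only [Geo.add, h.cR.2 x, hr.c.cp0.2 x]⟩,
    fun i x y hy => ?_⟩
  · obtain ⟨t1, t2, hT⟩ := h.tT i
    exact ⟨_, _, hT.add (hr.comp H0 H1 ((hP i).inv.mono (by linarith)))⟩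
  · have h1 := (hP i).lip_inv y (P i x)
    rw [inv_ap] at h1
    have h2 : |(P i)⁻¹ y - x| ≤ 1 / n := by
      nlinarith [mul_le_mul e1 (hy.trans hρ) (abs_nonneg _) (by norm_num)]
    have h3 := rel_nb L0 hn (sel false Y) h2
    rw [abs_sub_comm] at h2
    have h4 := rel_nb L0 hn (sel false Y) h2
    have h5 := h.rel i x y hy
    simp only [Geo.add]
    constructor <;> linarith

theorem GI.add {k n : ℕ} (hn : 0 < n) {ρ L δ η : ℝ} {p2 : ℝ → ℝ} {P : Fin k → Equiv.Perm ℝ}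
    {g : Geo k} (h : GI (1 / n) (2 * (1 / n)) ρ L δ η p2 P g) (hP : ∀ i, Good (1 / 100) (P i))
    (L0 : 0 ≤ L) (hρ : ρ ≤ 1 / 5 * (1 / n)) (c2 : Continuous p2) {hot : Fin n → Prop}
    (hh : ∀ j, hot j → η * (1 / n) ≤ ∫ x in (((j : ℕ) : ℝ) / n)..((((j : ℕ) : ℝ) + 1) / n), |p2 x|)
    {Y : Finset (Bool × Fin n)} (hY : Just g L δ P hot Y) :
    GI (1 / n) (1 / n) ρ L δ η p2 P (g.add L P hot Y) ∧
      vol (g.add L P hot Y).Zs = vol g.Zs + (sel true Y).card * (1 / n) ∧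
      vol (g.add L P hot Y).Zr = vol g.Zr + (sel false Y).card * (1 / n) := by
  classical
  have n1 : (1 : ℝ) ≤ n := by exact_mod_cast hn
  have H0 : (0 : ℝ) < 1 / n := by positivity
  obtain ⟨⟨f1, f2, hB⟩, hT, hR, hrel⟩ := h.add' hn hP L0 hρ hot Y
  have tri : ∀ {j : Fin n} {x y : ℝ}, x ∈ cell n j → |y - zc n j| ≤ 3 / 2 * (1 / n) →
      |x - y| ≤ 2 * (1 / n) := fun {j x y} hx hy => by
    rw [abs_sub_comm] at hy
    linarith [abs_sub_le x (zc n j) y, cell_near hx]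
  have tri' : ∀ {j : Fin n} {x y : ℝ}, x ∈ cell n j → |x - y| ≤ 1 / n →
      |y - zc n j| ≤ 3 / 2 * (1 / n) := fun {j x y} hx hy => by
    rw [abs_sub_comm] at hy
    linarith [abs_sub_le y x (zc n j), cell_near hx]
  have tri2 : ∀ {j : Fin n} {x y : ℝ}, x ∈ cell n j → y ∈ cell n j → |x - y| ≤ 1 / n :=
    fun {j x y} hx hy => by
      have := cell_near hy
      rw [abs_sub_comm] at this
      linarith [abs_sub_le x (zc n j) y, cell_near hx]
  have ds : Disjoint g.Zs (cs (sel true Y)) := Set.disjoint_left.2 fun x hx hc => by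
    obtain ⟨j, hj, hxj⟩ := mem_cs.1 hc
    obtain ⟨y, y1, y2⟩ := ((hY j).1 (mem_sel.1 hj)).1
    linarith [h.plS x hx y (tri hxj y1)]
  have dr : Disjoint g.Zr (cs (sel false Y)) := Set.disjoint_left.2 fun x hx hc => by
    obtain ⟨j, hj, hxj⟩ := mem_cs.1 hc
    obtain ⟨y, y1, y2⟩ := ((hY j).2 (mem_sel.1 hj)).1
    linarith [h.plR x hx y (tri hxj y1)]
  have sub : cs ((sel true Y).filter hot) ⊆ cs (sel true Y) := fun x hx => by
    obtain ⟨j, hj, hxj⟩ := mem_cs.1 hx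
    exact mem_cs.2 ⟨j, (mem_filter.1 hj).1, hxj⟩
  have dh : Disjoint g.Zh (cs ((sel true Y).filter hot)) := ds.mono h.sh sub
  have vs := vol_union _ h.ss ds
  have vr := vol_union _ h.sr dr
  obtain ⟨b1, b2, hB0⟩ := h.tB
  obtain ⟨s1, s2, hs⟩ := nb_tame L0 hn (sel true Y)
  obtain ⟨r1, r2, hr⟩ := nb_tame L0 hn (sel false Y)
  have e1 : exp (1 / 100 : ℝ) ≤ 102 / 100 := by
    have := exp_small (t := 1 / 100) (by norm_num) (by norm_num)
    linarith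
  refine ⟨⟨⟨f1, f2, hB⟩, hT, hR, fun x => add_nonneg (h.nR x) (hr.nn x), h.ms.union (cs_meas _),
    h.mr.union (cs_meas _), h.mh.union (cs_meas _), Set.union_subset h.ss (cs_sub _),
    Set.union_subset h.sr (cs_sub _), Set.union_subset_union h.sh sub, ?_, ?_, fun y hy y' h' => ?_,
    fun y hy y' h' => ?_, fun x hx y hy => ?_, fun y hy x hx => ?_, hrel, ?_⟩, vs, vr⟩
  · simp only [Geo.add]
    rw [vs, intervalIntegral.integral_add (hB0.c.cp0.1.intervalIntegrable _ _)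
      (hs.c.cp0.1.intervalIntegrable _ _)]
    linarith [h.iB, nb_int L0 hn (sel true Y)]
  · simp only [Geo.add]
    rw [vr, intervalIntegral.integral_add (h.cR.1.intervalIntegrable _ _)
      (hr.c.cp0.1.intervalIntegrable _ _)]
    linarith [h.iR, nb_int L0 hn (sel false Y)]
  · rcases hy with hy | hy
    · exact le_add_of_le_of_nonneg (h.plS y hy y' (by linarith)) (hs.nn _)
    · obtain ⟨j, hj, hxj⟩ := mem_cs.1 hy
      exact le_add_of_nonneg_of_le (hB0.nn _) (nb_ge L0 hj (tri' hxj h'))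
  · rcases hy with hy | hy
    · exact le_add_of_le_of_nonneg (h.plR y hy y' (by linarith)) (hr.nn _)
    · obtain ⟨j, hj, hxj⟩ := mem_cs.1 hy
      exact le_add_of_nonneg_of_le (h.nR _) (nb_ge L0 hj (tri' hxj h'))
  · rcases hx with hx | hx
    · exact (h.jR x hx y hy).trans (avg_mono fun i => le_add_of_nonneg_right (hs.nn _))
    · obtain ⟨j, hj, hxj⟩ := mem_cs.1 hx
      obtain ⟨x', x1, x2⟩ := ((hY j).2 (mem_sel.1 hj)).2
      refine avg_ge x2 fun i => (hB.log_lip (y i) (P i x')).trans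
        (mul_le_mul_of_nonneg_right ((exp_le_exp.2 ?_).trans exp_three.2.2) (hB.nn _))
      have h1 := ((hP i).lip x x').trans (mul_le_mul e1 (tri2 hxj x1) (abs_nonneg _) (by norm_num))
      rw [div_mul_eq_mul_div, div_le_iff₀ H0]
      linarith [abs_sub_le (y i) (P i x) (P i x'), hy i]
  · rcases hy.1 with hy1 | hy1
    · exact (h.jS y ⟨hy1, fun c => hy.2 (Or.inl c)⟩ x hx).trans
        (avg_mono fun i => le_add_of_nonneg_right (hr.nn _))
    · obtain ⟨j, hj, hxj⟩ := mem_cs.1 hy1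
      rcases ((hY j).1 (mem_sel.1 hj)).2 with c | ⟨y', y1, y2⟩
      · exact absurd (Or.inr (mem_cs.2 ⟨j, mem_filter.2 ⟨hj, c⟩, hxj⟩)) hy.2
      · refine avg_ge y2 fun i => ?_
        obtain ⟨t1, t2, hT'⟩ := hT i
        have h1 := (hT'.log_lip y y').trans (mul_le_mul_of_nonneg_right
          ((exp_le_exp.2 (show _ ≤ 2 by
            rw [div_mul_eq_mul_div, div_le_iff₀ H0]; linarith [tri2 hxj y1])).trans exp_three.2.1)
          (hT'.nn _))
        linarith [(hrel i (x i) y (hx i)).2]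
  · simp only [Geo.add]
    rw [vol_union _ (h.sh.trans h.ss) dh, int_union _ c2.abs (h.sh.trans h.ss) dh, mul_add]
    refine add_le_add h.hot ?_
    rw [mul_left_comm, ← nsmul_eq_mul, ← sum_const]
    exact sum_le_sum fun j hj => hh j (mem_filter.1 hj).2

end Pool.Agent.P.MP_0354a7_al
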