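import Pool.Agent.P.MP_0354a7_al.PF.Defs

/-!
The tent kernel and convolution on the circle.
-/

namespace Pool.Agent.P.MP_0354a7_al

open Real Finset

theorem tk_cp (l : ℝ) : CP (tk l) := by
  refine ⟨?_, fun x => by simp only [tk, nz_add_one]⟩
  have := continuous_nz
  unfold tk
  fun_prop

theorem tk_nonneg {l : ℝ} (hl : 0 < l) (t : ℝ) : 0 ≤ tk l t :=
  div_nonneg (le_max_left _ _) hl.le

theorem tk_le {l : ℝ} (hl : 0 < l) (t : ℝ) : tk l t ≤ 1 / l := by
  refine div_le_div_of_nonneg_right (max_le zero_le_one ?_) hl.le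
  have := div_nonneg (nz_nonneg t) hl.le
  linarith

theorem tk_neg (l t : ℝ) : tk l (-t) = tk l t := by simp only [tk, nz_neg]

theorem tk_zero {l t : ℝ} (hl : 0 < l) (h : l ≤ nz t) : tk l t = 0 := by
  have : 1 ≤ nz t / l := by rwa [le_div_iff₀ hl, one_mul]
  rw [tk, max_eq_left (by linarith), zero_div]

theorem tk_lip {l : ℝ} (hl : 0 < l) (s t : ℝ) : |tk l s - tk l t| ≤ |s - t| / l ^ 2 := by
  have h1 := abs_max_sub_max_le_max (0 : ℝ) (1 - nz s / l) 0 (1 - nz t / l)
  rw [sub_self, abs_zero, max_eq_right (abs_nonneg (1 - nz s / l - (1 - nz t / l))),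
    show 1 - nz s / l - (1 - nz t / l) = (nz t - nz s) / l by ring, abs_div, abs_of_pos hl,
    abs_sub_comm (nz t)] at h1
  rw [tk, tk, ← sub_div, abs_div, abs_of_pos hl, sq, ← div_div]
  exact div_le_div_of_nonneg_right
    (h1.trans (div_le_div_of_nonneg_right (nz_lip s t) hl.le)) hl.le

theorem K_eq {l t : ℝ} (hl : 0 < l) (h : nz t ≤ l) : tk l t = (1 - nz t / l) / l := by
  have : nz t / l ≤ 1 := by rwa [div_le_iff₀ hl, one_mul]
  rw [tk, max_eq_right (by linarith)]

theorem tk_int {l : ℝ} (hl : 0 < l) (h2 : l ≤ 1 / 2) : ∫ t in (0 : ℝ)..1, tk l t = 1 := by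
  have hc := (tk_cp l).1
  rw [← (tk_cp l).shift (-l),
    ← intervalIntegral.integral_add_adjacent_intervals (b := 0) (hc.intervalIntegrable _ _)
      (hc.intervalIntegrable _ _),
    ← intervalIntegral.integral_add_adjacent_intervals (a := 0) (b := l) (hc.intervalIntegrable _ _)
      (hc.intervalIntegrable _ _)]
  have e1 : ∫ t in (-l)..0, tk l t = ∫ t in (-l)..0, (1 / l + 1 / l ^ 2 * t) := by
    refine intervalIntegral.integral_congr fun t ht => ?_
    rw [Set.uIcc_of_le (by linarith)] at ht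
    have h3 : nz t = -t := by
      rw [nz_eq_abs (by rw [abs_of_nonpos ht.2]; linarith [ht.1]), abs_of_nonpos ht.2]
    rw [K_eq hl (by rw [h3]; linarith [ht.1]), h3]
    field_simp
    ring
  have e2 : ∫ t in (0 : ℝ)..l, tk l t = ∫ t in (0 : ℝ)..l, (1 / l + (-1 / l ^ 2) * t) := by
    refine intervalIntegral.integral_congr fun t ht => ?_
    rw [Set.uIcc_of_le hl.le] at ht
    have h3 : nz t = t := by
      rw [nz_eq_abs (by rw [abs_of_nonneg ht.1]; linarith [ht.2]), abs_of_nonneg ht.1]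
    rw [K_eq hl (by rw [h3]; exact ht.2), h3]
    field_simp
    ring
  have e3 : ∫ t in l..(-l + 1), tk l t = ∫ _ in l..(-l + 1), (0 : ℝ) := by
    refine intervalIntegral.integral_congr fun t ht => ?_
    rw [Set.uIcc_of_le (by linarith)] at ht
    refine tk_zero hl ?_
    unfold nz
    rcases le_or_gt (round t) 0 with h | h
    · have : (round t : ℝ) ≤ 0 := by exact_mod_cast h
      exact le_trans (by linarith [ht.1]) (le_abs_self _)
    · have : (1 : ℝ) ≤ round t := by exact_mod_cast h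
      exact le_trans (by linarith [ht.2]) (neg_le_abs _)
  rw [e1, e2, e3, intervalIntegral.integral_add, intervalIntegral.integral_add]
  · rw [intervalIntegral.integral_const_mul (1 / l ^ 2) fun t => t,
      intervalIntegral.integral_const_mul (-1 / l ^ 2) fun t => t]
    simp only [intervalIntegral.integral_const, integral_id, smul_eq_mul]
    field_simp
    ring
  all_goals exact Continuous.intervalIntegrable (by fun_prop) _ _

theorem K_refl {F : ℝ → ℝ} (h : CP F) (y : ℝ) :
    ∫ z in (0 : ℝ)..1, F (y - z) = ∫ t in (0 : ℝ)..1, F t := by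
  rw [intervalIntegral.integral_comp_sub_left F y, ← h.shift (y - 1)]
  congr 1
  ring

theorem K_trans {F : ℝ → ℝ} (h : CP F) (t : ℝ) :
    ∫ x in (0 : ℝ)..1, F (x - t) = ∫ x in (0 : ℝ)..1, F x := by
  rw [intervalIntegral.integral_comp_sub_right F t, ← h.shift (0 - t)]
  congr 1
  ring

theorem K_per_sub {g : ℝ → ℝ} (hg : CP g) (x : ℝ) : g (x - 1) = g x := by
  rw [← hg.2 (x - 1), sub_add_cancel]

theorem cv_cp {a g : ℝ → ℝ} (ha : CP a) (hg : CP g) : CP (cv a g) := by
  have h1 := ha.1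
  have h2 := hg.1
  refine ⟨?_, fun x => ?_⟩
  · exact intervalIntegral.continuous_parametric_intervalIntegral_of_continuous'
      (f := fun y z => a (y - z) * g z) (by fun_prop) 0 1
  · unfold cv
    refine intervalIntegral.integral_congr fun z _ => ?_
    rw [show x + 1 - z = x - z + 1 by ring, ha.2]

theorem cv_eq {a g : ℝ → ℝ} (ha : CP a) (hg : CP g) (y : ℝ) :
    cv a g y = ∫ t in (0 : ℝ)..1, a t * g (y - t) := by
  have h1 := ha.1
  have h2 := hg.1
  have h : CP fun t => a t * g (y - t) := ⟨by fun_prop, fun x => by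
    simp only
    rw [ha.2, show y - (x + 1) = y - x - 1 by ring, K_per_sub hg]⟩
  rw [← K_refl h y, cv]
  simp only [sub_sub_cancel]

theorem cv_sub_left {a b g : ℝ → ℝ} (ha : CP a) (hb : CP b) (hg : CP g) (y : ℝ) :
    cv (fun t => a t - b t) g y = cv a g y - cv b g y := by
  have h1 := ha.1
  have h2 := hg.1
  have h3 := hb.1
  simp only [cv, sub_mul]
  exact intervalIntegral.integral_sub (Continuous.intervalIntegrable (by fun_prop) _ _)
    (Continuous.intervalIntegrable (by fun_prop) _ _)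

theorem cv_add_right {a f g : ℝ → ℝ} (ha : CP a) (hf : CP f) (hg : CP g) (y : ℝ) :
    cv a (fun t => f t + g t) y = cv a f y + cv a g y := by
  have h1 := ha.1
  have h2 := hg.1
  have h3 := hf.1
  simp only [cv, mul_add]
  exact intervalIntegral.integral_add (Continuous.intervalIntegrable (by fun_prop) _ _)
    (Continuous.intervalIntegrable (by fun_prop) _ _)

theorem cv_sub_right {a f g : ℝ → ℝ} (ha : CP a) (hf : CP f) (hg : CP g) (y : ℝ) :
    cv a (fun t => f t - g t) y = cv a f y - cv a g y := by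
  have h1 := ha.1
  have h2 := hg.1
  have h3 := hf.1
  simp only [cv, mul_sub]
  exact intervalIntegral.integral_sub (Continuous.intervalIntegrable (by fun_prop) _ _)
    (Continuous.intervalIntegrable (by fun_prop) _ _)

theorem cv_adj {a f g : ℝ → ℝ} (ha : CP a) (he : ∀ t, a (-t) = a t) (hf : CP f) (hg : CP g) :
    ∫ x in (0 : ℝ)..1, cv a f x * g x = ∫ x in (0 : ℝ)..1, f x * cv a g x := by
  have h1 := ha.1
  have h2 := hg.1
  have h3 := hf.1
  simp only [cv, ← intervalIntegral.integral_mul_const, ← intervalIntegral.integral_const_mul]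
  rw [swap_int (F := fun x z => a (x - z) * f z * g x) (by fun_prop) zero_le_one zero_le_one]
  refine intervalIntegral.integral_congr fun z _ => intervalIntegral.integral_congr fun x _ => ?_
  rw [← he (z - x), neg_sub]
  ring

theorem cv_cv {a b g : ℝ → ℝ} (ha : CP a) (hb : CP b) (hg : CP g) :
    cv a (cv b g) = cv b (cv a g) := by
  have h1 := ha.1
  have h2 := hg.1
  have h3 := hb.1
  funext y
  rw [cv_eq ha (cv_cp hb hg), cv_eq hb (cv_cp ha hg)]
  simp only [cv_eq hb hg, cv_eq ha hg, ← intervalIntegral.integral_const_mul]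
  rw [swap_int (F := fun t s => a t * (b s * g (y - t - s))) (by fun_prop) zero_le_one zero_le_one]
  refine intervalIntegral.integral_congr fun s _ => intervalIntegral.integral_congr fun t _ => ?_
  rw [show y - s - t = y - t - s by ring]
  ring

theorem cv_tk_nonneg {l : ℝ} {g : ℝ → ℝ} (hl : 0 < l) (hg : ∀ x, 0 ≤ g x) (y : ℝ) :
    0 ≤ cv (tk l) g y :=
  intervalIntegral.integral_nonneg zero_le_one fun _ _ => mul_nonneg (tk_nonneg hl _) (hg _)

theorem cv_tk_int {l : ℝ} {g : ℝ → ℝ} (hl : 0 < l) (h2 : l ≤ 1 / 2) (hg : CP g) :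
    ∫ x in (0 : ℝ)..1, cv (tk l) g x = ∫ x in (0 : ℝ)..1, g x := by
  have h1 := (tk_cp l).1
  have h3 := hg.1
  simp only [cv_eq (tk_cp l) hg]
  rw [swap_int (F := fun x t => tk l t * g (x - t)) (by fun_prop) zero_le_one zero_le_one]
  simp only [intervalIntegral.integral_const_mul, K_trans hg, intervalIntegral.integral_mul_const,
    tk_int hl h2, one_mul]

theorem cv_tk_le {l : ℝ} {g : ℝ → ℝ} (hl : 0 < l) (hg : CP g) (h0 : ∀ x, 0 ≤ g x) (y : ℝ) :
    cv (tk l) g y ≤ (∫ x in (0 : ℝ)..1, g x) / l := by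
  have h1 := (tk_cp l).1
  have h3 := hg.1
  rw [div_eq_inv_mul, ← intervalIntegral.integral_const_mul, cv]
  refine intervalIntegral.integral_mono_on zero_le_one
    (Continuous.intervalIntegrable (by fun_prop) _ _)
    (Continuous.intervalIntegrable (by fun_prop) _ _) fun z _ => ?_
  rw [← one_div]
  exact mul_le_mul_of_nonneg_right (tk_le hl _) (h0 z)

theorem K_bound {l M : ℝ} {F : ℝ → ℝ} (hl : 0 < l) (h2 : l ≤ 1 / 2) (hF : Continuous F)
    (hM : ∀ t, nz t < l → |F t| ≤ M) : |∫ t in (0 : ℝ)..1, tk l t * F t| ≤ M := by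
  have h1 := (tk_cp l).1
  refine (intervalIntegral.abs_integral_le_integral_abs zero_le_one).trans ?_
  have e : M = ∫ t in (0 : ℝ)..1, tk l t * M := by
    rw [intervalIntegral.integral_mul_const, tk_int hl h2, one_mul]
  rw [e]
  refine intervalIntegral.integral_mono_on zero_le_one
    (Continuous.intervalIntegrable (by fun_prop) _ _)
    (Continuous.intervalIntegrable (by fun_prop) _ _) fun t _ => ?_
  rw [abs_mul, abs_of_nonneg (tk_nonneg hl t)]
  rcases lt_or_ge (nz t) l with h | h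
  · exact mul_le_mul_of_nonneg_left (hM t h) (tk_nonneg hl t)
  · rw [tk_zero hl h, zero_mul, zero_mul]

theorem cv_tk_sq {l : ℝ} {g : ℝ → ℝ} (hl : 0 < l) (h2 : l ≤ 1 / 2) (hg : CP g) :
    ∫ x in (0 : ℝ)..1, cv (tk l) g x ^ 2 ≤ ∫ x in (0 : ℝ)..1, g x ^ 2 := by
  have h1 := (tk_cp l).1
  have h3 := hg.1
  have hg2 : CP fun x => g x ^ 2 := ⟨by fun_prop, fun x => by simp only [hg.2]⟩
  have h4 := (cv_cp (tk_cp l) hg).1
  have h5 := (cv_cp (tk_cp l) hg2).1
  rw [← cv_tk_int hl h2 hg2]
  refine intervalIntegral.integral_mono_on zero_le_one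
    (Continuous.intervalIntegrable (by fun_prop) _ _)
    (Continuous.intervalIntegrable (by fun_prop) _ _) fun y _ => ?_
  set m := cv (tk l) g y with hm
  have h0 : 0 ≤ ∫ t in (0 : ℝ)..1, tk l t * (g (y - t) - m) ^ 2 :=
    intervalIntegral.integral_nonneg zero_le_one fun t _ => mul_nonneg (tk_nonneg hl t) (sq_nonneg _)
  have e : ∀ t, tk l t * (g (y - t) - m) ^ 2
      = tk l t * g (y - t) ^ 2 + (-2 * m) * (tk l t * g (y - t)) + m ^ 2 * tk l t := fun t => by ring
  simp only [e] at h0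
  rw [intervalIntegral.integral_add, intervalIntegral.integral_add,
    intervalIntegral.integral_const_mul, intervalIntegral.integral_const_mul, tk_int hl h2,
    ← cv_eq (tk_cp l) hg, ← hm] at h0
  · rw [cv_eq (tk_cp l) hg2]
    nlinarith
  all_goals exact Continuous.intervalIntegrable (by fun_prop) _ _

theorem cv_tk_abs {l M : ℝ} {g : ℝ → ℝ} (hl : 0 < l) (h2 : l ≤ 1 / 2) (hg : CP g)
    (hM : ∀ x, |g x| ≤ M) (y : ℝ) : |cv (tk l) g y| ≤ M := by
  have h3 := hg.1
  rw [cv_eq (tk_cp l) hg]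
  exact K_bound hl h2 (by fun_prop) fun t _ => hM _

theorem K_two {l : ℝ} (hl : 0 < l) {s : ℝ} (h : nz s ≤ l) : 1 ≤ 4 * l * tk (2 * l) s := by
  rw [K_eq (by linarith) (by linarith)]
  have e : 4 * l * ((1 - nz s / (2 * l)) / (2 * l)) = 2 - nz s / l := by
    field_simp
    ring
  have : nz s / l ≤ 1 := by rwa [div_le_iff₀ hl, one_mul]
  linarith

theorem K_lip {l : ℝ} (hl : 0 < l) (s t : ℝ) :
    |tk l s - tk l t| ≤ |s - t| / l ^ 2 * (4 * l * tk (2 * l) s + 4 * l * tk (2 * l) t) := by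
  have h0 : 0 ≤ |s - t| / l ^ 2 := by positivity
  have hs : 0 ≤ 4 * l * tk (2 * l) s := mul_nonneg (by linarith) (tk_nonneg (by linarith) _)
  have ht : 0 ≤ 4 * l * tk (2 * l) t := mul_nonneg (by linarith) (tk_nonneg (by linarith) _)
  rcases le_total (nz s) l with h1 | h1
  · exact (tk_lip hl s t).trans (le_mul_of_one_le_right h0 (by linarith [K_two hl h1]))
  rcases le_total (nz t) l with h2 | h2
  · exact (tk_lip hl s t).trans (le_mul_of_one_le_right h0 (by linarith [K_two hl h2]))
  rw [tk_zero hl h1, tk_zero hl h2, sub_self, abs_zero]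
  positivity

theorem cv_tk_lip {l M : ℝ} {g : ℝ → ℝ} (hl : 0 < l) (h2 : l ≤ 1 / 4) (hg : CP g)
    (hM : ∀ x, |g x| ≤ M) (x y : ℝ) : |cv (tk l) g x - cv (tk l) g y| ≤ 8 * M / l * |x - y| := by
  have h1 := (tk_cp l).1
  have h1' := (tk_cp (2 * l)).1
  have h3 := hg.1
  have hM0 : 0 ≤ M := (abs_nonneg _).trans (hM 0)
  rw [cv, cv, ← intervalIntegral.integral_sub (Continuous.intervalIntegrable (by fun_prop) _ _)
    (Continuous.intervalIntegrable (by fun_prop) _ _)]
  refine (intervalIntegral.abs_integral_le_integral_abs zero_le_one).trans ?_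
  have e : 8 * M / l * |x - y| = ∫ z in (0 : ℝ)..1, ((4 * M / l * |x - y|) * tk (2 * l) (x - z)
      + (4 * M / l * |x - y|) * tk (2 * l) (y - z)) := by
    rw [intervalIntegral.integral_add (Continuous.intervalIntegrable (by fun_prop) _ _)
      (Continuous.intervalIntegrable (by fun_prop) _ _), intervalIntegral.integral_const_mul,
      intervalIntegral.integral_const_mul, K_refl (tk_cp _), K_refl (tk_cp _),
      tk_int (by linarith) (by linarith)]
    ring
  rw [e]
  refine intervalIntegral.integral_mono_on zero_le_one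
    (Continuous.intervalIntegrable (by fun_prop) _ _)
    (Continuous.intervalIntegrable (by fun_prop) _ _) fun z _ => ?_
  rw [← sub_mul, abs_mul]
  have h4 := K_lip hl (x - z) (y - z)
  rw [show x - z - (y - z) = x - y by ring] at h4
  refine (mul_le_mul h4 (hM z) (abs_nonneg _) ((abs_nonneg _).trans h4)).trans (le_of_eq ?_)
  field_simp

theorem cv_tk_lip' {l Λ : ℝ} {g : ℝ → ℝ} (hl : 0 < l) (h2 : l ≤ 1 / 2) (hg : CP g)
    (hΛ : ∀ x y, |g x - g y| ≤ Λ * |x - y|) (x y : ℝ) :
    |cv (tk l) g x - cv (tk l) g y| ≤ Λ * |x - y| := by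
  have h1 := (tk_cp l).1
  have h3 := hg.1
  rw [cv_eq (tk_cp l) hg, cv_eq (tk_cp l) hg,
    ← intervalIntegral.integral_sub (Continuous.intervalIntegrable (by fun_prop) _ _)
    (Continuous.intervalIntegrable (by fun_prop) _ _)]
  simp only [← mul_sub]
  refine K_bound hl h2 (by fun_prop) fun t _ => ?_
  have := hΛ (x - t) (y - t)
  rwa [show x - t - (y - t) = x - y by ring] at this

theorem cv_tk_sub {l Λ : ℝ} {g : ℝ → ℝ} (hl : 0 < l) (h2 : l ≤ 1 / 2) (hg : CP g)
    (hΛ : ∀ x y, |g x - g y| ≤ Λ * |x - y|) (y : ℝ) : |cv (tk l) g y - g y| ≤ Λ * l := by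
  have h1 := (tk_cp l).1
  have h3 := hg.1
  have hΛ0 : 0 ≤ Λ := by
    have := (abs_nonneg _).trans (hΛ 1 0)
    simpa using this
  have e : g y = ∫ t in (0 : ℝ)..1, tk l t * g y := by
    rw [intervalIntegral.integral_mul_const, tk_int hl h2, one_mul]
  rw [cv_eq (tk_cp l) hg, e,
    ← intervalIntegral.integral_sub (Continuous.intervalIntegrable (by fun_prop) _ _)
    (Continuous.intervalIntegrable (by fun_prop) _ _)]
  simp only [← mul_sub]
  refine K_bound hl h2 (by fun_prop) fun t ht => ?_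
  have h4 := hΛ (y - t + round t) y
  rw [hg.int, show y - t + round t - y = -(t - round t) by ring, abs_neg] at h4
  exact h4.trans (mul_le_mul_of_nonneg_left ht.le hΛ0)

end Pool.Agent.P.MP_0354a7_al
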