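import Pool.Agent.P.MP_0354a7_al.PF.Bump

/-!
The update of the shares when a bump is added on the side of the senders.
-/

namespace Pool.Agent.P.MP_0354a7_al

open Real Finset

/-- The potential that pays for the derivatives of the weights. -/
noncomputable def Phi (B : ℝ) : ℝ := (B ^ 2 + 4 * B + 5) * exp (-B)

theorem Phi_nonneg {B : ℝ} (h : 0 ≤ B) : 0 ≤ Phi B := by unfold Phi; positivity

theorem Phi_step {B b : ℝ} (hB : 0 ≤ B) (hb : 0 ≤ b) :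
    (1 + B) ^ 2 * (exp (-B) - exp (-(B + b))) ≤ Phi B - Phi (B + b) := by
  obtain ⟨z, z1, -, hz⟩ := mvt_ex (f := fun s => (s ^ 2 + 4 * s + 5 - (1 + B) ^ 2) * exp (-s))
    (f' := fun s => ((1 + B) ^ 2 - (1 + s) ^ 2) * exp (-s)) (fun s =>
      ((((((hasDerivAt_id' s).fun_pow 2).fun_add ((hasDerivAt_id' s).const_mul 4)).add_const 5).sub_const
        ((1 + B) ^ 2)).fun_mul (hasDerivAt_id' s).fun_neg.exp).congr_deriv (by simp; ring))
    (show B ≤ B + b by linarith)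
  have h1 : ((1 + B) ^ 2 - (1 + z) ^ 2) * exp (-z) * (B + b - B) ≤ 0 :=
    mul_nonpos_of_nonpos_of_nonneg (mul_nonpos_of_nonpos_of_nonneg (by nlinarith) (exp_pos _).le)
      (by linarith)
  unfold Phi
  linarith

theorem dtau_bd {a B B1 B2 b b1 b2 : ℝ} (ha : 0 ≤ a) (hB : 0 ≤ B) (hb : 0 ≤ b)
    (h1 : |B1| ≤ 2 * a * B) (h2 : |B2| ≤ 5 * a ^ 2 * B) (k1 : |b1| ≤ 2 * a * b)
    (k2 : |b2| ≤ 5 * a ^ 2 * b) :
    |-B1 * exp (-B) - -(B1 + b1) * exp (-(B + b))|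
      ≤ 2 * a * ((1 + B) ^ 2 * (exp (-B) - exp (-(B + b)))) ∧
    |(B1 ^ 2 - B2) * exp (-B) - ((B1 + b1) ^ 2 - (B2 + b2)) * exp (-(B + b))|
      ≤ 13 * a ^ 2 * ((1 + B) ^ 2 * (exp (-B) - exp (-(B + b)))) := by
  have y0 := exp_pos (-(B + b))
  have e : exp (-B) = exp (-(B + b)) * exp b := by rw [← exp_add]; congr 1; ring
  have q := mul_le_mul_of_nonneg_left (quadratic_le_exp_of_nonneg hb) y0.le
  rw [← e] at q
  generalize exp (-(B + b)) = Y at *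
  generalize exp (-B) = X at *
  have y1 : 0 ≤ b * Y := by positivity
  have y2 : 0 ≤ b ^ 2 * Y := by positivity
  obtain ⟨D, hD⟩ : ∃ D, D = X - Y := ⟨_, rfl⟩
  have d1 : b * Y ≤ D := by nlinarith
  have d2 : b ^ 2 * Y ≤ 2 * D := by nlinarith
  have d0 : 0 ≤ D := by linarith
  rw [← hD]
  have t1 : |B1 * D| ≤ 2 * a * B * D := by
    rw [abs_mul, abs_of_nonneg d0]; exact mul_le_mul_of_nonneg_right h1 d0
  have t2 : |b1 * Y| ≤ 2 * a * D := by
    rw [abs_mul, abs_of_pos y0]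
    have := mul_le_mul_of_nonneg_right k1 y0.le
    nlinarith [mul_le_mul_of_nonneg_left d1 ha]
  have aD : 0 ≤ a * D := by positivity
  have aD2 : 0 ≤ a ^ 2 * D := by positivity
  constructor
  · rw [show -B1 * X - -(B1 + b1) * Y = b1 * Y - B1 * D by rw [hD]; ring]
    refine (abs_sub _ _).trans ?_
    nlinarith [mul_nonneg aD hB, mul_nonneg (mul_nonneg aD hB) hB]
  · rw [show (B1 ^ 2 - B2) * X - ((B1 + b1) ^ 2 - (B2 + b2)) * Y
      = (B1 ^ 2 * D - B2 * D) - (2 * (B1 * (b1 * Y)) + b1 ^ 2 * Y - b2 * Y) by rw [hD]; ring]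
    have s1 : |B1 ^ 2 * D| ≤ (2 * a * B) ^ 2 * D := by
      rw [abs_mul, abs_of_nonneg d0, abs_pow]
      exact mul_le_mul_of_nonneg_right (pow_le_pow_left₀ (abs_nonneg _) h1 2) d0
    have s2 : |B2 * D| ≤ 5 * a ^ 2 * B * D := by
      rw [abs_mul, abs_of_nonneg d0]; exact mul_le_mul_of_nonneg_right h2 d0
    have s3 : |2 * (B1 * (b1 * Y))| ≤ 2 * (2 * a * B * (2 * a * D)) := by
      rw [abs_mul, abs_two, abs_mul]
      exact mul_le_mul_of_nonneg_left (mul_le_mul h1 t2 (abs_nonneg _) (by positivity)) zero_le_two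
    have s4 : |b1 ^ 2 * Y| ≤ 8 * (a ^ 2 * D) := by
      rw [abs_mul, abs_of_pos y0, abs_pow]
      have := mul_le_mul_of_nonneg_right (pow_le_pow_left₀ (abs_nonneg _) k1 2) y0.le
      nlinarith [mul_le_mul_of_nonneg_left d2 (sq_nonneg a)]
    have s5 : |b2 * Y| ≤ 5 * (a ^ 2 * D) := by
      rw [abs_mul, abs_of_pos y0]
      have := mul_le_mul_of_nonneg_right k2 y0.le
      nlinarith [mul_le_mul_of_nonneg_left d1 (sq_nonneg a)]
    have s6 := abs_sub (B1 ^ 2 * D) (B2 * D)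
    have s7 := abs_sub (2 * (B1 * (b1 * Y)) + b1 ^ 2 * Y) (b2 * Y)
    have s8 := abs_add_le (2 * (B1 * (b1 * Y))) (b1 ^ 2 * Y)
    refine (abs_sub _ _).trans ?_
    nlinarith [mul_nonneg aD2 hB, mul_nonneg (mul_nonneg aD2 hB) hB]

theorem share_pt {ε t α μ X Y Z U D1 D2 G1 G2 W m ρ ρ1 a r Φ Φ' Q E : ℝ} (e0 : 0 ≤ ε) (t0 : 0 < t)
    (a0 : 0 ≤ α) (μ0 : 0 ≤ μ) (αμ : α * μ ≤ 1) (αt : 51 * (α * μ) ≤ t) (d0 : 0 ≤ X - Y)
    (DU : X - Y ≤ U) (s1 : |D1| ≤ 2 * α * U) (s2 : |D2| ≤ 13 * α ^ 2 * U) (g0 : |W - m| ≤ 1)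
    (g1 : |G1| ≤ 2 * α) (g2 : |G2| ≤ 22 * α ^ 2) (r0 : |ρ| ≤ ε * μ ^ 2) (r1 : |ρ1| ≤ ε * μ)
    (r2 : |a| ≤ ε) (r3 : |r| ≤ ε) (w : 0 ≤ W) (m0 : 0 ≤ m) (m1 : m ≤ 1) (ph : U ≤ Φ - Φ')
    (k1 : |a| ≤ t * ε ∨ X ≤ Z) (k2 : 1 - m ≤ 3 * t ∨ X ≤ Z)
    (hm : |Q - X * r| ≤ ε * (t + 7 * t * (1 - X) + 3 * max 0 (Z - X) + 2 * E + t * (5 - Φ))) :
    |Q + ((D2 * (W - m) + 2 * (D1 * G1) + (X - Y) * G2) * ρ + 2 * ((D1 * (W - m) + (X - Y) * G1) * ρ1)
      + (X - Y) * (W - m) * (r - a)) - Y * r|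
      ≤ ε * (t + 7 * t * (1 - Y) + 3 * max 0 (Z - Y) + 2 * (E + (X - Y) * W) + t * (5 - Φ')) := by
  obtain ⟨D, rfl⟩ : ∃ D, Y = X - D := ⟨X - Y, by ring⟩
  rw [sub_sub_cancel] at d0 DU ⊢
  have U0 : 0 ≤ U := d0.trans DU
  have u1 : |D1 * (W - m) + D * G1| ≤ 4 * α * U := by
    refine (abs_add_le _ _).trans ?_
    rw [abs_mul, abs_mul, abs_of_nonneg d0]
    have := mul_le_mul s1 g0 (abs_nonneg _) (by positivity)
    have := mul_le_mul DU g1 (abs_nonneg _) U0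
    linarith
  have u2 : |D2 * (W - m) + 2 * (D1 * G1) + D * G2| ≤ 43 * α ^ 2 * U := by
    refine (abs_add_le _ _).trans ((add_le_add_left (abs_add_le _ _) _).trans ?_)
    rw [abs_mul, abs_mul, abs_mul, abs_mul, abs_of_nonneg d0, abs_two]
    have := mul_le_mul s2 g0 (abs_nonneg _) (by positivity)
    have := mul_le_mul s1 g1 (abs_nonneg _) (by positivity)
    have := mul_le_mul DU g2 (abs_nonneg _) U0
    linarith
  have u3 : |(D2 * (W - m) + 2 * (D1 * G1) + D * G2) * ρ + 2 * ((D1 * (W - m) + D * G1) * ρ1)|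
      ≤ ε * (t * U) := by
    refine (abs_add_le _ _).trans ?_
    rw [abs_mul, abs_mul, abs_mul, abs_two]
    have v1 := mul_le_mul u2 r0 (abs_nonneg _) (by positivity)
    have v2 := mul_le_mul u1 r1 (abs_nonneg _) (by positivity)
    have v3 : 0 ≤ ε * U := by positivity
    have v5 : α * μ * (α * μ) ≤ α * μ := mul_le_of_le_one_right (by positivity) αμ
    have v6 := mul_le_mul_of_nonneg_left v5 v3
    have v7 := mul_le_mul_of_nonneg_left αt v3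
    linarith
  have ra : |r - a| ≤ 2 * ε := (abs_sub _ _).trans (by linarith)
  have mx : max 0 (Z - X) ≤ max 0 (Z - (X - D)) := max_le_max le_rfl (by linarith)
  have mx' : X ≤ Z → max 0 (Z - X) + D ≤ max 0 (Z - (X - D)) := fun hh => by
    rw [max_eq_right (by linarith)]; exact le_max_of_le_right (by linarith)
  generalize max 0 (Z - (X - D)) = M2 at *
  generalize max 0 (Z - X) = M1 at *
  have tD := mul_nonneg t0.le d0
  have v1 : |D * a| ≤ ε * (t * D + (M2 - M1)) := by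
    rw [abs_mul, abs_of_nonneg d0]
    rcases k1 with hh | hh
    · linarith [mul_le_mul_of_nonneg_left hh d0, mul_nonneg e0 (sub_nonneg.2 mx)]
    · linarith [mul_le_mul_of_nonneg_left r2 d0, mul_le_mul_of_nonneg_left (mx' hh) e0,
        mul_nonneg e0 tD]
  have v2 : |D * (1 - m) * (r - a)| ≤ 2 * ε * (3 * t * D + (M2 - M1)) := by
    rw [abs_mul, abs_of_nonneg (mul_nonneg d0 (by linarith)), mul_comm]
    refine mul_le_mul ra ?_ (mul_nonneg d0 (by linarith)) (by positivity)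
    rcases k2 with hh | hh
    · linarith [mul_le_mul_of_nonneg_left hh d0]
    · linarith [mx' hh, mul_nonneg d0 m0]
  have v3 : |D * W * (r - a)| ≤ D * W * (2 * ε) := by
    rw [abs_mul, abs_of_nonneg (mul_nonneg d0 w)]
    exact mul_le_mul_of_nonneg_left ra (mul_nonneg d0 w)
  rw [show Q + ((D2 * (W - m) + 2 * (D1 * G1) + D * G2) * ρ + 2 * ((D1 * (W - m) + D * G1) * ρ1)
      + D * (W - m) * (r - a)) - (X - D) * r = (Q - X * r) + ((D2 * (W - m) + 2 * (D1 * G1) + D * G2) * ρ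
      + 2 * ((D1 * (W - m) + D * G1) * ρ1)) + D * a + D * (1 - m) * (r - a) + D * W * (r - a) by ring]
  have f1 := mul_le_mul_of_nonneg_left (mul_le_mul_of_nonneg_left ph t0.le) e0
  refine (abs_add_le _ _).trans ((add_le_add_left ((abs_add_le _ _).trans (add_le_add_left
    ((abs_add_le _ _).trans (add_le_add_left (abs_add_le _ _) _)) _)) _).trans ?_)
  linarith

/-- The invariant of the shares. -/
structure ShI (k : ℕ) (ε t L₀ : ℝ) (p p2 b B : ℝ → ℝ) (q q1 q2 E : Fin k → ℝ → ℝ) : Prop where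
  c : ∀ i, C2P (q i) (q1 i) (q2 i)
  sum : ∀ x, b x + ∑ i, q i x = p x
  sup : ∀ i x, |k * q i x| ≤ ε * (2 - exp (-B x))
  e0 : ∀ i x, 0 ≤ E i x ∧ E i x ≤ 1 - exp (-B x)
  main : ∀ i x, |k * q2 i x - exp (-B x) * p2 x| ≤ ε * (t + 7 * t * (1 - exp (-B x))
    + 3 * max 0 (exp (-L₀) - exp (-B x)) + 2 * E i x + t * (5 - Phi (B x)))

theorem abs_avg_le {k : ℕ} (hk : 0 < k) {f : Fin k → ℝ} {c : ℝ} (h : ∀ i, |f i| ≤ c) :
    |(∑ i, f i) / k| ≤ c := by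
  have k0 : (0 : ℝ) < k := by exact_mod_cast hk
  rw [abs_div, abs_of_pos k0, div_le_iff₀ k0]
  refine (abs_sum_le_sum_abs _ _).trans ((sum_le_sum fun i _ => h i).trans (le_of_eq ?_))
  simp [mul_comm]

theorem avg_one_sub {k : ℕ} (hk : 0 < k) (f : Fin k → ℝ) :
    (∑ i, (1 - f i)) / k = 1 - (∑ i, f i) / k := by
  have k0 : (k : ℝ) ≠ 0 := by exact_mod_cast hk.ne'
  rw [sum_sub_distrib, sub_div]
  simp [k0]

theorem ShI.step {k : ℕ} (hk : 0 < k) {ε t L₀ H μ : ℝ} {p p1 p2 b B B1 B2 c c1 c2 : ℝ → ℝ}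
    {T T1 T2 q q1 q2 E : Fin k → ℝ → ℝ} (hp : C2P p p1 p2) (h2 : ∀ x, |p2 x| ≤ ε) (H0 : 0 < H)
    (μ0 : 0 < μ) (μ1 : μ ≤ 1) (μH : μ ≤ H) (μt : 51 * μ ≤ t * H)
    (hB : Tame (2 / H) (5 / H ^ 2) B B1 B2) (hc : Tame (2 / H) (5 / H ^ 2) c c1 c2)
    (hT : ∀ i, Tame (2 / H) (5 / H ^ 2) (T i) (T1 i) (T2 i))
    (k1 : ∀ y, |av μ p2 y| ≤ t * ε ∨ L₀ ≤ B y)
    (k2 : ∀ y, (∑ i, (1 - exp (-T i y))) / k ≤ 3 * t ∨ L₀ ≤ B y)
    (h : ShI k ε t L₀ p p2 b B q q1 q2 E) :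
    ∃ q' q1' q2' : Fin k → ℝ → ℝ, ShI k ε t L₀ p p2 b (fun x => B x + c x) q' q1' q2'
      (fun i x => E i x + (exp (-B x) - exp (-(B x + c x))) * exp (-T i x)) ∧
      ∀ i x, |q' i x - q i x| ≤ (exp (-B x) - exp (-(B x + c x))) * (ε * μ ^ 2) / k := by
  have k0 : (0 : ℝ) < k := by exact_mod_cast hk
  have e0 : 0 ≤ ε := (abs_nonneg _).trans (h2 0)
  have t0 : 0 < t := by nlinarith
  have cD := hB.c.expn.sub (hB.add hc).c.expn
  have cm := (C2P.sum univ fun j => (hT j).c.expn).div k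
  have cρ := hp.sub (av_c2p hp μ)
  have cq := fun i => (h.c i).add (((cD.mul ((hT i).c.expn.sub cm)).mul cρ).div k)
  have D0 : ∀ x, 0 ≤ exp (-B x) - exp (-(B x + c x)) := fun x =>
    sub_nonneg.2 (exp_le_exp.2 (by linarith [hc.nn x]))
  have T1' : ∀ i x, 0 < exp (-T i x) ∧ exp (-T i x) ≤ 1 := fun i x =>
    ⟨exp_pos _, exp_le_one_iff.2 (by linarith [(hT i).nn x])⟩
  have m01 : ∀ x, 0 ≤ (∑ j, exp (-T j x)) / k ∧ (∑ j, exp (-T j x)) / k ≤ 1 := fun x =>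
    ⟨div_nonneg (sum_nonneg fun j _ => (T1' j x).1.le) k0.le,
      le_of_abs_le (abs_avg_le hk fun j => by rw [abs_of_pos (T1' j x).1]; exact (T1' j x).2)⟩
  have g0 : ∀ i x, |exp (-T i x) - (∑ j, exp (-T j x)) / k| ≤ 1 := fun i x => by
    rw [abs_le]; constructor <;> linarith [T1' i x, m01 x]
  have dq : ∀ i x, |(exp (-B x) - exp (-(B x + c x))) * (exp (-T i x) - (∑ j, exp (-T j x)) / k)
      * (p x - av μ p x)| ≤ (exp (-B x) - exp (-(B x + c x))) * (ε * μ ^ 2) := fun i x => by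
    rw [abs_mul, abs_mul, abs_of_nonneg (D0 x)]
    exact mul_le_mul (mul_le_of_le_one_right (D0 x) (g0 i x)) (av_bds hp h2 μ0 x).1 (abs_nonneg _) (D0 x)
  refine ⟨_, _, _, ⟨cq, fun x => ?_, fun i x => ?_, fun i x => ?_, fun i x => ?_⟩, fun i x => ?_⟩
  · rw [sum_add_distrib, ← add_assoc, h.sum, ← sum_div, ← sum_mul, ← mul_sum, sum_sub_distrib]
    simp [mul_div_cancel₀ _ k0.ne']
  · rw [mul_add, mul_div_cancel₀ _ k0.ne']
    refine (abs_add_le _ _).trans ?_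
    have h1 : ε * μ ^ 2 ≤ ε := mul_le_of_le_one_right e0 (by nlinarith)
    nlinarith [h.sup i x, dq i x, mul_le_mul_of_nonneg_left h1 (D0 x)]
  · have := mul_le_of_le_one_right (D0 x) (T1' i x).2
    have := mul_nonneg (D0 x) (T1' i x).1.le
    constructor <;> linarith [h.e0 i x]
  · have a0 : 0 ≤ 1 / H := by positivity
    obtain ⟨s1, s2⟩ := dtau_bd (B1 := B1 x) (B2 := B2 x) (b1 := c1 x) (b2 := c2 x) a0 (hB.nn x) (hc.nn x)
      ((hB.d1 x).trans (le_of_eq (by ring))) ((hB.d2 x).trans (le_of_eq (by ring)))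
      ((hc.d1 x).trans (le_of_eq (by ring))) ((hc.d2 x).trans (le_of_eq (by ring)))
    have g1 : |-T1 i x * exp (-T i x) - (∑ j, -T1 j x * exp (-T j x)) / k| ≤ 2 * (1 / H) :=
      (abs_sub _ _).trans (by
        linarith [((hT i).expn H0 x).1, abs_avg_le hk fun j => ((hT j).expn H0 x).1])
    have g2 : |(T1 i x ^ 2 - T2 i x) * exp (-T i x) - (∑ j, (T1 j x ^ 2 - T2 j x) * exp (-T j x)) / k|
        ≤ 22 * (1 / H) ^ 2 := (abs_sub _ _).trans (by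
      rw [show 22 * (1 / H) ^ 2 = 11 / H ^ 2 + 11 / H ^ 2 by ring]
      exact add_le_add ((hT i).expn H0 x).2 (abs_avg_le hk fun j => ((hT j).expn H0 x).2))
    obtain ⟨r0, r1, r2⟩ := av_bds hp h2 μ0 x
    have k2' := k2 x
    rw [avg_one_sub hk] at k2'
    rw [mul_add, mul_div_cancel₀ _ k0.ne']
    exact share_pt e0 t0 a0 μ0.le (by rw [one_div, inv_mul_le_iff₀ H0]; linarith)
      (by rw [show 51 * (1 / H * μ) = 51 * μ / H by ring, div_le_iff₀ H0]; exact μt) (D0 x)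
      (le_mul_of_one_le_left (D0 x) (one_le_pow₀ (by linarith [hB.nn x]))) s1 s2 (g0 i x) g1 g2 r0 r1 r2
      (h2 x) (T1' i x).1.le (m01 x).1 (m01 x).2 (Phi_step (hB.nn x) (hc.nn x))
      ((k1 x).imp_right fun hh => exp_le_exp.2 (by linarith))
      (k2'.imp_right fun hh => exp_le_exp.2 (by linarith)) (h.main i x)
  · rw [add_sub_cancel_left, abs_div, abs_of_pos k0]
    exact div_le_div_of_nonneg_right (dq i x) k0.le

end Pool.Agent.P.MP_0354a7_al
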