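import Pool.Agent.P.MP_0354a7_al.PF.Geo
import Pool.Agent.P.MP_0354a7_al.PF.Share

/-!
One level: closure of the seeds, their order, and the new shares.
-/

namespace Pool.Agent.P.MP_0354a7_al

open Real Finset MeasureTheory

theorem sel_insert_self {n : ℕ} (s : Bool) (j : Fin n) (Y : Finset (Bool × Fin n)) :
    sel s (insert (s, j) Y) = insert j (sel s Y) := by
  ext i
  simp [mem_sel]

theorem sel_insert_ne {n : ℕ} {s s' : Bool} (h : s ≠ s') (j : Fin n) (Y : Finset (Bool × Fin n)) :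
    sel s (insert (s', j) Y) = sel s Y := by
  ext i
  simp [mem_sel, h]

theorem card_sel_insert {n : ℕ} (c : Bool × Fin n) (Y : Finset (Bool × Fin n)) :
    (sel true (insert c Y)).card + (sel false (insert c Y)).card
      ≤ (sel true Y).card + (sel false Y).card + 1 := by
  obtain ⟨s, j⟩ := c
  cases s
  · rw [sel_insert_self, sel_insert_ne (by simp)]
    have := card_insert_le j (sel false Y)
    omega
  · rw [sel_insert_self, sel_insert_ne (by simp)]
    have := card_insert_le j (sel true Y)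
    omega

theorem order_ind {α : Type} [DecidableEq α] (Y : Finset α) (low : Finset α → α → Prop)
    (anti : ∀ Y₁ Y₂ c, Y₁ ⊆ Y₂ → low Y₂ c → low Y₁ c)
    (deg : ∀ Y', Y' ⊆ Y → Y'.Nonempty → ∃ c ∈ Y', low Y' c) (Pr : Finset α → Prop) (h0 : Pr ∅)
    (step : ∀ Y' c, c ∉ Y' → insert c Y' ⊆ Y → (∀ d ∈ Y, d ∉ Y' → low Y' d) →
      (∀ d ∈ Y, d ∉ insert c Y' → low (insert c Y') d) → Pr Y' → Pr (insert c Y')) : Pr Y := by
  have k : ∀ m, ∀ Y' : Finset α, Y'.card = m → Y' ⊆ Y → (∀ d ∈ Y, d ∉ Y' → low Y' d) → Pr Y' := by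
    intro m
    induction m with
    | zero => intro Y' h _ _; rwa [card_eq_zero.1 h]
    | succ m ih =>
      intro Y' h hs hl
      obtain ⟨c, hc, lc⟩ := deg Y' hs (card_pos.1 (by omega))
      have l' : ∀ d ∈ Y, d ∉ Y'.erase c → low (Y'.erase c) d := fun d hd hd' => by
        refine anti _ _ _ (erase_subset c Y') ?_
        by_cases e : d = c
        · rwa [e]
        · exact hl d hd fun h' => hd' (mem_erase.2 ⟨e, h'⟩)
      rw [← insert_erase hc] at hs hl ⊢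
      exact step _ c (notMem_erase c Y') hs l' hl
        (ih _ (by rw [card_erase_of_mem hc]; omega) ((subset_insert _ _).trans hs) l')
  exact k _ Y rfl Subset.rfl fun d hd hd' => absurd hd hd'

theorem CP.sub_int {f : ℝ → ℝ} (h : CP f) (m : ℤ) (x : ℝ) : f (x - m) = f x := by
  have := h.int (-m) x
  rwa [Int.cast_neg, ← sub_eq_add_neg] at this

theorem avg_lip {k : ℕ} (hk : 0 < k) {H ρ : ℝ} {f f1 f2 : ℝ → ℝ}
    (h : Tame (2 / H) (5 / H ^ 2) f f1 f2) (H0 : 0 < H) {y z : Fin k → ℝ} (hy : ∀ i, |y i - z i| ≤ ρ) :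
    (∑ i, (1 - exp (-f (y i)))) / k ≤ (∑ i, (1 - exp (-f (z i)))) / k + 1 / H * ρ := by
  have := le_of_abs_le (abs_avg_le hk (f := fun i => exp (-f (z i)) - exp (-f (y i))) (c := 1 / H * ρ)
    fun i => (h.exp_lip H0 _ _).trans (mul_le_mul_of_nonneg_left (by rw [abs_sub_comm]; exact hy i)
      (by positivity)))
  rw [sum_sub_distrib, sub_div] at this
  rw [avg_one_sub hk, avg_one_sub hk]
  linarith

theorem avg_add {k : ℕ} {a b : Fin k → ℝ} (ha : ∀ i, 0 ≤ a i) (hb : ∀ i, 0 ≤ b i) :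
    (∑ i, (1 - exp (-(a i + b i)))) / k
      ≤ (∑ i, (1 - exp (-a i))) / k + (∑ i, (1 - exp (-b i))) / k := by
  rw [← add_div, ← sum_add_distrib]
  exact div_le_div_of_nonneg_right (sum_le_sum fun i _ => one_sub_exp_add (ha i) (hb i))
    (Nat.cast_nonneg k)

theorem exists_hot {n : ℕ} (hn : 0 < n) {f : ℝ → ℝ} (hf : CP f) {μ c η y : ℝ} (μ0 : 0 < μ)
    (μ1 : μ ≤ 1 / n) (hη : 3 * (η * (1 / n)) ≤ 2 * μ * c) (h : c < |av μ f y|) :
    ∃ (j : Fin n) (m : ℤ), η * (1 / n) ≤ (∫ x in (((j : ℕ) : ℝ) / n)..((((j : ℕ) : ℝ) + 1) / n), |f x|)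
      ∧ |y - m - zc n j| ≤ 3 / 2 * (1 / n) := by
  have hn' : (0 : ℝ) < n := by exact_mod_cast hn
  have hz : (0 : ℤ) < n := by exact_mod_cast hn
  have ii : ∀ a b, IntervalIntegrable (fun x => |f x|) volume a b := fun a b =>
    hf.1.abs.intervalIntegrable a b
  obtain ⟨J, hJ⟩ : ∃ J : ℤ, J = ⌊n * y⌋ := ⟨_, rfl⟩
  have j1 : (J : ℝ) / n ≤ y := by rw [div_le_iff₀ hn', hJ, mul_comm]; exact Int.floor_le _
  have j2 : y ≤ (J + 1) / n := by
    rw [le_div_iff₀ hn', hJ, mul_comm]; exact (Int.lt_floor_add_one _).le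
  rw [av, abs_div, abs_of_pos (show 0 < 2 * μ by linarith), lt_div_iff₀ (by linarith)] at h
  have h1 := h.trans_le (intervalIntegral.abs_integral_le_integral_abs (by linarith))
  have h2 := h1.trans_le (intervalIntegral.integral_mono_interval (c := (J - 1) / n) (d := (J + 2) / n)
    (by rw [sub_div]; linarith) (by linarith)
    (by rw [show ((J : ℝ) + 2) / n = (J + 1) / n + 1 / n by ring]; linarith)
    (Filter.Eventually.of_forall fun x => abs_nonneg _) (ii _ _))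
  rw [← intervalIntegral.integral_add_adjacent_intervals (ii _ (J / n)) (ii _ _),
    ← intervalIntegral.integral_add_adjacent_intervals (a := J / n) (ii _ ((J + 1) / n)) (ii _ _)] at h2
  obtain ⟨I, I1, I2⟩ : ∃ I : ℤ, η * (1 / n) ≤ (∫ x in ((I : ℝ) / n)..((I + 1) / n), |f x|) ∧
      |y - (I + 1 / 2) / n| ≤ 3 / 2 * (1 / n) := by
    have a1 : ((J : ℝ) + 1) / n = J / n + 1 / n := by ring
    by_cases c1 : η * (1 / n) ≤ ∫ x in ((J - 1 : ℝ) / n)..(J / n), |f x|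
    · refine ⟨J - 1, by push_cast; rwa [sub_add_cancel], ?_⟩
      push_cast
      rw [show ((J : ℝ) - 1 + 1 / 2) / n = J / n - 1 / 2 * (1 / n) by ring, abs_le]
      constructor <;> linarith
    by_cases c2 : η * (1 / n) ≤ ∫ x in ((J : ℝ) / n)..((J + 1) / n), |f x|
    · refine ⟨J, c2, ?_⟩
      rw [show ((J : ℝ) + 1 / 2) / n = J / n + 1 / 2 * (1 / n) by ring, abs_le]
      constructor <;> linarith
    · refine ⟨J + 1, ?_, ?_⟩
      · push_cast
        rw [show (J : ℝ) + 1 + 1 = J + 2 by ring]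
        linarith
      · push_cast
        rw [show ((J : ℝ) + 1 + 1 / 2) / n = J / n + 3 / 2 * (1 / n) by ring, abs_le]
        constructor <;> linarith
  have h0 := Int.emod_nonneg I hz.ne'
  have h3 := Int.emod_lt_of_pos I hz
  have e : (((I % n).toNat : ℕ) : ℝ) = ((I % n : ℤ) : ℝ) := by
    rw [← Int.cast_natCast, Int.toNat_of_nonneg h0]
  have e2 : (I : ℝ) = n * ((I / n : ℤ) : ℝ) + ((I % n : ℤ) : ℝ) := by
    exact_mod_cast (Int.mul_ediv_add_emod I n).symm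
  refine ⟨⟨(I % n).toNat, by omega⟩, I / n, I1.trans (le_of_eq ?_), le_of_eq_of_le ?_ I2⟩
  · simp only [e]
    have e3 : ∀ a b : ℝ, ∫ x in a..b, |f x| = ∫ x in a..b, |f (x + ((I / n : ℤ) : ℝ))| := fun a b => by
      simp only [hf.int]
    rw [e3 (((I % n : ℤ) : ℝ) / n), intervalIntegral.integral_comp_add_right (fun x => |f x|)]
    generalize ((I % n : ℤ) : ℝ) = r at *
    generalize ((I / n : ℤ) : ℝ) = q at *
    rw [e2]
    congr 1 <;> field_simp <;> ring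
  · simp only [zc, e]
    congr 1
    generalize ((I % n : ℤ) : ℝ) = r at *
    generalize ((I / n : ℤ) : ℝ) = q at *
    rw [e2]
    field_simp
    ring

/-- The invariant between two levels. -/
structure LI {k : ℕ} (H a ρ μ ε t L η V : ℝ) (p p2 b : ℝ → ℝ) (P : Fin k → Equiv.Perm ℝ) (g : Geo k)
    (q q1 q2 E : Fin k → ℝ → ℝ) : Prop where
  gi : GI H a ρ L t η p2 P g
  tot : vol g.Zs + vol g.Zr ≤ V
  clS : ∀ y, L ≤ g.B y ∨ (∑ i, (1 - exp (-g.T i y))) / k ≤ t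
  clR : ∀ x (y : Fin k → ℝ), (∀ i, |y i - P i x| ≤ ρ) →
    L ≤ g.R x ∨ (∑ i, (1 - exp (-g.B (y i)))) / k ≤ 3 / 2 * t
  clH : ∀ y, |av μ p2 y| ≤ t * ε ∨ L ≤ g.B y
  sh : ShI k ε t L p p2 b g.B q q1 q2 E
  ei : ∀ x (y : Fin k → ℝ), (∀ i, |y i - P i x| ≤ ρ) →
    (∑ i, E i (y i)) / k ≤ 3 * t + exp (-(L / 3)) * ((∑ i, (1 - exp (-g.B (y i)))) / k)

theorem LI.mono {k : ℕ} {H a ρ H' a' ρ' μ ε t L η V d : ℝ} {p p2 b : ℝ → ℝ}
    {P P' : Fin k → Equiv.Perm ℝ} {g : Geo k} {q q1 q2 E : Fin k → ℝ → ℝ}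
    (h : LI H a ρ μ ε t L η V p p2 b P g q q1 q2 E) (H0 : 0 < H') (hH : H' ≤ H) (ha : a' ≤ a)
    (hP : ∀ i x, |P' i x - P i x| ≤ d) (hρ : ρ' + d ≤ ρ) :
    LI H' a' ρ' μ ε t L η V p p2 b P' g q q1 q2 E := by
  have k3 : ∀ i x y, |y - P' i x| ≤ ρ' → |y - P i x| ≤ ρ := fun i x y hy => by
    linarith [abs_sub_le y (P' i x) (P i x), hP i x]
  exact ⟨h.gi.mono H0 hH ha hP hρ, h.tot, h.clS, fun x y hy => h.clR x y fun i => k3 i x _ (hy i),
    h.clH, h.sh, fun x y hy => h.ei x y fun i => k3 i x _ (hy i)⟩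

theorem closure {k n : ℕ} (hk : 0 < k) (hn : 0 < n) {ρ L δ η V σ β : ℝ} {p2 : ℝ → ℝ}
    {P : Fin k → Equiv.Perm ℝ} {g : Geo k} (h : GI (1 / n) (2 * (1 / n)) ρ L δ η p2 P g)
    (hP : ∀ i, Good (1 / 100) (P i)) (ρ0 : 0 ≤ ρ) (hρ : ρ ≤ 1 / 5 * (1 / n)) (L1 : 1 ≤ L) (δ0 : 0 < δ)
    (c2 : Continuous p2) (hE : EXP (1 / (1 / n)) σ β P) (β0 : 0 ≤ β) (hβ : 12000 * L * β ≤ δ)
    (η0 : 0 < η) (hV : 2 * (∫ x in (0 : ℝ)..1, |p2 x|) ≤ η * V) (hσ : 32 * L * (V + 1 / n) ≤ σ)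
    (tot : vol g.Zs + vol g.Zr ≤ V) {hot : Fin n → Prop}
    (hh : ∀ j, hot j → η * (1 / n) ≤ ∫ x in (((j : ℕ) : ℝ) / n)..((((j : ℕ) : ℝ) + 1) / n), |p2 x|) :
    ∃ Y : Finset (Bool × Fin n), GI (1 / n) (1 / n) ρ L δ η p2 P (g.add L P hot Y) ∧
      vol (g.add L P hot Y).Zs + vol (g.add L P hot Y).Zr ≤ V ∧
      (∀ j, (true, j) ∈ Y ∨ (∀ y, |y - zc n j| ≤ 3 / 2 * (1 / n) → L ≤ g.B y) ∨
        (¬hot j ∧ ∀ y ∈ cell n j, (∑ i, (1 - exp (-(g.add L P hot Y).T i y))) / k ≤ δ)) ∧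
      (∀ j, (false, j) ∈ Y ∨ (∀ y, |y - zc n j| ≤ 3 / 2 * (1 / n) → L ≤ g.R y) ∨
        ∀ x ∈ cell n j, (∑ i, (1 - exp (-(g.add L P hot Y).B (P i x)))) / k ≤ δ) ∧
      ∀ Y', Y' ⊆ Y → Y'.Nonempty → ∃ c ∈ Y', ∀ y ∈ cell n c.2,
        (if c.1 then (∑ i, (1 - exp (-nb L (sel false Y') ((P i)⁻¹ y)))) / k
          else (∑ i, (1 - exp (-nb L (sel true Y') (P i y)))) / k) ≤ δ := by
  classical
  have n0 : (0 : ℝ) < n := by exact_mod_cast hn
  have H0 : (0 : ℝ) < 1 / n := by positivity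
  have L0 : 0 ≤ L := by linarith
  obtain ⟨Y, hY, mx⟩ := exists_max_image (univ.filter fun Y : Finset (Bool × Fin n) =>
    Just g L δ P hot Y ∧ vol g.Zs + vol g.Zr
      + ((sel true Y).card + (sel false Y).card : ℕ) * (1 / n) ≤ V + 1 / n) card
    ⟨∅, mem_filter.2 ⟨mem_univ _, fun j => by simp, by simp [sel]; linarith [inv_pos.2 n0]⟩⟩
  obtain ⟨hJ, hs⟩ := (mem_filter.1 hY).2
  push_cast at hs
  obtain ⟨hG, vs, vr⟩ := h.add hn hP L0 hρ c2 hh hJ
  have s0 : (0 : ℝ) ≤ (sel true Y).card * (1 / n) := by positivity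
  have r0 : (0 : ℝ) ≤ (sel false Y).card * (1 / n) := by positivity
  have z1 := vol_nonneg g.Zs
  have z2 := vol_nonneg g.Zr
  have m := hG.meas hk hP H0 H0.le ρ0 L1 δ0 hE (le_trans (mul_le_mul_of_nonneg_left
    (by rw [vs]; linarith) (by linarith)) hσ) β0 hβ
  have tot' : vol (g.add L P hot Y).Zs + vol (g.add L P hot Y).Zr ≤ V := by
    have := hG.hot.trans (setInt_le c2.abs (fun _ => abs_nonneg _) (hG.sh.trans hG.ss))
    refine m.trans (le_of_mul_le_mul_left ?_ η0)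
    linarith
  have ins : ∀ c, c ∉ Y → ¬Just g L δ P hot (insert c Y) := fun c hc hj => by
    have := mx _ (mem_filter.2 ⟨mem_univ _, hj, by
      have h1 : (((sel true (insert c Y)).card + (sel false (insert c Y)).card : ℕ) : ℝ)
        ≤ ((sel true Y).card + (sel false Y).card + 1 : ℕ) := by exact_mod_cast card_sel_insert c Y
      have := mul_le_mul_of_nonneg_right h1 H0.le
      rw [vs, vr] at tot'
      push_cast at this ⊢
      linarith⟩)
    rw [card_insert_of_notMem hc] at this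
    omega
  have mT : ∀ c y, (∑ i, (1 - exp (-(g.add L P hot Y).T i y))) / k
      ≤ (∑ i, (1 - exp (-(g.add L P hot (insert c Y)).T i y))) / k := fun c y =>
    avg_mono fun i => add_le_add_right (nb_mono L0 (sel_mono _ (subset_insert _ _)) _) _
  have mB : ∀ c (y : Fin k → ℝ), (∑ i, (1 - exp (-(g.add L P hot Y).B (y i)))) / k
      ≤ (∑ i, (1 - exp (-(g.add L P hot (insert c Y)).B (y i)))) / k := fun c y =>
    avg_mono fun i => add_le_add_right (nb_mono L0 (sel_mono _ (subset_insert _ _)) _) _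
  have old : ∀ c j, ((true, j) ∈ Y → (∃ y, |y - zc n j| ≤ 3 / 2 * (1 / n) ∧ g.B y < L) ∧
      (hot j ∨ ∃ y ∈ cell n j, δ < (∑ i, (1 - exp (-(g.add L P hot (insert c Y)).T i y))) / k)) ∧
      ((false, j) ∈ Y → (∃ y, |y - zc n j| ≤ 3 / 2 * (1 / n) ∧ g.R y < L) ∧ ∃ x ∈ cell n j,
        δ < (∑ i, (1 - exp (-(g.add L P hot (insert c Y)).B (P i x)))) / k) := fun c j =>
    ⟨fun hj => ⟨((hJ j).1 hj).1, ((hJ j).1 hj).2.imp_right fun ⟨y, y1, y2⟩ =>
      ⟨y, y1, y2.trans_le (mT c y)⟩⟩, fun hj => ⟨((hJ j).2 hj).1,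
      ((hJ j).2 hj).2.imp fun y y1 => ⟨y1.1, y1.2.trans_le (mB c _)⟩⟩⟩
  refine ⟨Y, hG, tot', fun j => ?_, fun j => ?_, fun Y' hY' ne => ?_⟩
  · by_contra c
    push Not at c
    refine ins _ c.1 fun i => ⟨fun hi => ?_, fun hi => (old _ i).2 (by simpa using hi)⟩
    rcases mem_insert.1 hi with e | e
    · obtain rfl : i = j := by simpa using e
      refine ⟨c.2.1, or_iff_not_imp_left.2 fun c' => ?_⟩
      obtain ⟨y, y1, y2⟩ := c.2.2 c'
      exact ⟨y, y1, y2.trans_le (mT _ y)⟩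
    · exact (old _ i).1 e
  · by_contra c
    push Not at c
    refine ins _ c.1 fun i => ⟨fun hi => (old _ i).1 (by simpa using hi), fun hi => ?_⟩
    rcases mem_insert.1 hi with e | e
    · obtain rfl : i = j := by simpa using e
      obtain ⟨y, y1, y2⟩ := c.2.2
      exact ⟨c.2.1, y, y1, y2.trans_le (mB _ _)⟩
    · exact (old _ i).2 e
  · by_contra c
    push Not at c
    have z : ∀ j : Fin n, ∃ y, |y - zc n j| ≤ 3 / 2 * (1 / n) ∧ (0 : ℝ) < L := fun j =>
      ⟨zc n j, by rw [sub_self, abs_zero]; linarith, by linarith⟩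
    obtain ⟨hG', vs', vr'⟩ := (GI.zero (1 / n) (2 * (1 / n)) ρ L δ η p2 P).add hn hP L0 hρ c2
      (hot := fun _ => False) (fun _ h => h.elim) (Y := Y') fun j =>
        ⟨fun hj => ⟨z j, Or.inr (by simpa [Geo.add, Geo.zero] using c _ hj)⟩,
          fun hj => ⟨z j, by simpa [Geo.add, Geo.zero] using c _ hj⟩⟩
    have v0 : vol ∅ = 0 := by simp [vol]
    have l1 : ((sel true Y').card : ℝ) ≤ (sel true Y).card := by
      exact_mod_cast card_le_card (sel_mono _ hY')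
    have m' := hG'.meas hk hP H0 H0.le ρ0 L1 δ0 hE (le_trans (mul_le_mul_of_nonneg_left
      (by rw [vs', show (Geo.zero k).Zs = ∅ from rfl, v0]
          linarith [mul_le_mul_of_nonneg_right l1 H0.le]) (by linarith)) hσ) β0 hβ
    rw [vs', vr', show (Geo.zero k).Zs = ∅ from rfl, show (Geo.zero k).Zr = ∅ from rfl, v0,
      show ((Geo.zero k).add L P (fun _ => False) Y').Zh = ∅ by simp [Geo.add, Geo.zero, cs], v0] at m'
    obtain ⟨⟨s, j⟩, hj⟩ := ne
    have : (1 : ℝ) ≤ (sel true Y').card + (sel false Y').card := by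
      have := card_pos.2 ⟨j, mem_sel.2 hj⟩
      cases s <;> exact_mod_cast (by omega)
    nlinarith

theorem level {k n : ℕ} (hk : 0 < k) (hn : 0 < n) {ρ μ μ' ε t L η V σ β : ℝ} {p p1 p2 b : ℝ → ℝ}
    {P : Fin k → Equiv.Perm ℝ} {g : Geo k} {q q1 q2 E : Fin k → ℝ → ℝ}
    (h : LI (1 / n) (2 * (1 / n)) ρ μ ε t L η V p p2 b P g q q1 q2 E)
    (hP : ∀ i, Good (1 / 100) (P i)) (hp : C2P p p1 p2) (h2 : ∀ x, |p2 x| ≤ ε) (t0 : 0 < t)
    (t1 : t ≤ 1) (ρ0 : 0 ≤ ρ) (hρ : ρ ≤ t / 5 * (1 / n)) (L1 : 1 ≤ L) (μ0 : 0 < μ) (μH : μ ≤ 1 / n)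
    (μt : 51 * μ ≤ t * (1 / n)) (μ0' : 0 < μ') (μH' : μ' ≤ 1 / n)
    (hη : 3 * (η * (1 / n)) ≤ 2 * μ' * (t * ε)) (hE : EXP (1 / (1 / n)) σ β P) (β0 : 0 ≤ β)
    (hβ : 12000 * L * β ≤ t) (η0 : 0 < η) (hV : 2 * (∫ x in (0 : ℝ)..1, |p2 x|) ≤ η * V)
    (hσ : 32 * L * (V + 1 / n) ≤ σ) :
    ∃ (g' : Geo k) (q' q1' q2' E' : Fin k → ℝ → ℝ),
      LI (1 / n) (1 / n) ρ μ' ε t L η V p p2 b P g' q' q1' q2' E' ∧
      ∀ i x, |q' i x - q i x| ≤ ε * μ ^ 2 / k := by
  have n1 : (1 : ℝ) ≤ n := by exact_mod_cast hn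
  have k0 : (0 : ℝ) < k := by exact_mod_cast hk
  have H0 : (0 : ℝ) < 1 / n := by positivity
  have H1 : (1 : ℝ) / n ≤ 1 := by rw [div_le_one (by linarith)]; exact n1
  have L0 : 0 ≤ L := by linarith
  have e0 : 0 ≤ ε := (abs_nonneg _).trans (h2 0)
  have hρ' : ρ ≤ 1 / 5 * (1 / n) := by nlinarith
  have hρ2 : 1 / (1 / n) * ρ ≤ t / 5 := by rwa [one_div_mul_eq_div, div_le_iff₀ H0]
  obtain ⟨hot, hhot⟩ : ∃ hot : Fin n → Prop, ∀ j, hot j ↔
      η * (1 / n) ≤ ∫ x in (((j : ℕ) : ℝ) / n)..((((j : ℕ) : ℝ) + 1) / n), |p2 x| := ⟨_, fun _ => Iff.rfl⟩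
  obtain ⟨Y, hG, tot, c1, c2, deg⟩ := closure hk hn h.gi hP ρ0 hρ' L1 t0 hp.cp2.1 hE β0 hβ η0 hV hσ
    h.tot fun j => (hhot j).1
  have A := fun Y' => h.gi.add' hn hP L0 hρ' hot Y'
  obtain ⟨B1, B2, tB⟩ := h.gi.tB
  choose T1 T2 tT using h.gi.tT
  have near : ∀ {j : Fin n} {y : ℝ}, y ∈ cell n j → |y - zc n j| ≤ 3 / 2 * (1 / n) := fun hy => by
    linarith [cell_near hy]
  have G1 : ∀ (Y' : Finset (Bool × Fin n)) (c : ℝ), t ≤ c → Y' ⊆ Y →
      (∀ j, (true, j) ∈ Y → (true, j) ∉ Y' → 2 * t ≤ c ∧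
        ∀ y ∈ cell n j, (∑ i, (1 - exp (-nb L (sel false Y') ((P i)⁻¹ y)))) / k ≤ t) →
      ∀ y, L ≤ (g.add L P hot Y').B y ∨ (∑ i, (1 - exp (-(g.add L P hot Y').T i y))) / k ≤ c := by
    intro Y' c tc hY' lo y
    obtain ⟨j, m, hy⟩ := exists_cell hn y
    obtain ⟨⟨f1, f2, a1⟩, a2, -, -⟩ := A Y'
    choose f3 f4 a2 using a2
    rw [← a1.c.cp0.sub_int m y]
    simp only [← fun i => (a2 i).c.cp0.sub_int m y]
    generalize y - m = z at hy
    have b0 : L ≤ g.B z → L ≤ (g.add L P hot Y').B z := fun hh =>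
      le_add_of_le_of_nonneg hh (nb_nonneg L0 _ _)
    rcases c1 j with a | a | a
    · by_cases a' : (true, j) ∈ Y'
      · exact Or.inl (le_add_of_nonneg_of_le (tB.nn _) (nb_ge L0 (mem_sel.2 a') (near hy)))
      · refine (h.clS z).imp b0 fun hh => (avg_add (fun i => (tT i).nn z)
          fun i => nb_nonneg L0 _ _).trans ?_
        linarith [(lo j a a').1, (lo j a a').2 z hy]
    · exact Or.inl (b0 (a z (near hy)))
    · exact Or.inr (((avg_mono fun i => add_le_add_right (nb_mono L0 (sel_mono _ hY') _) _).trans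
        (a.2 z hy)).trans tc)
  have G2 : ∀ (Y' : Finset (Bool × Fin n)) (c : ℝ), 3 / 2 * t ≤ c → Y' ⊆ Y →
      (∀ j, (false, j) ∈ Y → (false, j) ∉ Y' → 3 * t ≤ c ∧
        ∀ y ∈ cell n j, (∑ i, (1 - exp (-nb L (sel true Y') (P i y)))) / k ≤ t) →
      ∀ x (y : Fin k → ℝ), (∀ i, |y i - P i x| ≤ ρ) → L ≤ (g.add L P hot Y').R x ∨
        (∑ i, (1 - exp (-(g.add L P hot Y').B (y i)))) / k ≤ c := by
    intro Y' c tc hY' lo x y hxy
    obtain ⟨j, m, hy⟩ := exists_cell hn x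
    obtain ⟨⟨f1, f2, a1⟩, -, a3, -⟩ := A Y'
    have adm : ∀ i, |y i - m - P i (x - m)| ≤ ρ := fun i => by
      have := (hP i).2.1.int (-m) x
      rw [Int.cast_neg, ← sub_eq_add_neg, ← sub_eq_add_neg] at this
      rw [this, sub_sub_sub_cancel_right]
      exact hxy i
    rw [← a3.sub_int m x]
    simp only [← fun i => a1.c.cp0.sub_int m (y i)]
    generalize x - m = z at hy adm
    have b0 : L ≤ g.R z → L ≤ (g.add L P hot Y').R z := fun hh =>
      le_add_of_le_of_nonneg hh (nb_nonneg L0 _ _)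
    rcases c2 j with a | a | a
    · by_cases a' : (false, j) ∈ Y'
      · exact Or.inl (le_add_of_nonneg_of_le (h.gi.nR _) (nb_ge L0 (mem_sel.2 a') (near hy)))
      · refine (h.clR z _ adm).imp b0 fun hh => (avg_add (fun i => tB.nn _)
          fun i => nb_nonneg L0 _ _).trans ?_
        obtain ⟨s1, s2, hs⟩ := nb_tame L0 hn (sel true Y')
        have := avg_lip hk (hs.mono (div_le_div_of_nonneg_right one_le_two H0.le)
          (div_le_div_of_nonneg_right (by norm_num) (by positivity))) H0 adm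
        linarith [(lo j a a').1, (lo j a a').2 z hy]
    · exact Or.inl (b0 (a z (near hy)))
    · have h1 := avg_lip hk a1 H0 adm
      have h3 : (∑ i, (1 - exp (-(g.add L P hot Y').B (P i z)))) / k
          ≤ (∑ i, (1 - exp (-(g.add L P hot Y).B (P i z)))) / k :=
        avg_mono fun i => add_le_add_right (nb_mono L0 (sel_mono _ hY') _) _
      exact Or.inr (by linarith [a z hy])
  obtain ⟨q', q1', q2', E', s1, s2, s3⟩ := order_ind Y (fun Y' c => ∀ y ∈ cell n c.2,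
      (if c.1 then (∑ i, (1 - exp (-nb L (sel false Y') ((P i)⁻¹ y)))) / k
        else (∑ i, (1 - exp (-nb L (sel true Y') (P i y)))) / k) ≤ t)
    (fun Y₁ Y₂ c hs hl y hy => le_trans (by
      split_ifs <;> exact avg_mono fun i => nb_mono L0 (sel_mono _ hs) _) (hl y hy)) deg
    (fun Y' => ∃ q' q1' q2' E' : Fin k → ℝ → ℝ,
      ShI k ε t L p p2 b (g.add L P hot Y').B q' q1' q2' E' ∧
      (∀ x (y : Fin k → ℝ), (∀ i, |y i - P i x| ≤ ρ) → (∑ i, E' i (y i)) / k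
        ≤ 3 * t + exp (-(L / 3)) * ((∑ i, (1 - exp (-(g.add L P hot Y').B (y i)))) / k)) ∧
      ∀ i x, |q' i x - q i x| ≤ (exp (-g.B x) - exp (-(g.add L P hot Y').B x)) * (ε * μ ^ 2) / k)
    (by
      have e : (g.add L P hot (∅ : Finset (Bool × Fin n))).B = g.B := funext fun x => by
        simp [Geo.add, nb, sel]
      rw [e]
      exact ⟨q, q1, q2, E, h.sh, h.ei, fun i x => by simp⟩)
    (by
      rintro Y' ⟨s, j⟩ hc hs l1 l2 ⟨q', q1', q2', E', s1, s2, s3⟩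
      cases s
      · have e : (g.add L P hot (insert (false, j) Y')).B = (g.add L P hot Y').B := funext fun x => by
          simp only [Geo.add]
          rw [sel_insert_ne (by simp)]
        rw [e]
        exact ⟨q', q1', q2', E', s1, s2, s3⟩
      have e : (g.add L P hot (insert (true, j) Y')).B
          = fun x => (g.add L P hot Y').B x + bb (4 * L) (1 / n) (x - zc n j) := funext fun x => by
        simp only [Geo.add]
        rw [sel_insert_self, nb, sum_insert fun c => hc (mem_sel.1 c), nb]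
        ring
      have e' : (g.add L P hot (insert (true, j) Y')).R = (g.add L P hot Y').R := funext fun x => by
        simp only [Geo.add]
        rw [sel_insert_ne (by simp)]
      have g2 := G2 _ (3 * t) (by linarith) hs fun i hi hi' => ⟨le_rfl, by simpa using l2 _ hi hi'⟩
      rw [e, e'] at g2
      rw [e]
      obtain ⟨⟨f1, f2, a1⟩, a2, -, a4⟩ := A Y'
      choose f3 f4 a2 using a2
      obtain ⟨d1, d2, hb⟩ := bb_tame (L := 4 * L) (by linarith) H0 (zc n j)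
      obtain ⟨r, r1, r2, u1, u2⟩ := ShI.step hk hp h2 H0 μ0 (μH.trans H1) μH μt a1
        (hb.mono (div_le_div_of_nonneg_right one_le_two H0.le)
          (div_le_div_of_nonneg_right (by norm_num) (by positivity))) a2
        (fun y => (h.clH y).imp_right fun hh => le_add_of_le_of_nonneg hh (nb_nonneg L0 _ _))
        (fun y => (G1 Y' (3 * t) (by linarith) ((subset_insert _ _).trans hs)
          (fun i hi hi' => ⟨by linarith, by simpa using l1 _ hi hi'⟩) y).symm) s1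
      refine ⟨r, r1, r2, _, u1, fun x y hxy => ?_, fun i x => ?_⟩
      · have w0 := exp_pos (-(L / 3))
        rcases g2 x y hxy with hh | hh
        · have w1 : ∀ i, E' i (y i) + (exp (-(g.add L P hot Y').B (y i))
              - exp (-((g.add L P hot Y').B (y i) + bb (4 * L) (1 / n) (y i - zc n j))))
                * exp (-(g.add L P hot Y').T i (y i)) ≤ E' i (y i) + exp (-(L / 3)) *
              ((1 - exp (-((g.add L P hot Y').B (y i) + bb (4 * L) (1 / n) (y i - zc n j))))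
                - (1 - exp (-(g.add L P hot Y').B (y i)))) := fun i => by
            rw [sub_sub_sub_cancel_left, mul_comm]
            exact add_le_add_right (mul_le_mul_of_nonneg_right
              (exp_le_exp.2 (by linarith [(a4 i x _ (hxy i)).1]))
              (sub_nonneg.2 (exp_le_exp.2 (by linarith [hb.nn (y i)])))) _
          have w2 := div_le_div_of_nonneg_right (sum_le_sum fun i (_ : i ∈ univ) => w1 i) k0.le
          rw [sum_add_distrib (f := fun i => E' i (y i)) (g := fun i => exp (-(L / 3)) * _), ← mul_sum,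
            sum_sub_distrib, add_div, mul_div_assoc, sub_div] at w2
          linarith [s2 x y hxy]
        · have w1 := div_le_div_of_nonneg_right
            (sum_le_sum fun i (_ : i ∈ univ) => (u1.e0 i (y i)).2) k0.le
          have w2 := div_nonneg (sum_nonneg fun i (_ : i ∈ univ) =>
            (u1.e0 i (y i)).1.trans (u1.e0 i (y i)).2) k0.le
          linarith [mul_nonneg w0.le w2]
      · refine (abs_sub_le _ (q' i x) _).trans ((add_le_add (u2 i x) (s3 i x)).trans (le_of_eq ?_))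
        ring)
  refine ⟨_, q', q1', q2', E', ⟨hG, tot, G1 Y t le_rfl Subset.rfl fun j a a' => absurd a a',
    G2 Y _ le_rfl Subset.rfl fun j a a' => absurd a a', fun y => ?_, s1, s2⟩,
    fun i x => (s3 i x).trans (div_le_div_of_nonneg_right (mul_le_of_le_one_left (by positivity) ?_) k0.le)⟩
  · refine or_iff_not_imp_left.2 fun c => ?_
    obtain ⟨j, m, j1, j2⟩ := exists_hot hn hp.cp2 μ0' μH' hη (not_le.1 c)
    obtain ⟨⟨f1, f2, a1⟩, -⟩ := A Y
    rw [← a1.c.cp0.sub_int m y]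
    rcases c1 j with a | a | a
    · exact le_add_of_nonneg_of_le (tB.nn _) (nb_ge L0 (mem_sel.2 a) j2)
    · exact le_add_of_le_of_nonneg (a _ j2) (nb_nonneg L0 _ _)
    · exact absurd ((hhot j).2 j1) a.1
  · linarith [exp_pos (-(g.add L P hot Y).B x), (one_sub_exp_mem (tB.nn x)).1]

end Pool.Agent.P.MP_0354a7_al
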