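import Pool.Agent.P.MP_0354a7_al.Reduce
import Pool.Agent.P.MP_0354a7_al.PF.Defs

/-!
Reduction to small periodic maps.
-/

namespace Pool.Agent.P.MP_0354a7_al

open Real

namespace Red

/-- One step of the fragmentation. -/
theorem step' (core : Core') {p p1 p2 : ℝ → ℝ} (h1 : ∀ x, HasDerivAt p (p1 x) x)
    (h2 : ∀ x, HasDerivAt p1 (p2 x) x) (hc : Continuous p2) (pos : ∀ x, 0 < 1 + p1 x)
    (v0 : Van p) (v1 : Van p1) (v2 : Van p2) :
    ∃ η : ℝ, 0 < η ∧ ∀ s s' : ℝ, 0 ≤ s → s ≤ 1 → 0 ≤ s' → s' ≤ 1 → |s' - s| ≤ η →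
      ∀ e e' : Equiv.Perm ℝ, (∀ x, e x = x + s * p x) → (∀ x, e' x = x + s' * p x) →
        e' * e⁻¹ ∈ Comm := by
  have c0 : Continuous p := continuous_iff_continuousAt.2 fun x => (h1 x).continuousAt
  have c1 : Continuous p1 := continuous_iff_continuousAt.2 fun x => (h2 x).continuousAt
  obtain ⟨M0, b0⟩ := v0.bound c0
  obtain ⟨M, b2⟩ := v2.bound hc
  have M0' : 0 ≤ M := (abs_nonneg _).trans (b2 0)
  obtain ⟨ρ, r1, br⟩ : ∃ ρ : ℝ, 1 ≤ ρ ∧ ∀ x, (1 + p1 x)⁻¹ ≤ ρ := by
    have vv : Van fun x => (1 + p1 x)⁻¹ - 1 := fun x hx => by simp [v1 x hx]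
    obtain ⟨N, hN⟩ := vv.bound
      (((continuous_const.add c1).inv₀ fun x => (pos x).ne').sub continuous_const)
    exact ⟨N + 1, by linarith [(abs_nonneg _).trans (hN 0)],
      fun x => by linarith [(abs_le.1 (hN x)).2]⟩
  have r0 : 0 < ρ := by linarith
  -- the periodic data
  have H1 := per_deriv v0 h1
  have H2 := per_deriv v1 h2
  have HC := per_cont v2 hc
  have B2 : ∀ x, |per p2 x| ≤ M := fun x => b2 _
  have low : ∀ s : ℝ, 0 ≤ s → s ≤ 1 → ∀ x, ρ⁻¹ ≤ 1 + s * per p1 x := by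
    intro s s0 s1 x
    have a1 : ρ⁻¹ ≤ 1 + per p1 x := inv_le_of_inv_le₀ (pos _) (br _)
    have a2 : ρ⁻¹ ≤ 1 := inv_le_one_of_one_le₀ r1
    nlinarith
  have ps : ∀ s : ℝ, 0 ≤ s → s ≤ 1 → ∀ x, 0 < 1 + s * per p1 x := fun s s0 s1 x =>
    (inv_pos.2 r0).trans_le (low s s0 s1 x)
  have rb : ∀ s : ℝ, 0 ≤ s → s ≤ 1 → ∀ x, |(1 + s * per p1 x)⁻¹| ≤ ρ := fun s s0 s1 x => by
    rw [abs_of_pos (inv_pos.2 (ps s s0 s1 x))]
    exact inv_le_of_inv_le₀ r0 (low s s0 s1 x)
  have ex : ∀ s : ℝ, 0 ≤ s → s ≤ 1 → ∃ F : Equiv.Perm ℝ, (∀ x, F x = x + s * per p x) ∧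
      Reg F (fun x => log (1 + s * per p1 x)) (fun x => s * per p2 x / (1 + s * per p1 x)) := by
    intro s s0 s1
    refine exists_perm' (M := M0) (fun x => (H1 x).const_mul s) (fun x => (H2 x).const_mul s)
      (continuous_const.mul HC) (ps s s0 s1) fun x => ?_
    rw [abs_mul, abs_of_nonneg s0]
    have := b0 (x - ⌊x⌋ - 1)
    have a : 0 ≤ |per p x| := abs_nonneg _
    exact (mul_le_of_le_one_left a s1).trans this
  obtain ⟨ε₀, e0, hcore⟩ := core
  refine ⟨ε₀ / ((M + 1) * ρ ^ 3), by positivity, fun s s' s0 s1 t0 t1 hs e e' he he' => ?_⟩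
  obtain ⟨F, hF, rF⟩ := ex s s0 s1
  obtain ⟨F', hF', rF'⟩ := ex s' t0 t1
  have rG := rF'.mul rF.inv
  have nlG : ∀ x, nl (F' * F⁻¹) x = (s' - s) * (per p2 (F⁻¹ x) * ((1 + s * per p1 (F⁻¹ x))⁻¹ *
      ((1 + s * per p1 (F⁻¹ x))⁻¹ * (1 + s' * per p1 (F⁻¹ x))⁻¹))) := by
    intro x
    rw [rG.nl_eq]
    have a1 := ps s s0 s1 (F⁻¹ x)
    have a2 := ps s' t0 t1 (F⁻¹ x)
    simp only [exp_neg, exp_log a1]
    field_simp
    ring
  have r2 : ∀ y, |(1 + s * per p1 y)⁻¹ * (1 + s' * per p1 y)⁻¹| ≤ ρ ^ 2 := fun y => by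
    rw [abs_mul, sq]
    exact mul_le_mul (rb s s0 s1 y) (rb s' t0 t1 y) (abs_nonneg _) r0.le
  have r3 : ∀ y, |(1 + s * per p1 y)⁻¹ * ((1 + s * per p1 y)⁻¹ * (1 + s' * per p1 y)⁻¹)| ≤
      ρ ^ 3 := fun y => by
    rw [abs_mul, show ρ ^ 3 = ρ * ρ ^ 2 by ring]
    exact mul_le_mul (rb s s0 s1 y) (r2 y) (abs_nonneg _) r0.le
  have pF : Per F := fun x => by rw [hF, hF, per_add_one]; ring
  have pF' : Per F' := fun x => by rw [hF', hF', per_add_one]; ring
  have fix : ∀ x, |x| ≤ 1 / 4 → F x = x := fun x hx => by rw [hF, per_zero v0 hx]; ring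
  refine hcore (F' * F⁻¹) _ ⟨rG.isReg, pF'.mul pF.inv, fun x => ?_⟩ (fun x hx => ?_) (fun x x1 x2 => ?_) (fun x hx => ?_)
  · rw [nlG, abs_mul, abs_mul]
    have a1 : |per p2 (F⁻¹ x)| ≤ M + 1 := (B2 _).trans (by linarith)
    calc _ ≤ ε₀ / ((M + 1) * ρ ^ 3) * ((M + 1) * ρ ^ 3) := by
          gcongr
          exact r3 _
      _ = ε₀ := by field_simp
  · have a1 : F⁻¹ x = x := by
      apply F.injective
      rw [ap_inv, fix x hx]
    rw [Equiv.Perm.mul_apply, a1, hF', per_zero v0 hx]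
    ring
  · have f0 : F 0 = 0 := fix 0 (by norm_num)
    have f1 : F (-1) = -1 := by
      have := pF (-1)
      rw [neg_add_cancel, f0] at this
      linarith
    have y1 : -1 ≤ F⁻¹ x := by
      rw [← rF.strictMono.le_iff_le, ap_inv, f1]
      exact x1
    have y2 : F⁻¹ x ≤ 0 := by
      rw [← rF.strictMono.le_iff_le, ap_inv, f0]
      exact x2
    have a1 : e⁻¹ x = F⁻¹ x := by
      apply e.injective
      rw [ap_inv, he, ← per_eq v0 y1 y2, ← hF, ap_inv]
    rw [Equiv.Perm.mul_apply, Equiv.Perm.mul_apply, a1, he', hF', per_eq v0 y1 y2]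
  · have z : p x = 0 := v0 x (by
      rcases hx with c | c
      · left; linarith
      · right; linarith)
    have a1 : e⁻¹ x = x := by
      apply e.injective
      rw [ap_inv, he, z]
      ring
    rw [Equiv.Perm.mul_apply, a1, he', z]
    ring

/-- The statement for maps supported in the interval from `-3/4` to `-1/4`. -/
theorem frag' (core : Core') {p p1 p2 : ℝ → ℝ} (h1 : ∀ x, HasDerivAt p (p1 x) x)
    (h2 : ∀ x, HasDerivAt p1 (p2 x) x) (hc : Continuous p2) (pos : ∀ x, 0 < 1 + p1 x)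
    (v0 : Van p) (v1 : Van p1) (v2 : Van p2)
    (f : Equiv.Perm ℝ) (hf : ∀ x, f x = x + p x) : f ∈ Comm := by
  obtain ⟨η, e0, hs⟩ := step' core h1 h2 hc pos v0 v1 v2
  obtain ⟨n, hn⟩ := exists_nat_one_div_lt e0
  have c0 : Continuous p := continuous_iff_continuousAt.2 fun x => (h1 x).continuousAt
  obtain ⟨M0, b0⟩ := v0.bound c0
  have n0 : (0 : ℝ) < n + 1 := by positivity
  have key : ∀ j : ℕ, j ≤ n + 1 → ∀ e : Equiv.Perm ℝ,
      (∀ x, e x = x + (j / (n + 1) : ℝ) * p x) → e ∈ Comm := by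
    intro j
    induction j with
    | zero =>
      intro _ e he
      have : e = 1 := Equiv.ext fun x => by simpa using he x
      rw [this]
      exact Comm.one_mem
    | succ j ih =>
      intro hj e' he'
      have j1 : ((j + 1 : ℕ) : ℝ) ≤ n + 1 := by exact_mod_cast hj
      have j2 : (j : ℝ) ≤ n + 1 := by push_cast at j1; linarith
      have s0 : (0 : ℝ) ≤ j / (n + 1) := by positivity
      have s1 : (j / (n + 1) : ℝ) ≤ 1 := (div_le_one n0).2 j2
      obtain ⟨e, he, -⟩ := exists_perm' (M := M0) (fun x => (h1 x).const_mul (j / (n + 1) : ℝ))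
        (fun x => (h2 x).const_mul (j / (n + 1) : ℝ)) (continuous_const.mul hc)
        (fun x => by
          rcases eq_or_lt_of_le s1 with c | c
          · rw [c, one_mul]
            exact pos x
          · nlinarith [mul_nonneg s0 (pos x).le])
        (fun x => by
          rw [abs_mul, abs_of_nonneg s0]
          exact (mul_le_of_le_one_left (abs_nonneg _) s1).trans (b0 x))
      have g := hs _ _ s0 s1 (by positivity) ((div_le_one n0).2 j1) (by
        rw [← sub_div]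
        push_cast
        rw [add_sub_cancel_left, abs_of_pos (by positivity)]
        exact hn.le) e e' he he'
      have := Comm.mul_mem g (ih (by omega) e he)
      rwa [inv_mul_cancel_right] at this
  refine key (n + 1) le_rfl f fun x => ?_
  push_cast
  rw [div_self n0.ne', one_mul, hf]

end Red

open Red in
theorem reduction' (core : Core') (f : Equiv.Perm ℝ) (hf : IsD2 f) : f ∈ Comm := by
  obtain ⟨f1, f2, R, f3⟩ := hf
  have g1 : ContDiff ℝ 1 (deriv f) := by
    rw [show (2 : WithTop ℕ∞) = 1 + 1 by norm_num, contDiff_succ_iff_deriv] at f1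
    exact f1.2.2
  have d1 : ∀ x, HasDerivAt f (deriv f x) x := fun x =>
    (f1.differentiable (by norm_num) x).hasDerivAt
  have d2 : ∀ x, HasDerivAt (deriv f) (deriv (deriv f) x) x := fun x =>
    (g1.differentiable (by norm_num) x).hasDerivAt
  have c2 : Continuous (deriv (deriv f)) := g1.continuous_deriv le_rfl
  have op : ∀ x : ℝ, R < |x| → ∀ᶠ y in nhds x, R < |y| := fun x hx =>
    continuous_abs.continuousAt.eventually (lt_mem_nhds hx)
  have z1 : ∀ x : ℝ, R < |x| → deriv f x = 1 := fun x hx => by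
    have : (f : ℝ → ℝ) =ᶠ[nhds x] id := (op x hx).mono fun y hy => f3 y hy
    rw [this.deriv_eq, deriv_id]
  have z2 : ∀ x : ℝ, R < |x| → deriv (deriv f) x = 0 := fun x hx => by
    have : deriv f =ᶠ[nhds x] fun _ => 1 := (op x hx).mono fun y hy => z1 y hy
    rw [this.deriv_eq, deriv_const]
  have ne : ∀ x, deriv f x ≠ 0 := fun x h0 => by
    have a1 := (f2.differentiable (by norm_num) (f x)).hasDerivAt.comp x (d1 x)
    have a2 : (⇑f.symm ∘ ⇑f) = id := funext fun y => f.symm_apply_apply y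
    rw [a2, h0, mul_zero] at a1
    exact one_ne_zero ((hasDerivAt_id x).unique a1)
  have pos : ∀ x, 0 < deriv f x := fun x => by
    by_contra c
    have big : R < |(|R| + 1)| := by
      rw [abs_of_pos (by positivity)]
      linarith [le_abs_self R]
    obtain ⟨y, hy⟩ := intermediate_value_univ x (|R| + 1) g1.continuous
      (show (0 : ℝ) ∈ Set.Icc _ _ from ⟨not_lt.1 c, by rw [z1 _ big]; norm_num⟩)
    exact ne y hy
  obtain ⟨l, hl⟩ : ∃ l : ℝ, l = 4 * (|R| + 1) := ⟨_, rfl⟩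
  have l1 : 1 ≤ l := by rw [hl]; linarith [abs_nonneg R]
  have l0 : 0 < l := by linarith
  have far : ∀ x : ℝ, x ≤ -3 / 4 ∨ -1 / 4 ≤ x → R < |l * (x + 1 / 2)| := fun x hx => by
    have a : 1 / 4 ≤ |x + 1 / 2| := by
      rcases hx with c | c
      · exact le_abs.2 (Or.inr (by linarith))
      · exact le_abs.2 (Or.inl (by linarith))
    rw [abs_mul, abs_of_pos l0]
    nlinarith [le_abs_self R]
  have da : ∀ x : ℝ, HasDerivAt (fun y : ℝ => l * (y + 1 / 2)) l x := fun x => by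
    have := ((hasDerivAt_id x).add_const (1 / 2)).const_mul l
    rw [mul_one] at this
    exact this
  have key : (aff l l0.ne')⁻¹ * f * aff l l0.ne' ∈ Comm := by
    refine frag' core (p := fun x => f (l * (x + 1 / 2)) / l - 1 / 2 - x)
      (p1 := fun x => deriv f (l * (x + 1 / 2)) - 1)
      (p2 := fun x => deriv (deriv f) (l * (x + 1 / 2)) * l)
      (fun x => ?_) (fun x => ?_) (by fun_prop) (fun x => ?_) (fun x hx => ?_) (fun x hx => ?_)
      (fun x hx => ?_) _ fun x => ?_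
    · have := ((((d1 _).comp x (da x)).div_const l).sub_const (1 / 2)).sub (hasDerivAt_id x)
      rw [mul_div_assoc, div_self l0.ne', mul_one] at this
      exact this
    · exact ((d2 _).comp x (da x)).sub_const 1
    · linarith [pos (l * (x + 1 / 2))]
    · show f (l * (x + 1 / 2)) / l - 1 / 2 - x = 0
      rw [f3 _ (far x hx)]
      field_simp
      ring
    · show deriv f (l * (x + 1 / 2)) - 1 = 0
      rw [z1 _ (far x hx), sub_self]
    · show deriv (deriv f) (l * (x + 1 / 2)) * l = 0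
      rw [z2 _ (far x hx), zero_mul]
    · rw [Equiv.Perm.mul_apply, Equiv.Perm.mul_apply, aff_ap, aff_inv_ap]
      ring
  have := comm_conj l0 key
  convert this using 1
  group

end Pool.Agent.P.MP_0354a7_al
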