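import Pool.Agent.P.MP_0354a7_al.PF.Window

/-!
The adapted process of the random side: definitions and deterministic estimates.
-/

namespace Pool.Agent.P.MP_0354a7_al

open Real Finset

/-- The index set of the window coefficients. -/
abbrev R_I (k M : ℕ) : Type := Σ n : Fin M, Fin k × Fin (2 ^ (n : ℕ))

/-- The coefficients attached to a sample. -/
noncomputable def R_cf {k M : ℕ} {V : Type} (m₀ : ℕ) (κ : ℝ) (val : V → ℝ) (ω : R_I k M → V)
    (j : R_I k M) : ℝ :=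
  (if m₀ ≤ (j.1 : ℕ) then κ * (1 / 2) ^ (4 * (j.1 : ℕ)) else 0) * val (ω j)

/-- The coefficients of the levels below `m`. -/
noncomputable def R_tru {k M : ℕ} (m : ℕ) (c : R_I k M → ℝ) (j : R_I k M) : ℝ :=
  if (j.1 : ℕ) < m then c j else 0

/-- The coefficients without the level `n`. -/
noncomputable def R_wo {k M : ℕ} (n : ℕ) (c : R_I k M → ℝ) (j : R_I k M) : ℝ :=
  if (j.1 : ℕ) = n then 0 else c j

/-- The data of the process. -/
structure R_D (k M : ℕ) (St : Type) where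
  uu : (R_I k M → ℝ) → ℕ → Equiv.Perm ℝ
  S : St → ℕ → Equiv.Perm ℝ
  nx : ℕ → St → (Fin k → Equiv.Perm ℝ) → St
  st₀ : St

namespace R_D

variable {k M : ℕ} {St : Type}

/-- The states of the process. -/
noncomputable def st (D : R_D k M St) (c : R_I k M → ℝ) : ℕ → St
  | 0 => D.st₀
  | m + 1 => D.nx m (D.st c m) (PL k (D.S (D.st c m)) (D.uu (R_tru m c)))

/-- The alignment maps of the state `n` with the coefficients `d`. -/
noncomputable def pl (D : R_D k M St) (c : R_I k M → ℝ) (n : ℕ) (d : R_I k M → ℝ) :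
    Fin k → Equiv.Perm ℝ := PL k (D.S (D.st c n)) (D.uu d)

/-- The standing hypotheses. -/
structure H (D : R_D k M St) (m₀ : ℕ) (κ η : ℝ) : Prop where
  hk : 0 < k
  κ0 : 0 < κ
  κ1 : 8000 * k * κ ≤ 1
  η1 : η ≤ κ
  m1 : (1 / 2 : ℝ) ^ m₀ ≤ κ
  good : ∀ c, Adm k M m₀ κ c → ∀ i, i < k → Good κ (D.uu c i) ∧ Smu η (1 / (2 * k)) (D.uu c i)
  close : ∀ c c', Adm k M m₀ κ c → Adm k M m₀ κ c' → ∀ m : ℕ, (∀ j, (j.1 : ℕ) < m → c j = c' j) →
    ∀ i, i < k → ∀ x, |D.uu c i x - D.uu c' i x| ≤ 20 * κ * (1 / 2) ^ (4 * m)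
  fam : ∀ c, Adm k M m₀ κ c → ∀ n : Fin M, m₀ ≤ (n : ℕ) → ∀ S : ℕ → Equiv.Perm ℝ,
    (∀ i, i < k → Good κ (S i)) → Fam k (2 ^ (n : ℕ)) κ (κ * (1 / 2) ^ (4 * (n : ℕ))) S
      fun d => D.uu (Function.extend (Sigma.mk n) d c)
  hS : ∀ s i, i < k → Good κ (D.S s i)
  hn : ∀ m s P i, i < k → ∀ x, |D.S (D.nx m s P) i x - D.S s i x| ≤ (1 / 2) ^ (8 * m)

theorem st_congr (D : R_D k M St) {c c' : R_I k M → ℝ} (m : ℕ)
    (h : ∀ j, (j.1 : ℕ) < m → c j = c' j) : D.st c m = D.st c' m := by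
  induction m with
  | zero => rfl
  | succ m ih =>
    have e : R_tru m c = R_tru m c' := funext fun j => by
      unfold R_tru
      split_ifs with hj
      · exact h j (by omega)
      · rfl
    rw [st, st, ih fun j hj => h j (by omega), e]

end R_D

theorem R_adm_le {k M m₀ : ℕ} {κ : ℝ} {c d : R_I k M → ℝ} (hc : Adm k M m₀ κ c)
    (h : ∀ j, d j = c j ∨ d j = 0) : Adm k M m₀ κ d := fun j => by
  rcases h j with e | e
  · rw [e]; exact hc j
  · rw [e, abs_zero]; exact (abs_nonneg _).trans (hc j)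

theorem R_adm_tru {k M m₀ : ℕ} {κ : ℝ} {c : R_I k M → ℝ} (hc : Adm k M m₀ κ c) (m : ℕ) :
    Adm k M m₀ κ (R_tru m c) := R_adm_le hc fun j => by
  unfold R_tru
  split_ifs <;> simp

theorem R_adm_wo {k M m₀ : ℕ} {κ : ℝ} {c : R_I k M → ℝ} (hc : Adm k M m₀ κ c) (m : ℕ) :
    Adm k M m₀ κ (R_wo m c) := R_adm_le hc fun j => by
  unfold R_wo
  split_ifs <;> simp

theorem R_adm_cf {k M m₀ : ℕ} {κ : ℝ} {V : Type} {val : V → ℝ} (hκ : 0 ≤ κ)
    (hv : ∀ v, |val v| ≤ 1) (ω : R_I k M → V) : Adm k M m₀ κ (R_cf m₀ κ val ω) := fun j => by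
  unfold R_cf
  have h0 : 0 ≤ (if m₀ ≤ (j.1 : ℕ) then κ * (1 / 2) ^ (4 * (j.1 : ℕ)) else 0 : ℝ) := by
    split_ifs <;> positivity
  rw [abs_mul, abs_of_nonneg h0]
  exact mul_le_of_le_one_right h0 (hv _)

theorem R_half_le {a b : ℕ} (h : a ≤ b) : (1 / 2 : ℝ) ^ b ≤ (1 / 2) ^ a :=
  pow_le_pow_of_le_one (by norm_num) (by norm_num) h

namespace R_D.H

variable {k M m₀ : ℕ} {St : Type} {D : R_D k M St} {κ η : ℝ}

theorem k1 (h : D.H m₀ κ η) : (1 : ℝ) ≤ k := by exact_mod_cast h.hk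

theorem κ2 (h : D.H m₀ κ η) : 400 * k * κ ≤ 1 := by
  have := h.κ1
  have := mul_pos (lt_of_lt_of_le one_pos h.k1) h.κ0
  nlinarith

theorem κ3 (h : D.H m₀ κ η) : 8000 * κ ≤ 1 := by
  have := h.κ1
  have := h.k1
  have := h.κ0
  nlinarith

/-- `k 2^(-n)` is small for the levels in use. -/
theorem kn (h : D.H m₀ κ η) {n : ℕ} (hn : m₀ ≤ n) : 8000 * k * (1 / 2 : ℝ) ^ n ≤ 1 := by
  have h1 := (R_half_le hn).trans h.m1
  have := h.k1
  exact (mul_le_mul_of_nonneg_left h1 (by positivity)).trans h.κ1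

theorem m12 (h : D.H m₀ κ η) : 12 ≤ m₀ := by
  by_contra hc
  have h1 := (R_half_le (show m₀ ≤ 11 by omega)).trans h.m1
  have := h.κ3
  norm_num at h1
  linarith

theorem drift (h : D.H m₀ κ η) (c : R_I k M → ℝ) {m m' : ℕ} (hm : m ≤ m') {i : ℕ} (hi : i < k)
    (x : ℝ) : |D.S (D.st c m') i x - D.S (D.st c m) i x| ≤ 2 * (1 / 2) ^ (8 * m) := by
  have key : ∀ t, |D.S (D.st c (m + t)) i x - D.S (D.st c m) i x|
      ≤ 2 * (1 / 2) ^ (8 * m) - 2 * (1 / 2) ^ (8 * (m + t)) := fun t => by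
    induction t with
    | zero => simp
    | succ t ih =>
      have h1 := h.hn (m + t) (D.st c (m + t))
        (PL k (D.S (D.st c (m + t))) (D.uu (R_tru (m + t) c))) i hi x
      have h2 := abs_sub_le (D.S (D.st c (m + (t + 1))) i x) (D.S (D.st c (m + t)) i x)
        (D.S (D.st c m) i x)
      have h3 : (1 / 2 : ℝ) ^ (8 * (m + (t + 1))) = (1 / 2) ^ (8 * (m + t)) * (1 / 2) ^ 8 := by
        rw [← pow_add]; congr 1
      have h4 : (0 : ℝ) < (1 / 2) ^ (8 * (m + t)) := by positivity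
      have h5 : D.st c (m + (t + 1)) = D.nx (m + t) (D.st c (m + t))
        (PL k (D.S (D.st c (m + t))) (D.uu (R_tru (m + t) c))) := rfl
      rw [h5] at h2 ⊢
      rw [h3]
      linarith
  obtain ⟨t, rfl⟩ := Nat.exists_eq_add_of_le hm
  have : (0 : ℝ) < (1 / 2) ^ (8 * (m + t)) := by positivity
  linarith [key t]

theorem goodP (h : D.H m₀ κ η) (c : R_I k M → ℝ) (n : ℕ) {d : R_I k M → ℝ} (hd : Adm k M m₀ κ d)
    (i : Fin k) : Good (4 * k * κ) (D.pl c n d i) :=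
  PP_good (h.hS _) (fun i hi => (h.good d hd i hi).1) h.κ0.le h.κ2 _ i.2

theorem goodP' (h : D.H m₀ κ η) (c : R_I k M → ℝ) (n : ℕ) {d : R_I k M → ℝ} (hd : Adm k M m₀ κ d)
    (i : Fin k) : Good (1 / 100) (D.pl c n d i) :=
  (h.goodP c n hd i).mono (by linarith [h.κ2])

theorem closeP (h : D.H m₀ κ η) (c : R_I k M → ℝ) {n n' : ℕ} (hn : n ≤ n') {d d' : R_I k M → ℝ}
    (hd : Adm k M m₀ κ d) (hd' : Adm k M m₀ κ d') (m : ℕ) (e : ∀ j, (j.1 : ℕ) < m → d j = d' j)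
    (i : Fin k) (x : ℝ) : |D.pl c n' d i x - D.pl c n d' i x|
      ≤ 6 * k * (1 / 2) ^ (8 * n) + 60 * k * κ * (1 / 2) ^ (4 * m) := by
  have := h.κ0
  have := PP_close (S' := D.S (D.st c n)) (u' := D.uu d') (h.hS (D.st c n'))
    (fun i hi => (h.good d hd i hi).1) h.κ0.le h.κ2 (by positivity) (by positivity)
    (fun i hi x => h.drift c hn hi x) (h.close d d' hd hd' m e) (i + 1) i.2 x
  refine le_trans this (le_of_eq ?_)
  ring

theorem closeP_same (h : D.H m₀ κ η) (c : R_I k M → ℝ) (n : ℕ) {d d' : R_I k M → ℝ}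
    (hd : Adm k M m₀ κ d) (hd' : Adm k M m₀ κ d') (m : ℕ) (e : ∀ j, (j.1 : ℕ) < m → d j = d' j)
    (i : Fin k) (x : ℝ) : |D.pl c n d i x - D.pl c n d' i x| ≤ 60 * k * κ * (1 / 2) ^ (4 * m) := by
  have := h.κ0
  have := PP_close (S' := D.S (D.st c n)) (u' := D.uu d') (a := 0) (h.hS (D.st c n))
    (fun i hi => (h.good d hd i hi).1) h.κ0.le h.κ2 le_rfl (by positivity)
    (fun i _ x => by simp) (h.close d d' hd hd' m e) (i + 1) i.2 x
  refine le_trans this (le_of_eq ?_)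
  ring

theorem closeP_st (h : D.H m₀ κ η) (c : R_I k M → ℝ) {n n' : ℕ} (hn : n ≤ n') {d : R_I k M → ℝ}
    (hd : Adm k M m₀ κ d) (i : Fin k) (x : ℝ) :
    |D.pl c n' d i x - D.pl c n d i x| ≤ 6 * k * (1 / 2) ^ (8 * n) := by
  have := PP_close (S' := D.S (D.st c n)) (u' := D.uu d) (b := 0) (h.hS (D.st c n'))
    (fun i hi => (h.good d hd i hi).1) h.κ0.le h.κ2 (by positivity) le_rfl
    (fun i hi x => h.drift c hn hi x) (fun i _ x => by simp) (i + 1) i.2 x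
  refine le_trans this (le_of_eq ?_)
  ring

end R_D.H

theorem R_ext_zero {k M : ℕ} (n : Fin M) (c : R_I k M → ℝ) :
    Function.extend (Sigma.mk n) (0 : Fin k × Fin (2 ^ (n : ℕ)) → ℝ) c = R_wo n c := by
  funext ⟨n', p⟩
  unfold R_wo
  by_cases hn : n' = n
  · subst hn
    rw [sigma_mk_injective.extend_apply]
    simp
  · rw [Function.extend_apply', if_neg fun e => hn (Fin.ext e)]
    rintro ⟨q, hq⟩
    exact hn (Sigma.mk.inj hq).1.symm

/-- Resampling one level. -/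
theorem R_resample {k M m₀ : ℕ} {St : Type} (D : R_D k M St) (κ : ℝ) {V : Type} [Fintype V]
    {w : V → ℝ} (val : V → ℝ) (hw : ∀ v, 0 ≤ w v) (hs : ∑ v, w v = 1) (n : Fin M)
    (hn : m₀ ≤ (n : ℕ)) (Φ : (Fin k → Equiv.Perm ℝ) → (Fin k → Equiv.Perm ℝ) → ℝ) (B : ℝ)
    (h : ∀ ω : R_I k M → V, Ex w (fun ξ : R_I k M → V =>
      Φ (D.pl (R_cf m₀ κ val ω) n (R_wo n (R_cf m₀ κ val ω)))
        (D.pl (R_cf m₀ κ val ω) n (Function.extend (Sigma.mk n)
          (fun p => κ * (1 / 2) ^ (4 * (n : ℕ)) * val (ξ ⟨n, p⟩)) (R_cf m₀ κ val ω)))) ≤ B) :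
    Ex w (fun ω : R_I k M → V => Φ (D.pl (R_cf m₀ κ val ω) n (R_wo n (R_cf m₀ κ val ω)))
      (D.pl (R_cf m₀ κ val ω) n (R_cf m₀ κ val ω))) ≤ B := by
  rw [Ex_merge hs (univ.filter fun j : R_I k M => j.1 = n), ← Ex_const (ι := R_I k M) hs B]
  refine Ex_mono hw fun ω => le_trans (le_of_eq ?_) (h ω)
  congr 1
  funext ξ
  have e0 : ∀ j : R_I k M, j.1 ≠ n → R_cf m₀ κ val
      ((univ.filter fun j : R_I k M => j.1 = n).piecewise ξ ω) j = R_cf m₀ κ val ω j := fun j hj => by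
    unfold R_cf
    rw [Finset.piecewise_eq_of_notMem]
    simpa using hj
  have e1 : R_cf m₀ κ val ((univ.filter fun j : R_I k M => j.1 = n).piecewise ξ ω)
      = Function.extend (Sigma.mk n) (fun p => κ * (1 / 2) ^ (4 * (n : ℕ)) * val (ξ ⟨n, p⟩))
        (R_cf m₀ κ val ω) := by
    funext ⟨n', p⟩
    by_cases hn' : n' = n
    · subst hn'
      rw [sigma_mk_injective.extend_apply]
      unfold R_cf
      rw [Finset.piecewise_eq_of_mem, if_pos hn]
      simp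
    · rw [Function.extend_apply', e0 _ hn']
      rintro ⟨q, hq⟩
      exact hn' (Sigma.mk.inj hq).1.symm
  have e2 : R_wo n (R_cf m₀ κ val ((univ.filter fun j : R_I k M => j.1 = n).piecewise ξ ω))
      = R_wo n (R_cf m₀ κ val ω) := funext fun j => by
    unfold R_wo
    split_ifs with hj
    · rfl
    · exact e0 j fun e => hj (by rw [e])
  have e3 := D.st_congr (c := R_cf m₀ κ val ((univ.filter fun j : R_I k M => j.1 = n).piecewise ξ ω))
    (c' := R_cf m₀ κ val ω) n fun j hj => e0 j fun e => by rw [e] at hj; exact lt_irrefl _ hj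
  simp only [R_D.pl]
  rw [e2, e3, e1]

end Pool.Agent.P.MP_0354a7_al
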