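import Pool.Agent.P.MP_0354a7_al.PF.RsideA

/-!
Numerical estimates for the random side.
-/

namespace Pool.Agent.P.MP_0354a7_al

open Real Finset

theorem R_half_pow (a n : ℕ) : (1 / 2 : ℝ) ^ (a * n) = 1 / (2 ^ n) ^ a := by
  rw [one_div_pow, mul_comm, pow_mul]

theorem R_numQ {k n m X Y : ℕ} {κ : ℝ} (κ0 : 0 < κ) (κ1 : κ ≤ 1) (h6 : 6 * n ≤ m) (h7 : m ≤ 7 * n)
    (hX : X ≤ 49 * (Y + 1)) (hX2 : X ≤ 98000 * n ^ 2)
    (hb : 10 ^ 13 * (k : ℝ) * (n : ℝ) ^ 4 ≤ κ ^ 3 * 2 ^ n) :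
    ((2 ^ m : ℕ) : ℝ) ^ X * ((X : ℝ) ^ 2 * k * (40 * (21 / 2 ^ m) / (κ * (1 / 2) ^ (4 * n))))
      ^ (1000 * (Y + 1)) ≤ (1 / 2) ^ m := by
  have s1 : (X : ℝ) ^ 2 * k * (40 * (21 / 2 ^ m) / (κ * (1 / 2) ^ (4 * n))) ≤ (1 / 2) ^ n := by
    have t0 : (0 : ℝ) < 2 ^ n := by positivity
    have t6 : ((2 : ℝ) ^ n) ^ 6 ≤ 2 ^ m := by
      rw [← pow_mul]
      exact pow_le_pow_right₀ (by norm_num) (by omega)
    rw [R_half_pow, one_div_pow]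
    set t : ℝ := 2 ^ n
    have h1 : 40 * (21 / (2 : ℝ) ^ m) / (κ * (1 / t ^ 4)) ≤ 840 / (κ * t ^ 2) := by
      have : (21 : ℝ) / 2 ^ m ≤ 21 / t ^ 6 := div_le_div_of_nonneg_left (by norm_num) (by positivity) t6
      refine (div_le_div_of_nonneg_right (mul_le_mul_of_nonneg_left this (by norm_num))
        (by positivity)).trans (le_of_eq ?_)
      field_simp
      norm_num
    have h2 : (X : ℝ) ≤ 98000 * (n : ℝ) ^ 2 := by exact_mod_cast hX2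
    have h3 : (X : ℝ) ^ 2 ≤ (98000 * (n : ℝ) ^ 2) ^ 2 := pow_le_pow_left₀ (by positivity) h2 2
    have h4 : (X : ℝ) ^ 2 * k ≤ (98000 * (n : ℝ) ^ 2) ^ 2 * k :=
      mul_le_mul_of_nonneg_right h3 (by positivity)
    have h5 : κ ^ 3 ≤ κ := by nlinarith [mul_pos κ0 κ0]
    have h8 : κ ^ 3 * t ≤ κ * t := mul_le_mul_of_nonneg_right h5 t0.le
    have h9 : (0 : ℝ) ≤ k * (n : ℝ) ^ 4 := by positivity
    have h10 : (X : ℝ) ^ 2 * k * 840 ≤ κ * t := by nlinarith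
    refine (mul_le_mul_of_nonneg_left h1 (by positivity)).trans ?_
    rw [← mul_div_assoc, div_le_div_iff₀ (by positivity) t0]
    nlinarith
  have s2 := pow_le_pow_left₀ (by positivity) s1 (1000 * (Y + 1))
  refine (mul_le_mul_of_nonneg_left s2 (by positivity)).trans ?_
  have s3 : m * X + m ≤ n * (1000 * (Y + 1)) := by
    have : m * X ≤ 7 * n * (49 * (Y + 1)) := Nat.mul_le_mul h7 hX
    nlinarith
  rw [← pow_mul]
  refine (mul_le_mul_of_nonneg_left (R_half_le s3) (by positivity)).trans (le_of_eq ?_)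
  push_cast
  rw [pow_add, ← pow_mul, ← mul_assoc, ← mul_pow]
  norm_num

theorem R_numG0 {t κ Γ l₀ γ E E' N W : ℝ} (t1 : 1 ≤ t) (κ0 : 0 < κ) (κ1 : κ ≤ 1) (Γ0 : 0 ≤ Γ)
    (hΓ : Γ ≤ 10 / t ^ 11) (hl : 1 / t ^ 8 ≤ l₀) (hγ : γ ≤ 1 / t ^ 20) (W0 : 0 ≤ W)
    (hE : E ≤ W) (E0 : 0 ≤ E') (hE' : E' ≤ W) (N0 : 0 ≤ N) :
    2 * (Γ * E / l₀ + 300 * (N + 6) * E' * (1 / t ^ 7 / (κ * (1 / t ^ 4))
      + (1 / t ^ 7) ^ 2 / (κ * (1 / t ^ 4)) ^ 3 + γ / l₀ ^ 2))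
      ≤ 2000 * (N + 6) * W / (κ ^ 3 * t ^ 2) := by
  have t0 : 0 < t := by linarith
  have l0 : 0 < l₀ := lt_of_lt_of_le (by positivity) hl
  have k3 : κ ^ 3 ≤ 1 := pow_le_one₀ κ0.le κ1
  have k2 : κ ^ 2 ≤ 1 := pow_le_one₀ κ0.le κ1
  set Z : ℝ := 1 / (κ ^ 3 * t ^ 2) with hZ
  have Z0 : 0 < Z := by positivity
  have a0 : ∀ j : ℕ, 1 / t ^ (2 + j) ≤ Z := fun j => by
    refine one_div_le_one_div_of_le (by positivity) ?_
    have h1 : 1 ≤ t ^ j := one_le_pow₀ t1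
    rw [pow_add]
    nlinarith [pow_pos t0 2]
  have a1 : Γ * E / l₀ ≤ 10 * W * Z := by
    have h1 : Γ * E ≤ 10 / t ^ 11 * W :=
      (mul_le_mul_of_nonneg_left hE Γ0).trans (mul_le_mul_of_nonneg_right hΓ W0)
    have h2 : Γ * E / l₀ ≤ 10 / t ^ 11 * W / (1 / t ^ 8) :=
      div_le_div₀ (by positivity) h1 (by positivity) hl
    have h3 : 10 / t ^ 11 * W / (1 / t ^ 8) = 10 * W * (1 / t ^ (2 + 1)) := by
      field_simp
      ring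
    exact h2.trans (h3 ▸ mul_le_mul_of_nonneg_left (a0 1) (by positivity))
  have a2 : 1 / t ^ 7 / (κ * (1 / t ^ 4)) ≤ Z := by
    have h3 : 1 / t ^ 7 / (κ * (1 / t ^ 4)) = 1 / (κ * t ^ 3) := by field_simp
    rw [h3]
    refine one_div_le_one_div_of_le (by positivity) ?_
    have h4 : κ ^ 2 * 1 ≤ 1 * t := mul_le_mul k2 t1 zero_le_one zero_le_one
    have h5 := mul_le_mul_of_nonneg_left h4 (show 0 ≤ κ * t ^ 2 by positivity)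
    nlinarith
  have a3 : (1 / t ^ 7) ^ 2 / (κ * (1 / t ^ 4)) ^ 3 = Z := by rw [hZ]; field_simp
  have a4 : γ / l₀ ^ 2 ≤ Z := by
    have h2 : γ / l₀ ^ 2 ≤ 1 / t ^ 20 / (1 / t ^ 8) ^ 2 :=
      div_le_div₀ (by positivity) hγ (by positivity) (pow_le_pow_left₀ (by positivity) hl 2)
    have h3 : 1 / t ^ 20 / (1 / t ^ 8) ^ 2 = 1 / t ^ (2 + 2) := by field_simp
    exact h2.trans (h3 ▸ a0 2)
  have a5 : 300 * (N + 6) * E' * (1 / t ^ 7 / (κ * (1 / t ^ 4))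
      + (1 / t ^ 7) ^ 2 / (κ * (1 / t ^ 4)) ^ 3 + γ / l₀ ^ 2) ≤ 300 * (N + 6) * W * (3 * Z) := by
    refine (mul_le_mul_of_nonneg_left (show _ ≤ 3 * Z by linarith) (by positivity)).trans ?_
    exact mul_le_mul_of_nonneg_right (mul_le_mul_of_nonneg_left hE' (by positivity)) (by positivity)
  have a6 : 2000 * (N + 6) * W / (κ ^ 3 * t ^ 2) = 2000 * (N + 6) * W * Z := by rw [hZ]; ring
  have a7 : 0 ≤ W * Z := by positivity
  have a8 : 0 ≤ N * (W * Z) := by positivity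
  rw [a6]
  nlinarith

theorem R_numG {k b c' M : ℕ} {κ ρ : ℝ} (κ0 : 0 < κ) (κ1 : κ ≤ 1) (ρ0 : 0 < ρ) (hc : 2 ≤ c')
    (hcb : c' ≤ b ^ 2) (h15 : 15 ≤ b) (hρ : exp 1 ≤ 2 ^ c' * ρ ^ 4) (hM : b ^ 2 < M) (hk : 0 < k)
    (hb : 10 ^ 13 * (k : ℝ) * (b : ℝ) ^ 4 ≤ κ ^ 3 * 2 ^ b) :
    (ρ ^ (4 * (b ^ 2 / c')))⁻¹ * (2 * (10 * ((2 ^ b ^ 2 : ℕ) : ℝ)
        * ((1 / 2) ^ (12 * c')) ^ (2 * (b ^ 2 / c'))
        * exp (((2 * (b ^ 2 / c') : ℕ) : ℝ) / 50) / (1 / 2) ^ (7 * (b + 1) ^ 2)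
      + 300 * (((2 * (b ^ 2 / c') : ℕ) : ℝ) + 6) * exp ((((2 * (b ^ 2 / c') : ℕ) : ℝ) + 4) / 5)
        * ((1 / 2) ^ (7 * b ^ 2) / (κ * (1 / 2) ^ (4 * b ^ 2))
          + ((1 / 2) ^ (7 * b ^ 2)) ^ 2 / (κ * (1 / 2) ^ (4 * b ^ 2)) ^ 3
          + (1 / 2) ^ (20 * M) / ((1 / 2) ^ (7 * (b + 1) ^ 2)) ^ 2))) ≤ (1 / 2) ^ b := by
  set n := b ^ 2 with hn
  set a := n / c' with ha
  have a1 : c' * a ≤ n := Nat.mul_div_le n c'
  have a2 : n < c' * (a + 1) := Nat.lt_mul_div_succ n (by omega)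
  have a3 : 1 ≤ a := (Nat.le_div_iff_mul_le (by omega)).2 (by omega)
  have a4 : 2 * a ≤ n := by nlinarith
  have t1 : (1 : ℝ) ≤ 2 ^ n := one_le_pow₀ (by norm_num)
  have e1 : exp (a : ℝ) ≤ 2 ^ n * ρ ^ (4 * a) := by
    have h1 : exp (a : ℝ) = exp 1 ^ a := by rw [← exp_nat_mul, mul_one]
    rw [h1]
    refine (pow_le_pow_left₀ (exp_pos _).le hρ a).trans ?_
    rw [mul_pow, ← pow_mul, ← pow_mul]
    exact mul_le_mul_of_nonneg_right (pow_le_pow_right₀ (by norm_num) a1) (by positivity)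
  have e2 : exp ((((2 * a : ℕ) : ℝ) + 4) / 5) ≤ 3 * (2 ^ n * ρ ^ (4 * a)) := by
    have h1 : exp ((((2 * a : ℕ) : ℝ) + 4) / 5) ≤ exp (1 + a) := by
      refine exp_le_exp.2 ?_
      push_cast
      have : (0 : ℝ) ≤ a := by positivity
      linarith
    rw [exp_add] at h1
    exact h1.trans (mul_le_mul exp_one_lt_three.le e1 (exp_pos _).le (by norm_num))
  have e3 : exp (((2 * a : ℕ) : ℝ) / 50) ≤ 3 * (2 ^ n * ρ ^ (4 * a)) := by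
    refine le_trans (exp_le_exp.2 ?_) e2
    have : (0 : ℝ) ≤ ((2 * a : ℕ) : ℝ) := by positivity
    linarith
  have g1 : 10 * ((2 ^ n : ℕ) : ℝ) * ((1 / 2) ^ (12 * c')) ^ (2 * a) ≤ 10 / (2 ^ n) ^ 11 := by
    rw [← pow_mul]
    have h1 := R_half_le (show 12 * n ≤ 12 * c' * (2 * a) by nlinarith)
    refine (mul_le_mul_of_nonneg_left h1 (by positivity)).trans (le_of_eq ?_)
    rw [R_half_pow]
    push_cast
    field_simp
  have g2 : 1 / ((2 : ℝ) ^ n) ^ 8 ≤ (1 / 2) ^ (7 * (b + 1) ^ 2) := by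
    rw [← R_half_pow]
    exact R_half_le (by nlinarith)
  have g3 : (1 / 2 : ℝ) ^ (20 * M) ≤ 1 / (2 ^ n) ^ 20 := by
    rw [← R_half_pow]
    exact R_half_le (by omega)
  have key := R_numG0 t1 κ0 κ1 (by positivity) g1 g2 g3 (by positivity) e3 (exp_pos _).le e2
    (N := ((2 * a : ℕ) : ℝ)) (by positivity)
  rw [R_half_pow 7 n, R_half_pow 4 n]
  refine (mul_le_mul_of_nonneg_left key (by positivity)).trans ?_
  have f1 : ((2 * a : ℕ) : ℝ) ≤ (b : ℝ) ^ 2 := by exact_mod_cast a4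
  have f2 : (2 : ℝ) ^ b * 2 ^ b ≤ 2 ^ n := by
    rw [← pow_add]
    exact pow_le_pow_right₀ (by norm_num) (by nlinarith)
  have f3 : (ρ ^ (4 * a))⁻¹ * (2000 * (((2 * a : ℕ) : ℝ) + 6) * (3 * (2 ^ n * ρ ^ (4 * a)))
      / (κ ^ 3 * (2 ^ n) ^ 2)) = 6000 * (((2 * a : ℕ) : ℝ) + 6) / (κ ^ 3 * 2 ^ n) := by
    field_simp
    norm_num
  have f4 : (15 : ℝ) ≤ b := by exact_mod_cast h15
  have f5 : (1 : ℝ) ≤ k := by exact_mod_cast hk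
  have f6 : (225 : ℝ) ≤ (b : ℝ) ^ 2 := by nlinarith
  have f7 : (b : ℝ) ^ 4 ≤ k * (b : ℝ) ^ 4 := le_mul_of_one_le_left (by positivity) f5
  have f8 : 6000 * (((2 * a : ℕ) : ℝ) + 6) ≤ κ ^ 3 * 2 ^ b := by nlinarith
  rw [f3, one_div_pow, div_le_div_iff₀ (by positivity) (by positivity), one_mul]
  refine (mul_le_mul_of_nonneg_right f8 (by positivity)).trans ?_
  rw [mul_assoc]
  exact mul_le_mul_of_nonneg_left f2 (by positivity)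

theorem R_numH {k n N : ℕ} {κ : ℝ} (κ0 : 0 < κ) (κ1 : 8000 * k * κ ≤ 1) (hN : N ≤ n) (hn : 1 ≤ n) :
    10000 * k * ((N : ℝ) + 1) * exp (N / 20) * (κ * (1 / 2) ^ (4 * n)) * ((2 ^ n : ℕ) : ℝ) ≤ 1 := by
  have t2 : (2 : ℝ) ≤ 2 ^ n := by
    simpa using pow_le_pow_right₀ (show (1 : ℝ) ≤ 2 by norm_num) hn
  have h1 : (N : ℝ) + 1 ≤ 2 ^ n := by
    have : N + 1 ≤ 2 ^ n := Nat.lt_two_pow_self.trans_le (Nat.pow_le_pow_right (by norm_num) hN)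
    exact_mod_cast this
  have h2 : exp (N / 20 : ℝ) ≤ 2 ^ n := by
    have e : exp (N / 20 : ℝ) = exp (1 / 20) ^ N := by rw [← exp_nat_mul]; congr 1; ring
    have e2 : exp (1 / 20 : ℝ) ≤ 2 := by
      have := Real.abs_exp_sub_one_le (x := 1 / 20) (by rw [abs_of_pos] <;> norm_num)
      rw [abs_of_pos (show (0 : ℝ) < 1 / 20 by norm_num)] at this
      linarith [le_of_abs_le this]
    rw [e]
    exact (pow_le_pow_left₀ (exp_pos _).le e2 N).trans (pow_le_pow_right₀ (by norm_num) hN)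
  rw [R_half_pow]
  push_cast
  set t : ℝ := 2 ^ n
  have h3 : ((N : ℝ) + 1) * exp (N / 20) ≤ t * t := mul_le_mul h1 h2 (exp_pos _).le (by linarith)
  have h4 : 10000 * k * ((N : ℝ) + 1) * exp (N / 20) * (κ * (1 / t ^ 4)) * t
      = 10000 * (k * κ) * (((N : ℝ) + 1) * exp (N / 20)) / t ^ 3 := by field_simp
  rw [h4, div_le_one (by positivity)]
  have h5 : 10000 * (k * κ) ≤ 2 := by linarith
  have h6 := mul_le_mul h5 h3 (by positivity) (by norm_num)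
  nlinarith

theorem R_geom (a J : ℕ) : ∑ j ∈ range J, (1 / 2 : ℝ) ^ (a + j) ≤ 2 * (1 / 2) ^ a := by
  simp only [pow_add]
  rw [← mul_sum, mul_comm]
  exact mul_le_mul_of_nonneg_right (sum_geometric_two_le J) (by positivity)

theorem R_large (K : ℝ) {κ : ℝ} (κ0 : 0 < κ) :
    ∃ M₀ : ℕ, ∀ n : ℕ, M₀ ≤ n → K * (n : ℝ) ^ 4 ≤ κ * 2 ^ n := by
  have h := (tendsto_pow_const_div_const_pow_of_one_lt 4 (show (1 : ℝ) < 2 by norm_num)).const_mul K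
  rw [mul_zero] at h
  obtain ⟨M₀, hM⟩ := Filter.eventually_atTop.1 (h.eventually (gt_mem_nhds κ0))
  refine ⟨M₀, fun n hn => ?_⟩
  have := hM n hn
  rw [← mul_div_assoc, div_lt_iff₀ (by positivity)] at this
  exact this.le

end Pool.Agent.P.MP_0354a7_al
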