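import Pool.Agent.P.MP_0354a7_al.PF.Level

/-!
The strategy that chooses the shares scale by scale.
-/

namespace Pool.Agent.P.MP_0354a7_al

open Real Finset MeasureTheory

theorem CP.modulus {f : ℝ → ℝ} (h : CP f) {c : ℝ} (hc : 0 < c) :
    ∃ d, 0 < d ∧ ∀ x y, |x - y| ≤ d → |f x - f y| ≤ c := by
  obtain ⟨d, d0, hd⟩ := Metric.uniformContinuousOn_iff_le.1
    ((isCompact_Icc (a := (-1 : ℝ)) (b := 2)).uniformContinuousOn_of_continuous h.1.continuousOn) c hc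
  refine ⟨min d 1, lt_min d0 one_pos, fun x y hxy => ?_⟩
  have b := abs_le.1 (hxy.trans (min_le_right _ _))
  have f0 := Int.floor_le y
  have f1 := Int.lt_floor_add_one y
  rw [← h.sub_int ⌊y⌋ x, ← h.sub_int ⌊y⌋ y]
  exact hd _ ⟨by linarith, by linarith⟩ _ ⟨by linarith, by linarith⟩
    (by rw [Real.dist_eq, sub_sub_sub_cancel_right]; exact hxy.trans (min_le_left _ _))

theorem av_le {f : ℝ → ℝ} (h : CP f) {μ : ℝ} (μ0 : 0 < μ) (μ1 : 2 * μ ≤ 1) (y : ℝ) :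
    |av μ f y| ≤ (∫ x in (0 : ℝ)..1, |f x|) / (2 * μ) := by
  have ca : CP fun x => |f x| := ⟨h.1.abs, fun x => by simp only [h.2 x]⟩
  rw [av, abs_div, abs_of_pos (show 0 < 2 * μ by linarith), ← ca.shift (y - μ)]
  exact div_le_div_of_nonneg_right ((intervalIntegral.abs_integral_le_integral_abs (by linarith)).trans
    (intervalIntegral.integral_mono_interval le_rfl (by linarith) (by linarith)
      (Filter.Eventually.of_forall fun x => abs_nonneg _) (ca.1.intervalIntegrable _ _))) (by linarith)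

theorem ShI.bd {k : ℕ} {ε t L : ℝ} {p p2 b B : ℝ → ℝ} {q q1 q2 E : Fin k → ℝ → ℝ}
    (h : ShI k ε t L p p2 b B q q1 q2 E) (hB : ∀ x, 0 ≤ B x) (e0 : 0 ≤ ε) (t0 : 0 ≤ t) (i : Fin k)
    (x : ℝ) : |k * q2 i x| ≤ exp (-B x) * |p2 x| + ε * (13 * t + 3 * exp (-L) + 2 * E i x) := by
  have h1 := abs_add_le (k * q2 i x - exp (-B x) * p2 x) (exp (-B x) * p2 x)
  rw [sub_add_cancel, abs_mul (exp _), abs_of_pos (exp_pos _)] at h1
  have h2 : max 0 (exp (-L) - exp (-B x)) ≤ exp (-L) :=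
    max_le (exp_pos _).le (by linarith [exp_pos (-B x)])
  have h3 := (h.main i x).trans (mul_le_mul_of_nonneg_left
    (show _ ≤ 13 * t + 3 * exp (-L) + 2 * E i x by
      linarith [mul_nonneg t0 (Phi_nonneg (hB x)), mul_nonneg t0 (exp_pos (-B x)).le]) e0)
  linarith

theorem sside (θ : ℝ) (hθ : 0 < θ) : ∃ (β c C : ℝ) (M₁ : ℕ), 0 < β ∧ 0 < c ∧ 1 ≤ C ∧
    ∀ (k mg : ℕ) (ε : ℝ) (p p1 p2 : ℝ → ℝ), 0 < k → M₁ ≤ mg → 0 < ε → ε ≤ 1 → C2P p p1 p2 →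
      (∀ x, |p2 x| ≤ ε) → (∫ x in (0 : ℝ)..1, |p2 x|) ≤ ε * (1 / 2) ^ (5 * mg) →
      ∃ (St : Type) (q q1 q2 : St → ℕ → ℝ → ℝ) (b b1 b2 : ℝ → ℝ)
        (Inv : ℕ → St → (Fin k → Equiv.Perm ℝ) → Prop) (st₀ : St) (ms : ℕ), mg ≤ ms ∧
        C2P b b1 b2 ∧ (∀ x, |b2 x| ≤ θ * ε) ∧
        (∀ s i, i < k → C2P (q s i) (q1 s i) (q2 s i) ∧
          ∀ x, |q s i x| ≤ C * ε / k ∧ |q2 s i x| ≤ C * ε / k) ∧
        (∀ s x, b x + ∑ i ∈ range k, q s i x = p x) ∧ (∀ P, Inv mg st₀ P) ∧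
        (∀ m s P, mg ≤ m → Inv m s P → (∀ i, Good (1 / 100) (P i)) →
          EXP (2 ^ (4 * m)) ((1 / 2) ^ (3 * mg)) β P →
          ∃ s', (∀ i, i < k → ∀ x, |q s' i x - q s i x| ≤ (1 / 2) ^ (8 * m) / k) ∧
            ∀ P' : Fin k → Equiv.Perm ℝ, (∀ i x, |P' i x - P i x| ≤ c * (1 / 2) ^ (4 * m)) →
              Inv (m + 1) s' P') ∧
        ∀ s P, Inv ms s P → ∀ x, |∑ i : Fin k, q2 s i (P i x)| ≤ θ * ε := by
  obtain ⟨t, t0, t1, tθ⟩ : ∃ t : ℝ, 0 < t ∧ t ≤ 1 / 100 ∧ 100 * t ≤ θ :=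
    ⟨min θ 1 / 100, by positivity, by linarith [min_le_right θ 1], by linarith [min_le_left θ 1]⟩
  obtain ⟨L, L1, L3⟩ : ∃ L : ℝ, 1 ≤ L ∧ exp (-(L / 3)) ≤ t := by
    refine ⟨3 / t, by rw [le_div_iff₀ t0]; linarith, ?_⟩
    rw [show 3 / t / 3 = t⁻¹ by field_simp, exp_neg]
    exact inv_le_of_inv_le₀ t0 (by linarith [add_one_le_exp t⁻¹])
  have L4 : exp (-L) ≤ t := (exp_le_exp.2 (by linarith)).trans L3
  obtain ⟨s, hs⟩ : ∃ s, s = t / 51 := ⟨_, rfl⟩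
  have s0 : 0 < s := by rw [hs]; positivity
  have s1 : s ≤ 1 / 2 := by rw [hs]; linarith
  obtain ⟨M₁, hM⟩ := exists_pow_lt_of_lt_one
    (show 0 < min (t * s) (1 / (32 * L * (48 / (t * s) + 1))) by positivity)
    (show (1 / 2 : ℝ) < 1 by norm_num)
  refine ⟨t / (12000 * L), t / 10, 7, M₁, by positivity, by positivity, by norm_num,
    fun k mg ε p p1 p2 hk hmg e0 e1 hp h2 hI => ?_⟩
  have k0 : (0 : ℝ) < k := by exact_mod_cast hk
  have H0 : ∀ m : ℕ, (0 : ℝ) < (1 / 2) ^ m := fun m => by positivity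
  have Hm : ∀ {m m' : ℕ}, m ≤ m' → (1 / 2 : ℝ) ^ m' ≤ (1 / 2) ^ m := fun h =>
    pow_le_pow_of_le_one (by norm_num) (by norm_num) h
  have H1 : ∀ m : ℕ, (1 / 2 : ℝ) ^ m ≤ 1 := fun m => pow_le_one₀ (by norm_num) (by norm_num)
  have X1 := ((Hm hmg).trans hM.le).trans (min_le_left _ _)
  have X2 := ((Hm hmg).trans hM.le).trans (min_le_right _ _)
  have μ0 : ∀ m : ℕ, 0 < s * (1 / 2) ^ m := fun m => by positivity
  have μ1 : ∀ m : ℕ, s * (1 / 2) ^ m ≤ (1 / 2) ^ m := fun m => mul_le_of_le_one_left (H0 m).le (by linarith)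
  have hb := av_c2p hp (s * (1 / 2) ^ (4 * mg))
  have b2 : ∀ x, |av (s * (1 / 2) ^ (4 * mg)) p2 x| ≤ t * ε := fun x => by
    refine (av_le hp.cp2 (μ0 _) (by nlinarith [H1 (4 * mg), H0 (4 * mg)]) x).trans ?_
    rw [div_le_iff₀ (by linarith [μ0 (4 * mg)])]
    refine hI.trans ?_
    rw [show 5 * mg = mg + 4 * mg by ring, pow_add]
    nlinarith [mul_le_mul_of_nonneg_left X1 (mul_pos e0 (H0 (4 * mg))).le,
      mul_pos (mul_pos t0 s0) (mul_pos e0 (H0 (4 * mg)))]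
  obtain ⟨d, d0, hd⟩ := hp.cp2.modulus (mul_pos t0 e0)
  obtain ⟨m₂, hm₂⟩ := exists_pow_lt_of_lt_one d0 (show (1 / 2 : ℝ) < 1 by norm_num)
  have st : ∀ {B : ℝ → ℝ} {q q1 q2 E : Fin k → ℝ → ℝ},
      ShI k ε t L p p2 (av (s * (1 / 2) ^ (4 * mg)) p) B q q1 q2 E → (∀ x, 0 ≤ B x) →
      (∀ i, C2P (q i) (q1 i) (q2 i) ∧ ∀ x, |q i x| ≤ 7 * ε / k ∧ |q2 i x| ≤ 7 * ε / k) ∧
        ∀ x, av (s * (1 / 2) ^ (4 * mg)) p x + ∑ i, q i x = p x := fun {B q q1 q2 E} h hB => by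
    refine ⟨fun i => ⟨h.c i, fun x => ?_⟩, h.sum⟩
    have a1 := h.sup i x
    have a2 := h.bd hB e0.le t0.le i x
    have a3 := mul_le_mul (exp_le_one_iff.2 (show -B x ≤ 0 by linarith [hB x])) (h2 x) (abs_nonneg _)
      zero_le_one
    have a4 := mul_le_mul_of_nonneg_left (show 13 * t + 3 * exp (-L) + 2 * E i x ≤ 6 by
      linarith [(h.e0 i x).2, exp_pos (-B x)]) e0.le
    rw [abs_mul, abs_of_pos k0] at a1 a2
    rw [le_div_iff₀ k0, le_div_iff₀ k0]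
    constructor <;> nlinarith [mul_pos e0 (exp_pos (-B x))]
  have sh0 : ShI k ε t L p p2 (av (s * (1 / 2) ^ (4 * mg)) p) (fun _ => 0)
      (fun _ x => (p x - av (s * (1 / 2) ^ (4 * mg)) p x) / k)
      (fun _ x => (p1 x - av (s * (1 / 2) ^ (4 * mg)) p1 x) / k)
      (fun _ x => (p2 x - av (s * (1 / 2) ^ (4 * mg)) p2 x) / k) fun _ _ => 0 := by
    refine ⟨fun _ => (hp.sub hb).div k, fun x => by simp [mul_div_cancel₀ _ k0.ne'], fun _ x => ?_,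
      fun _ _ => by simp, fun _ x => ?_⟩
    · rw [mul_div_cancel₀ _ k0.ne', neg_zero, exp_zero]
      refine (av_bds hp h2 (μ0 _) x).1.trans (mul_le_mul_of_nonneg_left ?_ e0.le)
      nlinarith [μ0 (4 * mg), (μ1 (4 * mg)).trans (H1 _)]
    · rw [mul_div_cancel₀ _ k0.ne', neg_zero, exp_zero, one_mul, sub_sub_cancel_left, abs_neg,
        show Phi 0 = 5 by simp [Phi]]
      nlinarith [b2 x, mul_nonneg e0.le (le_max_left 0 (exp (-L) - 1))]
  refine ⟨{z : (Fin k → ℝ → ℝ) × (Fin k → ℝ → ℝ) × (Fin k → ℝ → ℝ) //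
      (∀ i, C2P (z.1 i) (z.2.1 i) (z.2.2 i) ∧ ∀ x, |z.1 i x| ≤ 7 * ε / k ∧ |z.2.2 i x| ≤ 7 * ε / k) ∧
        ∀ x, av (s * (1 / 2) ^ (4 * mg)) p x + ∑ i, z.1 i x = p x},
    fun z i => if h : i < k then z.1.1 ⟨i, h⟩ else 0, fun z i => if h : i < k then z.1.2.1 ⟨i, h⟩ else 0,
    fun z i => if h : i < k then z.1.2.2 ⟨i, h⟩ else 0, _, _, _,
    fun m z P => ∃ g E, LI ((1 / 2) ^ (4 * m)) (2 * (1 / 2) ^ (4 * m)) (t / 5 * (1 / 2) ^ (4 * m))
      (s * (1 / 2) ^ (4 * m)) ε t L (t * s * ε / 24) (48 / (t * s) * (1 / 2) ^ (5 * mg)) p p2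
      (av (s * (1 / 2) ^ (4 * mg)) p) P g z.1.1 z.1.2.1 z.1.2.2 E,
    ⟨(_, _, _), st sh0 fun _ => le_rfl⟩, max mg m₂, le_max_left _ _, hb,
    fun x => (b2 x).trans (by nlinarith), fun z i hi => ?_, fun z x => ?_, fun P => ?_,
    fun m z P hm ⟨g, E, h⟩ hP hE => ?_, fun z P ⟨g, E, h⟩ x => ?_⟩
  · simp only [dif_pos hi]
    exact z.2.1 _
  · rw [← z.2.2 x, sum_range]
    simp
  · refine ⟨Geo.zero k, _, GI.zero _ _ _ _ _ _ _ _, ?_, fun y => Or.inr ?_, fun x y _ => Or.inr ?_,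
      fun y => Or.inl (b2 y), sh0, fun x y _ => ?_⟩
    · simp only [Geo.zero, vol, setIntegral_empty, add_zero]
      positivity
    all_goals
      simp only [Geo.zero, neg_zero, exp_zero, sub_self, sum_const_zero, zero_div]
      positivity
  · have e : (1 / 2 : ℝ) ^ (4 * m) = 1 / ((2 ^ (4 * m) : ℕ) : ℝ) := by simp
    have e' : (1 / 2 : ℝ) ^ (4 * (m + 1)) = (1 / 2) ^ (4 * m) / 16 := by ring
    have a0 := H0 (4 * m)
    rw [show (2 : ℝ) ^ (4 * m) = 1 / (1 / 2) ^ (4 * m) by simp] at hE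
    obtain ⟨g', q', q1', q2', E', h', hq⟩ := level (n := 2 ^ (4 * m)) (μ' := s * (1 / 2) ^ (4 * (m + 1)))
      (σ := (1 / 2) ^ (3 * mg)) (β := t / (12000 * L)) hk (by positivity) (e ▸ h) hP hp h2 t0
      (by linarith) (by positivity) le_rfl L1 (e ▸ μ0 _) (e ▸ μ1 _) (by rw [hs]; linarith) (μ0 _)
      (e ▸ (μ1 _).trans (Hm (by omega))) (by rw [← e, e']; exact le_of_eq (by ring)) (e ▸ hE)
      (by positivity) (le_of_eq (by field_simp)) (by positivity)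
      (by rw [show t * s * ε / 24 * (48 / (t * s) * (1 / 2) ^ (5 * mg)) = 2 * (ε * (1 / 2) ^ (5 * mg)) by
        field_simp; ring]; linarith)
      (by
        rw [← e]
        have a1 : (1 / 2 : ℝ) ^ (5 * mg) ≤ (1 / 2) ^ (4 * mg) := Hm (by omega)
        have a2 : (1 / 2 : ℝ) ^ (4 * m) ≤ (1 / 2) ^ (4 * mg) := Hm (by omega)
        rw [le_div_iff₀ (by positivity)] at X2
        calc _ ≤ 32 * L * (48 / (t * s) * (1 / 2) ^ (4 * mg) + (1 / 2) ^ (4 * mg)) := by gcongr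
          _ = (1 / 2) ^ mg * (32 * L * (48 / (t * s) + 1)) * (1 / 2) ^ (3 * mg) := by ring
          _ ≤ _ := mul_le_of_le_one_left (H0 _).le X2)
    rw [← e] at h' hq
    obtain ⟨f1, f2, tB⟩ := h'.gi.tB
    refine ⟨⟨(q', q1', q2'), st h'.sh tB.nn⟩, fun i hi x => ?_, fun P' hP' =>
      ⟨g', E', h'.mono (H0 _) (Hm (by omega)) (by rw [e']; linarith) hP' (by
        rw [e']; nlinarith [mul_pos t0 a0])⟩⟩
    simp only [dif_pos hi]
    refine (hq _ x).trans (div_le_div_of_nonneg_right ?_ k0.le)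
    rw [show 8 * m = 4 * m * 2 by ring, pow_mul (1 / 2 : ℝ) (4 * m)]
    exact (mul_le_of_le_one_left (sq_nonneg _) e1).trans (pow_le_pow_left₀ (μ0 _).le (μ1 _) 2)
  · obtain ⟨f1, f2, tB⟩ := h.gi.tB
    have a1 : ∀ i y, |k * z.1.2.2 i y| ≤ ε * (18 * t) + 2 * ε * E i y := fun i y => by
      have a2 := h.sh.bd tB.nn e0.le t0.le i y
      have a3 : exp (-g.B y) * |p2 y| ≤ 2 * t * ε := by
        rcases h.clH y with c | c
        · have := av_sub hp.cp2.1 (y := y) (a := p2 y) (b := 0) (M := t * ε) (μ0 (4 * max mg m₂))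
            fun u hu => by
              simpa using hd u y (hu.trans ((μ1 _).trans ((Hm (by omega)).trans hm₂.le)))
          have a4 := abs_sub_abs_le_abs_sub (p2 y) (av (s * (1 / 2) ^ (4 * max mg m₂)) p2 y)
          rw [abs_sub_comm] at a4
          linarith [mul_le_of_le_one_left (abs_nonneg (p2 y))
            (exp_le_one_iff.2 (show -g.B y ≤ 0 by linarith [tB.nn y]))]
        · have := mul_le_mul ((exp_le_exp.2 (neg_le_neg c)).trans L4) (h2 y) (abs_nonneg _) t0.le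
          nlinarith [mul_pos t0 e0]
      nlinarith [mul_le_mul_of_nonneg_left L4 e0.le]
    have a2 := h.ei x (fun i => P i x) fun i => by rw [sub_self, abs_zero]; positivity
    have a3 : (∑ i, (1 - exp (-g.B (P i x)))) / k ≤ 1 := le_of_abs_le (abs_avg_le hk fun i => by
      rw [abs_of_nonneg (one_sub_exp_mem (tB.nn _)).1]; exact (one_sub_exp_mem (tB.nn _)).2)
    have a4 := (abs_sum_le_sum_abs _ _).trans (sum_le_sum fun i (_ : i ∈ univ) => a1 i (P i x))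
    rw [← mul_sum, abs_mul, abs_of_pos k0, sum_add_distrib, ← mul_sum, sum_const, card_univ,
      Fintype.card_fin, nsmul_eq_mul, ← mul_sum] at a4
    have a5 : (∑ i, E i (P i x)) / k ≤ 4 * t := by
      linarith [mul_le_of_le_one_right (exp_pos (-(L / 3))).le a3]
    rw [div_le_iff₀ k0] at a5
    simp only [Fin.is_lt, dif_pos, Fin.eta]
    refine le_of_mul_le_mul_left (a4.trans ?_) k0
    nlinarith [mul_le_mul_of_nonneg_left a5 e0.le, mul_le_mul_of_nonneg_left tθ (mul_pos k0 e0).le,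
      mul_pos (mul_pos k0 e0) t0]

end Pool.Agent.P.MP_0354a7_al
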