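import Pool.Agent.P.MP_0354a7_al.PF.Avg
import Pool.Agent.P.MP_0354a7_al.PF.Block
import Pool.Agent.P.MP_0354a7_al.LinkBr
import Pool.Agent.P.MP_0354a7_al.Chain

/-!
The sequence of stages.
-/

namespace Pool.Agent.P.MP_0354a7_al

open Real Finset

theorem T_seq {α : Type} {P : ℕ → α → Prop} {R : ℕ → α → α → Prop} {x : α} (h0 : P 0 x)
    (h : ∀ n y, P n y → ∃ z, P (n + 1) z ∧ R n y z) :
    ∃ f : ℕ → α, f 0 = x ∧ ∀ n, P n (f n) ∧ R n (f n) (f (n + 1)) := by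
  choose g g1 g2 using h
  let f : ∀ n, {y // P n y} := fun n => Nat.rec ⟨x, h0⟩ (fun n y => ⟨g n y.1 y.2, g1 n y.1 y.2⟩) n
  exact ⟨fun n => (f n).1, rfl, fun n => ⟨(f n).2, g2 n _ (f n).2⟩⟩

theorem T_link_mono {ε ε' τ : ℝ} {F F' : Equiv.Perm ℝ} (h : Link ε τ F F') (hε : ε ≤ ε') :
    Link ε' τ F F' := by
  obtain ⟨A, G, k, s, s1, s2, h1, h2, h3, h4, h5, h6, h7, h8, h9, h10, h11, hb⟩ := h
  refine ⟨A, G, k, s, s1, s2, h1, h2, h3, h4, h5, h6, h7, h8, h9, h10, h11, fun x => ?_⟩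
  obtain ⟨b1, b2, b3, b4, b5, b6, b7⟩ := hb x
  exact ⟨b1.trans hε, b2.trans hε, b3.trans hε, b4.trans hε, b5.trans hε, b6.trans hε, b7⟩

theorem T_link_reg {ε τ : ℝ} {F F' : Equiv.Perm ℝ} (h : Link ε τ F F') :
    0 ≤ ε ∧ IsReg F ∧ Per F := by
  obtain ⟨A, G, k, s, s1, s2, h1, h2, h3, h4, rfl, -, -, -, -, -, -, hb⟩ := h
  exact ⟨(abs_nonneg _).trans (hb 0).1, h1.mul h2, h3.mul h4⟩

theorem T_mono {ε ε' : ℝ} {n : ℕ} {F F' : Equiv.Perm ℝ} (h : Links ε n F F') (hε : ε ≤ ε') :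
    Links ε' n F F' := by
  obtain ⟨G, h0, h1, h2⟩ := h
  exact ⟨G, h0, h1, fun j hj => (h2 j hj).imp fun τ h => ⟨h.1, h.2.1, T_link_mono h.2.2 hε⟩⟩

theorem T_trans {ε : ℝ} {n m : ℕ} {F F' F'' : Equiv.Perm ℝ} (h : Links ε n F F')
    (h' : Links ε m F' F'') : Links ε (n + m) F F'' := by
  obtain ⟨G, h0, h1, h2⟩ := h
  obtain ⟨G', h0', h1', h2'⟩ := h'
  have e : ∀ j, n ≤ j → (if j ≤ n then G j else G' (j - n)) = G' (j - n) := fun j hj => by
    split_ifs with hc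
    · obtain rfl : j = n := by omega
      rw [h1, Nat.sub_self, h0']
    · rfl
  refine ⟨fun j => if j ≤ n then G j else G' (j - n), by simp [h0], ?_, fun j hj => ?_⟩
  · exact (e _ (Nat.le_add_right n m)).trans (by rw [Nat.add_sub_cancel_left, h1'])
  · rcases lt_or_ge j n with hc | hc
    · simp only [if_pos hc.le, if_pos (Nat.succ_le_of_lt hc)]
      exact h2 j hc
    · have := h2' (j - n) (by omega)
      rwa [show j - n + 1 = j + 1 - n by omega, ← e j hc, ← e (j + 1) (by omega)] at this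

theorem T_br : ∃ C : ℝ, 1 ≤ C ∧ ∀ (ε L : ℝ) (n : ℕ) (F F' : Equiv.Perm ℝ), Links ε (n + 1) F F' →
    C * ε ≤ 1 → C ≤ L →
    Br F F' ((n + 1 : ℕ) * (L + C)) (C * (ε + 1 / L)) (C * (ε + 1 / L ^ 2)) := by
  obtain ⟨C, C1, hC⟩ := link_br
  refine ⟨C, C1, fun ε L n F F' ⟨G, h0, h1, h2⟩ hε hL => ?_⟩
  have L0 : 0 < L := by linarith
  have one : ∀ j, j < n + 1 →
      Br (G j) (G (j + 1)) (L + C) (C * (ε + 1 / L)) (C * (ε + 1 / L ^ 2)) := fun j hj => by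
    obtain ⟨τ, t0, t1, l⟩ := h2 j hj
    exact (hC ε τ L _ _ l t0 t1 hε hL).mono le_rfl (by gcongr) (by gcongr)
  have key : ∀ j, j < n + 1 →
      Br (G 0) (G (j + 1)) ((j + 1 : ℕ) * (L + C)) (C * (ε + 1 / L)) (C * (ε + 1 / L ^ 2)) := by
    intro j
    induction j with
    | zero => intro hj; simpa using one 0 hj
    | succ j ih =>
      intro hj
      obtain ⟨τ, -, -, l⟩ := h2 _ hj
      obtain ⟨-, r, p⟩ := T_link_reg l
      refine ((ih (by omega)).trans (one _ hj) r p (by positivity) (by positivity)).mono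
        (le_of_eq ?_) le_rfl le_rfl
      push_cast
      ring
  rw [← h0, ← h1]
  exact key n (by omega)

theorem T_avg : ∃ C : ℝ, 1 ≤ C ∧ ∀ (ε D : ℝ) (F : Equiv.Perm ℝ), Good ε F → (∀ x, |F x - x| ≤ D) →
    2 * C * ε ≤ 1 → ∀ n : ℕ, 4 * n * ε ≤ 1 → D + n * (2 * C * ε) ≤ 1 / 2 →
    ∃ F', Links (2 * C * ε) n F F' ∧ Good (ε * exp (2 * ε * n)) F' ∧
      (∫ x in (0 : ℝ)..1, nl F' x ^ 2) ≤ (3 / 4) ^ n * ε ^ 2 ∧
      ∀ x, |F' x - x| ≤ D + n * (2 * C * ε) := by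
  obtain ⟨C, C1, hC⟩ := avg_link
  refine ⟨C, C1, fun ε D F h hD hε n => ?_⟩
  have ε0 := h.nonneg
  induction n with
  | zero =>
    intro _ _
    refine ⟨F, ⟨fun _ => F, rfl, rfl, fun j hj => by omega⟩, by simpa using h, ?_, by simpa using hD⟩
    have := intervalIntegral.integral_mono_on zero_le_one
      (((cp_nl h.1 h.2.1).1.pow 2).intervalIntegrable 0 1)
      (intervalIntegrable_const (μ := MeasureTheory.volume) (c := ε ^ 2))
      fun x _ => sq_le_sq' (neg_le_of_abs_le (h.2.2 x)) (le_of_abs_le (h.2.2 x))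
    simpa using this
  | succ n ih =>
    intro h1 h2
    push_cast at h1 h2 ⊢
    have c0 : 0 ≤ 2 * C * ε := by positivity
    obtain ⟨F', l, g, i, d⟩ := ih (by nlinarith) (by nlinarith)
    have e2 : exp (2 * ε * n) ≤ 2 := by
      have := abs_exp_sub_one (u := 2 * ε * n) (C := 1 / 2)
        (by rw [abs_of_nonneg (by positivity)]; nlinarith) (by norm_num)
      linarith [le_of_abs_le this]
    have e3 : ε * exp (2 * ε * n) ≤ 2 * ε := by nlinarith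
    have e4 : C * (ε * exp (2 * ε * n)) ≤ 2 * C * ε := by nlinarith
    obtain ⟨F'', l', g', i', d'⟩ := hC _ _ F' g (by linarith) d (by nlinarith)
    refine ⟨F'', T_trans l (T_mono l' e4), g'.mono ?_, i'.trans ?_, fun x => (d' x).trans ?_⟩
    · rw [mul_assoc, ← exp_add]
      gcongr
      linarith
    · rw [pow_succ]
      linarith
    · linarith

theorem T_sq (j : ℕ) : ((j : ℝ) + 1) ^ 2 ≤ 49 * (4 / 3) ^ j := by
  have a := one_add_mul_le_pow (show (-2 : ℝ) ≤ 1 / 7 by norm_num) j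
  have b : (j : ℝ) + 1 ≤ 7 * (1 + 1 / 7) ^ j := by linarith
  calc _ ≤ (7 * (1 + 1 / 7 : ℝ) ^ j) ^ 2 := by gcongr
    _ = 49 * ((1 + 1 / 7 : ℝ) ^ 2) ^ j := by rw [mul_pow, ← pow_mul, ← pow_mul, mul_comm j]; norm_num
    _ ≤ _ := by gcongr; norm_num

/-- One stage. -/
theorem T_stage : ∃ (k : ℕ) (C : ℝ) (M₀ N₀ : ℕ), 1 ≤ C ∧ ∀ (m : ℕ) (ε D : ℝ) (F : Equiv.Perm ℝ),
    M₀ ≤ m → 0 < ε → Good ε F → (∀ x, |F x - x| ≤ D) →
    D + C * ((N₀ * m ^ 2 + 2 : ℕ) * ε) ≤ 1 / 2 →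
    ∃ F', Links (C * (ε + (1 / 2) ^ m)) (N₀ * m ^ 2 + k + 1) F F' ∧ Good (ε / 4) F' ∧
      ∀ x, |F' x - x| ≤ D + C * ((N₀ * m ^ 2 + 2 : ℕ) * ε) := by
  obtain ⟨A, A1, hA⟩ := T_avg
  obtain ⟨k, B, M₀, N₀, B1, hB⟩ := block
  refine ⟨k, 2 * (A + B), M₀, 5 * N₀, by linarith, fun m ε D F hm ε0 g d h => ?_⟩
  have D0 : 0 ≤ D := (abs_nonneg _).trans (d 0)
  set n := 5 * N₀ * m ^ 2 + 1 with hn
  have e : ((5 * N₀ * m ^ 2 + 2 : ℕ) : ℝ) = n + 1 := by rw [hn]; push_cast; ring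
  rw [e] at h ⊢
  have n0 : (0 : ℝ) ≤ n * ε := by positivity
  have p1 : 0 ≤ (A - 1) * (n * ε) := mul_nonneg (by linarith) n0
  have p2 : 0 ≤ (B - 1) * (n * ε) := mul_nonneg (by linarith) n0
  have p3 : 0 ≤ (A - 1) * ε := mul_nonneg (by linarith) ε0.le
  have p4 : 0 ≤ (B - 1) * ε := mul_nonneg (by linarith) ε0.le
  obtain ⟨F', l, g', i, d'⟩ := hA ε D F g d (by nlinarith) n (by nlinarith) (by nlinarith)
  have e2 : exp (2 * ε * n) ≤ 2 := by
    have := abs_exp_sub_one (u := 2 * ε * n) (C := 1 / 2)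
      (by rw [abs_of_nonneg (by positivity)]; nlinarith) (by norm_num)
    linarith [le_of_abs_le this]
  obtain ⟨F'', l', g'', d''⟩ := hB m (2 * ε) _ F' hm (by linarith) (g'.mono (by nlinarith))
    (by nlinarith) d' (by nlinarith) (i.trans (by
      have a : ((3 : ℝ) / 4) ^ n ≤ ((1 / 2) ^ (N₀ * m ^ 2)) ^ 2 := by
        calc ((3 : ℝ) / 4) ^ n ≤ (3 / 4) ^ (5 * (N₀ * m ^ 2)) :=
              pow_le_pow_of_le_one (by norm_num) (by norm_num) (by rw [hn, mul_assoc]; omega)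
          _ = ((3 / 4) ^ 5) ^ (N₀ * m ^ 2) := pow_mul _ _ _
          _ ≤ ((1 / 2) ^ 2) ^ (N₀ * m ^ 2) := by gcongr; norm_num
          _ = _ := by rw [← pow_mul, ← pow_mul, mul_comm]
      rw [mul_pow, mul_comm]
      gcongr
      linarith))
  have q : (0 : ℝ) < (1 / 2) ^ m := by positivity
  refine ⟨F'', ?_, g''.mono (by linarith), fun x => (d'' x).trans (by nlinarith)⟩
  rw [add_right_comm]
  exact T_trans (T_mono l (by nlinarith)) (T_mono l' (by nlinarith))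

theorem core' : Core' := by
  obtain ⟨k, C, M₀, N₀, C1, hC⟩ := T_stage
  obtain ⟨K, K1, hK⟩ := T_br
  obtain ⟨M, M1, M2⟩ : ∃ M, M₀ ≤ M ∧ (1 / 2 : ℝ) ^ M ≤ 1 / (2 * K * C) :=
    ((Filter.eventually_ge_atTop M₀).and
      ((tendsto_pow_atTop_nhds_zero_of_lt_one (by norm_num) (by norm_num)).eventually
        (eventually_le_nhds (by positivity)))).exists
  set B : ℝ := 49 * (N₀ * (M + 2) ^ 2 + k + 2) with hB
  have B1 : 1 ≤ B := by
    have : (0 : ℝ) ≤ N₀ * (M + 2) ^ 2 + k := by positivity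
    linarith
  have nB : ∀ j : ℕ, ((N₀ * (M + 2 * j) ^ 2 + k + 2 : ℕ) : ℝ) ≤ B * (4 / 3) ^ j := fun j => by
    have a := T_sq j
    have j0 : (0 : ℝ) ≤ j := by positivity
    have b : ((M : ℝ) + 2 * j) ^ 2 ≤ (M + 2) ^ 2 * (j + 1) ^ 2 := by
      rw [← mul_pow]
      gcongr
      nlinarith [(by positivity : (0 : ℝ) ≤ M * j)]
    have c : (1 : ℝ) ≤ (j + 1) ^ 2 := one_le_pow₀ (by linarith)
    push_cast
    calc _ ≤ N₀ * ((M + 2) ^ 2 * (j + 1) ^ 2) + ((k : ℝ) + 2) * (j + 1) ^ 2 := by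
          rw [add_assoc]
          gcongr
          exact le_mul_of_one_le_right (by positivity) c
      _ = (N₀ * (M + 2) ^ 2 + k + 2) * ((j : ℝ) + 1) ^ 2 := by ring
      _ ≤ (N₀ * (M + 2) ^ 2 + k + 2) * (49 * (4 / 3) ^ j) := by gcongr
      _ = _ := by rw [hB]; ring
  set ε₀ := 1 / (8 * K * C * B) with hε
  have ε0 : 0 < ε₀ := by positivity
  have ε1 : 8 * K * C * B * ε₀ = 1 := by rw [hε]; field_simp
  have ε2 : C * B * ε₀ ≤ 1 / 8 := by
    nlinarith [mul_nonneg (sub_nonneg.2 K1) (show 0 ≤ C * B * ε₀ by positivity)]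
  have ε3 : K * C * ε₀ ≤ 1 / 8 := by
    nlinarith [mul_nonneg (sub_nonneg.2 B1) (show 0 ≤ K * C * ε₀ by positivity)]
  have ε4 : ε₀ ≤ 1 / 8 := by
    have : 1 ≤ C * B := one_le_mul_of_one_le_of_one_le C1 B1
    nlinarith
  refine ⟨ε₀, ε0, fun F f g h0 h1 h2 => ?_⟩
  set e : ℕ → ℝ := fun j => C * (ε₀ * (1 / 4) ^ j + (1 / 2) ^ (M + 2 * j)) with he
  have e1 : ∀ j, K * e j ≤ (1 / 4) ^ j := fun j => by
    have a : ((1 : ℝ) / 2) ^ (M + 2 * j) = (1 / 2) ^ M * (1 / 4) ^ j := by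
      rw [pow_add, pow_mul]; norm_num
    have b : K * C * (1 / 2) ^ M ≤ 1 / 2 := by
      refine (mul_le_mul_of_nonneg_left M2 (by positivity)).trans (le_of_eq ?_)
      field_simp
    have c : (0 : ℝ) < (1 / 4) ^ j := by positivity
    calc K * e j = (K * C * ε₀ + K * C * (1 / 2) ^ M) * (1 / 4) ^ j := by rw [he]; simp only [a]; ring
      _ ≤ 1 * (1 / 4) ^ j := by gcongr; linarith
      _ = _ := one_mul _
  have e0 : ∀ j, 0 ≤ e j := fun j => by rw [he]; positivity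
  obtain ⟨G, G0, hG⟩ := T_seq (x := F)
    (P := fun j G => Good (ε₀ * (1 / 4) ^ j) G ∧ ∀ x, |G x - x| ≤ 1 / 2 - 1 / 4 * (1 / 3) ^ j)
    (R := fun j G G' => Br G G' (2 * B * K * 2 ^ j) (K * (e j + 1 / (K * (3 / 2) ^ j)))
      (K * (e j + 1 / (K * (3 / 2) ^ j) ^ 2)))
    ⟨by simpa using g, fun x => by
      have := A1_disp g (by linarith) (h0 0 (by simp)) x
      rw [pow_zero]
      linarith⟩
    (fun j G ⟨gG, dG⟩ => by
      have a : C * ((N₀ * (M + 2 * j) ^ 2 + 2 : ℕ) * (ε₀ * (1 / 4) ^ j)) ≤ 1 / 8 * (1 / 3) ^ j := by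
        have b : ((N₀ * (M + 2 * j) ^ 2 + 2 : ℕ) : ℝ) ≤ B * (4 / 3) ^ j :=
          le_trans (by exact_mod_cast (by omega)) (nB j)
        calc _ ≤ C * (B * (4 / 3) ^ j * (ε₀ * (1 / 4) ^ j)) := by gcongr
          _ = C * B * ε₀ * ((4 / 3) ^ j * (1 / 4) ^ j) := by ring
          _ = C * B * ε₀ * (1 / 3) ^ j := by rw [← mul_pow]; norm_num
          _ ≤ _ := by gcongr
      have p : (0 : ℝ) < (1 / 3) ^ j := by positivity
      obtain ⟨G', l, g', d'⟩ := hC (M + 2 * j) _ _ G (by omega) (by positivity) gG dG (by linarith)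
      have q : (1 : ℝ) ≤ (3 / 2) ^ j := one_le_pow₀ (by norm_num)
      have r : K ≤ K * (3 / 2) ^ j := le_mul_of_one_le_right (by linarith) q
      refine ⟨G', ⟨g'.mono (le_of_eq (by ring)), fun x => (d' x).trans (by rw [pow_succ _ j]; linarith)⟩,
        (hK (e j) (K * (3 / 2) ^ j) _ G G' l
          ((e1 j).trans (pow_le_one₀ (by norm_num) (by norm_num))) r).mono ?_ le_rfl le_rfl⟩
      have b : ((N₀ * (M + 2 * j) ^ 2 + k + 1 : ℕ) : ℝ) ≤ B * (4 / 3) ^ j :=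
        le_trans (by exact_mod_cast (by omega)) (nB j)
      calc _ ≤ B * (4 / 3) ^ j * (K * (3 / 2) ^ j + K * (3 / 2) ^ j) := by gcongr
        _ = 2 * B * K * ((4 / 3) ^ j * (3 / 2) ^ j) := by ring
        _ = _ := by rw [← mul_pow]; norm_num)
  refine chain G (2 * B * K) _ _ (by nlinarith) (fun j => (hG j).1.1.1) (fun j => (hG j).1.1.2.1)
    (fun j => (hG j).2) ?_ (by rwa [G0]) f (by rwa [G0]) h2
  refine Summable.of_nonneg_of_le (fun j => by have := e0 j; positivity) (fun j => ?_)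
    ((summable_geometric_of_lt_one (r := (8 / 9 : ℝ)) (by norm_num) (by norm_num)).mul_left 6)
  set u : ℝ := (2 / 3) ^ j with hu
  have u0 : 0 < u := by positivity
  have a1 : K * (e j + 1 / (K * (3 / 2) ^ j)) = K * e j + u := by
    rw [hu, div_pow, div_pow]
    field_simp
  have a2 : K * (e j + 1 / (K * (3 / 2) ^ j) ^ 2) = K * e j + u ^ 2 / K := by
    rw [hu, div_pow, div_pow]
    field_simp
  have a3 : u ^ 2 / K ≤ u ^ 2 := div_le_self (by positivity) K1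
  have a4 : u ^ 2 = (4 / 9) ^ j := by rw [hu, ← pow_mul, mul_comm, pow_mul]; norm_num
  have a5 : K * e j ≤ u ^ 2 := by
    rw [a4]
    exact (e1 j).trans (pow_le_pow_left₀ (by norm_num) (by norm_num) j)
  have a6 : u ≤ 1 := pow_le_one₀ (by norm_num) (by norm_num)
  have a7 : 0 ≤ K * e j := mul_nonneg (by linarith) (e0 j)
  have a8 : (K * e j + u) ^ 2 ≤ (2 * u) ^ 2 := by
    gcongr
    nlinarith
  have a9 : (8 / 9 : ℝ) ^ j = 2 ^ j * u ^ 2 := by rw [a4, ← mul_pow]; norm_num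
  rw [a1, a2, a9]
  calc _ ≤ 2 ^ j * ((2 * u) ^ 2 + (u ^ 2 + u ^ 2)) := by gcongr
    _ = _ := by ring

end Pool.Agent.P.MP_0354a7_al
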