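import Pool.Agent.P.MP_0354a7_al.PF.Defs

/-!
How one window coefficient acts on the alignment maps.
-/

namespace Pool.Agent.P.MP_0354a7_al

open Real Finset Function

variable {k n : ℕ} {κ r : ℝ} {S : ℕ → Equiv.Perm ℝ} {u : (Fin k × Fin n → ℝ) → ℕ → Equiv.Perm ℝ}

theorem bd_update {α : Type} [DecidableEq α] {c : α → ℝ} (hc : ∀ p, |c p| ≤ r) (q : α) {s : ℝ}
    (hs : |s| ≤ r) (p : α) : |update c q s p| ≤ r := by
  rcases eq_or_ne p q with rfl | h
  · rwa [update_self]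
  · rw [update_of_ne h]; exact hc p

theorem Fam.good (hF : Fam k n κ r S u) (h0 : 0 ≤ κ) (hκ : 400 * k * κ ≤ 1)
    {c : Fin k × Fin n → ℝ} (hc : ∀ p, |c p| ≤ r) {j : ℕ} (hj : j ≤ k) :
    Good (1 / 100) (PP S (u c) j) :=
  (PP_good hF.hS (hF.hu c hc) h0 hκ j hj).mono (by linarith)

theorem Fam.close (hF : Fam k n κ r S u) (h0 : 0 ≤ κ) (hκ : 400 * k * κ ≤ 1) (hr0 : 0 ≤ r)
    {c : Fin k × Fin n → ℝ} (hc : ∀ p, |c p| ≤ r) {j : ℕ} (hj : j ≤ k) (x : ℝ) :
    |PP S (u c) j x - PP S (u 0) j x| ≤ 15 * k * r := by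
  have := PP_close (S' := S) (u' := u 0) (a := 0) (b := 5 * r) hF.hS (hF.hu c hc) h0 hκ le_rfl
    (by linarith) (fun i _ x => by simp) (hF.near c hc) j hj x
  linarith

theorem Fam.window (hF : Fam k n κ r S u) (h0 : 0 ≤ κ) (hκ : 400 * k * κ ≤ 1) (hn : 0 < n)
    (hr0 : 0 ≤ r) (hr : 1000 * k * r * n ≤ 1) (i : Fin k) (x₀ : ℝ) :
    ∃ W : Fin n, ∀ c : Fin k × Fin n → ℝ, (∀ p, |c p| ≤ r) → ∀ s, |s| ≤ r →
      (∀ j, j ≤ (i : ℕ) → PP S (u (update c (i, W) s)) j = PP S (u (update c (i, W) 0)) j) ∧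
      (∀ x, 4 / (n : ℝ) ≤ nz (x - x₀) → ∀ j, j ≤ k →
        Loc (PP S (u (update c (i, W) s)) j) (PP S (u (update c (i, W) 0)) j) x) ∧
      ∀ x, nz (x - x₀) ≤ 1 / (5 * (n : ℝ)) →
        Loc (PP S (u (update c (i, W) s)) (i + 1))
          ((S i)⁻¹ * tr s * u (update c (i, W) 0) i * S i * PP S (u (update c (i, W) 0)) i) x := by
  obtain ⟨W, hW⟩ := exists_near n hn (S i (PP S (u 0) i x₀))
  refine ⟨W, fun c hc s hs => ?_⟩
  have hn' : (0 : ℝ) < n := by exact_mod_cast hn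
  have hk : (1 : ℝ) ≤ k := by exact_mod_cast i.pos
  have b0 := bd_update hc (i, W) (show |(0 : ℝ)| ≤ r by simpa using hr0)
  have bs := bd_update hc (i, W) hs
  have oth : ∀ j, j ≠ (i : ℕ) → u (update c (i, W) s) j = u (update c (i, W) 0) j := fun j hj => by
    rw [hF.other c i W s j hj, hF.other c i W 0 j hj]
  have a : ∀ j, j ≤ (i : ℕ) → PP S (u (update c (i, W) s)) j = PP S (u (update c (i, W) 0)) j :=
    fun j hj => pu_congr j fun j' hj' => by rw [oth j' (by omega)]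
  have gS := hF.hS i i.2
  have gP := hF.good h0 hκ b0 i.2.le
  have eκ : exp κ ≤ 101 / 100 := by
    have := exp_small h0 (by nlinarith)
    nlinarith
  have e1 : exp (1 / 100 : ℝ) ≤ 102 / 100 := by
    have := exp_small (t := 1 / 100) (by norm_num) (by norm_num)
    linarith
  set Q := PP S (u (update c (i, W) 0)) i with hQ
  have i1 : 0 < 1 / (n : ℝ) := by positivity
  have c0 : nz (S i (Q x₀) - S i (PP S (u 0) i x₀)) ≤ 1 / 50 * (1 / n) := by
    have h1 := gS.lip (Q x₀) (PP S (u 0) i x₀)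
    have h2 := hF.close h0 hκ hr0 b0 i.2.le x₀
    have h3 : 1000 * k * r ≤ 1 / n := by rw [le_div_iff₀ hn']; exact hr
    have h4 : exp κ * |Q x₀ - PP S (u 0) i x₀| ≤ 101 / 100 * (15 * k * r) :=
      mul_le_mul eκ h2 (abs_nonneg _) (by norm_num)
    linarith [nz_le_abs (S i (Q x₀) - S i (PP S (u 0) i x₀))]
  have hW' : nz (S i (PP S (u 0) i x₀) - (W : ℕ) / n) ≤ 1 / 2 * (1 / n) := by
    rwa [one_div_mul_one_div]
  have cz : Continuous fun z : ℝ => nz (z - (W : ℕ) / n) := continuous_nz.comp (by fun_prop)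
  have step : ∀ (v : Equiv.Perm ℝ) (x : ℝ), Loc (u (update c (i, W) s) i) v (S i (Q x)) →
      Loc (PP S (u (update c (i, W) s)) (i + 1)) ((S i)⁻¹ * v * S i * Q) x := fun v x h => by
    have e : PP S (u (update c (i, W) s)) (i + 1)
        = (S i)⁻¹ * (u (update c (i, W) s) i * (S i * Q)) := by
      rw [hQ, ← a i le_rfl]
      simp only [PP, pu, mul_assoc]
    rw [e, mul_assoc, mul_assoc]
    exact (Loc.rfl' _ _).mul (Loc.mul h (Loc.rfl' _ _) (gS.1.mul gP.1))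
      ((hF.hu _ bs i i.2).1.mul (gS.1.mul gP.1))
  refine ⟨a, fun x hx => ?_, fun x hx => ?_⟩
  · have h1 := gP.nz_le_lip x x₀
    have h2 := gS.nz_le_lip (Q x) (Q x₀)
    have h3 := nz_tri (S i (Q x)) ((W : ℕ) / n) (S i (Q x₀))
    have h4 := nz_tri (S i (Q x₀)) (S i (PP S (u 0) i x₀)) ((W : ℕ) / n)
    rw [nz_sub_comm ((W : ℕ) / n : ℝ)] at h3
    have h5 := mul_le_mul_of_nonneg_right e1 (nz_nonneg (Q x - Q x₀))
    have h6 := mul_le_mul_of_nonneg_right eκ (nz_nonneg (S i (Q x) - S i (Q x₀)))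
    have h7 : 2 / (n : ℝ) < nz (S i (Q x) - (W : ℕ) / n) := by
      rw [div_eq_mul_one_div] at hx ⊢
      linarith
    have l1 : Loc (u (update c (i, W) s) i) (u (update c (i, W) 0) i) (S i (Q x)) := by
      filter_upwards [cz.continuousAt.eventually (lt_mem_nhds h7)] with z hz
      exact hF.far c hc i W s hs z hz.le
    intro j hj
    induction j with
    | zero => exact Loc.rfl' _ _
    | succ j ih =>
      rcases eq_or_ne j i with rfl | hji
      · exact step _ x l1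
      · have e : ∀ d : Fin k × Fin n → ℝ, PP S (u d) (j + 1) = ((S j)⁻¹ * u d j * S j) * PP S (u d) j :=
          fun d => rfl
        rw [e, e, oth j hji]
        exact (Loc.rfl' _ _).mul (ih (by omega)) (hF.good h0 hκ bs (by omega)).1
  · have h1 := gP.nz_lip x x₀
    have h2 := gS.nz_lip (Q x) (Q x₀)
    have h3 := nz_tri (S i (Q x)) (S i (Q x₀)) ((W : ℕ) / n)
    have h4 := nz_tri (S i (Q x₀)) (S i (PP S (u 0) i x₀)) ((W : ℕ) / n)
    have h5 := mul_le_mul_of_nonneg_right e1 (nz_nonneg (x - x₀))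
    have h6 := mul_le_mul_of_nonneg_right eκ (nz_nonneg (Q x - Q x₀))
    have h7 : nz (S i (Q x) - (W : ℕ) / n) < 1 / (n : ℝ) := by
      rw [← one_div_mul_one_div] at hx
      linarith
    have l1 : Loc (u (update c (i, W) s) i) (tr s * u (update c (i, W) 0) i) (S i (Q x)) := by
      filter_upwards [cz.continuousAt.eventually (gt_mem_nhds h7)] with z hz
      exact hF.plat c hc i W s hs z hz.le
    have := step _ x l1
    rwa [← mul_assoc] at this

end Pool.Agent.P.MP_0354a7_al
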